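import Pool.Agent.T2H33.K5.Def

/-! Semantics of the blocks of the table. -/

set_option autoImplicit false
set_option maxRecDepth 100000
set_option exponentiation.threshold 200000
open Finset

namespace Pool.Agent.T2H33.K5

noncomputable section

theorem enc_const_succ (s n c : ℕ) : d2 (s * 2 ^ n) (enc s n (fun _ => c)) = enc s (n + 1) (fun _ => c) := enc_rep s n _

theorem rep6 (s c : ℕ) : d2 (s * 32) (d2 (s * 16) (d2 (s * 8) (d2 (s * 4) (d2 (s * 2) (d2 (s * 1) c))))) =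
    enc s 6 (fun _ => c) := by
  have h0 : c = enc s 0 (fun _ => c) := (enc_zero s (fun _ => c)).symm
  have h1 : d2 (s * 1) c = enc s 1 (fun _ => c) := (congrArg (d2 (s * 1)) h0).trans (enc_const_succ s 0 c)
  have h2 : d2 (s * 2) (d2 (s * 1) c) = enc s 2 (fun _ => c) := (congrArg (d2 (s * 2)) h1).trans (enc_const_succ s 1 c)
  have h3 := (congrArg (d2 (s * 4)) h2).trans (enc_const_succ s 2 c)
  have h4 := (congrArg (d2 (s * 8)) h3).trans (enc_const_succ s 3 c)
  have h5 := (congrArg (d2 (s * 16)) h4).trans (enc_const_succ s 4 c)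
  exact (congrArg (d2 (s * 32)) h5).trans (enc_const_succ s 5 c)

theorem ON25_eq : ON25 = 2 ^ 25 - 1 := by decide +kernel
theorem MK64_eq : MK64 = enc 1600 6 (fun _ => ON25) := rep6 1600 ON25
theorem ONS64_eq : ONS64 = enc 1600 6 (fun _ => 1) := rep6 1600 1
theorem ON64_eq : ON64 = enc 25 6 (fun _ => 1) := rep6 25 1

theorem sbk_ok : al 64 (fun k => st (fun k => Nat.blt (sbk k) (Nat.pow 2 102400)) k) = true := by decide +kernel

theorem sbk_lt {k : ℕ} (hk : k < 64) : sbk k < 2 ^ (1600 * 2 ^ 6) := by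
  have h := al_true sbk_ok hk
  rw [st_eq] at h
  exact Nat.le_of_ble_eq_true h

theorem pk_self {n x : ℕ} (h : x < 2 ^ n) : pk n (fun k => bt k x) = x := by
  induction n generalizing x with
  | zero => simp only [pow_zero, Nat.lt_one_iff] at h; subst h; simp [pk]
  | succ n ih =>
    rw [pk_succ]
    have hd : x % 2 ^ n < 2 ^ n := Nat.mod_lt _ (by positivity)
    have e1 : pk n (fun k => bt k x) = pk n (fun k => bt k (x % 2 ^ n)) := pk_congr fun k hk => by
      rw [bt_eq, bt_eq]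
      obtain ⟨r, rfl⟩ : ∃ r, n = k + (r + 1) := ⟨n - k - 1, by omega⟩
      rw [pow_add, Nat.mod_mul_right_div_self, pow_succ', Nat.mod_mul_right_mod]
    rw [e1, ih hd, bt_eq]
    have h2 : x / 2 ^ n < 2 := Nat.div_lt_of_lt_mul (by rw [← pow_succ]; exact h)
    rw [Nat.mod_eq_of_lt h2, mul_comm]
    exact Nat.mod_add_div x (2 ^ n)

theorem bt_lt_two (k x : ℕ) : bt k x < 2 := by rcases bt01 k x with h | h <;> omega

/-- transposition of the index -/
theorem tr_ix {l q : ℕ} (hl : l < 64) (hq : q < 64) :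
    sb 0 6 (sb 1 7 (sb 2 8 (sb 3 9 (sb 4 10 (sb 5 11 (64 * l + q)))))) = 64 * q + l := by
  have hb : ∀ k, (fun k => if k < 6 then bt k q else bt (k - 6) l) k < 2 := fun k => by
    show (if k < 6 then bt k q else bt (k - 6) l) < 2
    split_ifs <;> exact bt_lt_two _ _
  have e1 : 64 * l + q = pk 12 (fun k => if k < 6 then bt k q else bt (k - 6) l) := by
    rw [show (12 : ℕ) = 6 + 6 from rfl, pk_add]
    rw [pk_congr (n := 6) (g := fun k => bt k q) (fun k hk => if_pos hk), pk_self (n := 6) hq]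
    rw [pk_congr (n := 6) (g := fun k => bt k l) (fun k hk => by
      show (if 6 + k < 6 then bt (6 + k) q else bt (6 + k - 6) l) = _
      rw [if_neg (by omega), Nat.add_sub_cancel_left]), pk_self (n := 6) hl]
    omega
  have e2 : 64 * q + l = pk 12 (fun k => if k < 6 then bt k l else bt (k - 6) q) := by
    rw [show (12 : ℕ) = 6 + 6 from rfl, pk_add]
    rw [pk_congr (n := 6) (g := fun k => bt k l) (fun k hk => if_pos hk), pk_self (n := 6) hl]
    rw [pk_congr (n := 6) (g := fun k => bt k q) (fun k hk => by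
      show (if 6 + k < 6 then bt (6 + k) l else bt (6 + k - 6) q) = _
      rw [if_neg (by omega), Nat.add_sub_cancel_left]), pk_self (n := 6) hq]
    omega
  rw [e1, e2]
  repeat rw [sb_pk (by norm_num) (by norm_num) (fun k _ => hb _)]
  refine pk_congr fun k hk => ?_
  interval_cases k <;> simp [sp]

theorem swp12 {p q : ℕ} (hpq : p < q) (hq : q < 12) {f : ℕ → ℕ} (hf : ∀ i < 2 ^ 12, f i < 2 ^ 25) :
    swp 25 12 p q (enc 25 12 f) = enc 25 12 (fun i => f (sb p q i)) ∧ ∀ i < 2 ^ 12, f (sb p q i) < 2 ^ 25 :=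
  ⟨swp_enc (by norm_num) hpq hq hf, fun _ hi => hf _ (sb_lt hpq hq hi)⟩

theorem tr_eq {x : ℕ} (hx : x < 2 ^ (1600 * 2 ^ 6)) : tr x = enc 25 12 (fun i => fld 25 x (sb 0 6 (sb 1 7 (sb 2 8 (sb 3 9 (sb 4 10 (sb 5 11 i))))))) := by
  have h0 : enc 25 12 (fld 25 x) = x := enc_fld (by norm_num) (by
    refine lt_of_lt_of_le hx (Nat.pow_le_pow_right (by norm_num) ?_); norm_num)
  have hf : ∀ i < 2 ^ 12, fld 25 x i < 2 ^ 25 := fun i _ => fld_lt 25 x i
  have k0 := swp12 (p := 0) (q := 6) (by norm_num) (by norm_num) hf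
  have k1 := swp12 (p := 1) (q := 7) (by norm_num) (by norm_num) k0.2
  have k2 := swp12 (p := 2) (q := 8) (by norm_num) (by norm_num) k1.2
  have k3 := swp12 (p := 3) (q := 9) (by norm_num) (by norm_num) k2.2
  have k4 := swp12 (p := 4) (q := 10) (by norm_num) (by norm_num) k3.2
  have k5 := swp12 (p := 5) (q := 11) (by norm_num) (by norm_num) k4.2
  unfold tr
  conv_lhs => rw [← h0]
  rw [k0.1, k1.1, k2.1, k3.1, k4.1, k5.1]

theorem fld_tr {x : ℕ} (hx : x < 2 ^ (1600 * 2 ^ 6)) {l q : ℕ} (hl : l < 64) (hq : q < 64) :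
    fld 25 (tr x) (64 * l + q) = fld 25 x (64 * q + l) := by
  rw [tr_eq hx, fld_enc (by norm_num) (fun i _ => fld_lt _ _ _) (by norm_num; omega), tr_ix hl hq]

theorem tr_lt {x : ℕ} (hx : x < 2 ^ (1600 * 2 ^ 6)) : tr x < 2 ^ (1600 * 2 ^ 6) := by
  rw [tr_eq hx]
  refine lt_of_lt_of_le (enc_lt fun i _ => fld_lt _ _ _) (Nat.pow_le_pow_right (by norm_num) (by norm_num))

theorem kA_eq {x : ℕ} (hx : x < 2 ^ (1600 * 2 ^ 6)) {j : ℕ} (hj : j < 64) :
    kA x j = enc 1600 6 (fun p => fld 25 x (64 * p + j)) := by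
  unfold kA
  rw [MK64_eq, ON25_eq]
  have h := enc_sub (s := 25) (k := 6) (n := 6) (by norm_num) (R := fld 1600 x)
    (fun i _ => fld_lt 1600 x i) (j := j) hj
  have e : enc (25 * 2 ^ 6) 6 (fld 1600 x) = x := enc_fld (by norm_num) hx
  rw [e] at h
  refine Eq.trans h (enc_congr fun i _ => ?_)
  exact fld_fld (s := 25) (k := 6) x i j hj

theorem kB_eq (y : ℕ) (l : ℕ) : kB y l = enc 25 6 (fun q => fld 25 y (64 * l + q)) := by
  unfold kB
  have h : Nat.land (Nat.shiftRight y (Nat.mul 1600 l)) ON1600 = fld 1600 y l := land_ones y 1600 l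
  rw [h, ← enc_fld (s := 25) (n := 6) (N := fld 1600 y l) (by norm_num) (fld_lt 1600 y l)]
  exact enc_congr fun q hq => fld_fld (s := 25) (k := 6) y l q hq

/-- products of columns -/
theorem kAB {x y j l : ℕ} (hx : x < 2 ^ (1600 * 2 ^ 6)) (hj : j < 64) :
    Nat.mul (kA x j) (kB y l) = enc 25 12 (fun t => fld 25 x (64 * (t / 64) + j) * fld 25 y (64 * l + t % 64)) := by
  rw [kA_eq hx hj, kB_eq]
  exact enc_prod 25 6 _ _ 6

theorem OP_eq {x y j l : ℕ} (hx : x < 2 ^ (1600 * 2 ^ 6)) (hj : j + 4 < 64) :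
    OP x y j l = enc 25 12 (fun t =>
      fld 25 x (64 * (t / 64) + j) * fld 25 y (64 * l + t % 64) +
      (fld 25 x (64 * (t / 64) + (j + 1)) * fld 25 y (64 * (l + 1) + t % 64) +
      (fld 25 x (64 * (t / 64) + (j + 2)) * fld 25 y (64 * (l + 2) + t % 64) +
      (fld 25 x (64 * (t / 64) + (j + 3)) * fld 25 y (64 * (l + 3) + t % 64) +
      (fld 25 x (64 * (t / 64) + (j + 4)) + fld 25 y (64 * (l + 4) + t % 64)))))) := by
  have e4 : Nat.mul (kA x (Nat.add j 4)) ON64 = enc 25 12 (fun t => fld 25 x (64 * (t / 64) + (j + 4))) := by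
    rw [kA_eq hx (show Nat.add j 4 < 64 from hj), ON64_eq]
    exact (enc_prod 25 6 _ _ 6).trans (enc_congr fun i _ => mul_one _)
  have e5 : Nat.mul ONS64 (kB y (Nat.add l 4)) = enc 25 12 (fun t => fld 25 y (64 * (l + 4) + t % 64)) := by
    rw [kB_eq, ONS64_eq]
    exact (enc_prod 25 6 _ _ 6).trans (enc_congr fun i _ => one_mul _)
  unfold OP
  rw [e4, e5, kAB hx (show j < 64 by omega), kAB hx (show Nat.add j 1 < 64 from (by omega : j + 1 < 64)),
    kAB hx (show Nat.add j 2 < 64 from (by omega : j + 2 < 64)), kAB hx (show Nat.add j 3 < 64 from (by omega : j + 3 < 64))]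
  simp only [Nat.add_eq, enc_add]

/-- the code with given parts -/
def mx (g c h p : ℕ) : ℕ := p + 64 * h + 1024 * c + 16384 * g

theorem Td_eq (r m : ℕ) : Td r m = fld 25 (sbk (m / 512)) (r + (8 * (m / 64 % 8) + 64 * (m % 64))) := by
  unfold Td
  rw [ON25_eq]
  exact land_ones _ _ _

theorem Td_mx {g c h p r : ℕ} (hh : h < 16) (hp : p < 64) :
    fld 25 (sbk (bn g c h)) (64 * p + (cn h + r)) = Td r (mx g c h p) := by
  have h1 : mx g c h p / 512 = bn g c h := by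
    show (p + 64 * h + 1024 * c + 16384 * g) / 512 = h / 8 + (2 * c + 32 * g)
    omega
  have h2 : mx g c h p / 64 % 8 = h % 8 := by
    show (p + 64 * h + 1024 * c + 16384 * g) / 64 % 8 = h % 8
    omega
  have h3 : mx g c h p % 64 = p := by
    show (p + 64 * h + 1024 * c + 16384 * g) % 64 = p
    omega
  rw [Td_eq, h1, h2, h3]
  congr 1
  show 64 * p + (8 * (h % 8) + r) = r + (8 * (h % 8) + 64 * p)
  omega

theorem bn_lt {g c h : ℕ} (hg : g < 2) (hc : c < 16) (hh : h < 16) : bn g c h < 64 := by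
  show h / 8 + (2 * c + 32 * g) < 64
  omega

theorem cn_lt (h : ℕ) : cn h + 4 < 64 := by
  show 8 * (h % 8) + 4 < 64
  omega

theorem X1b_eq {g c h4 h5 : ℕ} (hg : g < 2) (hc : c < 16) (hh4 : h4 < 16) (hh5 : h5 < 16) :
    X1b g c h4 h5 = enc 25 12 (fun t => pv (mx g c h4 (t / 64)) (mx g c h5 (t % 64))) := by
  unfold X1b trk
  simp only [st_eq]
  rw [OP_eq (sbk_lt (bn_lt hg hc hh4)) (cn_lt h4)]
  refine enc_congr fun t ht => ?_
  have ht1 : t / 64 < 64 := by
    have : t < 4096 := ht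
    omega
  have ht2 : t % 64 < 64 := Nat.mod_lt _ (by norm_num)
  have hs := sbk_lt (bn_lt hg hc hh5)
  have hc5 := cn_lt h5
  rw [fld_tr hs (by omega) ht2, fld_tr hs (by omega) ht2, fld_tr hs (by omega) ht2, fld_tr hs (by omega) ht2,
    fld_tr hs (by omega) ht2]
  have z1 := Td_mx (g := g) (c := c) (r := 0) hh4 ht1
  have z2 := Td_mx (g := g) (c := c) (r := 0) hh5 ht2
  rw [Nat.add_zero] at z1 z2
  rw [z1, z2, Td_mx hh4 ht1, Td_mx hh4 ht1, Td_mx hh4 ht1, Td_mx hh4 ht1, Td_mx hh5 ht2, Td_mx hh5 ht2,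
    Td_mx hh5 ht2, Td_mx hh5 ht2]
  rfl

theorem prod1 (f : ℕ → ℕ) : Nat.mul (enc 1600 6 f) (enc 25 6 (fun _ => 1)) = enc 25 12 (fun t => f (t / 64)) :=
  (enc_prod 25 6 _ _ 6).trans (enc_congr fun _ _ => mul_one _)

theorem Ybr_eq {g h4 c m : ℕ} (hg : g < 2) (h4' : h4 < 16) (hc : c < 16) :
    Ybr g h4 c (Td 0 m) (Td 1 m) (Td 2 m) (Td 3 m) (Td 4 m) = enc 25 12 (fun t => pv m (mx g h4 c (t / 64))) := by
  have hx := sbk_lt (bn_lt hg h4' hc)
  have hj := cn_lt c
  have e0 : kA (sbk (bn g h4 c)) (cn c) = enc 1600 6 (fun p => Td 0 (mx g h4 c p)) :=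
    (kA_eq hx (show cn c < 64 by omega)).trans (enc_congr fun p hp => Td_mx (r := 0) hc hp)
  have e1 : kA (sbk (bn g h4 c)) (Nat.add (cn c) 1) = enc 1600 6 (fun p => Td 1 (mx g h4 c p)) :=
    (kA_eq hx (show Nat.add (cn c) 1 < 64 from (by omega : cn c + 1 < 64))).trans (enc_congr fun p hp => Td_mx (r := 1) hc hp)
  have e2 : kA (sbk (bn g h4 c)) (Nat.add (cn c) 2) = enc 1600 6 (fun p => Td 2 (mx g h4 c p)) :=
    (kA_eq hx (show Nat.add (cn c) 2 < 64 from (by omega : cn c + 2 < 64))).trans (enc_congr fun p hp => Td_mx (r := 2) hc hp)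
  have e3 : kA (sbk (bn g h4 c)) (Nat.add (cn c) 3) = enc 1600 6 (fun p => Td 3 (mx g h4 c p)) :=
    (kA_eq hx (show Nat.add (cn c) 3 < 64 from (by omega : cn c + 3 < 64))).trans (enc_congr fun p hp => Td_mx (r := 3) hc hp)
  have e4 : kA (sbk (bn g h4 c)) (Nat.add (cn c) 4) = enc 1600 6 (fun p => Td 4 (mx g h4 c p)) :=
    (kA_eq hx (show Nat.add (cn c) 4 < 64 from hj)).trans (enc_congr fun p hp => Td_mx (r := 4) hc hp)
  unfold Ybr
  simp only [st_eq]
  rw [e0, e1, e2, e3, e4, ONS64_eq, ON64_eq]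
  have m0 : ∀ (f : ℕ → ℕ) (a : ℕ), Nat.mul (enc 1600 6 f) a = enc 1600 6 (fun i => f i * a) := fun f a => enc_mulc _ _ _ _
  have a0 : ∀ f g : ℕ → ℕ, Nat.add (enc 1600 6 f) (enc 1600 6 g) = enc 1600 6 (fun i => f i + g i) := fun f g => enc_add _ _ _ _
  rw [m0, m0, m0, m0, m0, a0, a0, a0, a0, a0, prod1]
  refine enc_congr fun t ht => ?_
  unfold pv
  ring

theorem Yb_eq {m c : ℕ} (hm : m < 2 ^ 15) (hc : c < 16) :
    Yb m c = enc 25 12 (fun t => pv m (mx (m / 16384) (m / 1024 % 16) c (t / 64))) :=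
  Ybr_eq (g := m / 16384) (h4 := m / 1024 % 16) (Nat.div_lt_of_lt_mul hm) (Nat.mod_lt _ (by norm_num)) hc

end

end Pool.Agent.T2H33.K5
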