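import Pool.Agent.T2H33.K5.Def

/-! Exchanges of vertices. -/

set_option autoImplicit false
set_option maxRecDepth 100000
set_option linter.unusedSimpArgs false
open Finset

namespace Pool.Agent.T2H33.K5

noncomputable section

variable {V : Type} {E : V → V → V → V → ℕ}

theorem pc01_kk (hE : Sy E) (a b c d e f : V) : pc01 (kk E a b c d e f) = kk E b a c d e f := by
  unfold pc01 kk
  have hl : ∀ k, kb E a b c d e f k < 2 := kb_lt hE a b c d e f
  repeat rw [sb_pk (by norm_num) (by norm_num) (fun k _ => hl _)]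
  refine pk_congr fun k hk => ?_
  interval_cases k <;> simp [sp, kb, hE.s1, hE.s2, hE.s3]

theorem pc04_kk (hE : Sy E) (a b c d e f : V) : pc04 (kk E a b c d e f) = kk E e b c d a f := by
  unfold pc04 kk
  have hl : ∀ k, kb E a b c d e f k < 2 := kb_lt hE a b c d e f
  repeat rw [sb_pk (by norm_num) (by norm_num) (fun k _ => hl _)]
  refine pk_congr fun k hk => ?_
  interval_cases k <;> simp [sp, kb, hE.s1, hE.s2, hE.s3]

theorem pc05_kk (hE : Sy E) (a b c d e f : V) : pc05 (kk E a b c d e f) = kk E f b c d e a := by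
  unfold pc05 kk
  have hl : ∀ k, kb E a b c d e f k < 2 := kb_lt hE a b c d e f
  repeat rw [sb_pk (by norm_num) (by norm_num) (fun k _ => hl _)]
  refine pk_congr fun k hk => ?_
  interval_cases k <;> simp [sp, kb, hE.s1, hE.s2, hE.s3]

theorem pc12_kk (hE : Sy E) (a b c d e f : V) : pc12 (kk E a b c d e f) = kk E a c b d e f := by
  unfold pc12 kk
  have hl : ∀ k, kb E a b c d e f k < 2 := kb_lt hE a b c d e f
  repeat rw [sb_pk (by norm_num) (by norm_num) (fun k _ => hl _)]
  refine pk_congr fun k hk => ?_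
  interval_cases k <;> simp [sp, kb, hE.s1, hE.s2, hE.s3]

theorem pc14_kk (hE : Sy E) (a b c d e f : V) : pc14 (kk E a b c d e f) = kk E a e c d b f := by
  unfold pc14 kk
  have hl : ∀ k, kb E a b c d e f k < 2 := kb_lt hE a b c d e f
  repeat rw [sb_pk (by norm_num) (by norm_num) (fun k _ => hl _)]
  refine pk_congr fun k hk => ?_
  interval_cases k <;> simp [sp, kb, hE.s1, hE.s2, hE.s3]

theorem pc15_kk (hE : Sy E) (a b c d e f : V) : pc15 (kk E a b c d e f) = kk E a f c d e b := by
  unfold pc15 kk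
  have hl : ∀ k, kb E a b c d e f k < 2 := kb_lt hE a b c d e f
  repeat rw [sb_pk (by norm_num) (by norm_num) (fun k _ => hl _)]
  refine pk_congr fun k hk => ?_
  interval_cases k <;> simp [sp, kb, hE.s1, hE.s2, hE.s3]

theorem pc23_kk (hE : Sy E) (a b c d e f : V) : pc23 (kk E a b c d e f) = kk E a b d c e f := by
  unfold pc23 kk
  have hl : ∀ k, kb E a b c d e f k < 2 := kb_lt hE a b c d e f
  repeat rw [sb_pk (by norm_num) (by norm_num) (fun k _ => hl _)]
  refine pk_congr fun k hk => ?_
  interval_cases k <;> simp [sp, kb, hE.s1, hE.s2, hE.s3]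

theorem pc24_kk (hE : Sy E) (a b c d e f : V) : pc24 (kk E a b c d e f) = kk E a b e d c f := by
  unfold pc24 kk
  have hl : ∀ k, kb E a b c d e f k < 2 := kb_lt hE a b c d e f
  repeat rw [sb_pk (by norm_num) (by norm_num) (fun k _ => hl _)]
  refine pk_congr fun k hk => ?_
  interval_cases k <;> simp [sp, kb, hE.s1, hE.s2, hE.s3]

theorem pc25_kk (hE : Sy E) (a b c d e f : V) : pc25 (kk E a b c d e f) = kk E a b f d e c := by
  unfold pc25 kk
  have hl : ∀ k, kb E a b c d e f k < 2 := kb_lt hE a b c d e f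
  repeat rw [sb_pk (by norm_num) (by norm_num) (fun k _ => hl _)]
  refine pk_congr fun k hk => ?_
  interval_cases k <;> simp [sp, kb, hE.s1, hE.s2, hE.s3]

theorem pc34_kk (hE : Sy E) (a b c d e f : V) : pc34 (kk E a b c d e f) = kk E a b c e d f := by
  unfold pc34 kk
  have hl : ∀ k, kb E a b c d e f k < 2 := kb_lt hE a b c d e f
  repeat rw [sb_pk (by norm_num) (by norm_num) (fun k _ => hl _)]
  refine pk_congr fun k hk => ?_
  interval_cases k <;> simp [sp, kb, hE.s1, hE.s2, hE.s3]

theorem pc35_kk (hE : Sy E) (a b c d e f : V) : pc35 (kk E a b c d e f) = kk E a b c f e d := by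
  unfold pc35 kk
  have hl : ∀ k, kb E a b c d e f k < 2 := kb_lt hE a b c d e f
  repeat rw [sb_pk (by norm_num) (by norm_num) (fun k _ => hl _)]
  refine pk_congr fun k hk => ?_
  interval_cases k <;> simp [sp, kb, hE.s1, hE.s2, hE.s3]

theorem pc45_kk (hE : Sy E) (a b c d e f : V) : pc45 (kk E a b c d e f) = kk E a b c d f e := by
  unfold pc45 kk
  have hl : ∀ k, kb E a b c d e f k < 2 := kb_lt hE a b c d e f
  repeat rw [sb_pk (by norm_num) (by norm_num) (fun k _ => hl _)]
  refine pk_congr fun k hk => ?_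
  interval_cases k <;> simp [sp, kb, hE.s1, hE.s2, hE.s3]

end

end Pool.Agent.T2H33.K5
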