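import Pool.Agent.T2H33.K5.Frm
import Pool.Agent.T2H33.K5.Prm

/-! The chain of the frames. -/

set_option autoImplicit false
set_option maxRecDepth 100000
set_option linter.unusedSimpArgs false
open Finset

namespace Pool.Agent.T2H33.K5

noncomputable section

variable {V : Type} {E : V → V → V → V → ℕ}

theorem swp_step {B p q : ℕ} {F : ℕ → ℕ} (hpq : p < q) (hq : q < 16) (hB : B < 2 ^ 25) (hF : ∀ i < 2 ^ 16, F i ≤ B) :
    swp 25 16 p q (enc 25 16 F) = enc 25 16 (fun i => F (sb p q i)) ∧ ∀ i < 2 ^ 16, F (sb p q i) ≤ B :=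
  ⟨swp_enc (by norm_num) hpq hq fun i hi => lt_of_le_of_lt (hF i hi) hB, fun _ hi => hF _ (sb_lt hpq hq hi)⟩

theorem Rc.add {L : ℕ → ℕ} {f0 f1 f2 f3 B C X Y m w0 w1 w2 w3 : ℕ} {φ ψ : V → V → V → V → V → V → V → ℕ}
    (h : Rc E L f0 f1 f2 f3 B X m w0 w1 w2 w3 φ) (k : Rc E L f0 f1 f2 f3 C Y m w0 w1 w2 w3 ψ) :
    Rc E L f0 f1 f2 f3 (B + C) (Nat.add X Y) m w0 w1 w2 w3 (fun a b c d e f z => φ a b c d e f z + ψ a b c d e f z) := by
  obtain ⟨F, hX, hF, hφ⟩ := h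
  obtain ⟨G, hY, hG, hψ⟩ := k
  refine ⟨fun i => F i + G i, ?_, fun i hi => Nat.add_le_add (hF i hi) (hG i hi), ?_⟩
  · rw [hX, hY]; exact enc_add _ _ _ _
  intro a b c d e f z hm h0 h1 h2 h3
  show F _ + G _ = _
  rw [hφ _ _ _ _ _ _ _ hm h0 h1 h2 h3, hψ _ _ _ _ _ _ _ hm h0 h1 h2 h3]

theorem pc04_lt {m : ℕ} (hm : m < 2 ^ 15) : pc04 m < 2 ^ 15 := (sb_lt (by norm_num) (by norm_num) (sb_lt (by norm_num) (by norm_num) (sb_lt (by norm_num) (by norm_num) (sb_lt (by norm_num) (by norm_num) hm))))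
theorem pc05_lt {m : ℕ} (hm : m < 2 ^ 15) : pc05 m < 2 ^ 15 := (sb_lt (by norm_num) (by norm_num) (sb_lt (by norm_num) (by norm_num) (sb_lt (by norm_num) (by norm_num) (sb_lt (by norm_num) (by norm_num) hm))))
theorem pc14_lt {m : ℕ} (hm : m < 2 ^ 15) : pc14 m < 2 ^ 15 := (sb_lt (by norm_num) (by norm_num) (sb_lt (by norm_num) (by norm_num) (sb_lt (by norm_num) (by norm_num) (sb_lt (by norm_num) (by norm_num) hm))))
theorem pc15_lt {m : ℕ} (hm : m < 2 ^ 15) : pc15 m < 2 ^ 15 := (sb_lt (by norm_num) (by norm_num) (sb_lt (by norm_num) (by norm_num) (sb_lt (by norm_num) (by norm_num) (sb_lt (by norm_num) (by norm_num) hm))))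
theorem pc24_lt {m : ℕ} (hm : m < 2 ^ 15) : pc24 m < 2 ^ 15 := (sb_lt (by norm_num) (by norm_num) (sb_lt (by norm_num) (by norm_num) (sb_lt (by norm_num) (by norm_num) (sb_lt (by norm_num) (by norm_num) hm))))
theorem pc25_lt {m : ℕ} (hm : m < 2 ^ 15) : pc25 m < 2 ^ 15 := (sb_lt (by norm_num) (by norm_num) (sb_lt (by norm_num) (by norm_num) (sb_lt (by norm_num) (by norm_num) (sb_lt (by norm_num) (by norm_num) hm))))
theorem pc34_lt {m : ℕ} (hm : m < 2 ^ 15) : pc34 m < 2 ^ 15 := (sb_lt (by norm_num) (by norm_num) (sb_lt (by norm_num) (by norm_num) (sb_lt (by norm_num) (by norm_num) (sb_lt (by norm_num) (by norm_num) hm))))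
theorem pc35_lt {m : ℕ} (hm : m < 2 ^ 15) : pc35 m < 2 ^ 15 := (sb_lt (by norm_num) (by norm_num) (sb_lt (by norm_num) (by norm_num) (sb_lt (by norm_num) (by norm_num) (sb_lt (by norm_num) (by norm_num) hm))))
theorem pc45_lt {m : ℕ} (hm : m < 2 ^ 15) : pc45 m < 2 ^ 15 := (sb_lt (by norm_num) (by norm_num) (sb_lt (by norm_num) (by norm_num) (sb_lt (by norm_num) (by norm_num) (sb_lt (by norm_num) (by norm_num) hm))))

theorem stp0 (hE : Sy E) {B X m w0 w1 w2 w3 : ℕ} {φ : V → V → V → V → V → V → V → ℕ} (hB : B < 2 ^ 25)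
    (h : Rc E LA 16 17 18 19 B X (pc45 m) w0 w1 w2 w3 φ) :
    Rc E LA 16 17 18 19 B (swp 25 16 0 6 (swp 25 16 1 7 (swp 25 16 2 8 (swp 25 16 9 13 (swp 25 16 10 14 (swp 25 16 11 15 X)))))) m w0 w1 w2 w3 (fun a b c d e f z => φ a b c d f e z) := by
  obtain ⟨F, hX, hF, hφ⟩ := h
  have k0 := swp_step (p := 11) (q := 15) (by norm_num) (by norm_num) hB hF
  have k1 := swp_step (p := 10) (q := 14) (by norm_num) (by norm_num) hB k0.2
  have k2 := swp_step (p := 9) (q := 13) (by norm_num) (by norm_num) hB k1.2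
  have k3 := swp_step (p := 2) (q := 8) (by norm_num) (by norm_num) hB k2.2
  have k4 := swp_step (p := 1) (q := 7) (by norm_num) (by norm_num) hB k3.2
  have k5 := swp_step (p := 0) (q := 6) (by norm_num) (by norm_num) hB k4.2
  refine ⟨_, by rw [hX, k0.1, k1.1, k2.1, k3.1, k4.1, k5.1], k5.2, ?_⟩
  intro a b c d e f z hm h0 h1 h2 h3
  have hl : ∀ k, (fun k => lb E a b c d e f z (LA k)) k < 2 := fun k => lb_lt hE a b c d e f z (LA k)
  have key : (sb 11 15 (sb 10 14 (sb 9 13 (sb 2 8 (sb 1 7 (sb 0 6 (pk 16 (fun k => lb E a b c d e f z (LA k))))))))) = pk 16 (fun k => lb E a b c d f e z (LA k)) := by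
    repeat rw [sb_pk (by norm_num) (by norm_num) (fun k _ => hl _)]
    refine pk_congr fun k hk => ?_
    interval_cases k <;> simp [sp, lb, LA, LA, hE.s1, hE.s2, hE.s3]
  show F (sb 11 15 (sb 10 14 (sb 9 13 (sb 2 8 (sb 1 7 (sb 0 6 (pk 16 (fun k => lb E a b c d e f z (LA k))))))))) = _
  rw [key]
  exact hφ _ _ _ _ _ _ _ (by rw [← pc45_kk hE, hm]) (by rw [← h0]; simp [lb, hE.s1, hE.s2, hE.s3]) (by rw [← h1]; simp [lb, hE.s1, hE.s2, hE.s3]) (by rw [← h2]; simp [lb, hE.s1, hE.s2, hE.s3]) (by rw [← h3]; simp [lb, hE.s1, hE.s2, hE.s3])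

theorem stp1 (hE : Sy E) {B X m w0 w1 w2 w3 : ℕ} {φ : V → V → V → V → V → V → V → ℕ} (hB : B < 2 ^ 25)
    (h : Rc E LB 3 4 5 19 B X (pc05 m) w0 w1 w2 w3 φ) :
    Rc E LA 16 17 18 19 B (swp 25 16 4 6 (swp 25 16 5 7 (swp 25 16 8 12 X))) m w0 w1 w2 w3 (fun a b c d e f z => φ f b c d e a z) := by
  obtain ⟨F, hX, hF, hφ⟩ := h
  have k0 := swp_step (p := 8) (q := 12) (by norm_num) (by norm_num) hB hF
  have k1 := swp_step (p := 5) (q := 7) (by norm_num) (by norm_num) hB k0.2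
  have k2 := swp_step (p := 4) (q := 6) (by norm_num) (by norm_num) hB k1.2
  refine ⟨_, by rw [hX, k0.1, k1.1, k2.1], k2.2, ?_⟩
  intro a b c d e f z hm h0 h1 h2 h3
  have hl : ∀ k, (fun k => lb E a b c d e f z (LA k)) k < 2 := fun k => lb_lt hE a b c d e f z (LA k)
  have key : (sb 8 12 (sb 5 7 (sb 4 6 (pk 16 (fun k => lb E a b c d e f z (LA k)))))) = pk 16 (fun k => lb E f b c d e a z (LB k)) := by
    repeat rw [sb_pk (by norm_num) (by norm_num) (fun k _ => hl _)]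
    refine pk_congr fun k hk => ?_
    interval_cases k <;> simp [sp, lb, LA, LB, hE.s1, hE.s2, hE.s3]
  show F (sb 8 12 (sb 5 7 (sb 4 6 (pk 16 (fun k => lb E a b c d e f z (LA k)))))) = _
  rw [key]
  exact hφ _ _ _ _ _ _ _ (by rw [← pc05_kk hE, hm]) (by rw [← h0]; simp [lb, hE.s1, hE.s2, hE.s3]) (by rw [← h1]; simp [lb, hE.s1, hE.s2, hE.s3]) (by rw [← h2]; simp [lb, hE.s1, hE.s2, hE.s3]) (by rw [← h3]; simp [lb, hE.s1, hE.s2, hE.s3])

theorem stp2 (hE : Sy E) {B X m w0 w1 w2 w3 : ℕ} {φ : V → V → V → V → V → V → V → ℕ} (hB : B < 2 ^ 25)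
    (h : Rc E LB 3 4 5 19 B X (pc15 m) w0 w1 w3 w2 φ) :
    Rc E LB 3 4 5 19 B (swp 25 16 1 13 (swp 25 16 2 14 (swp 25 16 3 6 (swp 25 16 5 9 (swp 25 16 10 12 X))))) m w0 w1 w2 w3 (fun a b c d e f z => φ a f c d e b z) := by
  obtain ⟨F, hX, hF, hφ⟩ := h
  have k0 := swp_step (p := 10) (q := 12) (by norm_num) (by norm_num) hB hF
  have k1 := swp_step (p := 5) (q := 9) (by norm_num) (by norm_num) hB k0.2
  have k2 := swp_step (p := 3) (q := 6) (by norm_num) (by norm_num) hB k1.2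
  have k3 := swp_step (p := 2) (q := 14) (by norm_num) (by norm_num) hB k2.2
  have k4 := swp_step (p := 1) (q := 13) (by norm_num) (by norm_num) hB k3.2
  refine ⟨_, by rw [hX, k0.1, k1.1, k2.1, k3.1, k4.1], k4.2, ?_⟩
  intro a b c d e f z hm h0 h1 h2 h3
  have hl : ∀ k, (fun k => lb E a b c d e f z (LB k)) k < 2 := fun k => lb_lt hE a b c d e f z (LB k)
  have key : (sb 10 12 (sb 5 9 (sb 3 6 (sb 2 14 (sb 1 13 (pk 16 (fun k => lb E a b c d e f z (LB k)))))))) = pk 16 (fun k => lb E a f c d e b z (LB k)) := by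
    repeat rw [sb_pk (by norm_num) (by norm_num) (fun k _ => hl _)]
    refine pk_congr fun k hk => ?_
    interval_cases k <;> simp [sp, lb, LB, LB, hE.s1, hE.s2, hE.s3]
  show F (sb 10 12 (sb 5 9 (sb 3 6 (sb 2 14 (sb 1 13 (pk 16 (fun k => lb E a b c d e f z (LB k)))))))) = _
  rw [key]
  exact hφ _ _ _ _ _ _ _ (by rw [← pc15_kk hE, hm]) (by rw [← h0]; simp [lb, hE.s1, hE.s2, hE.s3]) (by rw [← h1]; simp [lb, hE.s1, hE.s2, hE.s3]) (by rw [← h3]; simp [lb, hE.s1, hE.s2, hE.s3]) (by rw [← h2]; simp [lb, hE.s1, hE.s2, hE.s3])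

theorem stp3 (hE : Sy E) {B X m w0 w1 w2 w3 : ℕ} {φ : V → V → V → V → V → V → V → ℕ} (hB : B < 2 ^ 25)
    (h : Rc E LB 3 4 5 19 B X (pc25 m) w0 w3 w2 w1 φ) :
    Rc E LB 3 4 5 19 B (swp 25 16 0 13 (swp 25 16 2 15 (swp 25 16 3 7 (swp 25 16 4 9 (swp 25 16 11 12 X))))) m w0 w1 w2 w3 (fun a b c d e f z => φ a b f d e c z) := by
  obtain ⟨F, hX, hF, hφ⟩ := h
  have k0 := swp_step (p := 11) (q := 12) (by norm_num) (by norm_num) hB hF
  have k1 := swp_step (p := 4) (q := 9) (by norm_num) (by norm_num) hB k0.2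
  have k2 := swp_step (p := 3) (q := 7) (by norm_num) (by norm_num) hB k1.2
  have k3 := swp_step (p := 2) (q := 15) (by norm_num) (by norm_num) hB k2.2
  have k4 := swp_step (p := 0) (q := 13) (by norm_num) (by norm_num) hB k3.2
  refine ⟨_, by rw [hX, k0.1, k1.1, k2.1, k3.1, k4.1], k4.2, ?_⟩
  intro a b c d e f z hm h0 h1 h2 h3
  have hl : ∀ k, (fun k => lb E a b c d e f z (LB k)) k < 2 := fun k => lb_lt hE a b c d e f z (LB k)
  have key : (sb 11 12 (sb 4 9 (sb 3 7 (sb 2 15 (sb 0 13 (pk 16 (fun k => lb E a b c d e f z (LB k)))))))) = pk 16 (fun k => lb E a b f d e c z (LB k)) := by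
    repeat rw [sb_pk (by norm_num) (by norm_num) (fun k _ => hl _)]
    refine pk_congr fun k hk => ?_
    interval_cases k <;> simp [sp, lb, LB, LB, hE.s1, hE.s2, hE.s3]
  show F (sb 11 12 (sb 4 9 (sb 3 7 (sb 2 15 (sb 0 13 (pk 16 (fun k => lb E a b c d e f z (LB k)))))))) = _
  rw [key]
  exact hφ _ _ _ _ _ _ _ (by rw [← pc25_kk hE, hm]) (by rw [← h0]; simp [lb, hE.s1, hE.s2, hE.s3]) (by rw [← h3]; simp [lb, hE.s1, hE.s2, hE.s3]) (by rw [← h2]; simp [lb, hE.s1, hE.s2, hE.s3]) (by rw [← h1]; simp [lb, hE.s1, hE.s2, hE.s3])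

theorem stp4 (hE : Sy E) {B X m w0 w1 w2 w3 : ℕ} {φ : V → V → V → V → V → V → V → ℕ} (hB : B < 2 ^ 25)
    (h : Rc E LB 3 4 5 19 B X (pc35 m) w3 w1 w2 w0 φ) :
    Rc E LB 3 4 5 19 B (swp 25 16 0 14 (swp 25 16 1 15 (swp 25 16 3 8 (swp 25 16 4 10 (swp 25 16 5 11 X))))) m w0 w1 w2 w3 (fun a b c d e f z => φ a b c f e d z) := by
  obtain ⟨F, hX, hF, hφ⟩ := h
  have k0 := swp_step (p := 5) (q := 11) (by norm_num) (by norm_num) hB hF
  have k1 := swp_step (p := 4) (q := 10) (by norm_num) (by norm_num) hB k0.2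
  have k2 := swp_step (p := 3) (q := 8) (by norm_num) (by norm_num) hB k1.2
  have k3 := swp_step (p := 1) (q := 15) (by norm_num) (by norm_num) hB k2.2
  have k4 := swp_step (p := 0) (q := 14) (by norm_num) (by norm_num) hB k3.2
  refine ⟨_, by rw [hX, k0.1, k1.1, k2.1, k3.1, k4.1], k4.2, ?_⟩
  intro a b c d e f z hm h0 h1 h2 h3
  have hl : ∀ k, (fun k => lb E a b c d e f z (LB k)) k < 2 := fun k => lb_lt hE a b c d e f z (LB k)
  have key : (sb 5 11 (sb 4 10 (sb 3 8 (sb 1 15 (sb 0 14 (pk 16 (fun k => lb E a b c d e f z (LB k)))))))) = pk 16 (fun k => lb E a b c f e d z (LB k)) := by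
    repeat rw [sb_pk (by norm_num) (by norm_num) (fun k _ => hl _)]
    refine pk_congr fun k hk => ?_
    interval_cases k <;> simp [sp, lb, LB, LB, hE.s1, hE.s2, hE.s3]
  show F (sb 5 11 (sb 4 10 (sb 3 8 (sb 1 15 (sb 0 14 (pk 16 (fun k => lb E a b c d e f z (LB k)))))))) = _
  rw [key]
  exact hφ _ _ _ _ _ _ _ (by rw [← pc35_kk hE, hm]) (by rw [← h3]; simp [lb, hE.s1, hE.s2, hE.s3]) (by rw [← h1]; simp [lb, hE.s1, hE.s2, hE.s3]) (by rw [← h2]; simp [lb, hE.s1, hE.s2, hE.s3]) (by rw [← h0]; simp [lb, hE.s1, hE.s2, hE.s3])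

theorem stp5 (hE : Sy E) {B X m w0 w1 w2 w3 : ℕ} {φ : V → V → V → V → V → V → V → ℕ} (hB : B < 2 ^ 25)
    (h : Rc E LB 3 4 5 19 B X (pc04 m) w0 w1 w2 w3 φ) :
    Rc E LB 3 4 5 19 B (swp 25 16 0 4 (swp 25 16 1 5 (swp 25 16 2 12 (swp 25 16 9 13 (swp 25 16 10 14 (swp 25 16 11 15 X)))))) m w0 w1 w2 w3 (fun a b c d e f z => φ e b c d a f z) := by
  obtain ⟨F, hX, hF, hφ⟩ := h
  have k0 := swp_step (p := 11) (q := 15) (by norm_num) (by norm_num) hB hF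
  have k1 := swp_step (p := 10) (q := 14) (by norm_num) (by norm_num) hB k0.2
  have k2 := swp_step (p := 9) (q := 13) (by norm_num) (by norm_num) hB k1.2
  have k3 := swp_step (p := 2) (q := 12) (by norm_num) (by norm_num) hB k2.2
  have k4 := swp_step (p := 1) (q := 5) (by norm_num) (by norm_num) hB k3.2
  have k5 := swp_step (p := 0) (q := 4) (by norm_num) (by norm_num) hB k4.2
  refine ⟨_, by rw [hX, k0.1, k1.1, k2.1, k3.1, k4.1, k5.1], k5.2, ?_⟩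
  intro a b c d e f z hm h0 h1 h2 h3
  have hl : ∀ k, (fun k => lb E a b c d e f z (LB k)) k < 2 := fun k => lb_lt hE a b c d e f z (LB k)
  have key : (sb 11 15 (sb 10 14 (sb 9 13 (sb 2 12 (sb 1 5 (sb 0 4 (pk 16 (fun k => lb E a b c d e f z (LB k))))))))) = pk 16 (fun k => lb E e b c d a f z (LB k)) := by
    repeat rw [sb_pk (by norm_num) (by norm_num) (fun k _ => hl _)]
    refine pk_congr fun k hk => ?_
    interval_cases k <;> simp [sp, lb, LB, LB, hE.s1, hE.s2, hE.s3]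
  show F (sb 11 15 (sb 10 14 (sb 9 13 (sb 2 12 (sb 1 5 (sb 0 4 (pk 16 (fun k => lb E a b c d e f z (LB k))))))))) = _
  rw [key]
  exact hφ _ _ _ _ _ _ _ (by rw [← pc04_kk hE, hm]) (by rw [← h0]; simp [lb, hE.s1, hE.s2, hE.s3]) (by rw [← h1]; simp [lb, hE.s1, hE.s2, hE.s3]) (by rw [← h2]; simp [lb, hE.s1, hE.s2, hE.s3]) (by rw [← h3]; simp [lb, hE.s1, hE.s2, hE.s3])

theorem stp6 (hE : Sy E) {B X m w0 w1 w2 w3 : ℕ} {φ : V → V → V → V → V → V → V → ℕ} (hB : B < 2 ^ 25)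
    (h : Rc E LB 3 4 5 19 B X (pc15 m) w0 w1 w3 w2 φ) :
    Rc E LB 3 4 5 19 B (swp 25 16 1 13 (swp 25 16 2 14 (swp 25 16 3 6 (swp 25 16 5 9 (swp 25 16 10 12 X))))) m w0 w1 w2 w3 (fun a b c d e f z => φ a f c d e b z) := by
  obtain ⟨F, hX, hF, hφ⟩ := h
  have k0 := swp_step (p := 10) (q := 12) (by norm_num) (by norm_num) hB hF
  have k1 := swp_step (p := 5) (q := 9) (by norm_num) (by norm_num) hB k0.2
  have k2 := swp_step (p := 3) (q := 6) (by norm_num) (by norm_num) hB k1.2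
  have k3 := swp_step (p := 2) (q := 14) (by norm_num) (by norm_num) hB k2.2
  have k4 := swp_step (p := 1) (q := 13) (by norm_num) (by norm_num) hB k3.2
  refine ⟨_, by rw [hX, k0.1, k1.1, k2.1, k3.1, k4.1], k4.2, ?_⟩
  intro a b c d e f z hm h0 h1 h2 h3
  have hl : ∀ k, (fun k => lb E a b c d e f z (LB k)) k < 2 := fun k => lb_lt hE a b c d e f z (LB k)
  have key : (sb 10 12 (sb 5 9 (sb 3 6 (sb 2 14 (sb 1 13 (pk 16 (fun k => lb E a b c d e f z (LB k)))))))) = pk 16 (fun k => lb E a f c d e b z (LB k)) := by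
    repeat rw [sb_pk (by norm_num) (by norm_num) (fun k _ => hl _)]
    refine pk_congr fun k hk => ?_
    interval_cases k <;> simp [sp, lb, LB, LB, hE.s1, hE.s2, hE.s3]
  show F (sb 10 12 (sb 5 9 (sb 3 6 (sb 2 14 (sb 1 13 (pk 16 (fun k => lb E a b c d e f z (LB k)))))))) = _
  rw [key]
  exact hφ _ _ _ _ _ _ _ (by rw [← pc15_kk hE, hm]) (by rw [← h0]; simp [lb, hE.s1, hE.s2, hE.s3]) (by rw [← h1]; simp [lb, hE.s1, hE.s2, hE.s3]) (by rw [← h3]; simp [lb, hE.s1, hE.s2, hE.s3]) (by rw [← h2]; simp [lb, hE.s1, hE.s2, hE.s3])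

theorem stp7 (hE : Sy E) {B X m w0 w1 w2 w3 : ℕ} {φ : V → V → V → V → V → V → V → ℕ} (hB : B < 2 ^ 25)
    (h : Rc E LB 3 4 5 19 B X (pc25 m) w0 w3 w2 w1 φ) :
    Rc E LB 3 4 5 19 B (swp 25 16 0 13 (swp 25 16 2 15 (swp 25 16 3 7 (swp 25 16 4 9 (swp 25 16 11 12 X))))) m w0 w1 w2 w3 (fun a b c d e f z => φ a b f d e c z) := by
  obtain ⟨F, hX, hF, hφ⟩ := h
  have k0 := swp_step (p := 11) (q := 12) (by norm_num) (by norm_num) hB hF
  have k1 := swp_step (p := 4) (q := 9) (by norm_num) (by norm_num) hB k0.2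
  have k2 := swp_step (p := 3) (q := 7) (by norm_num) (by norm_num) hB k1.2
  have k3 := swp_step (p := 2) (q := 15) (by norm_num) (by norm_num) hB k2.2
  have k4 := swp_step (p := 0) (q := 13) (by norm_num) (by norm_num) hB k3.2
  refine ⟨_, by rw [hX, k0.1, k1.1, k2.1, k3.1, k4.1], k4.2, ?_⟩
  intro a b c d e f z hm h0 h1 h2 h3
  have hl : ∀ k, (fun k => lb E a b c d e f z (LB k)) k < 2 := fun k => lb_lt hE a b c d e f z (LB k)
  have key : (sb 11 12 (sb 4 9 (sb 3 7 (sb 2 15 (sb 0 13 (pk 16 (fun k => lb E a b c d e f z (LB k)))))))) = pk 16 (fun k => lb E a b f d e c z (LB k)) := by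
    repeat rw [sb_pk (by norm_num) (by norm_num) (fun k _ => hl _)]
    refine pk_congr fun k hk => ?_
    interval_cases k <;> simp [sp, lb, LB, LB, hE.s1, hE.s2, hE.s3]
  show F (sb 11 12 (sb 4 9 (sb 3 7 (sb 2 15 (sb 0 13 (pk 16 (fun k => lb E a b c d e f z (LB k)))))))) = _
  rw [key]
  exact hφ _ _ _ _ _ _ _ (by rw [← pc25_kk hE, hm]) (by rw [← h0]; simp [lb, hE.s1, hE.s2, hE.s3]) (by rw [← h3]; simp [lb, hE.s1, hE.s2, hE.s3]) (by rw [← h2]; simp [lb, hE.s1, hE.s2, hE.s3]) (by rw [← h1]; simp [lb, hE.s1, hE.s2, hE.s3])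

theorem stp8 (hE : Sy E) {B X m w0 w1 w2 w3 : ℕ} {φ : V → V → V → V → V → V → V → ℕ} (hB : B < 2 ^ 25)
    (h : Rc E LB 3 4 5 19 B X (pc35 m) w3 w1 w2 w0 φ) :
    Rc E LB 3 4 5 19 B (swp 25 16 0 14 (swp 25 16 1 15 (swp 25 16 3 8 (swp 25 16 4 10 (swp 25 16 5 11 X))))) m w0 w1 w2 w3 (fun a b c d e f z => φ a b c f e d z) := by
  obtain ⟨F, hX, hF, hφ⟩ := h
  have k0 := swp_step (p := 5) (q := 11) (by norm_num) (by norm_num) hB hF
  have k1 := swp_step (p := 4) (q := 10) (by norm_num) (by norm_num) hB k0.2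
  have k2 := swp_step (p := 3) (q := 8) (by norm_num) (by norm_num) hB k1.2
  have k3 := swp_step (p := 1) (q := 15) (by norm_num) (by norm_num) hB k2.2
  have k4 := swp_step (p := 0) (q := 14) (by norm_num) (by norm_num) hB k3.2
  refine ⟨_, by rw [hX, k0.1, k1.1, k2.1, k3.1, k4.1], k4.2, ?_⟩
  intro a b c d e f z hm h0 h1 h2 h3
  have hl : ∀ k, (fun k => lb E a b c d e f z (LB k)) k < 2 := fun k => lb_lt hE a b c d e f z (LB k)
  have key : (sb 5 11 (sb 4 10 (sb 3 8 (sb 1 15 (sb 0 14 (pk 16 (fun k => lb E a b c d e f z (LB k)))))))) = pk 16 (fun k => lb E a b c f e d z (LB k)) := by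
    repeat rw [sb_pk (by norm_num) (by norm_num) (fun k _ => hl _)]
    refine pk_congr fun k hk => ?_
    interval_cases k <;> simp [sp, lb, LB, LB, hE.s1, hE.s2, hE.s3]
  show F (sb 5 11 (sb 4 10 (sb 3 8 (sb 1 15 (sb 0 14 (pk 16 (fun k => lb E a b c d e f z (LB k)))))))) = _
  rw [key]
  exact hφ _ _ _ _ _ _ _ (by rw [← pc35_kk hE, hm]) (by rw [← h3]; simp [lb, hE.s1, hE.s2, hE.s3]) (by rw [← h1]; simp [lb, hE.s1, hE.s2, hE.s3]) (by rw [← h2]; simp [lb, hE.s1, hE.s2, hE.s3]) (by rw [← h0]; simp [lb, hE.s1, hE.s2, hE.s3])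

theorem stp9 (hE : Sy E) {B X m w0 w1 w2 w3 : ℕ} {φ : V → V → V → V → V → V → V → ℕ} (hB : B < 2 ^ 25)
    (h : Rc E LC 5 11 14 15 B X (pc14 m) w2 w3 w0 w1 φ) :
    Rc E LB 3 4 5 19 B (swp 25 16 0 3 (swp 25 16 3 5 (swp 25 16 4 12 (swp 25 16 7 13 (swp 25 16 8 14 (swp 25 16 11 12 (swp 25 16 12 13 (swp 25 16 13 14 (swp 25 16 14 15 X))))))))) m w0 w1 w2 w3 (fun a b c d e f z => φ a e c d b f z) := by
  obtain ⟨F, hX, hF, hφ⟩ := h
  have k0 := swp_step (p := 14) (q := 15) (by norm_num) (by norm_num) hB hF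
  have k1 := swp_step (p := 13) (q := 14) (by norm_num) (by norm_num) hB k0.2
  have k2 := swp_step (p := 12) (q := 13) (by norm_num) (by norm_num) hB k1.2
  have k3 := swp_step (p := 11) (q := 12) (by norm_num) (by norm_num) hB k2.2
  have k4 := swp_step (p := 8) (q := 14) (by norm_num) (by norm_num) hB k3.2
  have k5 := swp_step (p := 7) (q := 13) (by norm_num) (by norm_num) hB k4.2
  have k6 := swp_step (p := 4) (q := 12) (by norm_num) (by norm_num) hB k5.2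
  have k7 := swp_step (p := 3) (q := 5) (by norm_num) (by norm_num) hB k6.2
  have k8 := swp_step (p := 0) (q := 3) (by norm_num) (by norm_num) hB k7.2
  refine ⟨_, by rw [hX, k0.1, k1.1, k2.1, k3.1, k4.1, k5.1, k6.1, k7.1, k8.1], k8.2, ?_⟩
  intro a b c d e f z hm h0 h1 h2 h3
  have hl : ∀ k, (fun k => lb E a b c d e f z (LB k)) k < 2 := fun k => lb_lt hE a b c d e f z (LB k)
  have key : (sb 14 15 (sb 13 14 (sb 12 13 (sb 11 12 (sb 8 14 (sb 7 13 (sb 4 12 (sb 3 5 (sb 0 3 (pk 16 (fun k => lb E a b c d e f z (LB k)))))))))))) = pk 16 (fun k => lb E a e c d b f z (LC k)) := by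
    repeat rw [sb_pk (by norm_num) (by norm_num) (fun k _ => hl _)]
    refine pk_congr fun k hk => ?_
    interval_cases k <;> simp [sp, lb, LB, LC, hE.s1, hE.s2, hE.s3]
  show F (sb 14 15 (sb 13 14 (sb 12 13 (sb 11 12 (sb 8 14 (sb 7 13 (sb 4 12 (sb 3 5 (sb 0 3 (pk 16 (fun k => lb E a b c d e f z (LB k)))))))))))) = _
  rw [key]
  exact hφ _ _ _ _ _ _ _ (by rw [← pc14_kk hE, hm]) (by rw [← h2]; simp [lb, hE.s1, hE.s2, hE.s3]) (by rw [← h3]; simp [lb, hE.s1, hE.s2, hE.s3]) (by rw [← h0]; simp [lb, hE.s1, hE.s2, hE.s3]) (by rw [← h1]; simp [lb, hE.s1, hE.s2, hE.s3])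

theorem stp10 (hE : Sy E) {B X m w0 w1 w2 w3 : ℕ} {φ : V → V → V → V → V → V → V → ℕ} (hB : B < 2 ^ 25)
    (h : Rc E LC 5 11 14 15 B X (pc34 m) w2 w1 w0 w3 φ) :
    Rc E LC 5 11 14 15 B (swp 25 16 2 5 (swp 25 16 4 11 (swp 25 16 6 13 (swp 25 16 7 14 (swp 25 16 9 15 X))))) m w0 w1 w2 w3 (fun a b c d e f z => φ a b c e d f z) := by
  obtain ⟨F, hX, hF, hφ⟩ := h
  have k0 := swp_step (p := 9) (q := 15) (by norm_num) (by norm_num) hB hF
  have k1 := swp_step (p := 7) (q := 14) (by norm_num) (by norm_num) hB k0.2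
  have k2 := swp_step (p := 6) (q := 13) (by norm_num) (by norm_num) hB k1.2
  have k3 := swp_step (p := 4) (q := 11) (by norm_num) (by norm_num) hB k2.2
  have k4 := swp_step (p := 2) (q := 5) (by norm_num) (by norm_num) hB k3.2
  refine ⟨_, by rw [hX, k0.1, k1.1, k2.1, k3.1, k4.1], k4.2, ?_⟩
  intro a b c d e f z hm h0 h1 h2 h3
  have hl : ∀ k, (fun k => lb E a b c d e f z (LC k)) k < 2 := fun k => lb_lt hE a b c d e f z (LC k)
  have key : (sb 9 15 (sb 7 14 (sb 6 13 (sb 4 11 (sb 2 5 (pk 16 (fun k => lb E a b c d e f z (LC k)))))))) = pk 16 (fun k => lb E a b c e d f z (LC k)) := by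
    repeat rw [sb_pk (by norm_num) (by norm_num) (fun k _ => hl _)]
    refine pk_congr fun k hk => ?_
    interval_cases k <;> simp [sp, lb, LC, LC, hE.s1, hE.s2, hE.s3]
  show F (sb 9 15 (sb 7 14 (sb 6 13 (sb 4 11 (sb 2 5 (pk 16 (fun k => lb E a b c d e f z (LC k)))))))) = _
  rw [key]
  exact hφ _ _ _ _ _ _ _ (by rw [← pc34_kk hE, hm]) (by rw [← h2]; simp [lb, hE.s1, hE.s2, hE.s3]) (by rw [← h1]; simp [lb, hE.s1, hE.s2, hE.s3]) (by rw [← h0]; simp [lb, hE.s1, hE.s2, hE.s3]) (by rw [← h3]; simp [lb, hE.s1, hE.s2, hE.s3])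

theorem stp11 (hE : Sy E) {B X m w0 w1 w2 w3 : ℕ} {φ : V → V → V → V → V → V → V → ℕ} (hB : B < 2 ^ 25)
    (h : Rc E LC 5 11 14 15 B X (pc35 m) w0 w2 w1 w3 φ) :
    Rc E LC 5 11 14 15 B (swp 25 16 0 13 (swp 25 16 1 14 (swp 25 16 3 15 (swp 25 16 5 8 (swp 25 16 10 11 X))))) m w0 w1 w2 w3 (fun a b c d e f z => φ a b c f e d z) := by
  obtain ⟨F, hX, hF, hφ⟩ := h
  have k0 := swp_step (p := 10) (q := 11) (by norm_num) (by norm_num) hB hF
  have k1 := swp_step (p := 5) (q := 8) (by norm_num) (by norm_num) hB k0.2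
  have k2 := swp_step (p := 3) (q := 15) (by norm_num) (by norm_num) hB k1.2
  have k3 := swp_step (p := 1) (q := 14) (by norm_num) (by norm_num) hB k2.2
  have k4 := swp_step (p := 0) (q := 13) (by norm_num) (by norm_num) hB k3.2
  refine ⟨_, by rw [hX, k0.1, k1.1, k2.1, k3.1, k4.1], k4.2, ?_⟩
  intro a b c d e f z hm h0 h1 h2 h3
  have hl : ∀ k, (fun k => lb E a b c d e f z (LC k)) k < 2 := fun k => lb_lt hE a b c d e f z (LC k)
  have key : (sb 10 11 (sb 5 8 (sb 3 15 (sb 1 14 (sb 0 13 (pk 16 (fun k => lb E a b c d e f z (LC k)))))))) = pk 16 (fun k => lb E a b c f e d z (LC k)) := by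
    repeat rw [sb_pk (by norm_num) (by norm_num) (fun k _ => hl _)]
    refine pk_congr fun k hk => ?_
    interval_cases k <;> simp [sp, lb, LC, LC, hE.s1, hE.s2, hE.s3]
  show F (sb 10 11 (sb 5 8 (sb 3 15 (sb 1 14 (sb 0 13 (pk 16 (fun k => lb E a b c d e f z (LC k)))))))) = _
  rw [key]
  exact hφ _ _ _ _ _ _ _ (by rw [← pc35_kk hE, hm]) (by rw [← h0]; simp [lb, hE.s1, hE.s2, hE.s3]) (by rw [← h2]; simp [lb, hE.s1, hE.s2, hE.s3]) (by rw [← h1]; simp [lb, hE.s1, hE.s2, hE.s3]) (by rw [← h3]; simp [lb, hE.s1, hE.s2, hE.s3])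

theorem stp12 (hE : Sy E) {B X m w0 w1 w2 w3 : ℕ} {φ : V → V → V → V → V → V → V → ℕ} (hB : B < 2 ^ 25)
    (h : Rc E LC 5 11 14 15 B X (pc24 m) w3 w1 w2 w0 φ) :
    Rc E LC 5 11 14 15 B (swp 25 16 1 5 (swp 25 16 3 11 (swp 25 16 6 12 (swp 25 16 8 14 (swp 25 16 10 15 X))))) m w0 w1 w2 w3 (fun a b c d e f z => φ a b e d c f z) := by
  obtain ⟨F, hX, hF, hφ⟩ := h
  have k0 := swp_step (p := 10) (q := 15) (by norm_num) (by norm_num) hB hF
  have k1 := swp_step (p := 8) (q := 14) (by norm_num) (by norm_num) hB k0.2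
  have k2 := swp_step (p := 6) (q := 12) (by norm_num) (by norm_num) hB k1.2
  have k3 := swp_step (p := 3) (q := 11) (by norm_num) (by norm_num) hB k2.2
  have k4 := swp_step (p := 1) (q := 5) (by norm_num) (by norm_num) hB k3.2
  refine ⟨_, by rw [hX, k0.1, k1.1, k2.1, k3.1, k4.1], k4.2, ?_⟩
  intro a b c d e f z hm h0 h1 h2 h3
  have hl : ∀ k, (fun k => lb E a b c d e f z (LC k)) k < 2 := fun k => lb_lt hE a b c d e f z (LC k)
  have key : (sb 10 15 (sb 8 14 (sb 6 12 (sb 3 11 (sb 1 5 (pk 16 (fun k => lb E a b c d e f z (LC k)))))))) = pk 16 (fun k => lb E a b e d c f z (LC k)) := by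
    repeat rw [sb_pk (by norm_num) (by norm_num) (fun k _ => hl _)]
    refine pk_congr fun k hk => ?_
    interval_cases k <;> simp [sp, lb, LC, LC, hE.s1, hE.s2, hE.s3]
  show F (sb 10 15 (sb 8 14 (sb 6 12 (sb 3 11 (sb 1 5 (pk 16 (fun k => lb E a b c d e f z (LC k)))))))) = _
  rw [key]
  exact hφ _ _ _ _ _ _ _ (by rw [← pc24_kk hE, hm]) (by rw [← h3]; simp [lb, hE.s1, hE.s2, hE.s3]) (by rw [← h1]; simp [lb, hE.s1, hE.s2, hE.s3]) (by rw [← h2]; simp [lb, hE.s1, hE.s2, hE.s3]) (by rw [← h0]; simp [lb, hE.s1, hE.s2, hE.s3])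

theorem stp13 (hE : Sy E) {B X m w0 w1 w2 w3 : ℕ} {φ : V → V → V → V → V → V → V → ℕ} (hB : B < 2 ^ 25)
    (h : Rc E LC 5 11 14 15 B X (pc35 m) w0 w2 w1 w3 φ) :
    Rc E LC 5 11 14 15 B (swp 25 16 0 13 (swp 25 16 1 14 (swp 25 16 3 15 (swp 25 16 5 8 (swp 25 16 10 11 X))))) m w0 w1 w2 w3 (fun a b c d e f z => φ a b c f e d z) := by
  obtain ⟨F, hX, hF, hφ⟩ := h
  have k0 := swp_step (p := 10) (q := 11) (by norm_num) (by norm_num) hB hF
  have k1 := swp_step (p := 5) (q := 8) (by norm_num) (by norm_num) hB k0.2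
  have k2 := swp_step (p := 3) (q := 15) (by norm_num) (by norm_num) hB k1.2
  have k3 := swp_step (p := 1) (q := 14) (by norm_num) (by norm_num) hB k2.2
  have k4 := swp_step (p := 0) (q := 13) (by norm_num) (by norm_num) hB k3.2
  refine ⟨_, by rw [hX, k0.1, k1.1, k2.1, k3.1, k4.1], k4.2, ?_⟩
  intro a b c d e f z hm h0 h1 h2 h3
  have hl : ∀ k, (fun k => lb E a b c d e f z (LC k)) k < 2 := fun k => lb_lt hE a b c d e f z (LC k)
  have key : (sb 10 11 (sb 5 8 (sb 3 15 (sb 1 14 (sb 0 13 (pk 16 (fun k => lb E a b c d e f z (LC k)))))))) = pk 16 (fun k => lb E a b c f e d z (LC k)) := by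
    repeat rw [sb_pk (by norm_num) (by norm_num) (fun k _ => hl _)]
    refine pk_congr fun k hk => ?_
    interval_cases k <;> simp [sp, lb, LC, LC, hE.s1, hE.s2, hE.s3]
  show F (sb 10 11 (sb 5 8 (sb 3 15 (sb 1 14 (sb 0 13 (pk 16 (fun k => lb E a b c d e f z (LC k)))))))) = _
  rw [key]
  exact hφ _ _ _ _ _ _ _ (by rw [← pc35_kk hE, hm]) (by rw [← h0]; simp [lb, hE.s1, hE.s2, hE.s3]) (by rw [← h2]; simp [lb, hE.s1, hE.s2, hE.s3]) (by rw [← h1]; simp [lb, hE.s1, hE.s2, hE.s3]) (by rw [← h3]; simp [lb, hE.s1, hE.s2, hE.s3])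

theorem stp14 (hE : Sy E) {B X m w0 w1 w2 w3 : ℕ} {φ : V → V → V → V → V → V → V → ℕ} (hB : B < 2 ^ 25)
    (h : Rc E LC 5 11 14 15 B X (pc25 m) w0 w3 w2 w1 φ) :
    Rc E LC 5 11 14 15 B (swp 25 16 0 12 (swp 25 16 2 14 (swp 25 16 4 15 (swp 25 16 5 7 (swp 25 16 9 11 X))))) m w0 w1 w2 w3 (fun a b c d e f z => φ a b f d e c z) := by
  obtain ⟨F, hX, hF, hφ⟩ := h
  have k0 := swp_step (p := 9) (q := 11) (by norm_num) (by norm_num) hB hF
  have k1 := swp_step (p := 5) (q := 7) (by norm_num) (by norm_num) hB k0.2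
  have k2 := swp_step (p := 4) (q := 15) (by norm_num) (by norm_num) hB k1.2
  have k3 := swp_step (p := 2) (q := 14) (by norm_num) (by norm_num) hB k2.2
  have k4 := swp_step (p := 0) (q := 12) (by norm_num) (by norm_num) hB k3.2
  refine ⟨_, by rw [hX, k0.1, k1.1, k2.1, k3.1, k4.1], k4.2, ?_⟩
  intro a b c d e f z hm h0 h1 h2 h3
  have hl : ∀ k, (fun k => lb E a b c d e f z (LC k)) k < 2 := fun k => lb_lt hE a b c d e f z (LC k)
  have key : (sb 9 11 (sb 5 7 (sb 4 15 (sb 2 14 (sb 0 12 (pk 16 (fun k => lb E a b c d e f z (LC k)))))))) = pk 16 (fun k => lb E a b f d e c z (LC k)) := by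
    repeat rw [sb_pk (by norm_num) (by norm_num) (fun k _ => hl _)]
    refine pk_congr fun k hk => ?_
    interval_cases k <;> simp [sp, lb, LC, LC, hE.s1, hE.s2, hE.s3]
  show F (sb 9 11 (sb 5 7 (sb 4 15 (sb 2 14 (sb 0 12 (pk 16 (fun k => lb E a b c d e f z (LC k)))))))) = _
  rw [key]
  exact hφ _ _ _ _ _ _ _ (by rw [← pc25_kk hE, hm]) (by rw [← h0]; simp [lb, hE.s1, hE.s2, hE.s3]) (by rw [← h3]; simp [lb, hE.s1, hE.s2, hE.s3]) (by rw [← h2]; simp [lb, hE.s1, hE.s2, hE.s3]) (by rw [← h1]; simp [lb, hE.s1, hE.s2, hE.s3])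

def W15 (E : V → V → V → V → ℕ) (a b c d e f z : V) : ℕ := TT E a b c d e f z
def W14 (E : V → V → V → V → ℕ) (a b c d e f z : V) : ℕ := TT E a b c d e f z + W15 E a b f d e c z
def W13 (E : V → V → V → V → ℕ) (a b c d e f z : V) : ℕ := TT E a b c d e f z + W14 E a b c f e d z
def W12 (E : V → V → V → V → ℕ) (a b c d e f z : V) : ℕ := TT E a b c d e f z + W13 E a b e d c f z
def W11 (E : V → V → V → V → ℕ) (a b c d e f z : V) : ℕ := TT E a b c d e f z + W12 E a b c f e d z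
def W10 (E : V → V → V → V → ℕ) (a b c d e f z : V) : ℕ := TT E a b c d e f z + W11 E a b c e d f z
def W9 (E : V → V → V → V → ℕ) (a b c d e f z : V) : ℕ := TT E a b c d e f z + W10 E a e c d b f z
def W8 (E : V → V → V → V → ℕ) (a b c d e f z : V) : ℕ := TT E a b c d e f z + W9 E a b c f e d z
def W7 (E : V → V → V → V → ℕ) (a b c d e f z : V) : ℕ := TT E a b c d e f z + W8 E a b f d e c z
def W6 (E : V → V → V → V → ℕ) (a b c d e f z : V) : ℕ := TT E a b c d e f z + W7 E a f c d e b z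
def W5 (E : V → V → V → V → ℕ) (a b c d e f z : V) : ℕ := (TT E a b c d e f z + YY E a b c d e f z) + W6 E e b c d a f z
def W4 (E : V → V → V → V → ℕ) (a b c d e f z : V) : ℕ := (TT E a b c d e f z + YY E a b c d e f z) + W5 E a b c f e d z
def W3 (E : V → V → V → V → ℕ) (a b c d e f z : V) : ℕ := (TT E a b c d e f z + YY E a b c d e f z) + W4 E a b f d e c z
def W2 (E : V → V → V → V → ℕ) (a b c d e f z : V) : ℕ := (TT E a b c d e f z + YY E a b c d e f z) + W3 E a f c d e b z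
def W1 (E : V → V → V → V → ℕ) (a b c d e f z : V) : ℕ := YY E a b c d e f z + W2 E f b c d e a z
def W0 (E : V → V → V → V → ℕ) (a b c d e f z : V) : ℕ := (TT E a b c d e f z + YY E a b c d e f z) + W1 E a b c d f e z

theorem rc15_rc (hE : Sy E) {m w0 w1 w2 w3 : ℕ} (hm : m < 2 ^ 15) (h0 : w0 < 2) (h1 : w1 < 2) (h2 : w2 < 2) (h3 : w3 < 2) :
    Rc E LC 5 11 14 15 997115 (rc15 m w0 w1 w2 w3) m w0 w1 w2 w3 (W15 E) := TC_rc hE hm h0 h1 h2 h3
theorem rc14_rc (hE : Sy E) {m w0 w1 w2 w3 : ℕ} (hm : m < 2 ^ 15) (h0 : w0 < 2) (h1 : w1 < 2) (h2 : w2 < 2) (h3 : w3 < 2) :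
    Rc E LC 5 11 14 15 1994230 (rc14 m w0 w1 w2 w3) m w0 w1 w2 w3 (W14 E) := by
  have h := rc15_rc hE (pc25_lt hm) h0 h3 h2 h1
  rw [← st_eq (fun m => rc15 m w0 w3 w2 w1) (pc25 m)] at h
  exact (TC_rc hE hm h0 h1 h2 h3).add (stp14 hE (by norm_num) h)
theorem rc13_rc (hE : Sy E) {m w0 w1 w2 w3 : ℕ} (hm : m < 2 ^ 15) (h0 : w0 < 2) (h1 : w1 < 2) (h2 : w2 < 2) (h3 : w3 < 2) :
    Rc E LC 5 11 14 15 2991345 (rc13 m w0 w1 w2 w3) m w0 w1 w2 w3 (W13 E) := by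
  have h := rc14_rc hE (pc35_lt hm) h0 h2 h1 h3
  rw [← st_eq (fun m => rc14 m w0 w2 w1 w3) (pc35 m)] at h
  exact (TC_rc hE hm h0 h1 h2 h3).add (stp13 hE (by norm_num) h)
theorem rc12_rc (hE : Sy E) {m w0 w1 w2 w3 : ℕ} (hm : m < 2 ^ 15) (h0 : w0 < 2) (h1 : w1 < 2) (h2 : w2 < 2) (h3 : w3 < 2) :
    Rc E LC 5 11 14 15 3988460 (rc12 m w0 w1 w2 w3) m w0 w1 w2 w3 (W12 E) := by
  have h := rc13_rc hE (pc24_lt hm) h3 h1 h2 h0
  rw [← st_eq (fun m => rc13 m w3 w1 w2 w0) (pc24 m)] at h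
  exact (TC_rc hE hm h0 h1 h2 h3).add (stp12 hE (by norm_num) h)
theorem rc11_rc (hE : Sy E) {m w0 w1 w2 w3 : ℕ} (hm : m < 2 ^ 15) (h0 : w0 < 2) (h1 : w1 < 2) (h2 : w2 < 2) (h3 : w3 < 2) :
    Rc E LC 5 11 14 15 4985575 (rc11 m w0 w1 w2 w3) m w0 w1 w2 w3 (W11 E) := by
  have h := rc12_rc hE (pc35_lt hm) h0 h2 h1 h3
  rw [← st_eq (fun m => rc12 m w0 w2 w1 w3) (pc35 m)] at h
  exact (TC_rc hE hm h0 h1 h2 h3).add (stp11 hE (by norm_num) h)
theorem rc10_rc (hE : Sy E) {m w0 w1 w2 w3 : ℕ} (hm : m < 2 ^ 15) (h0 : w0 < 2) (h1 : w1 < 2) (h2 : w2 < 2) (h3 : w3 < 2) :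
    Rc E LC 5 11 14 15 5982690 (rc10 m w0 w1 w2 w3) m w0 w1 w2 w3 (W10 E) := by
  have h := rc11_rc hE (pc34_lt hm) h2 h1 h0 h3
  rw [← st_eq (fun m => rc11 m w2 w1 w0 w3) (pc34 m)] at h
  exact (TC_rc hE hm h0 h1 h2 h3).add (stp10 hE (by norm_num) h)
theorem rc9_rc (hE : Sy E) {m w0 w1 w2 w3 : ℕ} (hm : m < 2 ^ 15) (h0 : w0 < 2) (h1 : w1 < 2) (h2 : w2 < 2) (h3 : w3 < 2) :
    Rc E LB 3 4 5 19 6979805 (rc9 m w0 w1 w2 w3) m w0 w1 w2 w3 (W9 E) := by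
  have h := rc10_rc hE (pc14_lt hm) h2 h3 h0 h1
  rw [← st_eq (fun m => rc10 m w2 w3 w0 w1) (pc14 m)] at h
  exact (TB_rc hE hm h0 h1 h2 h3).add (stp9 hE (by norm_num) h)
theorem rc8_rc (hE : Sy E) {m w0 w1 w2 w3 : ℕ} (hm : m < 2 ^ 15) (h0 : w0 < 2) (h1 : w1 < 2) (h2 : w2 < 2) (h3 : w3 < 2) :
    Rc E LB 3 4 5 19 7976920 (rc8 m w0 w1 w2 w3) m w0 w1 w2 w3 (W8 E) := by
  have h := rc9_rc hE (pc35_lt hm) h3 h1 h2 h0
  rw [← st_eq (fun m => rc9 m w3 w1 w2 w0) (pc35 m)] at h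
  exact (TB_rc hE hm h0 h1 h2 h3).add (stp8 hE (by norm_num) h)
theorem rc7_rc (hE : Sy E) {m w0 w1 w2 w3 : ℕ} (hm : m < 2 ^ 15) (h0 : w0 < 2) (h1 : w1 < 2) (h2 : w2 < 2) (h3 : w3 < 2) :
    Rc E LB 3 4 5 19 8974035 (rc7 m w0 w1 w2 w3) m w0 w1 w2 w3 (W7 E) := by
  have h := rc8_rc hE (pc25_lt hm) h0 h3 h2 h1
  rw [← st_eq (fun m => rc8 m w0 w3 w2 w1) (pc25 m)] at h
  exact (TB_rc hE hm h0 h1 h2 h3).add (stp7 hE (by norm_num) h)
theorem rc6_rc (hE : Sy E) {m w0 w1 w2 w3 : ℕ} (hm : m < 2 ^ 15) (h0 : w0 < 2) (h1 : w1 < 2) (h2 : w2 < 2) (h3 : w3 < 2) :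
    Rc E LB 3 4 5 19 9971150 (rc6 m w0 w1 w2 w3) m w0 w1 w2 w3 (W6 E) := by
  have h := rc7_rc hE (pc15_lt hm) h0 h1 h3 h2
  rw [← st_eq (fun m => rc7 m w0 w1 w3 w2) (pc15 m)] at h
  exact (TB_rc hE hm h0 h1 h2 h3).add (stp6 hE (by norm_num) h)
theorem rc5_rc (hE : Sy E) {m w0 w1 w2 w3 : ℕ} (hm : m < 2 ^ 15) (h0 : w0 < 2) (h1 : w1 < 2) (h2 : w2 < 2) (h3 : w3 < 2) :
    Rc E LB 3 4 5 19 11506635 (rc5 m w0 w1 w2 w3) m w0 w1 w2 w3 (W5 E) := by
  have h := rc6_rc hE (pc04_lt hm) h0 h1 h2 h3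
  rw [← st_eq (fun m => rc6 m w0 w1 w2 w3) (pc04 m)] at h
  exact (TBY_rc hE hm h0 h1 h2 h3).add (stp5 hE (by norm_num) h)
theorem rc4_rc (hE : Sy E) {m w0 w1 w2 w3 : ℕ} (hm : m < 2 ^ 15) (h0 : w0 < 2) (h1 : w1 < 2) (h2 : w2 < 2) (h3 : w3 < 2) :
    Rc E LB 3 4 5 19 13042120 (rc4 m w0 w1 w2 w3) m w0 w1 w2 w3 (W4 E) := by
  have h := rc5_rc hE (pc35_lt hm) h3 h1 h2 h0
  rw [← st_eq (fun m => rc5 m w3 w1 w2 w0) (pc35 m)] at h
  exact (TBY_rc hE hm h0 h1 h2 h3).add (stp4 hE (by norm_num) h)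
theorem rc3_rc (hE : Sy E) {m w0 w1 w2 w3 : ℕ} (hm : m < 2 ^ 15) (h0 : w0 < 2) (h1 : w1 < 2) (h2 : w2 < 2) (h3 : w3 < 2) :
    Rc E LB 3 4 5 19 14577605 (rc3 m w0 w1 w2 w3) m w0 w1 w2 w3 (W3 E) := by
  have h := rc4_rc hE (pc25_lt hm) h0 h3 h2 h1
  rw [← st_eq (fun m => rc4 m w0 w3 w2 w1) (pc25 m)] at h
  exact (TBY_rc hE hm h0 h1 h2 h3).add (stp3 hE (by norm_num) h)
theorem rc2_rc (hE : Sy E) {m w0 w1 w2 w3 : ℕ} (hm : m < 2 ^ 15) (h0 : w0 < 2) (h1 : w1 < 2) (h2 : w2 < 2) (h3 : w3 < 2) :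
    Rc E LB 3 4 5 19 16113090 (rc2 m w0 w1 w2 w3) m w0 w1 w2 w3 (W2 E) := by
  have h := rc3_rc hE (pc15_lt hm) h0 h1 h3 h2
  rw [← st_eq (fun m => rc3 m w0 w1 w3 w2) (pc15 m)] at h
  exact (TBY_rc hE hm h0 h1 h2 h3).add (stp2 hE (by norm_num) h)
theorem rc1_rc (hE : Sy E) {m w0 w1 w2 w3 : ℕ} (hm : m < 2 ^ 15) (h0 : w0 < 2) (h1 : w1 < 2) (h2 : w2 < 2) (h3 : w3 < 2) :
    Rc E LA 16 17 18 19 16651460 (rc1 m w0 w1 w2 w3) m w0 w1 w2 w3 (W1 E) := by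
  have h := rc2_rc hE (pc05_lt hm) h0 h1 h2 h3
  rw [← st_eq (fun m => rc2 m w0 w1 w2 w3) (pc05 m)] at h
  exact (TAY_rc hE hm h0 h1 h2 h3).add (stp1 hE (by norm_num) h)
theorem rc0_rc (hE : Sy E) {m w0 w1 w2 w3 : ℕ} (hm : m < 2 ^ 15) (h0 : w0 < 2) (h1 : w1 < 2) (h2 : w2 < 2) (h3 : w3 < 2) :
    Rc E LA 16 17 18 19 18186945 (rc0 m w0 w1 w2 w3) m w0 w1 w2 w3 (W0 E) := by
  have h := rc1_rc hE (pc45_lt hm) h0 h1 h2 h3
  rw [← st_eq (fun m => rc1 m w0 w1 w2 w3) (pc45 m)] at h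
  exact (TA_rc hE hm h0 h1 h2 h3).add (stp0 hE (by norm_num) h)

theorem CV_eq : CV = enc 25 16 (fun _ => 13399575) := by
  have h0 : 13399575 = enc 25 0 (fun _ => 13399575) := (enc_zero 25 (fun _ => 13399575)).symm
  have h1 := (congrArg (d2 25) h0).trans (enc_const_succ 25 0 13399575)
  have h2 := (congrArg (d2 50) h1).trans (enc_const_succ 25 1 13399575)
  have h3 := (congrArg (d2 100) h2).trans (enc_const_succ 25 2 13399575)
  have h4 := (congrArg (d2 200) h3).trans (enc_const_succ 25 3 13399575)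
  have h5 := (congrArg (d2 400) h4).trans (enc_const_succ 25 4 13399575)
  have h6 := (congrArg (d2 800) h5).trans (enc_const_succ 25 5 13399575)
  have h7 := (congrArg (d2 1600) h6).trans (enc_const_succ 25 6 13399575)
  have h8 := (congrArg (d2 3200) h7).trans (enc_const_succ 25 7 13399575)
  have h9 := (congrArg (d2 6400) h8).trans (enc_const_succ 25 8 13399575)
  have h10 := (congrArg (d2 12800) h9).trans (enc_const_succ 25 9 13399575)
  have h11 := (congrArg (d2 25600) h10).trans (enc_const_succ 25 10 13399575)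
  have h12 := (congrArg (d2 51200) h11).trans (enc_const_succ 25 11 13399575)
  have h13 := (congrArg (d2 102400) h12).trans (enc_const_succ 25 12 13399575)
  have h14 := (congrArg (d2 204800) h13).trans (enc_const_succ 25 13 13399575)
  have h15 := (congrArg (d2 409600) h14).trans (enc_const_succ 25 14 13399575)
  have h16 := (congrArg (d2 819200) h15).trans (enc_const_succ 25 15 13399575)
  exact h16

theorem TV_eq : TV = enc 25 16 (fun _ => 16777216) := by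
  have h0 : 16777216 = enc 25 0 (fun _ => 16777216) := (enc_zero 25 (fun _ => 16777216)).symm
  have h1 := (congrArg (d2 25) h0).trans (enc_const_succ 25 0 16777216)
  have h2 := (congrArg (d2 50) h1).trans (enc_const_succ 25 1 16777216)
  have h3 := (congrArg (d2 100) h2).trans (enc_const_succ 25 2 16777216)
  have h4 := (congrArg (d2 200) h3).trans (enc_const_succ 25 3 16777216)
  have h5 := (congrArg (d2 400) h4).trans (enc_const_succ 25 4 16777216)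
  have h6 := (congrArg (d2 800) h5).trans (enc_const_succ 25 5 16777216)
  have h7 := (congrArg (d2 1600) h6).trans (enc_const_succ 25 6 16777216)
  have h8 := (congrArg (d2 3200) h7).trans (enc_const_succ 25 7 16777216)
  have h9 := (congrArg (d2 6400) h8).trans (enc_const_succ 25 8 16777216)
  have h10 := (congrArg (d2 12800) h9).trans (enc_const_succ 25 9 16777216)
  have h11 := (congrArg (d2 25600) h10).trans (enc_const_succ 25 10 16777216)
  have h12 := (congrArg (d2 51200) h11).trans (enc_const_succ 25 11 16777216)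
  have h13 := (congrArg (d2 102400) h12).trans (enc_const_succ 25 12 16777216)
  have h14 := (congrArg (d2 204800) h13).trans (enc_const_succ 25 13 16777216)
  have h15 := (congrArg (d2 409600) h14).trans (enc_const_succ 25 14 16777216)
  have h16 := (congrArg (d2 819200) h15).trans (enc_const_succ 25 15 16777216)
  exact h16

theorem chk_le (hE : Sy E) {m w0 w1 w2 w3 : ℕ} (hm : m < 2 ^ 15) (h0 : w0 < 2) (h1 : w1 < 2) (h2 : w2 < 2) (h3 : w3 < 2)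
    (h : chk m w0 w1 w2 w3 = true) {a b c d e f z : V} (hk : kk E a b c d e f = m)
    (g0 : E a b c z = w0) (g1 : E a b d z = w1) (g2 : E a c d z = w2) (g3 : E b c d z = w3) :
    W0 E a b c d e f z ≤ 3377640 := by
  obtain ⟨F, hX, hF, hφ⟩ := rc0_rc hE hm h0 h1 h2 h3
  rw [← hφ a b c d e f z hk g0 g1 g2 g3]
  have h1 : Nat.land (Nat.add (st (fun m => rc0 m w0 w1 w2 w3) m) CV) TV = 0 := Nat.eq_of_beq_eq_true h
  rw [st_eq, hX, CV_eq, TV_eq] at h1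
  exact enc_le (s := 24) (n := 16) (C := 3377640) (f := F) (by norm_num)
    (fun i hi => by have := hF i hi; norm_num at this ⊢; omega) h1 (pk_lt fun k _ => lb_lt hE a b c d e f z (LA k))

end

end Pool.Agent.T2H33.K5
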