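import Pool.Agent.T2H33.K5.Swp

/-! Numbers given by their bits; vectors assembled bit by bit. -/

set_option autoImplicit false
set_option maxRecDepth 100000
open Finset

namespace Pool.Agent.T2H33.K5

theorem al_true {n : ℕ} {f : ℕ → Bool} (h : al n f = true) {k : ℕ} (hk : k < n) : f k = true := by
  induction n with
  | zero => omega
  | succ n ih =>
    have h' : cnd (f n) (al n f) false = true := h
    cases e : f n with
    | false => rw [e] at h'; exact absurd (show false = true from h') (by decide)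
    | true =>
      rw [e] at h'
      rcases Nat.lt_succ_iff_lt_or_eq.mp hk with hk | rfl
      · exact ih h' hk
      · exact e

theorem st_eq {α : Type} (f : ℕ → α) (n : ℕ) : st f n = f n := by cases n <;> rfl

/-- the number with the bits `f k`, `k < n` -/
def pk (n : ℕ) (f : ℕ → ℕ) : ℕ := ∑ k ∈ range n, f k * 2 ^ k

/-- exchange of two indices -/
def sp (p q k : ℕ) : ℕ := if k = p then q else if k = q then p else k

theorem pk_congr {n : ℕ} {f g : ℕ → ℕ} (h : ∀ k < n, f k = g k) : pk n f = pk n g :=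
  sum_congr rfl fun k hk => by rw [h k (mem_range.mp hk)]

theorem pk_succ (n : ℕ) (f : ℕ → ℕ) : pk (n + 1) f = pk n f + f n * 2 ^ n := sum_range_succ _ _

theorem pk_lt {n : ℕ} {f : ℕ → ℕ} (h : ∀ k < n, f k < 2) : pk n f < 2 ^ n := by
  induction n with
  | zero => simp [pk]
  | succ n ih =>
    rw [pk_succ]
    have h1 := ih fun k hk => h k (by omega)
    have h2 := h n (by omega)
    have h3 : f n * 2 ^ n ≤ 1 * 2 ^ n := Nat.mul_le_mul_right _ (by omega)
    rw [pow_succ]
    omega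

theorem pk_add (n m : ℕ) (f : ℕ → ℕ) : pk (n + m) f = pk n f + 2 ^ n * pk m (fun k => f (n + k)) := by
  unfold pk
  rw [sum_range_add, mul_sum]
  congr 1
  exact sum_congr rfl fun k _ => by rw [pow_add]; ring

theorem bt_pk {n : ℕ} {f : ℕ → ℕ} (h : ∀ k < n, f k < 2) {k : ℕ} (hk : k < n) : bt k (pk n f) = f k := by
  induction n with
  | zero => omega
  | succ n ih =>
    have hb : ∀ k < n, f k < 2 := fun k hk => h k (by omega)
    rw [pk_succ]
    rcases Nat.lt_succ_iff_lt_or_eq.mp hk with hk | rfl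
    · have h2 := h n (by omega)
      have : f n = 0 ∨ f n = 1 := by omega
      rcases this with h0 | h0 <;> rw [h0]
      · rw [zero_mul, add_zero]; exact ih hb hk
      · rw [one_mul, add_comm, bt_add hk]; exact ih hb hk
    · have h2 := h k (by omega)
      have : f k = 0 ∨ f k = 1 := by omega
      have hl := pk_lt hb
      rcases this with h0 | h0 <;> rw [h0]
      · rw [zero_mul, add_zero]; exact bt_lt hl
      · rw [one_mul, add_comm]; exact bt_add_self hl

theorem sb_pk {n p q : ℕ} {f : ℕ → ℕ} (hpq : p < q) (hq : q < n) (h : ∀ k < n, f k < 2) :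
    sb p q (pk n f) = pk n (fun k => f (sp p q k)) := by
  rw [sb_eq, bt_pk h (by omega), bt_pk h hq]
  have hp : p ∈ range n := mem_range.mpr (by omega)
  have hq' : q ∈ (range n).erase p := mem_erase.mpr ⟨by omega, mem_range.mpr hq⟩
  have e1 : pk n f = f p * 2 ^ p + (f q * 2 ^ q + ∑ k ∈ ((range n).erase p).erase q, f k * 2 ^ k) := by
    unfold pk
    rw [← add_sum_erase _ _ hp, ← add_sum_erase _ _ hq']
  have e2 : pk n (fun k => f (sp p q k)) = f q * 2 ^ p + (f p * 2 ^ q +
      ∑ k ∈ ((range n).erase p).erase q, f k * 2 ^ k) := by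
    unfold pk
    rw [← add_sum_erase _ _ hp, ← add_sum_erase _ _ hq']
    have h1 : sp p q p = q := by simp [sp]
    have h2 : sp p q q = p := by
      unfold sp
      rw [if_neg (by omega), if_pos rfl]
    show f (sp p q p) * 2 ^ p + (f (sp p q q) * 2 ^ q + _) = _
    rw [h1, h2]
    congr 2
    refine sum_congr rfl fun k hk => ?_
    simp only [mem_erase, mem_range] at hk
    have : sp p q k = k := by
      unfold sp
      rw [if_neg hk.2.1, if_neg hk.1]
    show f (sp p q k) * 2 ^ k = _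
    rw [this]
  have hpw : 2 ^ p < 2 ^ q := Nat.pow_lt_pow_right (by norm_num) hpq
  have hfp := h p (by omega)
  have hfq := h q hq
  rw [e1, e2]
  have a1 : f p = 0 ∨ f p = 1 := by omega
  have a2 : f q = 0 ∨ f q = 1 := by omega
  rcases a1 with h0 | h0 <;> rcases a2 with h1 | h1 <;> rw [h0, h1] <;> omega

theorem sp_lt {p q n k : ℕ} (hp : p < n) (hq : q < n) (hk : k < n) : sp p q k < n := by
  unfold sp
  split_ifs <;> assumption

theorem pk_mod {n m : ℕ} {f : ℕ → ℕ} (h : ∀ k < n + m, f k < 2) : pk (n + m) f % 2 ^ n = pk n f := by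
  rw [pk_add, Nat.add_mul_mod_self_left, Nat.mod_eq_of_lt (pk_lt fun k hk => h k (by omega))]

theorem pk_div {n m : ℕ} {f : ℕ → ℕ} (h : ∀ k < n + m, f k < 2) :
    pk (n + m) f / 2 ^ n = pk m (fun k => f (n + k)) := by
  rw [pk_add, Nat.add_mul_div_left _ _ (by positivity), Nat.div_eq_of_lt (pk_lt fun k hk => h k (by omega)),
    Nat.zero_add]

/-- adding a power of two at a zero bit does not change the other bits -/
theorem bt_add_pow {k x j : ℕ} (hk : bt k x = 0) (hj : j ≠ k) : bt j (x + 2 ^ k) = bt j x := by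
  rw [bt_eq] at hk
  rw [bt_eq, bt_eq]
  rcases Nat.lt_or_gt_of_ne hj with h | h
  · obtain ⟨r, rfl⟩ : ∃ r, k = j + (r + 1) := ⟨k - j - 1, by omega⟩
    rw [pow_add, Nat.add_mul_div_left _ _ (by positivity), pow_succ]
    omega
  · obtain ⟨r, rfl⟩ : ∃ r, j = k + (r + 1) := ⟨j - k - 1, by omega⟩
    rw [pow_add, ← Nat.div_div_eq_div_mul, ← Nat.div_div_eq_div_mul, Nat.add_div_right _ (by positivity)]
    rw [pow_succ', ← Nat.div_div_eq_div_mul, ← Nat.div_div_eq_div_mul]
    have : (x / 2 ^ k + 1) / 2 = x / 2 ^ k / 2 := by omega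
    rw [this]

theorem asm_zero (s m : ℕ) (f : ℕ → ℕ) : asm s m 0 f = f 0 := rfl
theorem asm_succ (s m n : ℕ) (f : ℕ → ℕ) : asm s m (n + 1) f =
    cnd (Nat.beq (bt n m) 0) (d2 (Nat.mul s (Nat.pow 2 n)) (asm s m n f))
      (Nat.add (asm s m n f) (Nat.shiftLeft (asm s m n fun i => f (Nat.add (Nat.pow 2 n) i)) (Nat.mul s (Nat.pow 2 n)))) := rfl

theorem asm_eq (s m n : ℕ) (f : ℕ → ℕ) (h : ∀ k < n, bt k m = 0 → ∀ x, bt k x = 0 → f (x + 2 ^ k) = f x) :
    asm s m n f = enc s n f := by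
  induction n generalizing f with
  | zero => rw [asm_zero, enc_zero]
  | succ n ih =>
    have ih0 := ih f fun k hk => h k (by omega)
    rw [asm_succ, enc_succ]
    rcases bt01 n m with hb | hb
    · rw [hb]
      show d2 (s * 2 ^ n) (asm s m n f) = _
      rw [ih0]
      show enc s n f + (enc s n f) <<< (s * 2 ^ n) = _
      rw [Nat.shiftLeft_eq]
      congr 2
      refine enc_congr fun i hi => ?_
      rw [add_comm, h n (by omega) hb i (bt_lt hi)]
    · rw [hb]
      show asm s m n f + (asm s m n fun i => f (2 ^ n + i)) <<< (s * 2 ^ n) = _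
      rw [ih0, ih (fun i => f (2 ^ n + i)), Nat.shiftLeft_eq]
      intro k hk hkm x hx
      show f (2 ^ n + (x + 2 ^ k)) = f (2 ^ n + x)
      rw [← add_assoc]
      exact h k (by omega) hkm _ (by rw [bt_add hk]; exact hx)

theorem enc_rep (s n : ℕ) (f : ℕ → ℕ) : d2 (s * 2 ^ n) (enc s n f) = enc s (n + 1) (fun i => f (i % 2 ^ n)) := by
  rw [enc_succ]
  show enc s n f + (enc s n f) <<< (s * 2 ^ n) = _
  rw [Nat.shiftLeft_eq]
  congr 1
  · exact enc_congr fun i hi => by rw [Nat.mod_eq_of_lt hi]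
  · congr 1
    exact enc_congr fun i hi => by rw [Nat.add_mod_left, Nat.mod_eq_of_lt hi]

theorem enc_land {s : ℕ} (hs : 0 < s) {n : ℕ} {f g : ℕ → ℕ} (hf : ∀ i < 2 ^ n, f i < 2 ^ s)
    (hg : ∀ i < 2 ^ n, g i < 2 ^ s) :
    Nat.land (enc s n f) (enc s n g) = enc s n (fun i => Nat.land (f i) (g i)) := by
  refine Nat.eq_of_testBit_eq fun t => ?_
  have hfg : ∀ i < 2 ^ n, (fun i => Nat.land (f i) (g i)) i < 2 ^ s := fun i hi =>
    lt_of_le_of_lt (Nat.and_le_left (n := f i) (m := g i)) (hf i hi)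
  rw [enc_testBit hs hfg]
  show (enc s n f &&& enc s n g).testBit t = (_ && (f (t / s) &&& g (t / s)).testBit (t % s))
  rw [Nat.testBit_and, Nat.testBit_and, enc_testBit hs hf, enc_testBit hs hg]
  cases decide (t / s < 2 ^ n) <;> simp

theorem enc_eq_zero {s : ℕ} (hs : 0 < s) {n : ℕ} {f : ℕ → ℕ} (hf : ∀ i < 2 ^ n, f i < 2 ^ s)
    (h : enc s n f = 0) {i : ℕ} (hi : i < 2 ^ n) : f i = 0 := by
  have h0 : enc s n (fun _ => 0) = 0 := by unfold enc; simp
  exact enc_inj hs hf (fun _ _ => by positivity) (h.trans h0.symm) hi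

/-- the comparison of all the fields with a constant -/
theorem enc_le {s : ℕ} {n C : ℕ} {f : ℕ → ℕ} (hC : C < 2 ^ s)
    (hf : ∀ i < 2 ^ n, f i + (2 ^ s - 1 - C) < 2 ^ (s + 1))
    (h : Nat.land (Nat.add (enc (s + 1) n f) (enc (s + 1) n (fun _ => 2 ^ s - 1 - C)))
      (enc (s + 1) n (fun _ => 2 ^ s)) = 0) {i : ℕ} (hi : i < 2 ^ n) : f i ≤ C := by
  have e : Nat.add (enc (s + 1) n f) (enc (s + 1) n (fun _ => 2 ^ s - 1 - C)) =
      enc (s + 1) n (fun i => f i + (2 ^ s - 1 - C)) := enc_add _ _ _ _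
  rw [e, enc_land (by omega) hf (fun i _ => Nat.pow_lt_pow_right (by norm_num) (by omega))] at h
  have h1 := enc_eq_zero (by omega) (fun i hi => lt_of_le_of_lt (Nat.and_le_left) (hf i hi)) h hi
  have h2 : (f i + (2 ^ s - 1 - C)) &&& 2 ^ s = 0 := h1
  have h3 : (f i + (2 ^ s - 1 - C)).testBit s = false := by
    have := congrArg (fun x => Nat.testBit x s) h2
    simpa [Nat.testBit_two_pow_self] using this
  have h4 : f i + (2 ^ s - 1 - C) < 2 ^ s := by
    refine Nat.lt_pow_two_of_testBit _ fun b hb => ?_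
    rcases Nat.eq_or_lt_of_le hb with rfl | hb
    · exact h3
    · exact Nat.testBit_lt_two_pow (lt_of_lt_of_le (hf i hi) (Nat.pow_le_pow_right (by norm_num) hb))
  omega

end Pool.Agent.T2H33.K5
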