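import Pool.Agent.T2H33.K5.Ker
import Pool.Agent.T2H33.K5.Pk

/-! The frames of a symmetric structure. -/

set_option autoImplicit false
set_option maxRecDepth 100000
open Finset

namespace Pool.Agent.T2H33.K5

noncomputable section

variable {V : Type}

/-- symmetric indicator of quadruples -/
structure Sy (E : V → V → V → V → ℕ) : Prop where
  s1 : ∀ a b c d, E b a c d = E a b c d
  s2 : ∀ a b c d, E a c b d = E a b c d
  s3 : ∀ a b c d, E a b d c = E a b c d
  lt : ∀ a b c d, E a b c d < 2

/-- the bits of a structure on six vertices -/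
def kb (E : V → V → V → V → ℕ) (a b c d e f : V) : ℕ → ℕ
  | 0 => E a b e f
  | 1 => E a c e f
  | 2 => E a d e f
  | 3 => E b c e f
  | 4 => E b d e f
  | 5 => E c d e f
  | 6 => E a b c f
  | 7 => E a b d f
  | 8 => E a c d f
  | 9 => E b c d f
  | 10 => E a b c e
  | 11 => E a b d e
  | 12 => E a c d e
  | 13 => E b c d e
  | 14 => E a b c d
  | _ => 0

/-- the code of a structure on six vertices -/
def kk (E : V → V → V → V → ℕ) (a b c d e f : V) : ℕ := pk 15 (kb E a b c d e f)

/-- the bits of the link of a vertex -/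
def lb (E : V → V → V → V → ℕ) (a b c d e f z : V) : ℕ → ℕ
  | 0 => E a b f z
  | 1 => E a c f z
  | 2 => E a d f z
  | 3 => E b c f z
  | 4 => E b d f z
  | 5 => E c d f z
  | 6 => E a b e z
  | 7 => E a c e z
  | 8 => E a d e z
  | 9 => E b c e z
  | 10 => E b d e z
  | 11 => E c d e z
  | 12 => E a e f z
  | 13 => E b e f z
  | 14 => E c e f z
  | 15 => E d e f z
  | 16 => E a b c z
  | 17 => E a b d z
  | 18 => E a c d z
  | 19 => E b c d z
  | _ => 0

/-- the code of the link of a vertex -/
def io (E : V → V → V → V → ℕ) (a b c d e f z : V) : ℕ := pk 20 (lb E a b c d e f z)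

/-- scalar product of two flags with five labelled vertices -/
def pv (m l : ℕ) : ℕ := Td 0 m * Td 0 l + (Td 1 m * Td 1 l + (Td 2 m * Td 2 l + (Td 3 m * Td 3 l + (Td 4 m + Td 4 l))))

/-- the class of two vertices over three labelled vertices -/
def kq (E : V → V → V → V → ℕ) (a b c x y : V) : ℕ :=
  8 * (E a b c x + E a b c y) + (E b c x y + (2 * E a c x y + 4 * E a b x y))

/-- scalar product of two flags with three labelled vertices -/
def QQ (E : V → V → V → V → ℕ) (a b c x y z w : V) : ℕ := Qf (kq E a b c x y) (kq E a b c z w)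

/-- terms of a frame -/
def TT (E : V → V → V → V → ℕ) (a b c d e f z : V) : ℕ :=
  (pv (kk E a b c d z e) (kk E a b c d z f) +
    (QQ E b c d e f a z + (QQ E a c d e f b z + (QQ E a b d e f c z + QQ E a b c e f d z)))) +
    (QQ E e f z a b c d + (QQ E e f z a c b d + QQ E e f z a d b c))

/-- terms of the pairs with the last vertex -/
def YY (E : V → V → V → V → ℕ) (a b c d e f z : V) : ℕ := pv (kk E a b c d e f) (kk E a b c d e z)

theorem kb_lt {E : V → V → V → V → ℕ} (hE : Sy E) (a b c d e f : V) (k : ℕ) : kb E a b c d e f k < 2 := by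
  unfold kb
  split <;> first | exact hE.lt _ _ _ _ | norm_num

theorem lb_lt {E : V → V → V → V → ℕ} (hE : Sy E) (a b c d e f z : V) (k : ℕ) : lb E a b c d e f z k < 2 := by
  unfold lb
  split <;> first | exact hE.lt _ _ _ _ | norm_num

end

end Pool.Agent.T2H33.K5
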