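import Mathlib.Data.Nat.Notation

/-! Primitive functions for computations checked by the kernel (after `Pool.Agent.Y435.T7.Prim`). -/

set_option autoImplicit false

namespace Pool.Agent.T2H33.K5

noncomputable section

/-- evaluation with the argument reduced first -/
def st {α : Type} (f : ℕ → α) (n : ℕ) : α := Nat.rec (f 0) (fun k _ => f (Nat.succ k)) n

/-- if-then-else on booleans -/
def cnd {α : Type} (c : Bool) (x y : α) : α := @Bool.rec (fun _ => α) y x c

/-- conjunction over `k < n` -/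
def al (n : ℕ) (f : ℕ → Bool) : Bool := @Nat.rec (fun _ => Bool) true (fun k s => cnd (f k) s false) n

/-- bit `k` of `c` -/
def bt (k c : ℕ) : ℕ := Nat.mod (Nat.shiftRight c k) 2

/-- exchange of the bits `p < q` -/
def sb (p q i : ℕ) : ℕ := Nat.sub (Nat.add i (Nat.mul (bt p i) (Nat.sub (Nat.pow 2 q) (Nat.pow 2 p))))
  (Nat.mul (bt q i) (Nat.sub (Nat.pow 2 q) (Nat.pow 2 p)))

/-- binary trees of numbers -/
inductive Tr : Type
  | l : ℕ → Tr
  | n : Tr → Tr → Tr

/-- the entry of a tree at an address, least significant bit first -/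
def get (t : Tr) : ℕ → ℕ :=
  @Tr.rec (fun _ => ℕ → ℕ) (fun v _ => v)
    (fun _ _ iha ihb q => cnd (Nat.beq (Nat.mod q 2) 0) (iha (Nat.div q 2)) (ihb (Nat.div q 2))) t

/-- `x + x * 2 ^ s` -/
def d2 (s x : ℕ) : ℕ := Nat.add x (Nat.shiftLeft x s)

/-- exchange of fields: `m` is the mask of the lower fields, `s` the distance -/
def sw (m s x : ℕ) : ℕ :=
  Nat.xor x (Nat.xor (Nat.land (Nat.xor (Nat.shiftRight x s) x) m)
    (Nat.shiftLeft (Nat.land (Nat.xor (Nat.shiftRight x s) x) m) s))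

/-- mask of the fields of width `s` whose index has bit `p` one and bit `q` zero -/
def mk (s p q n : ℕ) : ℕ :=
  @Nat.rec (fun _ => ℕ) (Nat.sub (Nat.pow 2 s) 1)
    (fun n ih => cnd (Nat.beq n p) (Nat.shiftLeft ih (Nat.mul s (Nat.pow 2 n)))
      (cnd (Nat.beq n q) ih (Nat.add ih (Nat.shiftLeft ih (Nat.mul s (Nat.pow 2 n)))))) n

/-- exchange of the index bits `p < q` of a vector of `2 ^ n` fields of width `s` -/
def swp (s n p q x : ℕ) : ℕ := sw (mk s p q n) (Nat.mul s (Nat.sub (Nat.pow 2 q) (Nat.pow 2 p))) x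

/-- the vector with `2 ^ n` fields given by a function; the index bits not in `m` are ignored -/
def asm (s m : ℕ) : ℕ → (ℕ → ℕ) → ℕ :=
  @Nat.rec (fun _ => (ℕ → ℕ) → ℕ) (fun f => f 0)
    (fun n ih f => cnd (Nat.beq (bt n m) 0) (d2 (Nat.mul s (Nat.pow 2 n)) (ih f))
      (Nat.add (ih f) (Nat.shiftLeft (ih fun i => f (Nat.add (Nat.pow 2 n) i)) (Nat.mul s (Nat.pow 2 n)))))

end

end Pool.Agent.T2H33.K5
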