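import Mathlib
import Pool.Agent.T2H33.K5.Prim

/-! Packed vectors. -/

set_option autoImplicit false
set_option maxRecDepth 100000
open Finset

namespace Pool.Agent.T2H33.K5

/-- the number with the fields `f i` of width `s`, for `i < 2 ^ n` -/
def enc (s n : ℕ) (f : ℕ → ℕ) : ℕ := ∑ i ∈ range (2 ^ n), f i * 2 ^ (s * i)
/-- field `i` of width `s` -/
def fld (s N i : ℕ) : ℕ := N / 2 ^ (s * i) % 2 ^ s

theorem enc_congr {s n : ℕ} {f g : ℕ → ℕ} (h : ∀ i < 2 ^ n, f i = g i) : enc s n f = enc s n g :=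
  sum_congr rfl fun i hi => by rw [h i (mem_range.mp hi)]

theorem enc_zero (s : ℕ) (f : ℕ → ℕ) : enc s 0 f = f 0 := by simp [enc]

theorem enc_succ (s n : ℕ) (f : ℕ → ℕ) :
    enc s (n + 1) f = enc s n f + enc s n (fun i => f (2 ^ n + i)) * 2 ^ (s * 2 ^ n) := by
  unfold enc
  rw [pow_succ, mul_two, sum_range_add, sum_mul]
  congr 1
  refine sum_congr rfl fun i _ => ?_
  rw [mul_add s, pow_add]
  ring

theorem enc_lt {s n : ℕ} {f : ℕ → ℕ} (h : ∀ i < 2 ^ n, f i < 2 ^ s) : enc s n f < 2 ^ (s * 2 ^ n) := by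
  induction n generalizing f with
  | zero => rw [enc_zero]; simpa using h 0 (by norm_num)
  | succ n ih =>
    rw [enc_succ]
    have h1 := ih (f := f) fun i hi => h i (by rw [pow_succ]; omega)
    have h2 := ih (f := fun i => f (2 ^ n + i)) fun i hi => h _ (by rw [pow_succ]; omega)
    have e : 2 ^ (s * 2 ^ (n + 1)) = 2 ^ (s * 2 ^ n) * 2 ^ (s * 2 ^ n) := by
      rw [← pow_add]; congr 1; ring
    rw [e]
    calc _ < 2 ^ (s * 2 ^ n) + enc s n (fun i => f (2 ^ n + i)) * 2 ^ (s * 2 ^ n) := Nat.add_lt_add_right h1 _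
      _ = (enc s n (fun i => f (2 ^ n + i)) + 1) * 2 ^ (s * 2 ^ n) := by ring
      _ ≤ _ := Nat.mul_le_mul_right _ h2

theorem enc_add (s n : ℕ) (f g : ℕ → ℕ) : enc s n f + enc s n g = enc s n (fun i => f i + g i) := by
  unfold enc
  rw [← sum_add_distrib]
  exact sum_congr rfl fun i _ => by ring

theorem enc_mulc (s n c : ℕ) (f : ℕ → ℕ) : enc s n f * c = enc s n (fun i => f i * c) := by
  unfold enc
  rw [sum_mul]
  exact sum_congr rfl fun i _ => by ring

theorem enc_prod (s k : ℕ) (f g : ℕ → ℕ) (n : ℕ) :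
    enc (s * 2 ^ k) n f * enc s k g = enc s (n + k) (fun i => f (i / 2 ^ k) * g (i % 2 ^ k)) := by
  have hk : 0 < 2 ^ k := by positivity
  induction n generalizing f with
  | zero =>
    rw [enc_zero, Nat.zero_add, mul_comm, enc_mulc]
    refine enc_congr fun i hi => ?_
    rw [Nat.div_eq_of_lt hi, Nat.mod_eq_of_lt hi, mul_comm]
  | succ n ih =>
    have h1 := ih f
    have h2 := ih (fun i => f (2 ^ n + i))
    rw [show n + 1 + k = n + k + 1 by ring, enc_succ, enc_succ, add_mul, h1]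
    congr 1
    rw [mul_right_comm, h2]
    have e : s * 2 ^ k * 2 ^ n = s * 2 ^ (n + k) := by rw [pow_add]; ring
    rw [e]
    congr 1
    refine enc_congr fun i _ => ?_
    have e1 : (2 ^ (n + k) + i) / 2 ^ k = 2 ^ n + i / 2 ^ k := by
      rw [pow_add, Nat.add_div_of_dvd_right (Dvd.intro_left _ rfl), Nat.mul_div_cancel _ hk]
    have e2 : (2 ^ (n + k) + i) % 2 ^ k = i % 2 ^ k := by
      rw [pow_add, Nat.mul_add_mod_self_right]
    rw [e1, e2]

theorem enc_nest (s k : ℕ) (F : ℕ → ℕ → ℕ) (n : ℕ) :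
    enc (s * 2 ^ k) n (fun j => enc s k (F j)) = enc s (n + k) (fun i => F (i / 2 ^ k) (i % 2 ^ k)) := by
  have hk : 0 < 2 ^ k := by positivity
  induction n generalizing F with
  | zero =>
    rw [enc_zero, Nat.zero_add]
    refine enc_congr fun i hi => ?_
    rw [Nat.div_eq_of_lt hi, Nat.mod_eq_of_lt hi]
  | succ n ih =>
    rw [show n + 1 + k = n + k + 1 by ring, enc_succ, enc_succ, ih F, ih (fun j => F (2 ^ n + j))]
    have e : s * 2 ^ k * 2 ^ n = s * 2 ^ (n + k) := by rw [pow_add]; ring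
    rw [e]
    congr 2
    refine enc_congr fun i _ => ?_
    have e1 : (2 ^ (n + k) + i) / 2 ^ k = 2 ^ n + i / 2 ^ k := by
      rw [pow_add, Nat.add_div_of_dvd_right (Dvd.intro_left _ rfl), Nat.mul_div_cancel _ hk]
    have e2 : (2 ^ (n + k) + i) % 2 ^ k = i % 2 ^ k := by
      rw [pow_add, Nat.mul_add_mod_self_right]
    rw [e1, e2]

theorem enc_testBit {s : ℕ} (hs : 0 < s) {n : ℕ} {f : ℕ → ℕ} (h : ∀ i < 2 ^ n, f i < 2 ^ s) (t : ℕ) :
    (enc s n f).testBit t = (decide (t / s < 2 ^ n) && (f (t / s)).testBit (t % s)) := by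
  induction n generalizing f t with
  | zero =>
    rw [enc_zero]
    by_cases ht : t < s
    · rw [Nat.div_eq_of_lt ht, Nat.mod_eq_of_lt ht]; simp
    · have h1 : ¬ (t / s < 2 ^ 0) := by
        rw [pow_zero, Nat.lt_one_iff, Nat.div_eq_zero_iff]; omega
      rw [decide_eq_false h1, Bool.false_and]
      exact Nat.testBit_lt_two_pow (lt_of_lt_of_le (h 0 (by norm_num))
        (Nat.pow_le_pow_right (by norm_num) (by omega)))
  | succ n ih =>
    have hp : 2 ^ (n + 1) = 2 ^ n + 2 ^ n := by rw [pow_succ]; ring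
    have hpos : 0 < 2 ^ n := by positivity
    rw [enc_succ, add_comm, mul_comm,
      Nat.testBit_two_pow_mul_add _ (enc_lt fun i hi => h i (by omega))]
    split_ifs with ht
    · rw [ih (fun i hi => h i (by omega))]
      have h1 : t / s < 2 ^ n := (Nat.div_lt_iff_lt_mul hs).mpr (by rwa [mul_comm])
      have h2 : t / s < 2 ^ (n + 1) := by omega
      rw [decide_eq_true h1, decide_eq_true h2]
    · rw [ih (f := fun i => f (2 ^ n + i)) (fun i hi => h _ (by omega))]
      have h3 : 2 ^ n ≤ t / s := (Nat.le_div_iff_mul_le hs).mpr (by rw [mul_comm]; omega)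
      have e1 : (t - s * 2 ^ n) / s = t / s - 2 ^ n := Nat.sub_mul_div _ _ _
      have e2 : (t - s * 2 ^ n) % s = t % s := Nat.sub_mul_mod (by omega)
      rw [e1, e2]
      congr 1
      · exact decide_eq_decide.mpr (by omega)
      · show (f (2 ^ n + (t / s - 2 ^ n))).testBit (t % s) = _
        rw [Nat.add_sub_cancel' h3]

theorem fld_testBit (s N i j : ℕ) : (fld s N i).testBit j = (decide (j < s) && N.testBit (j + s * i)) := by
  unfold fld
  rw [Nat.testBit_mod_two_pow, Nat.testBit_div_two_pow]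

theorem fld_lt (s N i : ℕ) : fld s N i < 2 ^ s := Nat.mod_lt _ (by positivity)

theorem fld_enc {s : ℕ} (hs : 0 < s) {n : ℕ} {f : ℕ → ℕ} (h : ∀ i < 2 ^ n, f i < 2 ^ s) {i : ℕ}
    (hi : i < 2 ^ n) : fld s (enc s n f) i = f i := by
  refine Nat.eq_of_testBit_eq fun j => ?_
  rw [fld_testBit, enc_testBit hs h]
  by_cases hj : j < s
  · have e1 : (j + s * i) / s = i := by
      rw [Nat.add_mul_div_left _ _ hs, Nat.div_eq_of_lt hj, Nat.zero_add]
    have e2 : (j + s * i) % s = j := by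
      rw [Nat.add_mul_mod_self_left, Nat.mod_eq_of_lt hj]
    rw [e1, e2, decide_eq_true hj, decide_eq_true hi, Bool.true_and, Bool.true_and]
  · rw [decide_eq_false hj, Bool.false_and]
    exact (Nat.testBit_lt_two_pow (lt_of_lt_of_le (h i hi) (Nat.pow_le_pow_right (by norm_num) (by omega)))).symm

theorem enc_fld {s : ℕ} (hs : 0 < s) {n N : ℕ} (h : N < 2 ^ (s * 2 ^ n)) : enc s n (fld s N) = N := by
  refine Nat.eq_of_testBit_eq fun t => ?_
  rw [enc_testBit hs (fun i _ => fld_lt s N i), fld_testBit, decide_eq_true (Nat.mod_lt t hs), Bool.true_and,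
    Nat.mod_add_div]
  by_cases ht : t / s < 2 ^ n
  · rw [decide_eq_true ht, Bool.true_and]
  · rw [decide_eq_false ht, Bool.false_and]
    refine (Nat.testBit_lt_two_pow (lt_of_lt_of_le h (Nat.pow_le_pow_right (by norm_num) ?_))).symm
    rw [mul_comm]
    exact (Nat.le_div_iff_mul_le hs).mp (by omega)

theorem fld_fld {s k : ℕ} (N i j : ℕ) (hj : j < 2 ^ k) :
    fld s (fld (s * 2 ^ k) N i) j = fld s N (2 ^ k * i + j) := by
  refine Nat.eq_of_testBit_eq fun t => ?_
  rw [fld_testBit, fld_testBit, fld_testBit]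
  by_cases ht : t < s
  · have h1 : t + s * j < s * 2 ^ k := by
      calc t + s * j < s + s * j := by omega
        _ = s * (j + 1) := by ring
        _ ≤ s * 2 ^ k := Nat.mul_le_mul_left _ hj
    rw [decide_eq_true h1, Bool.true_and]
    congr 2
    ring
  · rw [decide_eq_false ht, Bool.false_and, Bool.false_and]

theorem enc_inj {s : ℕ} (hs : 0 < s) {n : ℕ} {f g : ℕ → ℕ} (hf : ∀ i < 2 ^ n, f i < 2 ^ s)
    (hg : ∀ i < 2 ^ n, g i < 2 ^ s) (h : enc s n f = enc s n g) {i : ℕ} (hi : i < 2 ^ n) : f i = g i := by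
  rw [← fld_enc hs hf hi, h, fld_enc hs hg hi]

theorem land_ones (N s j : ℕ) : Nat.land (Nat.shiftRight N (s * j)) (2 ^ s - 1) = fld s N j := by
  show (N >>> (s * j)) &&& (2 ^ s - 1) = _
  rw [Nat.and_two_pow_sub_one_eq_mod, Nat.shiftRight_eq_div_pow]
  rfl

theorem land_ones0 (N s : ℕ) : Nat.land N (2 ^ s - 1) = N % 2 ^ s := Nat.and_two_pow_sub_one_eq_mod _ _

/-- fields of fields -/
theorem enc_sub {s k n : ℕ} (hs : 0 < s) {R : ℕ → ℕ} (hR : ∀ i < 2 ^ n, R i < 2 ^ (s * 2 ^ k)) {j : ℕ}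
    (hj : j < 2 ^ k) :
    Nat.land (Nat.shiftRight (enc (s * 2 ^ k) n R) (s * j)) (enc (s * 2 ^ k) n (fun _ => 2 ^ s - 1))
      = enc (s * 2 ^ k) n (fun i => fld s (R i) j) := by
  have hS : 0 < s * 2 ^ k := by positivity
  have hsS : s ≤ s * 2 ^ k := Nat.le_mul_of_pos_right _ (by positivity)
  have hone : ∀ i < 2 ^ n, (fun _ : ℕ => 2 ^ s - 1) i < 2 ^ (s * 2 ^ k) := fun i _ =>
    lt_of_lt_of_le (Nat.sub_lt (by positivity) one_pos) (Nat.pow_le_pow_right (by norm_num) hsS)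
  have hfl : ∀ i < 2 ^ n, (fun i => fld s (R i) j) i < 2 ^ (s * 2 ^ k) := fun i _ =>
    lt_of_lt_of_le (fld_lt _ _ _) (Nat.pow_le_pow_right (by norm_num) hsS)
  have h1 : s * (j + 1) ≤ s * 2 ^ k := Nat.mul_le_mul_left _ hj
  have h1' : s * (j + 1) = s * j + s := by ring
  refine Nat.eq_of_testBit_eq fun t => ?_
  show ((enc (s * 2 ^ k) n R) >>> (s * j) &&& _).testBit t = _
  rw [Nat.testBit_and, Nat.testBit_shiftRight, enc_testBit hS hR, enc_testBit hS hone, enc_testBit hS hfl,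
    Nat.testBit_two_pow_sub_one, fld_testBit]
  set S := s * 2 ^ k
  by_cases ht : t % S < s
  · have e0 : s * j + t = (t % S + s * j) + S * (t / S) := by
      have := Nat.mod_add_div t S
      omega
    have hlt : t % S + s * j < S := by omega
    have e1 : (s * j + t) / S = t / S := by
      rw [e0, Nat.add_mul_div_left _ _ hS, Nat.div_eq_of_lt hlt, Nat.zero_add]
    have e2 : (s * j + t) % S = t % S + s * j := by
      rw [e0, Nat.add_mul_mod_self_left, Nat.mod_eq_of_lt hlt]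
    rw [e1, e2, decide_eq_true ht]
    cases decide (t / S < 2 ^ n) <;> simp
  · rw [decide_eq_false ht]
    simp

end Pool.Agent.T2H33.K5
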