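import Pool.Agent.T2H33.K5.Sum

/-! Families of quadruples without five complete points, and covering families. -/

set_option autoImplicit false
open Finset Filter Topology

namespace Pool.Agent.T2H33.K5

section
variable {V : Type} [Fintype V] [DecidableEq V]

/-- indicator of a quadruple -/
def ind (H : Finset (Finset V)) (a b c d : V) : ℕ := if ({a, b, c, d} : Finset V) ∈ H then 1 else 0

omit [Fintype V] in
theorem ind_sy (H : Finset (Finset V)) : Sy (ind H) where
  s1 := fun a b c d => by
    unfold ind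
    rw [show ({b, a, c, d} : Finset V) = {a, b, c, d} from by ext; simp; tauto]
  s2 := fun a b c d => by
    unfold ind
    rw [show ({a, c, b, d} : Finset V) = {a, b, c, d} from by ext; simp; tauto]
  s3 := fun a b c d => by
    unfold ind
    rw [show ({a, b, d, c} : Finset V) = {a, b, c, d} from by ext; simp; tauto]
  lt := fun a b c d => by
    unfold ind
    split_ifs <;> norm_num

omit [Fintype V] in
theorem ind_one {H : Finset (Finset V)} {a b c d : V} (h : ind H a b c d = 1) :
    ({a, b, c, d} : Finset V) ∈ H := by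
  unfold ind at h
  by_contra hc
  rw [if_neg hc] at h
  exact absurd h (by norm_num)

/-- no five points all of whose quadruples are in the family -/
def NoK5 (H : Finset (Finset V)) : Prop :=
  ∀ a b c d e : V, ¬ (({a, b, c, d} : Finset V) ∈ H ∧ ({a, b, c, e} : Finset V) ∈ H ∧
    ({a, b, d, e} : Finset V) ∈ H ∧ ({a, c, d, e} : Finset V) ∈ H ∧ ({b, c, d, e} : Finset V) ∈ H)

omit [Fintype V] in
theorem ind_nk {H : Finset (Finset V)} (hK : NoK5 H) : NK (ind H) :=
  fun a b c d e ⟨h1, h2, h3, h4, h5⟩ => hK a b c d e ⟨ind_one h1, ind_one h2, ind_one h3, ind_one h4, ind_one h5⟩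

/-- every quadruple has twenty-four orderings -/
theorem orderings (S : Finset V) (hS : S.card = 4) :
    24 ≤ ∑ a : V, ∑ b : V, ∑ c : V, ∑ d : V, if ({a, b, c, d} : Finset V) = S then 1 else 0 := by
  have e := S.equivFinOfCardEq hS
  set f : Fin 4 → V := fun i => (e.symm i : V) with hf
  have finj : Function.Injective f := fun i j h => e.symm.injective (Subtype.ext h)
  have himg : ∀ s : Equiv.Perm (Fin 4), ({f (s 0), f (s 1), f (s 2), f (s 3)} : Finset V) = S := by
    intro s
    have h1 : ({f (s 0), f (s 1), f (s 2), f (s 3)} : Finset V) = univ.image (fun i => f (s i)) := by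
      ext v
      simp only [mem_insert, mem_singleton, mem_image, mem_univ, true_and]
      constructor
      · rintro (rfl | rfl | rfl | rfl)
        · exact ⟨0, rfl⟩
        · exact ⟨1, rfl⟩
        · exact ⟨2, rfl⟩
        · exact ⟨3, rfl⟩
      · rintro ⟨i, rfl⟩
        fin_cases i <;> simp
    rw [h1]
    ext v
    simp only [mem_image, mem_univ, true_and]
    constructor
    · rintro ⟨i, rfl⟩
      exact (e.symm (s i)).2
    · intro hv
      refine ⟨s.symm (e ⟨v, hv⟩), ?_⟩
      simp [hf]
  have hcount : (univ.filter fun t : V × V × V × V => ({t.1, t.2.1, t.2.2.1, t.2.2.2} : Finset V) = S).card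
      = ∑ a : V, ∑ b : V, ∑ c : V, ∑ d : V, if ({a, b, c, d} : Finset V) = S then 1 else 0 := by
    rw [card_filter]
    simp only [Fintype.sum_prod_type]
  rw [← hcount]
  have h24 : (univ : Finset (Equiv.Perm (Fin 4))).card = 24 := by
    rw [card_univ, Fintype.card_perm]
    rfl
  rw [← h24]
  refine card_le_card_of_injOn (fun s => (f (s 0), f (s 1), f (s 2), f (s 3))) ?_ ?_
  · intro s _
    simp only [mem_coe, mem_filter, mem_univ, true_and]
    exact himg s
  · intro s _ t _ hst
    simp only [Prod.mk.injEq] at hst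
    obtain ⟨h0, h1, h2, h3⟩ := hst
    ext i
    fin_cases i
    · exact congrArg Fin.val (finj h0)
    · exact congrArg Fin.val (finj h1)
    · exact congrArg Fin.val (finj h2)
    · exact congrArg Fin.val (finj h3)

theorem card_le_sum (H : Finset (Finset V)) (h4 : ∀ S ∈ H, S.card = 4) : 24 * H.card ≤ S4 (ind H) := by
  calc 24 * H.card = ∑ S ∈ H, 24 := by rw [sum_const, smul_eq_mul, mul_comm]
    _ ≤ ∑ S ∈ H, ∑ a : V, ∑ b : V, ∑ c : V, ∑ d : V, (if ({a, b, c, d} : Finset V) = S then 1 else 0) :=
        sum_le_sum fun S hS => orderings S (h4 S hS)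
    _ = ∑ a : V, ∑ b : V, ∑ c : V, ∑ d : V, ∑ S ∈ H, (if ({a, b, c, d} : Finset V) = S then 1 else 0) := by
        rw [Finset.sum_comm]
        refine sum_congr rfl fun a _ => ?_
        rw [Finset.sum_comm]
        refine sum_congr rfl fun b _ => ?_
        rw [Finset.sum_comm]
        refine sum_congr rfl fun c _ => ?_
        rw [Finset.sum_comm]
    _ = _ := by
        refine sum_congr rfl fun a _ => sum_congr rfl fun b _ => sum_congr rfl fun c _ =>
          sum_congr rfl fun d _ => ?_
        rw [Finset.sum_ite_eq]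
        rfl

/-- **quadruple systems without five complete points** -/
theorem graph_main (H : Finset (Finset V)) (h4 : ∀ S ∈ H, S.card = 4) (hK : NoK5 H) :
    1008000 * H.card ≤ 29897 * Fintype.card V ^ 4 := by
  have h1 := card_le_sum H h4
  have h2 := main_ineq (ind_sy H) (ind_nk hK)
  omega

end

/-- `F` is a family of `4`-element subsets of `Fin n` such that every `5`-element subset contains a
member of `F` -/
def Covers (n : ℕ) (F : Finset (Finset (Fin n))) : Prop :=
  (∀ S ∈ F, S.card = 4) ∧ ∀ T : Finset (Fin n), T.card = 5 → ∃ S ∈ F, S ⊆ T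

theorem quad_eq {V : Type} [DecidableEq V] {a b c d : V} (h : ({a, b, c, d} : Finset V).card = 4) :
    a ≠ b ∧ a ≠ c ∧ a ≠ d ∧ b ≠ c ∧ b ≠ d ∧ c ≠ d := by
  have key : ∀ p q r : V, ({p, q, r} : Finset V).card ≤ 3 := fun p q r => Finset.card_le_three
  refine ⟨?_, ?_, ?_, ?_, ?_, ?_⟩
  · rintro rfl
    rw [show ({a, a, c, d} : Finset V) = {a, c, d} from by ext; simp] at h
    have := key a c d; omega
  · rintro rfl
    rw [show ({a, b, a, d} : Finset V) = {a, b, d} from by ext; simp; tauto] at h
    have := key a b d; omega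
  · rintro rfl
    rw [show ({a, b, c, a} : Finset V) = {a, b, c} from by ext; simp; tauto] at h
    have := key a b c; omega
  · rintro rfl
    rw [show ({a, b, b, d} : Finset V) = {a, b, d} from by ext; simp] at h
    have := key a b d; omega
  · rintro rfl
    rw [show ({a, b, c, b} : Finset V) = {a, b, c} from by ext; simp; tauto] at h
    have := key a b c; omega
  · rintro rfl
    rw [show ({a, b, c, c} : Finset V) = {a, b, c} from by ext; simp] at h
    have := key a b c; omega

theorem noK5_of {V : Type} [Fintype V] [DecidableEq V] (F H : Finset (Finset V)) (h4 : ∀ S ∈ H, S.card = 4)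
    (hF : ∀ S ∈ F, S.card = 4) (hc : ∀ T : Finset V, T.card = 5 → ∃ S ∈ F, S ⊆ T)
    (hd : ∀ S ∈ H, S ∉ F) : NoK5 H := by
  rintro a b c d e ⟨h1, h2, h3, h4', h5⟩
  obtain ⟨ab, ac, ad, bc, bd, cd'⟩ := quad_eq (h4 _ h1)
  obtain ⟨-, -, ae, -, be, ce⟩ := quad_eq (h4 _ h2)
  obtain ⟨-, -, -, -, -, de⟩ := quad_eq (h4 _ h3)
  have hT : ({a, b, c, d, e} : Finset V).card = 5 := by
    rw [card_insert_of_notMem, card_insert_of_notMem, card_insert_of_notMem, card_insert_of_notMem,
      card_singleton]
    · simp [de]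
    · simp [cd', ce]
    · simp [bc, bd, be]
    · simp [ab, ac, ad, ae]
  obtain ⟨S, hS, hST⟩ := hc _ hT
  have hS4 := hF S hS
  -- S is obtained by erasing one element
  have hcard : (({a, b, c, d, e} : Finset V) \ S).card = 1 := by
    rw [card_sdiff_of_subset hST]; omega
  obtain ⟨v, hv⟩ := card_eq_one.mp hcard
  have hSeq : S = ({a, b, c, d, e} : Finset V).erase v := by
    rw [← sdiff_singleton_eq_erase, ← hv, Finset.sdiff_sdiff_eq_self hST]
  have hvT : v ∈ ({a, b, c, d, e} : Finset V) := by
    have : v ∈ ({a, b, c, d, e} : Finset V) \ S := by rw [hv]; exact mem_singleton_self v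
    exact (mem_sdiff.mp this).1
  simp only [mem_insert, mem_singleton] at hvT
  have hmem : ∀ X : Finset V, X = S → X ∈ F := fun X hX => hX ▸ hS
  rcases hvT with rfl | rfl | rfl | rfl | rfl
  · refine hd _ h5 (hmem _ ?_)
    rw [hSeq]; ext w; simp only [mem_insert, mem_singleton, mem_erase]
    constructor
    · rintro (rfl | rfl | rfl | rfl)
      · exact ⟨ab.symm, by tauto⟩
      · exact ⟨ac.symm, by tauto⟩
      · exact ⟨ad.symm, by tauto⟩
      · exact ⟨ae.symm, by tauto⟩
    · tauto
  · refine hd _ h4' (hmem _ ?_)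
    rw [hSeq]; ext w; simp only [mem_insert, mem_singleton, mem_erase]
    constructor
    · rintro (rfl | rfl | rfl | rfl)
      · exact ⟨ab, by tauto⟩
      · exact ⟨bc.symm, by tauto⟩
      · exact ⟨bd.symm, by tauto⟩
      · exact ⟨be.symm, by tauto⟩
    · tauto
  · refine hd _ h3 (hmem _ ?_)
    rw [hSeq]; ext w; simp only [mem_insert, mem_singleton, mem_erase]
    constructor
    · rintro (rfl | rfl | rfl | rfl)
      · exact ⟨ac, by tauto⟩
      · exact ⟨bc, by tauto⟩
      · exact ⟨cd'.symm, by tauto⟩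
      · exact ⟨ce.symm, by tauto⟩
    · tauto
  · refine hd _ h2 (hmem _ ?_)
    rw [hSeq]; ext w; simp only [mem_insert, mem_singleton, mem_erase]
    constructor
    · rintro (rfl | rfl | rfl | rfl)
      · exact ⟨ad, by tauto⟩
      · exact ⟨bd, by tauto⟩
      · exact ⟨cd', by tauto⟩
      · exact ⟨de.symm, by tauto⟩
    · tauto
  · refine hd _ h1 (hmem _ ?_)
    rw [hSeq]; ext w; simp only [mem_insert, mem_singleton, mem_erase]
    constructor
    · rintro (rfl | rfl | rfl | rfl)
      · exact ⟨ae, by tauto⟩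
      · exact ⟨be, by tauto⟩
      · exact ⟨ce, by tauto⟩
      · exact ⟨de, by tauto⟩
    · tauto

/-- **lower bound** for covering families -/
theorem cover_lower (n : ℕ) (F : Finset (Finset (Fin n))) (hF : Covers n F) :
    1008000 * n.choose 4 ≤ 1008000 * F.card + 29897 * n ^ 4 := by
  set H : Finset (Finset (Fin n)) := (univ.powersetCard 4) \ F with hH
  have h4 : ∀ S ∈ H, S.card = 4 := fun S hS => (mem_powersetCard.mp (mem_sdiff.mp hS).1).2
  have hK : NoK5 H := noK5_of F H h4 hF.1 hF.2 fun S hS => (mem_sdiff.mp hS).2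
  have h := graph_main H h4 hK
  have hsub : F ⊆ univ.powersetCard 4 := fun S hS => mem_powersetCard.mpr ⟨subset_univ _, hF.1 S hS⟩
  have hcard : H.card + F.card = n.choose 4 := by
    rw [hH, card_sdiff_add_card_eq_card hsub, card_powersetCard, card_univ, Fintype.card_fin]
  rw [Fintype.card_fin] at h
  omega

theorem lim_ratio : Tendsto (fun n : ℕ => (n : ℝ) ^ 4 / (n.choose 4 : ℝ)) atTop (𝓝 24) := by
  have h := isEquivalent_choose 4
  have h2 := h.symm
  have h3 : Tendsto (fun n : ℕ => ((n : ℝ) ^ 4 / (Nat.factorial 4 : ℝ)) / (n.choose 4 : ℝ)) atTop (𝓝 1) := by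
    rw [Asymptotics.isEquivalent_iff_tendsto_one] at h2
    · exact h2
    · filter_upwards [eventually_ge_atTop 4] with n hn
      have : 0 < n.choose 4 := Nat.choose_pos hn
      positivity
  have h4 := h3.const_mul 24
  simp only [mul_one] at h4
  refine h4.congr fun n => ?_
  have : ((Nat.factorial 4 : ℕ) : ℝ) = 24 := by norm_num [Nat.factorial]
  rw [this]
  ring

/-- for all large `n` -/
theorem cover_lower_ev : ∀ᶠ n : ℕ in atTop, ∀ F : Finset (Finset (Fin n)), Covers n F →
    0.28816 * (n.choose 4 : ℝ) ≤ (F.card : ℝ) := by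
  have h1 := lim_ratio.const_mul (29897 / 1008000)
  have h2 : (29897 / 1008000 : ℝ) * 24 < 1 - 0.28816 := by norm_num
  filter_upwards [h1.eventually_lt_const h2, eventually_ge_atTop 4] with n hn h4 F hF
  have hpos : (0 : ℝ) < (n.choose 4 : ℝ) := by exact_mod_cast Nat.choose_pos h4
  have h : ((1008000 * n.choose 4 : ℕ) : ℝ) ≤ ((1008000 * F.card + 29897 * n ^ 4 : ℕ) : ℝ) := by
    exact_mod_cast cover_lower n F hF
  push_cast at h
  rw [← mul_div_assoc, div_lt_iff₀ hpos] at hn
  linarith

end Pool.Agent.T2H33.K5
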