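import Pool.Agent.T2H33.K5.Vec

/-! The vectors of the frames and the structures. -/

set_option autoImplicit false
set_option maxRecDepth 100000
set_option exponentiation.threshold 200000
set_option linter.unusedSimpArgs false
open Finset

namespace Pool.Agent.T2H33.K5

noncomputable section

/-- width of the entries -/
def w8 : ℕ → ℕ
  | 0 => 9
  | 1 => 8
  | 2 => 8
  | 3 => 7
  | 4 => 16
  | _ => 0

def pat (i : ℕ) : ℕ := 2 ^ 25 - 2 ^ w8 (i % 8)

theorem pat_step (n : ℕ) (hn : 3 ≤ n) : d2 (25 * 2 ^ n) (enc 25 n pat) = enc 25 (n + 1) pat := by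
  rw [enc_rep]
  refine enc_congr fun i _ => ?_
  unfold pat
  rw [Nat.mod_mod_of_dvd _ (show 8 ∣ 2 ^ n from by
    rw [show (8 : ℕ) = 2 ^ 3 by norm_num]; exact pow_dvd_pow 2 hn)]

def P3 : ℕ := 1606938044258990275541962009265680511767264532996303932620288

theorem P3_eq : P3 = enc 25 3 pat := by decide +kernel

/-- the bits which are zero in all the blocks -/
def PAT : ℕ := d2 51200 (d2 25600 (d2 12800 (d2 6400 (d2 3200 (d2 1600 (d2 800 (d2 400 (d2 200 P3))))))))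

theorem PAT_eq : PAT = enc 25 12 pat := by
  have h4 : d2 200 P3 = enc 25 4 pat := (congrArg (d2 200) P3_eq).trans (pat_step 3 (by norm_num))
  have h5 := (congrArg (d2 400) h4).trans (pat_step 4 (by norm_num))
  have h6 := (congrArg (d2 800) h5).trans (pat_step 5 (by norm_num))
  have h7 := (congrArg (d2 1600) h6).trans (pat_step 6 (by norm_num))
  have h8 := (congrArg (d2 3200) h7).trans (pat_step 7 (by norm_num))
  have h9 := (congrArg (d2 6400) h8).trans (pat_step 8 (by norm_num))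
  have h10 := (congrArg (d2 12800) h9).trans (pat_step 9 (by norm_num))
  have h11 := (congrArg (d2 25600) h10).trans (pat_step 10 (by norm_num))
  exact (congrArg (d2 51200) h11).trans (pat_step 11 (by norm_num))

theorem pat_ok : al 64 (fun k => st (fun k => Nat.beq (Nat.land (sbk k) PAT) 0) k) = true := by decide +kernel

theorem lt_of_land {x w s : ℕ} (hx : x < 2 ^ s) (hws : w ≤ s) (h : Nat.land x (2 ^ s - 2 ^ w) = 0) : x < 2 ^ w := by
  refine Nat.lt_pow_two_of_testBit _ fun b hb => ?_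
  by_cases hbs : b < s
  · have h1 : (x &&& (2 ^ s - 2 ^ w)).testBit b = false := by
      have : x &&& (2 ^ s - 2 ^ w) = 0 := h
      rw [this, Nat.zero_testBit]
    have e : 2 ^ s - 2 ^ w = (2 ^ (s - w) - 1) <<< w := by
      rw [Nat.shiftLeft_eq, Nat.sub_mul, one_mul, ← pow_add, Nat.sub_add_cancel hws]
    rw [Nat.testBit_and, e, Nat.testBit_shiftLeft, Nat.testBit_two_pow_sub_one,
      decide_eq_true hb, decide_eq_true (show b - w < s - w by omega)] at h1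
    simpa using h1
  · exact Nat.testBit_lt_two_pow (lt_of_lt_of_le hx (Nat.pow_le_pow_right (by norm_num) (by omega)))

theorem w8_le (r : ℕ) : w8 r ≤ 25 := by
  unfold w8
  split <;> norm_num

theorem fld_sbk_lt {k i : ℕ} (hk : k < 64) (hi : i < 4096) : fld 25 (sbk k) i < 2 ^ w8 (i % 8) := by
  have h := al_true pat_ok hk
  rw [st_eq] at h
  have h1 : Nat.land (sbk k) PAT = 0 := Nat.eq_of_beq_eq_true h
  have hx : enc 25 12 (fld 25 (sbk k)) = sbk k := enc_fld (by norm_num) (by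
    refine lt_of_lt_of_le (sbk_lt hk) (Nat.pow_le_pow_right (by norm_num) ?_); norm_num)
  rw [← hx, PAT_eq, enc_land (s := 25) (n := 12) (f := fld 25 (sbk k)) (g := pat) (by norm_num) (fun i _ => fld_lt _ _ _)
    (fun i _ => Nat.sub_lt (by positivity) (by positivity))] at h1
  have h2 := enc_eq_zero (i := i) (by norm_num) (fun i _ => lt_of_le_of_lt Nat.and_le_left (fld_lt _ _ _)) h1
    (by norm_num; exact hi)
  exact lt_of_land (fld_lt _ _ _) (w8_le _) h2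

theorem Td_lt {r m : ℕ} (hr : r < 8) (hm : m < 2 ^ 15) : Td r m < 2 ^ w8 r := by
  rw [Td_eq]
  have h := fld_sbk_lt (k := m / 512) (i := r + (8 * (m / 64 % 8) + 64 * (m % 64))) (by omega) (by omega)
  rwa [show (r + (8 * (m / 64 % 8) + 64 * (m % 64))) % 8 = r by omega] at h

theorem pv_le {m l : ℕ} (hm : m < 2 ^ 15) (hl : l < 2 ^ 15) : pv m l ≤ 538370 := by
  have a0 : Td 0 m ≤ 511 := Nat.le_of_lt_succ (Td_lt (r := 0) (by norm_num) hm)
  have a1 : Td 1 m ≤ 255 := Nat.le_of_lt_succ (Td_lt (r := 1) (by norm_num) hm)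
  have a2 : Td 2 m ≤ 255 := Nat.le_of_lt_succ (Td_lt (r := 2) (by norm_num) hm)
  have a3 : Td 3 m ≤ 127 := Nat.le_of_lt_succ (Td_lt (r := 3) (by norm_num) hm)
  have a4 : Td 4 m ≤ 65535 := Nat.le_of_lt_succ (Td_lt (r := 4) (by norm_num) hm)
  have b0 : Td 0 l ≤ 511 := Nat.le_of_lt_succ (Td_lt (r := 0) (by norm_num) hl)
  have b1 : Td 1 l ≤ 255 := Nat.le_of_lt_succ (Td_lt (r := 1) (by norm_num) hl)
  have b2 : Td 2 l ≤ 255 := Nat.le_of_lt_succ (Td_lt (r := 2) (by norm_num) hl)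
  have b3 : Td 3 l ≤ 127 := Nat.le_of_lt_succ (Td_lt (r := 3) (by norm_num) hl)
  have b4 : Td 4 l ≤ 65535 := Nat.le_of_lt_succ (Td_lt (r := 4) (by norm_num) hl)
  have c0 := Nat.mul_le_mul a0 b0
  have c1 := Nat.mul_le_mul a1 b1
  have c2 := Nat.mul_le_mul a2 b2
  have c3 := Nat.mul_le_mul a3 b3
  unfold pv
  omega

theorem mx_lt {g c h p : ℕ} (hg : g < 2) (hc : c < 16) (hh : h < 16) (hp : p < 64) : mx g c h p < 2 ^ 15 := by
  show p + 64 * h + 1024 * c + 16384 * g < 32768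
  omega


theorem ins_lt {n p w i : ℕ} (hp : p < n) (hw : w < 2) (hi : i < 2 ^ n) : ins p w i < 2 ^ n := by
  rw [← pk_self hi, ins_pk hp (fun k _ => bt_lt_two k i)]
  refine pk_lt fun k _ => ?_
  show (if k = p then w else bt k i) < 2
  split_ifs
  · exact hw
  · exact bt_lt_two _ _

theorem YF_le {m c t : ℕ} (hm : m < 2 ^ 15) (hc : c < 16) (ht : t < 4096) : YF m c t ≤ 538370 := by
  refine pv_le hm (mx_lt ?_ ?_ ?_ ?_) <;> omega

theorem X4_le (m c : ℕ) : X4 m c ≤ 262140 := by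
  unfold X4
  simp only [Nat.add_eq]
  refine le_trans (Nat.add_le_add (Qf_le _ _) (Nat.add_le_add (Qf_le _ _) (Nat.add_le_add (Qf_le _ _) (Qf_le _ _)))) ?_
  norm_num

theorem ZF_le {m c t : ℕ} (hm : m < 2 ^ 15) (hc : c < 16) (ht : t < 4096) : ZF m c t ≤ 800510 := by
  have h1 : pv (mx (m / 16384) c (m / 1024 % 16) (t / 64)) (mx (m / 16384) c (m / 64 % 16) (t % 64)) ≤ 538370 := by
    refine pv_le (mx_lt ?_ ?_ ?_ ?_) (mx_lt ?_ ?_ ?_ ?_) <;> omega
  have h2 := X4_le m c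
  unfold ZF
  omega

theorem ZFY_le {m c t : ℕ} (hm : m < 2 ^ 15) (hc : c < 16) (ht : t < 4096) : ZFY m c t ≤ 1338880 := by
  have h1 : pv (mx (m / 16384) c (m / 1024 % 16) (t / 64)) (mx (m / 16384) c (m / 64 % 16) (t % 64)) ≤ 538370 := by
    refine pv_le (mx_lt ?_ ?_ ?_ ?_) (mx_lt ?_ ?_ ?_ ?_) <;> omega
  have h2 := X4_le m c
  have h3 := YF_le hm hc ht
  unfold ZFY
  omega

/-- the order of the bits of the link in the frames of the three types -/
def LA : ℕ → ℕ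
  | 3 => 12
  | 4 => 13
  | 5 => 14
  | 12 => 15
  | 13 => 3
  | 14 => 4
  | 15 => 5
  | k => k
def LB : ℕ → ℕ
  | 3 => 12
  | 4 => 13
  | 5 => 14
  | 12 => 15
  | 13 => 16
  | 14 => 17
  | 15 => 18
  | k => k
def LC : ℕ → ℕ
  | 5 => 12
  | 11 => 13
  | 12 => 16
  | 13 => 17
  | 14 => 18
  | 15 => 19
  | k => k

def XAf (m i : ℕ) : ℕ := x32b (bt 2 m) (bt 3 m) (bt 0 (i / 8192)) (i % 8192) +
  (x31b (bt 1 m) (bt 4 m) (bt 1 (i / 8192)) (i % 8192) + x30b (bt 0 m) (bt 5 m) (bt 2 (i / 8192)) (i % 8192))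
def XBf (m w0 w1 w2 i : ℕ) : ℕ := x32b (bt 2 m) (bt 3 m) w0 i + (x31b (bt 1 m) (bt 4 m) w1 i + x30b (bt 0 m) (bt 5 m) w2 i)
def XCf (m w0 w1 w2 w3 i : ℕ) : ℕ := x30c (bt 0 m) (8 * (w2 + w3) + (w0 + (2 * w1 + 4 * bt 5 m))) i +
  (x31c (bt 1 m) (bt 4 m) w2 w3 i + x32c (bt 2 m) (bt 3 m) w2 w3 i)

theorem XAf_le (m i : ℕ) : XAf m i ≤ 196605 := by
  unfold XAf x30b x31b x32b
  have h1 := Qf_le
  refine le_trans (Nat.add_le_add (Qf_le _ _) (Nat.add_le_add (Qf_le _ _) (Qf_le _ _))) ?_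
  norm_num
theorem XBf_le (m w0 w1 w2 i : ℕ) : XBf m w0 w1 w2 i ≤ 196605 := by
  unfold XBf x30b x31b x32b
  refine le_trans (Nat.add_le_add (Qf_le _ _) (Nat.add_le_add (Qf_le _ _) (Qf_le _ _))) ?_
  norm_num
theorem XCf_le (m w0 w1 w2 w3 i : ℕ) : XCf m w0 w1 w2 w3 i ≤ 196605 := by
  unfold XCf x30c x31c x32c
  refine le_trans (Nat.add_le_add (Qf_le _ _) (Nat.add_le_add (Qf_le _ _) (Qf_le _ _))) ?_
  norm_num

theorem add13 (f g : ℕ → ℕ) : Nat.add (enc 25 13 f) (enc 25 13 g) = enc 25 13 (fun i => f i + g i) := enc_add _ _ _ _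
theorem add12 (f g : ℕ → ℕ) : Nat.add (enc 25 12 f) (enc 25 12 g) = enc 25 12 (fun i => f i + g i) := enc_add _ _ _ _
theorem add16 (f g : ℕ → ℕ) : Nat.add (enc 25 16 f) (enc 25 16 g) = enc 25 16 (fun i => f i + g i) := enc_add _ _ _ _

theorem XA_eq (m : ℕ) : XA m = enc 25 16 (XAf m) := by
  have h : ∀ u < 8, Nat.add (xbc (bt 2 m) (bt 3 m) (bt 0 u)) (Nat.add (xbb (bt 1 m) (bt 4 m) (bt 1 u)) (xba (bt 0 m) (bt 5 m) (bt 2 u))) =
      enc 25 13 (fun i => x32b (bt 2 m) (bt 3 m) (bt 0 u) i + (x31b (bt 1 m) (bt 4 m) (bt 1 u) i + x30b (bt 0 m) (bt 5 m) (bt 2 u) i)) := by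
    intro u _
    rw [xba_eq (bt_lt_two _ _) (bt_lt_two _ _) (bt_lt_two _ _), xbb_eq (bt_lt_two _ _) (bt_lt_two _ _) (bt_lt_two _ _),
      xbc_eq (bt_lt_two _ _) (bt_lt_two _ _) (bt_lt_two _ _), add13, add13]
  unfold XA
  rw [asm3 _ (fun u i => x32b (bt 2 m) (bt 3 m) (bt 0 u) i + (x31b (bt 1 m) (bt 4 m) (bt 1 u) i + x30b (bt 0 m) (bt 5 m) (bt 2 u) i)) h]
  rfl

theorem XB_eq {m w0 w1 w2 : ℕ} (h0 : w0 < 2) (h1 : w1 < 2) (h2 : w2 < 2) : XB m w0 w1 w2 = enc 25 13 (XBf m w0 w1 w2) := by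
  unfold XB
  rw [xba_eq (bt_lt_two _ _) (bt_lt_two _ _) h2, xbb_eq (bt_lt_two _ _) (bt_lt_two _ _) h1,
    xbc_eq (bt_lt_two _ _) (bt_lt_two _ _) h0, add13, add13]
  rfl

theorem XC_eq {m w0 w1 w2 w3 : ℕ} (h2 : w2 < 2) (h3 : w3 < 2) :
    XC m w0 w1 w2 w3 = enc 25 12 (XCf m w0 w1 w2 w3) := by
  unfold XC
  rw [st_eq, xca_eq, xcb_eq (bt_lt_two _ _) (bt_lt_two _ _) h2 h3, xcc_eq (bt_lt_two _ _) (bt_lt_two _ _) h2 h3, add12, add12]
  rfl

/-- the index of the blocks in the frames of the first type -/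
def sg (i : ℕ) : ℕ := sb 3 13 (sb 4 14 (sb 5 15 i)) % 4096

theorem sA_eq {f : ℕ → ℕ} (hf : ∀ i < 4096, f i < 2 ^ 25) : sA (r4 (enc 25 12 f)) = enc 25 16 (fun i => f (sg i)) := by
  have h0 : ∀ i < 2 ^ 16, (fun i => f (i % 4096)) i < 2 ^ 25 := fun i _ => hf _ (Nat.mod_lt _ (by norm_num))
  unfold sA
  rw [r4_eq, swp_enc (s := 25) (n := 16) (p := 3) (q := 13) (by norm_num) (by norm_num) (by norm_num) h0,
    swp_enc (s := 25) (n := 16) (p := 4) (q := 14) (by norm_num) (by norm_num) (by norm_num)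
      (fun i hi => h0 _ (sb_lt (by norm_num) (by norm_num) hi)),
    swp_enc (s := 25) (n := 16) (p := 5) (q := 15) (by norm_num) (by norm_num) (by norm_num)
      (fun i hi => h0 _ (sb_lt (by norm_num) (by norm_num) (sb_lt (by norm_num) (by norm_num) hi)))]
  rfl

theorem cw_lt {w0 w1 w2 w3 : ℕ} (h0 : w0 < 2) (h1 : w1 < 2) (h2 : w2 < 2) (h3 : w3 < 2) : cw w0 w1 w2 w3 < 16 := by
  show w0 + (2 * w1 + (4 * w2 + 8 * w3)) < 16
  omega

theorem TA_eq {m w0 w1 w2 w3 : ℕ} (hm : m < 2 ^ 15) (h0 : w0 < 2) (h1 : w1 < 2) (h2 : w2 < 2) (h3 : w3 < 2) :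
    TA m w0 w1 w2 w3 = enc 25 16 (fun i => ZFY m (cw w0 w1 w2 w3) (sg i) + XAf m i) := by
  have hc := cw_lt h0 h1 h2 h3
  unfold TA
  rw [st_eq, ZbY_eq hm hc, sA_eq (fun i hi => lt_of_le_of_lt (ZFY_le hm hc hi) (by norm_num)), XA_eq, add16]

theorem TAY_eq {m w0 w1 w2 w3 : ℕ} (hm : m < 2 ^ 15) (h0 : w0 < 2) (h1 : w1 < 2) (h2 : w2 < 2) (h3 : w3 < 2) :
    TAY m w0 w1 w2 w3 = enc 25 16 (fun i => YF m (cw w0 w1 w2 w3) (sg i)) := by
  have hc := cw_lt h0 h1 h2 h3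
  unfold TAY
  rw [st_eq, Yb_eq hm hc]
  exact sA_eq (f := YF m (cw w0 w1 w2 w3)) (fun i hi => lt_of_le_of_lt (YF_le hm hc hi) (by norm_num))

/-- the index of the blocks in the frames of the second type -/
def ib (w0 w1 w2 i : ℕ) : ℕ := ins 3 w0 (ins 4 w1 (ins 5 w2 (i % 8192 % 4096)))
/-- the index of the blocks in the frames of the third type -/
def ic (w0 w1 i : ℕ) : ℕ := ins 5 w0 (ins 11 w1 (i % 4096))

theorem ib_lt {w0 w1 w2 : ℕ} (h0 : w0 < 2) (h1 : w1 < 2) (h2 : w2 < 2) (i : ℕ) : ib w0 w1 w2 i < 4096 :=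
  ins_lt (n := 12) (by norm_num) h0 (ins_lt (by norm_num) h1 (ins_lt (by norm_num) h2 (Nat.mod_lt _ (by norm_num))))
theorem ic_lt {w0 w1 : ℕ} (h0 : w0 < 2) (h1 : w1 < 2) (i : ℕ) : ic w0 w1 i < 4096 :=
  ins_lt (n := 12) (by norm_num) h0 (ins_lt (by norm_num) h1 (Nat.mod_lt _ (by norm_num)))

theorem TB_blk {Z : ℕ → ℕ → ℕ} {blk : ℕ → ℕ} {w0 w1 w2 w3 : ℕ} (h0 : w0 < 2) (h1 : w1 < 2) (h2 : w2 < 2) (h3 : w3 < 2)
    (hZ : ∀ c < 16, ∀ t < 4096, Z c t < 2 ^ 25) (hb : ∀ c < 16, blk c = enc 25 12 (Z c)) :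
    asm 204800 7 3 (fun u => st (fun c => d2 102400 (fx5 w2 (fx4 w1 (fx3 w0 (blk c))))) (Nat.add u (Nat.mul 8 w3))) =
      enc 25 16 (fun i => Z (i / 8192 + 8 * w3) (ib w0 w1 w2 i)) := by
  refine asm3 _ (fun u t => Z (u + 8 * w3) (ins 3 w0 (ins 4 w1 (ins 5 w2 (t % 4096))))) fun u hu => ?_
  have hc : u + 8 * w3 < 16 := by omega
  have e : Nat.add u (Nat.mul 8 w3) = u + 8 * w3 := rfl
  rw [st_eq, e, hb _ hc, fx3_eq h0 (fun i hi => hZ _ hc i hi),
    fx4_eq h1 (fun i hi => hZ _ hc _ (ins_lt (by norm_num) h0 hi)),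
    fx5_eq h2 (fun i hi => hZ _ hc _ (ins_lt (n := 12) (by norm_num) h0 (ins_lt (by norm_num) h1 hi))), rep13]

theorem TB_eq {m w0 w1 w2 w3 : ℕ} (hm : m < 2 ^ 15) (h0 : w0 < 2) (h1 : w1 < 2) (h2 : w2 < 2) (h3 : w3 < 2) :
    TB m w0 w1 w2 w3 = enc 25 16 (fun i => ZF m (i / 8192 + 8 * w3) (ib w0 w1 w2 i) + XBf m w0 w1 w2 (i % 8192)) := by
  unfold TB
  rw [TB_blk (Z := ZF m) (blk := Zb m) h0 h1 h2 h3 (fun c hc t ht => lt_of_le_of_lt (ZF_le hm hc ht) (by norm_num))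
    (fun c hc => Zb_eq hm hc), XB_eq h0 h1 h2, r3_eq, add16]

theorem TBY_eq {m w0 w1 w2 w3 : ℕ} (hm : m < 2 ^ 15) (h0 : w0 < 2) (h1 : w1 < 2) (h2 : w2 < 2) (h3 : w3 < 2) :
    TBY m w0 w1 w2 w3 = enc 25 16 (fun i => ZFY m (i / 8192 + 8 * w3) (ib w0 w1 w2 i) + XBf m w0 w1 w2 (i % 8192)) := by
  unfold TBY
  rw [TB_blk (Z := ZFY m) (blk := ZbY m) h0 h1 h2 h3 (fun c hc t ht => lt_of_le_of_lt (ZFY_le hm hc ht) (by norm_num))
    (fun c hc => ZbY_eq hm hc), XB_eq h0 h1 h2, r3_eq, add16]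

theorem TC_eq {m w0 w1 w2 w3 : ℕ} (hm : m < 2 ^ 15) (h0 : w0 < 2) (h1 : w1 < 2) (h2 : w2 < 2) (h3 : w3 < 2) :
    TC m w0 w1 w2 w3 = enc 25 16 (fun i => ZF m (i / 4096) (ic w0 w1 i) + XCf m w0 w1 w2 w3 (i % 4096)) := by
  have hZ : ∀ c < 16, ∀ t < 4096, ZF m c t < 2 ^ 25 := fun c hc t ht => lt_of_le_of_lt (ZF_le hm hc ht) (by norm_num)
  have h : ∀ u < 16, st (fun c => fx11 w1 (fx5 w0 (Zb m c))) u = enc 25 12 (fun t => ZF m u (ins 5 w0 (ins 11 w1 t))) := by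
    intro u hu
    rw [st_eq, Zb_eq hm hu, fx5_eq h0 (fun i hi => hZ _ hu i hi), fx11_eq h1 (fun i hi => hZ _ hu _ (ins_lt (by norm_num) h0 hi))]
  unfold TC
  rw [asm4 _ _ h, XC_eq h2 h3, r4_eq, add16]
  rfl

variable {V : Type} {E : V → V → V → V → ℕ}

theorem kk_mx (E : V → V → V → V → ℕ) (a b c d e f : V) : kk E a b c d e f =
    mx (E a b c d) (pk 4 (fun k => kb E a b c d e f (10 + k))) (pk 4 (fun k => kb E a b c d e f (6 + k)))
      (pk 6 (kb E a b c d e f)) := by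
  unfold kk mx
  rw [show (15 : ℕ) = 6 + (4 + (4 + 1)) from rfl, pk_add, pk_add, pk_add]
  have h1 : ∀ f : ℕ → ℕ, pk 1 f = f 0 := fun f => by simp [pk]
  rw [h1]
  have h2 : (fun k => kb E a b c d e f (6 + (4 + k))) = fun k => kb E a b c d e f (10 + k) := by
    funext k
    rw [← add_assoc]
  rw [h2]
  show _ + 2 ^ 6 * (_ + 2 ^ 4 * (_ + 2 ^ 4 * E a b c d)) = _
  ring

theorem kk_lt (hE : Sy E) (a b c d e f : V) : kk E a b c d e f < 2 ^ 15 := pk_lt fun k _ => kb_lt hE a b c d e f k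

theorem mx_g {g c h p : ℕ} (hc : c < 16) (hh : h < 16) (hp : p < 64) : mx g c h p / 16384 = g := by
  show (p + 64 * h + 1024 * c + 16384 * g) / 16384 = g
  omega
theorem mx_c {g c h p : ℕ} (hc : c < 16) (hh : h < 16) (hp : p < 64) : mx g c h p / 1024 % 16 = c := by
  show (p + 64 * h + 1024 * c + 16384 * g) / 1024 % 16 = c
  omega
theorem mx_h {g c h p : ℕ} (hh : h < 16) (hp : p < 64) : mx g c h p / 64 % 16 = h := by
  show (p + 64 * h + 1024 * c + 16384 * g) / 64 % 16 = h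
  omega


theorem hpk {g : ℕ → ℕ} (hg : ∀ k, g k < 2) (n k : ℕ) (hk : k < n) : bt k (pk n g) = g k := bt_pk (fun k _ => hg k) hk

/-- the block at the link of a vertex -/
theorem pv_io (hE : Sy E) (a b c d e f z : V) :
    pv (mx (kk E a b c d e f / 16384) (pk 4 (fun k => lb E a b c d e f z (16 + k))) (kk E a b c d e f / 1024 % 16)
      (pk 12 (lb E a b c d e f z) / 64)) (mx (kk E a b c d e f / 16384) (pk 4 (fun k => lb E a b c d e f z (16 + k)))
      (kk E a b c d e f / 64 % 16) (pk 12 (lb E a b c d e f z) % 64)) = pv (kk E a b c d z e) (kk E a b c d z f) := by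
  have hb := kb_lt hE a b c d e f
  have l1 : pk 6 (kb E a b c d e f) < 64 := pk_lt (n := 6) fun k _ => hb k
  have l2 : pk 4 (fun k => kb E a b c d e f (6 + k)) < 16 := pk_lt (n := 4) fun k _ => hb _
  have l3 : pk 4 (fun k => kb E a b c d e f (10 + k)) < 16 := pk_lt (n := 4) fun k _ => hb _
  have q1 : pk 12 (lb E a b c d e f z) / 64 = pk 6 (fun k => lb E a b c d e f z (6 + k)) :=
    pk_div (n := 6) (m := 6) (f := lb E a b c d e f z) (fun k _ => lb_lt hE a b c d e f z k)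
  have q2 : pk 12 (lb E a b c d e f z) % 64 = pk 6 (lb E a b c d e f z) :=
    pk_mod (n := 6) (m := 6) (f := lb E a b c d e f z) (fun k _ => lb_lt hE a b c d e f z k)
  rw [q1, q2, kk_mx E a b c d e f, mx_g l3 l2 l1, mx_c l3 l2 l1, mx_h l2 l1, kk_mx E a b c d z e, kk_mx E a b c d z f]
  congr 2
  all_goals
    refine pk_congr fun k hk => ?_
    interval_cases k <;> simp [lb, kb, hE.s3]

theorem X4_io (hE : Sy E) (a b c d e f z : V) : X4 (kk E a b c d e f) (pk 4 (fun k => lb E a b c d e f z (16 + k))) =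
    QQ E b c d e f a z + (QQ E a c d e f b z + (QQ E a b d e f c z + QQ E a b c e f d z)) := by
  have hk : ∀ k < 15, bt k (kk E a b c d e f) = kb E a b c d e f k := fun k hk =>
    bt_pk (fun k _ => kb_lt hE a b c d e f k) hk
  have hl : ∀ k < 4, bt k (pk 4 (fun k => lb E a b c d e f z (16 + k))) = lb E a b c d e f z (16 + k) := fun k hk =>
    bt_pk (fun k _ => lb_lt hE a b c d e f z (16 + k)) hk
  unfold X4 QQ kq
  simp only [Nat.add_eq, Nat.mul_eq]
  rw [hl 0 (by norm_num), hl 1 (by norm_num), hl 2 (by norm_num), hl 3 (by norm_num)]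
  rw [hk 0 (by norm_num), hk 1 (by norm_num), hk 2 (by norm_num), hk 3 (by norm_num), hk 4 (by norm_num),
    hk 5 (by norm_num), hk 6 (by norm_num), hk 7 (by norm_num), hk 8 (by norm_num), hk 9 (by norm_num),
    hk 10 (by norm_num), hk 11 (by norm_num), hk 12 (by norm_num), hk 13 (by norm_num), hk 14 (by norm_num)]
  simp [kb, lb, hE.s1, hE.s2, hE.s3]

theorem ZF_io (hE : Sy E) (a b c d e f z : V) : ZF (kk E a b c d e f) (pk 4 (fun k => lb E a b c d e f z (16 + k)))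
    (pk 12 (lb E a b c d e f z)) = pv (kk E a b c d z e) (kk E a b c d z f) +
      (QQ E b c d e f a z + (QQ E a c d e f b z + (QQ E a b d e f c z + QQ E a b c e f d z))) := by
  rw [← pv_io hE, ← X4_io hE]
  rfl

theorem YF_io (hE : Sy E) (a b c d e f z : V) : YF (kk E a b c d e f) (pk 4 (fun k => lb E a b c d e f z (16 + k)))
    (pk 12 (lb E a b c d e f z)) = YY E a b c d e f z := by
  have hb := kb_lt hE a b c d e f
  have l1 : pk 6 (kb E a b c d e f) < 64 := pk_lt (n := 6) fun k _ => hb k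
  have l2 : pk 4 (fun k => kb E a b c d e f (6 + k)) < 16 := pk_lt (n := 4) fun k _ => hb _
  have l3 : pk 4 (fun k => kb E a b c d e f (10 + k)) < 16 := pk_lt (n := 4) fun k _ => hb _
  have q1 : pk 12 (lb E a b c d e f z) / 64 = pk 6 (fun k => lb E a b c d e f z (6 + k)) :=
    pk_div (n := 6) (m := 6) (f := lb E a b c d e f z) (fun k _ => lb_lt hE a b c d e f z k)
  unfold YF YY
  rw [q1, kk_mx E a b c d e z]
  congr 1
  rw [kk_mx E a b c d e f, mx_g l3 l2 l1, mx_c l3 l2 l1]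
  congr 1

theorem ZFY_io (hE : Sy E) (a b c d e f z : V) : ZFY (kk E a b c d e f) (pk 4 (fun k => lb E a b c d e f z (16 + k)))
    (pk 12 (lb E a b c d e f z)) = (pv (kk E a b c d z e) (kk E a b c d z f) +
      (QQ E b c d e f a z + (QQ E a c d e f b z + (QQ E a b d e f c z + QQ E a b c e f d z)))) + YY E a b c d e f z := by
  have h1 := ZF_io hE a b c d e f z
  have h2 := YF_io hE a b c d e f z
  rw [← h1, ← h2]
  unfold ZFY ZF
  ring

/-- `X` is the vector whose entries are the values of `φ`, for the structures with code `m` and the links with the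
bits `w` at the places `f`; the other bits are in the order `L` -/
def Rc (E : V → V → V → V → ℕ) (L : ℕ → ℕ) (f0 f1 f2 f3 B X m w0 w1 w2 w3 : ℕ) (φ : V → V → V → V → V → V → V → ℕ) : Prop :=
  ∃ F : ℕ → ℕ, X = enc 25 16 F ∧ (∀ i < 2 ^ 16, F i ≤ B) ∧ ∀ a b c d e f z, kk E a b c d e f = m →
    lb E a b c d e f z f0 = w0 → lb E a b c d e f z f1 = w1 → lb E a b c d e f z f2 = w2 → lb E a b c d e f z f3 = w3 →
    F (pk 16 (fun k => lb E a b c d e f z (L k))) = φ a b c d e f z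

theorem sg_pk {g : ℕ → ℕ} (hg : ∀ k, g k < 2) : sg (pk 16 g) = pk 12 (fun k => g (sp 5 15 (sp 4 14 (sp 3 13 k)))) := by
  unfold sg
  rw [sb_pk (by norm_num) (by norm_num) (fun k _ => hg k), sb_pk (by norm_num) (by norm_num) (fun k _ => hg _),
    sb_pk (by norm_num) (by norm_num) (fun k _ => hg _)]
  exact pk_mod (n := 12) (m := 4) (fun k _ => hg _)

theorem XAf_io (hE : Sy E) (a b c d e f z : V) : XAf (kk E a b c d e f) (pk 16 (fun k => lb E a b c d e f z (LA k))) =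
    QQ E e f z a b c d + (QQ E e f z a c b d + QQ E e f z a d b c) := by
  have hg : ∀ k, (fun k => lb E a b c d e f z (LA k)) k < 2 := fun k => lb_lt hE a b c d e f z (LA k)
  have hk : ∀ k < 15, bt k (kk E a b c d e f) = kb E a b c d e f k := fun k hk =>
    bt_pk (fun k _ => kb_lt hE a b c d e f k) hk
  have e1 : pk 16 (fun k => lb E a b c d e f z (LA k)) / 8192 = pk 3 (fun k => lb E a b c d e f z (LA (13 + k))) :=
    pk_div (n := 13) (m := 3) (fun k _ => hg k)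
  have e2 : pk 16 (fun k => lb E a b c d e f z (LA k)) % 8192 = pk 13 (fun k => lb E a b c d e f z (LA k)) :=
    pk_mod (n := 13) (m := 3) (fun k _ => hg k)
  have h3 : ∀ k < 3, bt k (pk 3 (fun k => lb E a b c d e f z (LA (13 + k)))) = lb E a b c d e f z (LA (13 + k)) := fun k hk =>
    bt_pk (fun k _ => lb_lt hE a b c d e f z _) hk
  have hl : ∀ k < 13, bt k (pk 13 (fun k => lb E a b c d e f z (LA k))) = lb E a b c d e f z (LA k) := fun k hk =>
    bt_pk (fun k _ => lb_lt hE a b c d e f z _) hk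
  unfold XAf x30b x31b x32b QQ kq kc
  rw [e1, e2, h3 0 (by norm_num), h3 1 (by norm_num), h3 2 (by norm_num), hk 0 (by norm_num), hk 1 (by norm_num),
    hk 2 (by norm_num), hk 3 (by norm_num), hk 4 (by norm_num), hk 5 (by norm_num)]
  rw [hl 0 (by norm_num), hl 1 (by norm_num), hl 2 (by norm_num), hl 3 (by norm_num), hl 4 (by norm_num),
    hl 5 (by norm_num), hl 6 (by norm_num), hl 7 (by norm_num), hl 8 (by norm_num), hl 9 (by norm_num),
    hl 10 (by norm_num), hl 11 (by norm_num), hl 12 (by norm_num)]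
  simp [LA, kb, lb, hE.s1, hE.s2, hE.s3]
  ring

theorem cw_pk (w : ℕ → ℕ) : cw (w 0) (w 1) (w 2) (w 3) = pk 4 w := by
  unfold cw pk
  simp only [sum_range_succ, sum_range_zero, Nat.add_eq, Nat.mul_eq]
  ring

theorem TA_rc (hE : Sy E) {m w0 w1 w2 w3 : ℕ} (hm : m < 2 ^ 15) (h0 : w0 < 2) (h1 : w1 < 2) (h2 : w2 < 2) (h3 : w3 < 2) :
    Rc E LA 16 17 18 19 1535485 (TA m w0 w1 w2 w3) m w0 w1 w2 w3 (fun a b c d e f z => TT E a b c d e f z + YY E a b c d e f z) := by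
  refine ⟨_, TA_eq hm h0 h1 h2 h3, fun i hi => ?_, ?_⟩
  · have k1 := ZFY_le (t := sg i) hm (cw_lt h0 h1 h2 h3) (Nat.mod_lt _ (by norm_num))
    have k2 := XAf_le m i
    omega
  · rintro a b c d e f z rfl rfl rfl rfl rfl
    show ZFY _ _ (sg _) + XAf _ _ = _
    have hc := cw_pk (fun k => lb E a b c d e f z (16 + k))
    have hs : sg (pk 16 (fun k => lb E a b c d e f z (LA k))) = pk 12 (lb E a b c d e f z) := by
      rw [sg_pk (fun k => lb_lt hE a b c d e f z (LA k))]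
      refine pk_congr fun k hk => ?_
      interval_cases k <;> simp [sp, LA]
    rw [hs, XAf_io hE, show cw (lb E a b c d e f z 16) (lb E a b c d e f z 17) (lb E a b c d e f z 18) (lb E a b c d e f z 19) =
      pk 4 (fun k => lb E a b c d e f z (16 + k)) from hc, ZFY_io hE]
    unfold TT
    ring

theorem TAY_rc (hE : Sy E) {m w0 w1 w2 w3 : ℕ} (hm : m < 2 ^ 15) (h0 : w0 < 2) (h1 : w1 < 2) (h2 : w2 < 2) (h3 : w3 < 2) :
    Rc E LA 16 17 18 19 538370 (TAY m w0 w1 w2 w3) m w0 w1 w2 w3 (YY E) := by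
  refine ⟨_, TAY_eq hm h0 h1 h2 h3, fun i hi => YF_le hm (cw_lt h0 h1 h2 h3) (Nat.mod_lt _ (by norm_num)), ?_⟩
  rintro a b c d e f z rfl rfl rfl rfl rfl
  show YF _ _ (sg _) = _
  have hc := cw_pk (fun k => lb E a b c d e f z (16 + k))
  have hs : sg (pk 16 (fun k => lb E a b c d e f z (LA k))) = pk 12 (lb E a b c d e f z) := by
    rw [sg_pk (fun k => lb_lt hE a b c d e f z (LA k))]
    refine pk_congr fun k hk => ?_
    interval_cases k <;> simp [sp, LA]
  rw [hs, show cw (lb E a b c d e f z 16) (lb E a b c d e f z 17) (lb E a b c d e f z 18) (lb E a b c d e f z 19) =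
    pk 4 (fun k => lb E a b c d e f z (16 + k)) from hc]
  exact YF_io hE a b c d e f z

/-- the indices in the frames of the second type -/
theorem ib_io (hE : Sy E) (a b c d e f z : V) :
    pk 16 (fun k => lb E a b c d e f z (LB k)) / 8192 + 8 * lb E a b c d e f z 19 = pk 4 (fun k => lb E a b c d e f z (16 + k)) ∧
    ib (lb E a b c d e f z 3) (lb E a b c d e f z 4) (lb E a b c d e f z 5) (pk 16 (fun k => lb E a b c d e f z (LB k))) =
      pk 12 (lb E a b c d e f z) ∧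
    XBf (kk E a b c d e f) (lb E a b c d e f z 3) (lb E a b c d e f z 4) (lb E a b c d e f z 5)
      (pk 16 (fun k => lb E a b c d e f z (LB k)) % 8192) = QQ E e f z a b c d + (QQ E e f z a c b d + QQ E e f z a d b c) := by
  have hg : ∀ k, (fun k => lb E a b c d e f z (LB k)) k < 2 := fun k => lb_lt hE a b c d e f z (LB k)
  have hL : ∀ k, lb E a b c d e f z k < 2 := lb_lt hE a b c d e f z
  have e1 : pk 16 (fun k => lb E a b c d e f z (LB k)) / 8192 = pk 3 (fun k => lb E a b c d e f z (LB (13 + k))) :=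
    pk_div (n := 13) (m := 3) (fun k _ => hg k)
  have e2 : pk 16 (fun k => lb E a b c d e f z (LB k)) % 8192 = pk 13 (fun k => lb E a b c d e f z (LB k)) :=
    pk_mod (n := 13) (m := 3) (fun k _ => hg k)
  have e3 : pk 13 (fun k => lb E a b c d e f z (LB k)) % 4096 = pk 12 (fun k => lb E a b c d e f z (LB k)) :=
    pk_mod (n := 12) (m := 1) (fun k _ => hg k)
  refine ⟨?_, ?_, ?_⟩
  · rw [e1]
    unfold pk
    simp only [sum_range_succ, sum_range_zero, LB]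
    ring
  · unfold ib
    rw [e2, e3, ins_pk (by norm_num) (fun k _ => hg k), ins_pk (by norm_num) (fun k _ => ?_),
      ins_pk (by norm_num) (fun k _ => ?_)]
    · refine pk_congr fun k hk => ?_
      interval_cases k <;> simp [LB]
    · show (if k = 4 then _ else if k = 5 then _ else _) < 2
      split_ifs
      · exact hL _
      · exact hL _
      · exact hL _
    · show (if k = 5 then _ else _) < 2
      split_ifs
      · exact hL _
      · exact hL _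
  · have hk : ∀ k < 15, bt k (kk E a b c d e f) = kb E a b c d e f k := fun k hk =>
      bt_pk (fun k _ => kb_lt hE a b c d e f k) hk
    have hl : ∀ k < 13, bt k (pk 13 (fun k => lb E a b c d e f z (LB k))) = lb E a b c d e f z (LB k) := fun k hk =>
      bt_pk (fun k _ => lb_lt hE a b c d e f z _) hk
    unfold XBf x30b x31b x32b QQ kq kc
    rw [e2, hk 0 (by norm_num), hk 1 (by norm_num), hk 2 (by norm_num), hk 3 (by norm_num), hk 4 (by norm_num), hk 5 (by norm_num)]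
    rw [hl 0 (by norm_num), hl 1 (by norm_num), hl 2 (by norm_num), hl 3 (by norm_num), hl 4 (by norm_num),
      hl 5 (by norm_num), hl 6 (by norm_num), hl 7 (by norm_num), hl 8 (by norm_num), hl 9 (by norm_num),
      hl 10 (by norm_num), hl 11 (by norm_num), hl 12 (by norm_num)]
    simp [LB, kb, lb, hE.s1, hE.s2, hE.s3]
    ring

theorem TB_rc (hE : Sy E) {m w0 w1 w2 w3 : ℕ} (hm : m < 2 ^ 15) (h0 : w0 < 2) (h1 : w1 < 2) (h2 : w2 < 2) (h3 : w3 < 2) :
    Rc E LB 3 4 5 19 997115 (TB m w0 w1 w2 w3) m w0 w1 w2 w3 (TT E) := by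
  refine ⟨_, TB_eq hm h0 h1 h2 h3, fun i hi => ?_, ?_⟩
  · have k1 := ZF_le (c := i / 8192 + 8 * w3) hm (by omega) (ib_lt h0 h1 h2 i)
    have k2 := XBf_le m w0 w1 w2 (i % 8192)
    omega
  · rintro a b c d e f z rfl rfl rfl rfl rfl
    obtain ⟨i1, i2, i3⟩ := ib_io hE a b c d e f z
    show ZF _ (_ / 8192 + 8 * _) (ib _ _ _ _) + XBf _ _ _ _ _ = _
    rw [i1, i2, i3, ZF_io hE]
    rfl

theorem TBY_rc (hE : Sy E) {m w0 w1 w2 w3 : ℕ} (hm : m < 2 ^ 15) (h0 : w0 < 2) (h1 : w1 < 2) (h2 : w2 < 2) (h3 : w3 < 2) :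
    Rc E LB 3 4 5 19 1535485 (TBY m w0 w1 w2 w3) m w0 w1 w2 w3 (fun a b c d e f z => TT E a b c d e f z + YY E a b c d e f z) := by
  refine ⟨_, TBY_eq hm h0 h1 h2 h3, fun i hi => ?_, ?_⟩
  · have k1 := ZFY_le (c := i / 8192 + 8 * w3) hm (by omega) (ib_lt h0 h1 h2 i)
    have k2 := XBf_le m w0 w1 w2 (i % 8192)
    omega
  · rintro a b c d e f z rfl rfl rfl rfl rfl
    obtain ⟨i1, i2, i3⟩ := ib_io hE a b c d e f z
    show ZFY _ (_ / 8192 + 8 * _) (ib _ _ _ _) + XBf _ _ _ _ _ = _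
    rw [i1, i2, i3, ZFY_io hE]
    unfold TT
    ring

/-- the indices in the frames of the third type -/
theorem ic_io (hE : Sy E) (a b c d e f z : V) :
    pk 16 (fun k => lb E a b c d e f z (LC k)) / 4096 = pk 4 (fun k => lb E a b c d e f z (16 + k)) ∧
    ic (lb E a b c d e f z 5) (lb E a b c d e f z 11) (pk 16 (fun k => lb E a b c d e f z (LC k))) =
      pk 12 (lb E a b c d e f z) ∧
    XCf (kk E a b c d e f) (lb E a b c d e f z 5) (lb E a b c d e f z 11) (lb E a b c d e f z 14) (lb E a b c d e f z 15)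
      (pk 16 (fun k => lb E a b c d e f z (LC k)) % 4096) = QQ E e f z a b c d + (QQ E e f z a c b d + QQ E e f z a d b c) := by
  have hg : ∀ k, (fun k => lb E a b c d e f z (LC k)) k < 2 := fun k => lb_lt hE a b c d e f z (LC k)
  have hL : ∀ k, lb E a b c d e f z k < 2 := lb_lt hE a b c d e f z
  have e1 : pk 16 (fun k => lb E a b c d e f z (LC k)) / 4096 = pk 4 (fun k => lb E a b c d e f z (LC (12 + k))) :=
    pk_div (n := 12) (m := 4) (fun k _ => hg k)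
  have e2 : pk 16 (fun k => lb E a b c d e f z (LC k)) % 4096 = pk 12 (fun k => lb E a b c d e f z (LC k)) :=
    pk_mod (n := 12) (m := 4) (fun k _ => hg k)
  refine ⟨?_, ?_, ?_⟩
  · rw [e1]
    exact pk_congr fun k hk => by interval_cases k <;> rfl
  · unfold ic
    rw [e2, ins_pk (by norm_num) (fun k _ => hg k), ins_pk (by norm_num) (fun k _ => ?_)]
    · refine pk_congr fun k hk => ?_
      interval_cases k <;> simp [LC]
    · show (if k = 11 then _ else _) < 2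
      split_ifs
      · exact hL _
      · exact hL _
  · have hk : ∀ k < 15, bt k (kk E a b c d e f) = kb E a b c d e f k := fun k hk =>
      bt_pk (fun k _ => kb_lt hE a b c d e f k) hk
    have hl : ∀ k < 12, bt k (pk 12 (fun k => lb E a b c d e f z (LC k))) = lb E a b c d e f z (LC k) := fun k hk =>
      bt_pk (fun k _ => lb_lt hE a b c d e f z _) hk
    unfold XCf x30c x31c x32c QQ kq kc
    rw [e2, hk 0 (by norm_num), hk 1 (by norm_num), hk 2 (by norm_num), hk 3 (by norm_num), hk 4 (by norm_num), hk 5 (by norm_num)]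
    rw [hl 0 (by norm_num), hl 1 (by norm_num), hl 2 (by norm_num), hl 3 (by norm_num), hl 4 (by norm_num),
      hl 5 (by norm_num), hl 6 (by norm_num), hl 7 (by norm_num), hl 8 (by norm_num), hl 9 (by norm_num),
      hl 10 (by norm_num), hl 11 (by norm_num)]
    simp [LC, kb, lb, hE.s1, hE.s2, hE.s3]

theorem TC_rc (hE : Sy E) {m w0 w1 w2 w3 : ℕ} (hm : m < 2 ^ 15) (h0 : w0 < 2) (h1 : w1 < 2) (h2 : w2 < 2) (h3 : w3 < 2) :
    Rc E LC 5 11 14 15 997115 (TC m w0 w1 w2 w3) m w0 w1 w2 w3 (TT E) := by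
  refine ⟨_, TC_eq hm h0 h1 h2 h3, fun i hi => ?_, ?_⟩
  · have k1 := ZF_le (c := i / 4096) hm (by omega) (ic_lt h0 h1 i)
    have k2 := XCf_le m w0 w1 w2 w3 (i % 4096)
    omega
  · rintro a b c d e f z rfl rfl rfl rfl rfl
    obtain ⟨i1, i2, i3⟩ := ic_io hE a b c d e f z
    show ZF _ (_ / 4096) (ic _ _ _) + XCf _ _ _ _ _ _ = _
    rw [i1, i2, i3, ZF_io hE]
    rfl

end

end Pool.Agent.T2H33.K5
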