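import Pool.Agent.T2H33.K5.Pk

/-! Fixing an index bit of a packed vector. -/

set_option autoImplicit false
set_option maxRecDepth 100000
open Finset

namespace Pool.Agent.T2H33.K5

/-- the number `i` with the bit `p` replaced by `w` -/
def ins (p w i : ℕ) : ℕ := 2 ^ (p + 1) * (i / 2 ^ (p + 1)) + (w * 2 ^ p + i % 2 ^ p)

theorem ins_pk {n p w : ℕ} {g : ℕ → ℕ} (hp : p < n) (hg : ∀ k < n, g k < 2) :
    ins p w (pk n g) = pk n (fun k => if k = p then w else g k) := by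
  obtain ⟨N, rfl⟩ : ∃ N, n = p + (1 + N) := ⟨n - p - 1, by omega⟩
  have h1 : ∀ f : ℕ → ℕ, pk 1 f = f 0 := fun f => by simp [pk]
  have e1 : pk (p + (1 + N)) g % 2 ^ p = pk p g := pk_mod hg
  have e2 : pk (p + (1 + N)) g / 2 ^ (p + 1) = pk N (fun k => g (p + 1 + k)) := by
    rw [show p + (1 + N) = (p + 1) + N by ring]
    exact pk_div (n := p + 1) (m := N) fun k hk => hg k (by omega)
  unfold ins
  rw [e1, e2, pk_add p, pk_add 1 N, h1]
  have e3 : pk p (fun k => if k = p then w else g k) = pk p g := pk_congr fun k hk => if_neg (by omega)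
  have e4 : (fun k => (fun k => if k = p then w else g k) (p + (1 + k))) = fun k => g (p + 1 + k) := by
    funext k
    show (if p + (1 + k) = p then w else g (p + (1 + k))) = _
    rw [if_neg (by omega), ← add_assoc]
  rw [e3, e4]
  show _ = _ + 2 ^ p * ((if p + 0 = p then w else g (p + 0)) + _)
  rw [if_pos (add_zero p), pow_succ]
  ring

/-- replace the index bit by a constant -/
theorem fx_enc {s p N w : ℕ} (hs : 0 < s) (hw : w < 2) {F : ℕ → ℕ} (hF : ∀ i < 2 ^ (N + (p + 1)), F i < 2 ^ s) :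
    d2 (s * 2 ^ p) (Nat.land (Nat.shiftRight (enc s (N + (p + 1)) F) (s * 2 ^ p * w))
      (enc (s * 2 ^ p * 2 ^ 1) N (fun _ => 2 ^ (s * 2 ^ p) - 1))) =
      enc s (N + (p + 1)) (fun i => F (ins p w i)) := by
  have hpow : ∀ j t : ℕ, j < 2 ^ N → t < 2 ^ (p + 1) → 2 ^ (p + 1) * j + t < 2 ^ (N + (p + 1)) := by
    intro j t hj ht
    calc 2 ^ (p + 1) * j + t < 2 ^ (p + 1) * j + 2 ^ (p + 1) := Nat.add_lt_add_left ht _
      _ = 2 ^ (p + 1) * (j + 1) := by ring
      _ ≤ 2 ^ (p + 1) * 2 ^ N := Nat.mul_le_mul_left _ hj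
      _ = _ := by rw [← pow_add]; congr 1; ring
  -- super-fields
  have hS : s * 2 ^ p * 2 ^ 1 = s * 2 ^ (p + 1) := by rw [pow_succ]; ring
  have e1 : enc s (N + (p + 1)) F = enc (s * 2 ^ (p + 1)) N (fun j => enc s (p + 1) (fun t => F (2 ^ (p + 1) * j + t))) := by
    rw [enc_nest s (p + 1) (fun j t => F (2 ^ (p + 1) * j + t)) N]
    refine enc_congr fun i _ => ?_
    rw [Nat.div_add_mod]
  set R : ℕ → ℕ := fun j => enc s (p + 1) (fun t => F (2 ^ (p + 1) * j + t)) with hR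
  have hRlt : ∀ j < 2 ^ N, R j < 2 ^ (s * 2 ^ p * 2 ^ 1) := fun j hj => by
    rw [hS]
    exact enc_lt fun t ht => hF _ (hpow j t hj ht)
  have e2 := enc_sub (s := s * 2 ^ p) (k := 1) (n := N) (by positivity) (R := R) hRlt (j := w) (by omega)
  rw [e1, ← hS, e2]
  have e3 : ∀ j < 2 ^ N, fld (s * 2 ^ p) (R j) w = enc s p (fun t => F (2 ^ (p + 1) * j + (w * 2 ^ p + t))) := by
    intro j hj
    have hlo : enc s p (fun t => F (2 ^ (p + 1) * j + t)) < 2 ^ (s * 2 ^ p) := enc_lt fun t ht =>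
      hF _ (hpow j t hj (by rw [pow_succ]; omega))
    have hhi : enc s p (fun t => F (2 ^ (p + 1) * j + (2 ^ p + t))) < 2 ^ (s * 2 ^ p) := enc_lt fun t ht =>
      hF _ (hpow j _ hj (by rw [pow_succ]; omega))
    have hr : R j = enc s p (fun t => F (2 ^ (p + 1) * j + t)) +
        enc s p (fun t => F (2 ^ (p + 1) * j + (2 ^ p + t))) * 2 ^ (s * 2 ^ p) := by
      rw [hR]
      exact enc_succ s p _
    unfold fld
    rw [hr]
    interval_cases w
    · rw [mul_zero, pow_zero, Nat.div_one, Nat.add_mul_mod_self_right, Nat.mod_eq_of_lt hlo]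
      simp only [zero_mul, zero_add]
    · rw [mul_one, Nat.add_mul_div_right _ _ (by positivity), Nat.div_eq_of_lt hlo, Nat.zero_add, Nat.mod_eq_of_lt hhi]
      simp only [one_mul]
  rw [enc_congr e3]
  have e4 : d2 (s * 2 ^ p) (enc (s * 2 ^ p * 2 ^ 1) N (fun j => enc s p (fun t => F (2 ^ (p + 1) * j + (w * 2 ^ p + t))))) =
      enc (s * 2 ^ p * 2 ^ 1) N (fun j => enc s (p + 1) (fun t => F (2 ^ (p + 1) * j + (w * 2 ^ p + t % 2 ^ p)))) := by
    show _ + (_ <<< (s * 2 ^ p)) = _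
    rw [Nat.shiftLeft_eq, enc_mulc, enc_add]
    refine enc_congr fun j _ => ?_
    have h := enc_rep s p (fun t => F (2 ^ (p + 1) * j + (w * 2 ^ p + t)))
    rw [← h]
    show _ = _ + (_ <<< (s * 2 ^ p))
    rw [Nat.shiftLeft_eq]
  rw [e4, hS, enc_nest s (p + 1) (fun j t => F (2 ^ (p + 1) * j + (w * 2 ^ p + t % 2 ^ p))) N]
  refine enc_congr fun i _ => ?_
  unfold ins
  congr 3
  exact Nat.mod_mod_of_dvd _ (pow_dvd_pow 2 (by omega))

end Pool.Agent.T2H33.K5
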