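import Pool.Agent.T2H33.K5.Frm

/-! Invariance of the table under the exchanges of the labelled vertices. -/

set_option autoImplicit false
set_option maxRecDepth 100000
set_option exponentiation.threshold 200000
open Finset

namespace Pool.Agent.T2H33.K5

noncomputable section

/-- the table as one vector -/
def TBL : ℕ := asm 102400 63 6 sbk

/-- entry of the table -/
def Gt (i : ℕ) : ℕ := fld 25 (sbk (i / 4096)) (i % 4096)

theorem TBL_eq : TBL = enc 25 18 Gt := by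
  have e1 : TBL = enc 102400 6 sbk := asm_eq 102400 63 6 sbk (by
    intro k hk hkm
    interval_cases k <;> exact absurd hkm (by decide +kernel))
  have e2 : ∀ k < 2 ^ 6, sbk k = enc 25 12 (fld 25 (sbk k)) := fun k hk => (enc_fld (by norm_num) (by
    refine lt_of_lt_of_le (sbk_lt hk) (Nat.pow_le_pow_right (by norm_num) ?_); norm_num)).symm
  rw [e1, enc_congr e2]
  exact enc_nest 25 12 (fun k => fld 25 (sbk k)) 6

/-- index of an entry -/
def ix (r m : ℕ) : ℕ := r + 8 * (m / 64 % 8) + 64 * (m % 64) + 4096 * (m / 512)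

theorem Td_ix {r m : ℕ} (hr : r < 8) : Td r m = Gt (ix r m) := by
  unfold Gt ix
  rw [Td_eq, show (r + 8 * (m / 64 % 8) + 64 * (m % 64) + 4096 * (m / 512)) / 4096 = m / 512 by omega,
    show (r + 8 * (m / 64 % 8) + 64 * (m % 64) + 4096 * (m / 512)) % 4096 = r + (8 * (m / 64 % 8) + 64 * (m % 64)) by omega]

/-- the bits of the index -/
def ixb (r : ℕ) (f : ℕ → ℕ) (k : ℕ) : ℕ := if k < 3 then bt k r else if k < 6 then f (k + 3) else if k < 12 then f (k - 6) else f (k - 3)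

theorem ix_pk {r : ℕ} (hr : r < 8) {f : ℕ → ℕ} (hf : ∀ k, f k < 2) : ix r (pk 15 f) = pk 18 (ixb r f) := by
  have e15 : pk 15 f = pk 6 f + 64 * (pk 3 (fun k => f (6 + k)) + 8 * pk 6 (fun k => f (9 + k))) := by
    rw [show (15 : ℕ) = 6 + (3 + 6) from rfl, pk_add, pk_add]
    have : (fun k => f (6 + (3 + k))) = fun k => f (9 + k) := by funext k; rw [← add_assoc]
    rw [this]
    norm_num only
  have e18 : pk 18 (ixb r f) = r + 8 * (pk 3 (fun k => f (6 + k)) + 8 * (pk 6 f + 64 * pk 6 (fun k => f (9 + k)))) := by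
    rw [show (18 : ℕ) = 3 + (3 + (6 + 6)) from rfl, pk_add, pk_add, pk_add]
    rw [pk_congr (n := 3) (f := ixb r f) (g := fun k => bt k r) (fun k hk => if_pos hk), pk_self (n := 3) hr]
    rw [pk_congr (n := 3) (f := fun k => ixb r f (3 + k)) (g := fun k => f (6 + k)) (fun k hk => by
      interval_cases k <;> rfl)]
    rw [pk_congr (n := 6) (f := fun k => ixb r f (3 + (3 + k))) (g := f) (fun k hk => by
      interval_cases k <;> rfl)]
    rw [pk_congr (n := 6) (f := fun k => ixb r f (3 + (3 + (6 + k)))) (g := fun k => f (9 + k)) (fun k hk => by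
      interval_cases k <;> rfl)]
    norm_num only
  have l1 : pk 6 f < 64 := pk_lt (n := 6) fun k _ => hf k
  have l2 : pk 3 (fun k => f (6 + k)) < 8 := pk_lt (n := 3) fun k _ => hf _
  have l3 : pk 6 (fun k => f (9 + k)) < 64 := pk_lt (n := 6) fun k _ => hf _
  rw [e18, e15]
  unfold ix
  omega

theorem swp18 {p q : ℕ} (hpq : p < q) (hq : q < 18) {f : ℕ → ℕ} (hf : ∀ i < 2 ^ 18, f i < 2 ^ 25) :
    swp 25 18 p q (enc 25 18 f) = enc 25 18 (fun i => f (sb p q i)) ∧ ∀ i < 2 ^ 18, f (sb p q i) < 2 ^ 25 :=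
  ⟨swp_enc (by norm_num) hpq hq hf, fun _ hi => hf _ (sb_lt hpq hq hi)⟩

theorem Gt_lt (i : ℕ) : Gt i < 2 ^ 25 := fld_lt _ _ _

theorem inv01_ok : Nat.beq (swp 25 18 7 9 (swp 25 18 8 10 (swp 25 18 5 12 (swp 25 18 15 16 TBL)))) TBL = true := by decide +kernel

theorem inv01_G {i : ℕ} (hi : i < 2 ^ 18) : Gt (sb 15 16 (sb 5 12 (sb 8 10 (sb 7 9 i)))) = Gt i := by
  have h : (swp 25 18 7 9 (swp 25 18 8 10 (swp 25 18 5 12 (swp 25 18 15 16 TBL)))) = TBL := Nat.eq_of_beq_eq_true inv01_ok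
  have k0 := swp18 (p := 15) (q := 16) (by norm_num) (by norm_num) (fun i _ => Gt_lt i)
  have k1 := swp18 (p := 5) (q := 12) (by norm_num) (by norm_num) k0.2
  have k2 := swp18 (p := 8) (q := 10) (by norm_num) (by norm_num) k1.2
  have k3 := swp18 (p := 7) (q := 9) (by norm_num) (by norm_num) k2.2
  rw [TBL_eq, k0.1, k1.1, k2.1, k3.1] at h
  exact enc_inj (by norm_num) k3.2 (fun i _ => Gt_lt i) h hi

theorem Td_pc01 {r m : ℕ} (hr : r < 8) (hm : m < 2 ^ 15) : Td r (pc01 m) = Td r m := by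
  have hb : ∀ k, (fun k => bt k m) k < 2 := fun k => bt_lt_two k m
  have e1 : pc01 m = pk 15 (fun k => bt (sp 1 3 (sp 2 4 (sp 8 9 (sp 12 13 (k))))) m) := by
    conv_lhs => rw [← pk_self hm]
    unfold pc01
    repeat rw [sb_pk (by norm_num) (by norm_num) (fun k _ => hb _)]
  have hx : ∀ k < 18, ixb r (fun k => bt k m) k < 2 := fun k _ => by
    unfold ixb
    split_ifs <;> exact bt_lt_two _ _
  have hx' : ∀ k, ixb r (fun k => bt k m) k < 2 := fun k => by
    unfold ixb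
    split_ifs <;> exact bt_lt_two _ _
  rw [Td_ix hr, Td_ix hr]
  have e2 : ix r (pc01 m) = (sb 15 16 (sb 5 12 (sb 8 10 (sb 7 9 (ix r m))))) := by
    rw [e1, ix_pk hr (fun k => bt_lt_two _ m)]
    conv_rhs => rw [← pk_self hm, ix_pk hr hb]
    repeat rw [sb_pk (by norm_num) (by norm_num) (fun k _ => hx' _)]
    refine pk_congr fun k hk => ?_
    interval_cases k <;> simp [sp, ixb]
  rw [e2]
  refine inv01_G ?_
  rw [← pk_self hm, ix_pk hr hb]
  exact pk_lt hx

theorem inv12_ok : Nat.beq (swp 25 18 6 7 (swp 25 18 10 11 (swp 25 18 4 5 (swp 25 18 14 15 TBL)))) TBL = true := by decide +kernel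

theorem inv12_G {i : ℕ} (hi : i < 2 ^ 18) : Gt (sb 14 15 (sb 4 5 (sb 10 11 (sb 6 7 i)))) = Gt i := by
  have h : (swp 25 18 6 7 (swp 25 18 10 11 (swp 25 18 4 5 (swp 25 18 14 15 TBL)))) = TBL := Nat.eq_of_beq_eq_true inv12_ok
  have k0 := swp18 (p := 14) (q := 15) (by norm_num) (by norm_num) (fun i _ => Gt_lt i)
  have k1 := swp18 (p := 4) (q := 5) (by norm_num) (by norm_num) k0.2
  have k2 := swp18 (p := 10) (q := 11) (by norm_num) (by norm_num) k1.2
  have k3 := swp18 (p := 6) (q := 7) (by norm_num) (by norm_num) k2.2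
  rw [TBL_eq, k0.1, k1.1, k2.1, k3.1] at h
  exact enc_inj (by norm_num) k3.2 (fun i _ => Gt_lt i) h hi

theorem Td_pc12 {r m : ℕ} (hr : r < 8) (hm : m < 2 ^ 15) : Td r (pc12 m) = Td r m := by
  have hb : ∀ k, (fun k => bt k m) k < 2 := fun k => bt_lt_two k m
  have e1 : pc12 m = pk 15 (fun k => bt (sp 0 1 (sp 4 5 (sp 7 8 (sp 11 12 (k))))) m) := by
    conv_lhs => rw [← pk_self hm]
    unfold pc12
    repeat rw [sb_pk (by norm_num) (by norm_num) (fun k _ => hb _)]
  have hx : ∀ k < 18, ixb r (fun k => bt k m) k < 2 := fun k _ => by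
    unfold ixb
    split_ifs <;> exact bt_lt_two _ _
  have hx' : ∀ k, ixb r (fun k => bt k m) k < 2 := fun k => by
    unfold ixb
    split_ifs <;> exact bt_lt_two _ _
  rw [Td_ix hr, Td_ix hr]
  have e2 : ix r (pc12 m) = (sb 14 15 (sb 4 5 (sb 10 11 (sb 6 7 (ix r m))))) := by
    rw [e1, ix_pk hr (fun k => bt_lt_two _ m)]
    conv_rhs => rw [← pk_self hm, ix_pk hr hb]
    repeat rw [sb_pk (by norm_num) (by norm_num) (fun k _ => hx' _)]
    refine pk_congr fun k hk => ?_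
    interval_cases k <;> simp [sp, ixb]
  rw [e2]
  refine inv12_G ?_
  rw [← pk_self hm, ix_pk hr hb]
  exact pk_lt hx

theorem inv23_ok : Nat.beq (swp 25 18 7 8 (swp 25 18 9 10 (swp 25 18 3 4 (swp 25 18 13 14 TBL)))) TBL = true := by decide +kernel

theorem inv23_G {i : ℕ} (hi : i < 2 ^ 18) : Gt (sb 13 14 (sb 3 4 (sb 9 10 (sb 7 8 i)))) = Gt i := by
  have h : (swp 25 18 7 8 (swp 25 18 9 10 (swp 25 18 3 4 (swp 25 18 13 14 TBL)))) = TBL := Nat.eq_of_beq_eq_true inv23_ok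
  have k0 := swp18 (p := 13) (q := 14) (by norm_num) (by norm_num) (fun i _ => Gt_lt i)
  have k1 := swp18 (p := 3) (q := 4) (by norm_num) (by norm_num) k0.2
  have k2 := swp18 (p := 9) (q := 10) (by norm_num) (by norm_num) k1.2
  have k3 := swp18 (p := 7) (q := 8) (by norm_num) (by norm_num) k2.2
  rw [TBL_eq, k0.1, k1.1, k2.1, k3.1] at h
  exact enc_inj (by norm_num) k3.2 (fun i _ => Gt_lt i) h hi

theorem Td_pc23 {r m : ℕ} (hr : r < 8) (hm : m < 2 ^ 15) : Td r (pc23 m) = Td r m := by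
  have hb : ∀ k, (fun k => bt k m) k < 2 := fun k => bt_lt_two k m
  have e1 : pc23 m = pk 15 (fun k => bt (sp 1 2 (sp 3 4 (sp 6 7 (sp 10 11 (k))))) m) := by
    conv_lhs => rw [← pk_self hm]
    unfold pc23
    repeat rw [sb_pk (by norm_num) (by norm_num) (fun k _ => hb _)]
  have hx : ∀ k < 18, ixb r (fun k => bt k m) k < 2 := fun k _ => by
    unfold ixb
    split_ifs <;> exact bt_lt_two _ _
  have hx' : ∀ k, ixb r (fun k => bt k m) k < 2 := fun k => by
    unfold ixb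
    split_ifs <;> exact bt_lt_two _ _
  rw [Td_ix hr, Td_ix hr]
  have e2 : ix r (pc23 m) = (sb 13 14 (sb 3 4 (sb 9 10 (sb 7 8 (ix r m))))) := by
    rw [e1, ix_pk hr (fun k => bt_lt_two _ m)]
    conv_rhs => rw [← pk_self hm, ix_pk hr hb]
    repeat rw [sb_pk (by norm_num) (by norm_num) (fun k _ => hx' _)]
    refine pk_congr fun k hk => ?_
    interval_cases k <;> simp [sp, ixb]
  rw [e2]
  refine inv23_G ?_
  rw [← pk_self hm, ix_pk hr hb]
  exact pk_lt hx

theorem inv34_ok : Nat.beq (swp 25 18 4 6 (swp 25 18 5 7 (swp 25 18 9 12 (swp 25 18 13 17 TBL)))) TBL = true := by decide +kernel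

theorem inv34_G {i : ℕ} (hi : i < 2 ^ 18) : Gt (sb 13 17 (sb 9 12 (sb 5 7 (sb 4 6 i)))) = Gt i := by
  have h : (swp 25 18 4 6 (swp 25 18 5 7 (swp 25 18 9 12 (swp 25 18 13 17 TBL)))) = TBL := Nat.eq_of_beq_eq_true inv34_ok
  have k0 := swp18 (p := 13) (q := 17) (by norm_num) (by norm_num) (fun i _ => Gt_lt i)
  have k1 := swp18 (p := 9) (q := 12) (by norm_num) (by norm_num) k0.2
  have k2 := swp18 (p := 5) (q := 7) (by norm_num) (by norm_num) k1.2
  have k3 := swp18 (p := 4) (q := 6) (by norm_num) (by norm_num) k2.2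
  rw [TBL_eq, k0.1, k1.1, k2.1, k3.1] at h
  exact enc_inj (by norm_num) k3.2 (fun i _ => Gt_lt i) h hi

theorem Td_pc34 {r m : ℕ} (hr : r < 8) (hm : m < 2 ^ 15) : Td r (pc34 m) = Td r m := by
  have hb : ∀ k, (fun k => bt k m) k < 2 := fun k => bt_lt_two k m
  have e1 : pc34 m = pk 15 (fun k => bt (sp 0 7 (sp 1 8 (sp 3 9 (sp 10 14 (k))))) m) := by
    conv_lhs => rw [← pk_self hm]
    unfold pc34
    repeat rw [sb_pk (by norm_num) (by norm_num) (fun k _ => hb _)]
  have hx : ∀ k < 18, ixb r (fun k => bt k m) k < 2 := fun k _ => by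
    unfold ixb
    split_ifs <;> exact bt_lt_two _ _
  have hx' : ∀ k, ixb r (fun k => bt k m) k < 2 := fun k => by
    unfold ixb
    split_ifs <;> exact bt_lt_two _ _
  rw [Td_ix hr, Td_ix hr]
  have e2 : ix r (pc34 m) = (sb 13 17 (sb 9 12 (sb 5 7 (sb 4 6 (ix r m))))) := by
    rw [e1, ix_pk hr (fun k => bt_lt_two _ m)]
    conv_rhs => rw [← pk_self hm, ix_pk hr hb]
    repeat rw [sb_pk (by norm_num) (by norm_num) (fun k _ => hx' _)]
    refine pk_congr fun k hk => ?_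
    interval_cases k <;> simp [sp, ixb]
  rw [e2]
  refine inv34_G ?_
  rw [← pk_self hm, ix_pk hr hb]
  exact pk_lt hx

theorem pv_pc {pc : ℕ → ℕ} {m l : ℕ} (h : ∀ r < 8, Td r (pc m) = Td r m) (h' : ∀ r < 8, Td r (pc l) = Td r l) :
    pv (pc m) (pc l) = pv m l := by
  unfold pv
  rw [h 0 (by norm_num), h 1 (by norm_num), h 2 (by norm_num), h 3 (by norm_num), h 4 (by norm_num),
    h' 0 (by norm_num), h' 1 (by norm_num), h' 2 (by norm_num), h' 3 (by norm_num), h' 4 (by norm_num)]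

end

end Pool.Agent.T2H33.K5
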