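import Pool.Agent.T2H33.K5.Ker2

/-! Kernel checks, part 0. -/

set_option autoImplicit false
set_option maxRecDepth 100000
set_option linter.defProp false

namespace Pool.Agent.T2H33.K5

def c0_0 : chk 0 0 0 0 0 = true := by decide +kernel
def c0_1 : chk 0 1 0 0 0 = true := by decide +kernel
def c0_2 : chk 0 0 1 0 0 = true := by decide +kernel
def c0_3 : chk 0 1 1 0 0 = true := by decide +kernel
def c0_4 : chk 0 0 0 1 0 = true := by decide +kernel
def c0_5 : chk 0 1 0 1 0 = true := by decide +kernel
def c0_6 : chk 0 0 1 1 0 = true := by decide +kernel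
def c0_7 : chk 0 1 1 1 0 = true := by decide +kernel
def c0_8 : chk 0 0 0 0 1 = true := by decide +kernel
def c0_9 : chk 0 1 0 0 1 = true := by decide +kernel
def c0_10 : chk 0 0 1 0 1 = true := by decide +kernel
def c0_11 : chk 0 1 1 0 1 = true := by decide +kernel
def c0_12 : chk 0 0 0 1 1 = true := by decide +kernel
def c0_13 : chk 0 1 0 1 1 = true := by decide +kernel
def c0_14 : chk 0 0 1 1 1 = true := by decide +kernel
def c0_15 : chk 0 1 1 1 1 = true := by decide +kernel
def c1_0 : chk 1 0 0 0 0 = true := by decide +kernel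
def c1_1 : chk 1 1 0 0 0 = true := by decide +kernel
def c1_2 : chk 1 0 1 0 0 = true := by decide +kernel
def c1_3 : chk 1 1 1 0 0 = true := by decide +kernel
def c1_4 : chk 1 0 0 1 0 = true := by decide +kernel
def c1_5 : chk 1 1 0 1 0 = true := by decide +kernel
def c1_6 : chk 1 0 1 1 0 = true := by decide +kernel
def c1_7 : chk 1 1 1 1 0 = true := by decide +kernel
def c1_8 : chk 1 0 0 0 1 = true := by decide +kernel
def c1_9 : chk 1 1 0 0 1 = true := by decide +kernel
def c1_10 : chk 1 0 1 0 1 = true := by decide +kernel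
def c1_11 : chk 1 1 1 0 1 = true := by decide +kernel
def c1_12 : chk 1 0 0 1 1 = true := by decide +kernel
def c1_13 : chk 1 1 0 1 1 = true := by decide +kernel
def c1_14 : chk 1 0 1 1 1 = true := by decide +kernel
def c1_15 : chk 1 1 1 1 1 = true := by decide +kernel
def c3_0 : chk 3 0 0 0 0 = true := by decide +kernel
def c3_1 : chk 3 1 0 0 0 = true := by decide +kernel
def c3_2 : chk 3 0 1 0 0 = true := by decide +kernel
def c3_3 : chk 3 1 1 0 0 = true := by decide +kernel
def c3_4 : chk 3 0 0 1 0 = true := by decide +kernel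
def c3_5 : chk 3 1 0 1 0 = true := by decide +kernel
def c3_6 : chk 3 0 1 1 0 = true := by decide +kernel
def c3_7 : chk 3 1 1 1 0 = true := by decide +kernel
def c3_8 : chk 3 0 0 0 1 = true := by decide +kernel
def c3_9 : chk 3 1 0 0 1 = true := by decide +kernel
def c3_10 : chk 3 0 1 0 1 = true := by decide +kernel
def c3_11 : chk 3 1 1 0 1 = true := by decide +kernel
def c3_12 : chk 3 0 0 1 1 = true := by decide +kernel
def c3_13 : chk 3 1 0 1 1 = true := by decide +kernel
def c3_14 : chk 3 0 1 1 1 = true := by decide +kernel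
def c3_15 : chk 3 1 1 1 1 = true := by decide +kernel
def c7_0 : chk 7 0 0 0 0 = true := by decide +kernel
def c7_1 : chk 7 1 0 0 0 = true := by decide +kernel
def c7_2 : chk 7 0 1 0 0 = true := by decide +kernel
def c7_3 : chk 7 1 1 0 0 = true := by decide +kernel
def c7_4 : chk 7 0 0 1 0 = true := by decide +kernel
def c7_5 : chk 7 1 0 1 0 = true := by decide +kernel
def c7_6 : chk 7 0 1 1 0 = true := by decide +kernel
def c7_7 : chk 7 1 1 1 0 = true := by decide +kernel
def c7_8 : chk 7 0 0 0 1 = true := by decide +kernel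
def c7_9 : chk 7 1 0 0 1 = true := by decide +kernel
def c7_10 : chk 7 0 1 0 1 = true := by decide +kernel
def c7_11 : chk 7 1 1 0 1 = true := by decide +kernel
def c7_12 : chk 7 0 0 1 1 = true := by decide +kernel
def c7_13 : chk 7 1 0 1 1 = true := by decide +kernel
def c7_14 : chk 7 0 1 1 1 = true := by decide +kernel
def c7_15 : chk 7 1 1 1 1 = true := by decide +kernel
def c11_0 : chk 11 0 0 0 0 = true := by decide +kernel
def c11_1 : chk 11 1 0 0 0 = true := by decide +kernel
def c11_2 : chk 11 0 1 0 0 = true := by decide +kernel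
def c11_3 : chk 11 1 1 0 0 = true := by decide +kernel
def c11_4 : chk 11 0 0 1 0 = true := by decide +kernel
def c11_5 : chk 11 1 0 1 0 = true := by decide +kernel
def c11_6 : chk 11 0 1 1 0 = true := by decide +kernel
def c11_7 : chk 11 1 1 1 0 = true := by decide +kernel
def c11_8 : chk 11 0 0 0 1 = true := by decide +kernel
def c11_9 : chk 11 1 0 0 1 = true := by decide +kernel
def c11_10 : chk 11 0 1 0 1 = true := by decide +kernel
def c11_11 : chk 11 1 1 0 1 = true := by decide +kernel
def c11_12 : chk 11 0 0 1 1 = true := by decide +kernel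
def c11_13 : chk 11 1 0 1 1 = true := by decide +kernel
def c11_14 : chk 11 0 1 1 1 = true := by decide +kernel
def c11_15 : chk 11 1 1 1 1 = true := by decide +kernel
def c12_0 : chk 12 0 0 0 0 = true := by decide +kernel
def c12_1 : chk 12 1 0 0 0 = true := by decide +kernel
def c12_2 : chk 12 0 1 0 0 = true := by decide +kernel
def c12_3 : chk 12 1 1 0 0 = true := by decide +kernel
def c12_4 : chk 12 0 0 1 0 = true := by decide +kernel
def c12_5 : chk 12 1 0 1 0 = true := by decide +kernel
def c12_6 : chk 12 0 1 1 0 = true := by decide +kernel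
def c12_7 : chk 12 1 1 1 0 = true := by decide +kernel
def c12_8 : chk 12 0 0 0 1 = true := by decide +kernel
def c12_9 : chk 12 1 0 0 1 = true := by decide +kernel
def c12_10 : chk 12 0 1 0 1 = true := by decide +kernel
def c12_11 : chk 12 1 1 0 1 = true := by decide +kernel
def c12_12 : chk 12 0 0 1 1 = true := by decide +kernel
def c12_13 : chk 12 1 0 1 1 = true := by decide +kernel
def c12_14 : chk 12 0 1 1 1 = true := by decide +kernel
def c12_15 : chk 12 1 1 1 1 = true := by decide +kernel
def c13_0 : chk 13 0 0 0 0 = true := by decide +kernel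
def c13_1 : chk 13 1 0 0 0 = true := by decide +kernel
def c13_2 : chk 13 0 1 0 0 = true := by decide +kernel
def c13_3 : chk 13 1 1 0 0 = true := by decide +kernel
def c13_4 : chk 13 0 0 1 0 = true := by decide +kernel
def c13_5 : chk 13 1 0 1 0 = true := by decide +kernel
def c13_6 : chk 13 0 1 1 0 = true := by decide +kernel
def c13_7 : chk 13 1 1 1 0 = true := by decide +kernel
def c13_8 : chk 13 0 0 0 1 = true := by decide +kernel
def c13_9 : chk 13 1 0 0 1 = true := by decide +kernel
def c13_10 : chk 13 0 1 0 1 = true := by decide +kernel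
def c13_11 : chk 13 1 1 0 1 = true := by decide +kernel
def c13_12 : chk 13 0 0 1 1 = true := by decide +kernel
def c13_13 : chk 13 1 0 1 1 = true := by decide +kernel
def c13_14 : chk 13 0 1 1 1 = true := by decide +kernel
def c13_15 : chk 13 1 1 1 1 = true := by decide +kernel
def c15_0 : chk 15 0 0 0 0 = true := by decide +kernel
def c15_1 : chk 15 1 0 0 0 = true := by decide +kernel
def c15_2 : chk 15 0 1 0 0 = true := by decide +kernel
def c15_3 : chk 15 1 1 0 0 = true := by decide +kernel
def c15_4 : chk 15 0 0 1 0 = true := by decide +kernel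
def c15_5 : chk 15 1 0 1 0 = true := by decide +kernel
def c15_6 : chk 15 0 1 1 0 = true := by decide +kernel
def c15_7 : chk 15 1 1 1 0 = true := by decide +kernel
def c15_8 : chk 15 0 0 0 1 = true := by decide +kernel
def c15_9 : chk 15 1 0 0 1 = true := by decide +kernel
def c15_10 : chk 15 0 1 0 1 = true := by decide +kernel
def c15_11 : chk 15 1 1 0 1 = true := by decide +kernel
def c15_12 : chk 15 0 0 1 1 = true := by decide +kernel
def c15_13 : chk 15 1 0 1 1 = true := by decide +kernel
def c15_14 : chk 15 0 1 1 1 = true := by decide +kernel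
def c15_15 : chk 15 1 1 1 1 = true := by decide +kernel

end Pool.Agent.T2H33.K5
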