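import Pool.Agent.T2H33.K5.Ker2

/-! Kernel checks, part 1. -/

set_option autoImplicit false
set_option maxRecDepth 100000
set_option linter.defProp false

namespace Pool.Agent.T2H33.K5

def c30_0 : chk 30 0 0 0 0 = true := by decide +kernel
def c30_1 : chk 30 1 0 0 0 = true := by decide +kernel
def c30_2 : chk 30 0 1 0 0 = true := by decide +kernel
def c30_3 : chk 30 1 1 0 0 = true := by decide +kernel
def c30_4 : chk 30 0 0 1 0 = true := by decide +kernel
def c30_5 : chk 30 1 0 1 0 = true := by decide +kernel
def c30_6 : chk 30 0 1 1 0 = true := by decide +kernel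
def c30_7 : chk 30 1 1 1 0 = true := by decide +kernel
def c30_8 : chk 30 0 0 0 1 = true := by decide +kernel
def c30_9 : chk 30 1 0 0 1 = true := by decide +kernel
def c30_10 : chk 30 0 1 0 1 = true := by decide +kernel
def c30_11 : chk 30 1 1 0 1 = true := by decide +kernel
def c30_12 : chk 30 0 0 1 1 = true := by decide +kernel
def c30_13 : chk 30 1 0 1 1 = true := by decide +kernel
def c30_14 : chk 30 0 1 1 1 = true := by decide +kernel
def c30_15 : chk 30 1 1 1 1 = true := by decide +kernel
def c31_0 : chk 31 0 0 0 0 = true := by decide +kernel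
def c31_1 : chk 31 1 0 0 0 = true := by decide +kernel
def c31_2 : chk 31 0 1 0 0 = true := by decide +kernel
def c31_3 : chk 31 1 1 0 0 = true := by decide +kernel
def c31_4 : chk 31 0 0 1 0 = true := by decide +kernel
def c31_5 : chk 31 1 0 1 0 = true := by decide +kernel
def c31_6 : chk 31 0 1 1 0 = true := by decide +kernel
def c31_7 : chk 31 1 1 1 0 = true := by decide +kernel
def c31_8 : chk 31 0 0 0 1 = true := by decide +kernel
def c31_9 : chk 31 1 0 0 1 = true := by decide +kernel
def c31_10 : chk 31 0 1 0 1 = true := by decide +kernel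
def c31_11 : chk 31 1 1 0 1 = true := by decide +kernel
def c31_12 : chk 31 0 0 1 1 = true := by decide +kernel
def c31_13 : chk 31 1 0 1 1 = true := by decide +kernel
def c31_14 : chk 31 0 1 1 1 = true := by decide +kernel
def c31_15 : chk 31 1 1 1 1 = true := by decide +kernel
def c63_0 : chk 63 0 0 0 0 = true := by decide +kernel
def c63_1 : chk 63 1 0 0 0 = true := by decide +kernel
def c63_2 : chk 63 0 1 0 0 = true := by decide +kernel
def c63_3 : chk 63 1 1 0 0 = true := by decide +kernel
def c63_4 : chk 63 0 0 1 0 = true := by decide +kernel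
def c63_5 : chk 63 1 0 1 0 = true := by decide +kernel
def c63_6 : chk 63 0 1 1 0 = true := by decide +kernel
def c63_7 : chk 63 1 1 1 0 = true := by decide +kernel
def c63_8 : chk 63 0 0 0 1 = true := by decide +kernel
def c63_9 : chk 63 1 0 0 1 = true := by decide +kernel
def c63_10 : chk 63 0 1 0 1 = true := by decide +kernel
def c63_11 : chk 63 1 1 0 1 = true := by decide +kernel
def c63_12 : chk 63 0 0 1 1 = true := by decide +kernel
def c63_13 : chk 63 1 0 1 1 = true := by decide +kernel
def c63_14 : chk 63 0 1 1 1 = true := by decide +kernel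
def c63_15 : chk 63 1 1 1 1 = true := by decide +kernel
def c75_0 : chk 75 0 0 0 0 = true := by decide +kernel
def c75_1 : chk 75 1 0 0 0 = true := by decide +kernel
def c75_2 : chk 75 0 1 0 0 = true := by decide +kernel
def c75_3 : chk 75 1 1 0 0 = true := by decide +kernel
def c75_4 : chk 75 0 0 1 0 = true := by decide +kernel
def c75_5 : chk 75 1 0 1 0 = true := by decide +kernel
def c75_6 : chk 75 0 1 1 0 = true := by decide +kernel
def c75_7 : chk 75 1 1 1 0 = true := by decide +kernel
def c75_8 : chk 75 0 0 0 1 = true := by decide +kernel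
def c75_9 : chk 75 1 0 0 1 = true := by decide +kernel
def c75_10 : chk 75 0 1 0 1 = true := by decide +kernel
def c75_11 : chk 75 1 1 0 1 = true := by decide +kernel
def c75_12 : chk 75 0 0 1 1 = true := by decide +kernel
def c75_13 : chk 75 1 0 1 1 = true := by decide +kernel
def c75_14 : chk 75 0 1 1 1 = true := by decide +kernel
def c75_15 : chk 75 1 1 1 1 = true := by decide +kernel
def c76_0 : chk 76 0 0 0 0 = true := by decide +kernel
def c76_1 : chk 76 1 0 0 0 = true := by decide +kernel
def c76_2 : chk 76 0 1 0 0 = true := by decide +kernel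
def c76_3 : chk 76 1 1 0 0 = true := by decide +kernel
def c76_4 : chk 76 0 0 1 0 = true := by decide +kernel
def c76_5 : chk 76 1 0 1 0 = true := by decide +kernel
def c76_6 : chk 76 0 1 1 0 = true := by decide +kernel
def c76_7 : chk 76 1 1 1 0 = true := by decide +kernel
def c76_8 : chk 76 0 0 0 1 = true := by decide +kernel
def c76_9 : chk 76 1 0 0 1 = true := by decide +kernel
def c76_10 : chk 76 0 1 0 1 = true := by decide +kernel
def c76_11 : chk 76 1 1 0 1 = true := by decide +kernel
def c76_12 : chk 76 0 0 1 1 = true := by decide +kernel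
def c76_13 : chk 76 1 0 1 1 = true := by decide +kernel
def c76_14 : chk 76 0 1 1 1 = true := by decide +kernel
def c76_15 : chk 76 1 1 1 1 = true := by decide +kernel
def c77_0 : chk 77 0 0 0 0 = true := by decide +kernel
def c77_1 : chk 77 1 0 0 0 = true := by decide +kernel
def c77_2 : chk 77 0 1 0 0 = true := by decide +kernel
def c77_3 : chk 77 1 1 0 0 = true := by decide +kernel
def c77_4 : chk 77 0 0 1 0 = true := by decide +kernel
def c77_5 : chk 77 1 0 1 0 = true := by decide +kernel
def c77_6 : chk 77 0 1 1 0 = true := by decide +kernel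
def c77_7 : chk 77 1 1 1 0 = true := by decide +kernel
def c77_8 : chk 77 0 0 0 1 = true := by decide +kernel
def c77_9 : chk 77 1 0 0 1 = true := by decide +kernel
def c77_10 : chk 77 0 1 0 1 = true := by decide +kernel
def c77_11 : chk 77 1 1 0 1 = true := by decide +kernel
def c77_12 : chk 77 0 0 1 1 = true := by decide +kernel
def c77_13 : chk 77 1 0 1 1 = true := by decide +kernel
def c77_14 : chk 77 0 1 1 1 = true := by decide +kernel
def c77_15 : chk 77 1 1 1 1 = true := by decide +kernel
def c79_0 : chk 79 0 0 0 0 = true := by decide +kernel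
def c79_1 : chk 79 1 0 0 0 = true := by decide +kernel
def c79_2 : chk 79 0 1 0 0 = true := by decide +kernel
def c79_3 : chk 79 1 1 0 0 = true := by decide +kernel
def c79_4 : chk 79 0 0 1 0 = true := by decide +kernel
def c79_5 : chk 79 1 0 1 0 = true := by decide +kernel
def c79_6 : chk 79 0 1 1 0 = true := by decide +kernel
def c79_7 : chk 79 1 1 1 0 = true := by decide +kernel
def c79_8 : chk 79 0 0 0 1 = true := by decide +kernel
def c79_9 : chk 79 1 0 0 1 = true := by decide +kernel
def c79_10 : chk 79 0 1 0 1 = true := by decide +kernel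
def c79_11 : chk 79 1 1 0 1 = true := by decide +kernel
def c79_12 : chk 79 0 0 1 1 = true := by decide +kernel
def c79_13 : chk 79 1 0 1 1 = true := by decide +kernel
def c79_14 : chk 79 0 1 1 1 = true := by decide +kernel
def c79_15 : chk 79 1 1 1 1 = true := by decide +kernel
def c86_0 : chk 86 0 0 0 0 = true := by decide +kernel
def c86_1 : chk 86 1 0 0 0 = true := by decide +kernel
def c86_2 : chk 86 0 1 0 0 = true := by decide +kernel
def c86_3 : chk 86 1 1 0 0 = true := by decide +kernel
def c86_4 : chk 86 0 0 1 0 = true := by decide +kernel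
def c86_5 : chk 86 1 0 1 0 = true := by decide +kernel
def c86_6 : chk 86 0 1 1 0 = true := by decide +kernel
def c86_7 : chk 86 1 1 1 0 = true := by decide +kernel
def c86_8 : chk 86 0 0 0 1 = true := by decide +kernel
def c86_9 : chk 86 1 0 0 1 = true := by decide +kernel
def c86_10 : chk 86 0 1 0 1 = true := by decide +kernel
def c86_11 : chk 86 1 1 0 1 = true := by decide +kernel
def c86_12 : chk 86 0 0 1 1 = true := by decide +kernel
def c86_13 : chk 86 1 0 1 1 = true := by decide +kernel
def c86_14 : chk 86 0 1 1 1 = true := by decide +kernel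
def c86_15 : chk 86 1 1 1 1 = true := by decide +kernel

end Pool.Agent.T2H33.K5
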