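import Pool.Agent.T2H33.K5.Ker2

/-! Kernel checks, part 2. -/

set_option autoImplicit false
set_option maxRecDepth 100000
set_option linter.defProp false

namespace Pool.Agent.T2H33.K5

def c87_0 : chk 87 0 0 0 0 = true := by decide +kernel
def c87_1 : chk 87 1 0 0 0 = true := by decide +kernel
def c87_2 : chk 87 0 1 0 0 = true := by decide +kernel
def c87_3 : chk 87 1 1 0 0 = true := by decide +kernel
def c87_4 : chk 87 0 0 1 0 = true := by decide +kernel
def c87_5 : chk 87 1 0 1 0 = true := by decide +kernel
def c87_6 : chk 87 0 1 1 0 = true := by decide +kernel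
def c87_7 : chk 87 1 1 1 0 = true := by decide +kernel
def c87_8 : chk 87 0 0 0 1 = true := by decide +kernel
def c87_9 : chk 87 1 0 0 1 = true := by decide +kernel
def c87_10 : chk 87 0 1 0 1 = true := by decide +kernel
def c87_11 : chk 87 1 1 0 1 = true := by decide +kernel
def c87_12 : chk 87 0 0 1 1 = true := by decide +kernel
def c87_13 : chk 87 1 0 1 1 = true := by decide +kernel
def c87_14 : chk 87 0 1 1 1 = true := by decide +kernel
def c87_15 : chk 87 1 1 1 1 = true := by decide +kernel
def c94_0 : chk 94 0 0 0 0 = true := by decide +kernel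
def c94_1 : chk 94 1 0 0 0 = true := by decide +kernel
def c94_2 : chk 94 0 1 0 0 = true := by decide +kernel
def c94_3 : chk 94 1 1 0 0 = true := by decide +kernel
def c94_4 : chk 94 0 0 1 0 = true := by decide +kernel
def c94_5 : chk 94 1 0 1 0 = true := by decide +kernel
def c94_6 : chk 94 0 1 1 0 = true := by decide +kernel
def c94_7 : chk 94 1 1 1 0 = true := by decide +kernel
def c94_8 : chk 94 0 0 0 1 = true := by decide +kernel
def c94_9 : chk 94 1 0 0 1 = true := by decide +kernel
def c94_10 : chk 94 0 1 0 1 = true := by decide +kernel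
def c94_11 : chk 94 1 1 0 1 = true := by decide +kernel
def c94_12 : chk 94 0 0 1 1 = true := by decide +kernel
def c94_13 : chk 94 1 0 1 1 = true := by decide +kernel
def c94_14 : chk 94 0 1 1 1 = true := by decide +kernel
def c94_15 : chk 94 1 1 1 1 = true := by decide +kernel
def c95_0 : chk 95 0 0 0 0 = true := by decide +kernel
def c95_1 : chk 95 1 0 0 0 = true := by decide +kernel
def c95_2 : chk 95 0 1 0 0 = true := by decide +kernel
def c95_3 : chk 95 1 1 0 0 = true := by decide +kernel
def c95_4 : chk 95 0 0 1 0 = true := by decide +kernel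
def c95_5 : chk 95 1 0 1 0 = true := by decide +kernel
def c95_6 : chk 95 0 1 1 0 = true := by decide +kernel
def c95_7 : chk 95 1 1 1 0 = true := by decide +kernel
def c95_8 : chk 95 0 0 0 1 = true := by decide +kernel
def c95_9 : chk 95 1 0 0 1 = true := by decide +kernel
def c95_10 : chk 95 0 1 0 1 = true := by decide +kernel
def c95_11 : chk 95 1 1 0 1 = true := by decide +kernel
def c95_12 : chk 95 0 0 1 1 = true := by decide +kernel
def c95_13 : chk 95 1 0 1 1 = true := by decide +kernel
def c95_14 : chk 95 0 1 1 1 = true := by decide +kernel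
def c95_15 : chk 95 1 1 1 1 = true := by decide +kernel
def c116_0 : chk 116 0 0 0 0 = true := by decide +kernel
def c116_1 : chk 116 1 0 0 0 = true := by decide +kernel
def c116_2 : chk 116 0 1 0 0 = true := by decide +kernel
def c116_3 : chk 116 1 1 0 0 = true := by decide +kernel
def c116_4 : chk 116 0 0 1 0 = true := by decide +kernel
def c116_5 : chk 116 1 0 1 0 = true := by decide +kernel
def c116_6 : chk 116 0 1 1 0 = true := by decide +kernel
def c116_7 : chk 116 1 1 1 0 = true := by decide +kernel
def c116_8 : chk 116 0 0 0 1 = true := by decide +kernel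
def c116_9 : chk 116 1 0 0 1 = true := by decide +kernel
def c116_10 : chk 116 0 1 0 1 = true := by decide +kernel
def c116_11 : chk 116 1 1 0 1 = true := by decide +kernel
def c116_12 : chk 116 0 0 1 1 = true := by decide +kernel
def c116_13 : chk 116 1 0 1 1 = true := by decide +kernel
def c116_14 : chk 116 0 1 1 1 = true := by decide +kernel
def c116_15 : chk 116 1 1 1 1 = true := by decide +kernel
def c117_0 : chk 117 0 0 0 0 = true := by decide +kernel
def c117_1 : chk 117 1 0 0 0 = true := by decide +kernel
def c117_2 : chk 117 0 1 0 0 = true := by decide +kernel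
def c117_3 : chk 117 1 1 0 0 = true := by decide +kernel
def c117_4 : chk 117 0 0 1 0 = true := by decide +kernel
def c117_5 : chk 117 1 0 1 0 = true := by decide +kernel
def c117_6 : chk 117 0 1 1 0 = true := by decide +kernel
def c117_7 : chk 117 1 1 1 0 = true := by decide +kernel
def c117_8 : chk 117 0 0 0 1 = true := by decide +kernel
def c117_9 : chk 117 1 0 0 1 = true := by decide +kernel
def c117_10 : chk 117 0 1 0 1 = true := by decide +kernel
def c117_11 : chk 117 1 1 0 1 = true := by decide +kernel
def c117_12 : chk 117 0 0 1 1 = true := by decide +kernel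
def c117_13 : chk 117 1 0 1 1 = true := by decide +kernel
def c117_14 : chk 117 0 1 1 1 = true := by decide +kernel
def c117_15 : chk 117 1 1 1 1 = true := by decide +kernel
def c119_0 : chk 119 0 0 0 0 = true := by decide +kernel
def c119_1 : chk 119 1 0 0 0 = true := by decide +kernel
def c119_2 : chk 119 0 1 0 0 = true := by decide +kernel
def c119_3 : chk 119 1 1 0 0 = true := by decide +kernel
def c119_4 : chk 119 0 0 1 0 = true := by decide +kernel
def c119_5 : chk 119 1 0 1 0 = true := by decide +kernel
def c119_6 : chk 119 0 1 1 0 = true := by decide +kernel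
def c119_7 : chk 119 1 1 1 0 = true := by decide +kernel
def c119_8 : chk 119 0 0 0 1 = true := by decide +kernel
def c119_9 : chk 119 1 0 0 1 = true := by decide +kernel
def c119_10 : chk 119 0 1 0 1 = true := by decide +kernel
def c119_11 : chk 119 1 1 0 1 = true := by decide +kernel
def c119_12 : chk 119 0 0 1 1 = true := by decide +kernel
def c119_13 : chk 119 1 0 1 1 = true := by decide +kernel
def c119_14 : chk 119 0 1 1 1 = true := by decide +kernel
def c119_15 : chk 119 1 1 1 1 = true := by decide +kernel
def c127_0 : chk 127 0 0 0 0 = true := by decide +kernel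
def c127_1 : chk 127 1 0 0 0 = true := by decide +kernel
def c127_2 : chk 127 0 1 0 0 = true := by decide +kernel
def c127_3 : chk 127 1 1 0 0 = true := by decide +kernel
def c127_4 : chk 127 0 0 1 0 = true := by decide +kernel
def c127_5 : chk 127 1 0 1 0 = true := by decide +kernel
def c127_6 : chk 127 0 1 1 0 = true := by decide +kernel
def c127_7 : chk 127 1 1 1 0 = true := by decide +kernel
def c127_8 : chk 127 0 0 0 1 = true := by decide +kernel
def c127_9 : chk 127 1 0 0 1 = true := by decide +kernel
def c127_10 : chk 127 0 1 0 1 = true := by decide +kernel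
def c127_11 : chk 127 1 1 0 1 = true := by decide +kernel
def c127_12 : chk 127 0 0 1 1 = true := by decide +kernel
def c127_13 : chk 127 1 0 1 1 = true := by decide +kernel
def c127_14 : chk 127 0 1 1 1 = true := by decide +kernel
def c127_15 : chk 127 1 1 1 1 = true := by decide +kernel
def c222_0 : chk 222 0 0 0 0 = true := by decide +kernel
def c222_1 : chk 222 1 0 0 0 = true := by decide +kernel
def c222_2 : chk 222 0 1 0 0 = true := by decide +kernel
def c222_3 : chk 222 1 1 0 0 = true := by decide +kernel
def c222_4 : chk 222 0 0 1 0 = true := by decide +kernel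
def c222_5 : chk 222 1 0 1 0 = true := by decide +kernel
def c222_6 : chk 222 0 1 1 0 = true := by decide +kernel
def c222_7 : chk 222 1 1 1 0 = true := by decide +kernel
def c222_8 : chk 222 0 0 0 1 = true := by decide +kernel
def c222_9 : chk 222 1 0 0 1 = true := by decide +kernel
def c222_10 : chk 222 0 1 0 1 = true := by decide +kernel
def c222_11 : chk 222 1 1 0 1 = true := by decide +kernel
def c222_12 : chk 222 0 0 1 1 = true := by decide +kernel
def c222_13 : chk 222 1 0 1 1 = true := by decide +kernel
def c222_14 : chk 222 0 1 1 1 = true := by decide +kernel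
def c222_15 : chk 222 1 1 1 1 = true := by decide +kernel

end Pool.Agent.T2H33.K5
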