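import Pool.Agent.T2H33.K5.Ker2

/-! Kernel checks, part 3. -/

set_option autoImplicit false
set_option maxRecDepth 100000
set_option linter.defProp false

namespace Pool.Agent.T2H33.K5

def c223_0 : chk 223 0 0 0 0 = true := by decide +kernel
def c223_1 : chk 223 1 0 0 0 = true := by decide +kernel
def c223_2 : chk 223 0 1 0 0 = true := by decide +kernel
def c223_3 : chk 223 1 1 0 0 = true := by decide +kernel
def c223_4 : chk 223 0 0 1 0 = true := by decide +kernel
def c223_5 : chk 223 1 0 1 0 = true := by decide +kernel
def c223_6 : chk 223 0 1 1 0 = true := by decide +kernel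
def c223_7 : chk 223 1 1 1 0 = true := by decide +kernel
def c223_8 : chk 223 0 0 0 1 = true := by decide +kernel
def c223_9 : chk 223 1 0 0 1 = true := by decide +kernel
def c223_10 : chk 223 0 1 0 1 = true := by decide +kernel
def c223_11 : chk 223 1 1 0 1 = true := by decide +kernel
def c223_12 : chk 223 0 0 1 1 = true := by decide +kernel
def c223_13 : chk 223 1 0 1 1 = true := by decide +kernel
def c223_14 : chk 223 0 1 1 1 = true := by decide +kernel
def c223_15 : chk 223 1 1 1 1 = true := by decide +kernel
def c235_0 : chk 235 0 0 0 0 = true := by decide +kernel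
def c235_1 : chk 235 1 0 0 0 = true := by decide +kernel
def c235_2 : chk 235 0 1 0 0 = true := by decide +kernel
def c235_3 : chk 235 1 1 0 0 = true := by decide +kernel
def c235_4 : chk 235 0 0 1 0 = true := by decide +kernel
def c235_5 : chk 235 1 0 1 0 = true := by decide +kernel
def c235_6 : chk 235 0 1 1 0 = true := by decide +kernel
def c235_7 : chk 235 1 1 1 0 = true := by decide +kernel
def c235_8 : chk 235 0 0 0 1 = true := by decide +kernel
def c235_9 : chk 235 1 0 0 1 = true := by decide +kernel
def c235_10 : chk 235 0 1 0 1 = true := by decide +kernel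
def c235_11 : chk 235 1 1 0 1 = true := by decide +kernel
def c235_12 : chk 235 0 0 1 1 = true := by decide +kernel
def c235_13 : chk 235 1 0 1 1 = true := by decide +kernel
def c235_14 : chk 235 0 1 1 1 = true := by decide +kernel
def c235_15 : chk 235 1 1 1 1 = true := by decide +kernel
def c236_0 : chk 236 0 0 0 0 = true := by decide +kernel
def c236_1 : chk 236 1 0 0 0 = true := by decide +kernel
def c236_2 : chk 236 0 1 0 0 = true := by decide +kernel
def c236_3 : chk 236 1 1 0 0 = true := by decide +kernel
def c236_4 : chk 236 0 0 1 0 = true := by decide +kernel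
def c236_5 : chk 236 1 0 1 0 = true := by decide +kernel
def c236_6 : chk 236 0 1 1 0 = true := by decide +kernel
def c236_7 : chk 236 1 1 1 0 = true := by decide +kernel
def c236_8 : chk 236 0 0 0 1 = true := by decide +kernel
def c236_9 : chk 236 1 0 0 1 = true := by decide +kernel
def c236_10 : chk 236 0 1 0 1 = true := by decide +kernel
def c236_11 : chk 236 1 1 0 1 = true := by decide +kernel
def c236_12 : chk 236 0 0 1 1 = true := by decide +kernel
def c236_13 : chk 236 1 0 1 1 = true := by decide +kernel
def c236_14 : chk 236 0 1 1 1 = true := by decide +kernel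
def c236_15 : chk 236 1 1 1 1 = true := by decide +kernel
def c237_0 : chk 237 0 0 0 0 = true := by decide +kernel
def c237_1 : chk 237 1 0 0 0 = true := by decide +kernel
def c237_2 : chk 237 0 1 0 0 = true := by decide +kernel
def c237_3 : chk 237 1 1 0 0 = true := by decide +kernel
def c237_4 : chk 237 0 0 1 0 = true := by decide +kernel
def c237_5 : chk 237 1 0 1 0 = true := by decide +kernel
def c237_6 : chk 237 0 1 1 0 = true := by decide +kernel
def c237_7 : chk 237 1 1 1 0 = true := by decide +kernel
def c237_8 : chk 237 0 0 0 1 = true := by decide +kernel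
def c237_9 : chk 237 1 0 0 1 = true := by decide +kernel
def c237_10 : chk 237 0 1 0 1 = true := by decide +kernel
def c237_11 : chk 237 1 1 0 1 = true := by decide +kernel
def c237_12 : chk 237 0 0 1 1 = true := by decide +kernel
def c237_13 : chk 237 1 0 1 1 = true := by decide +kernel
def c237_14 : chk 237 0 1 1 1 = true := by decide +kernel
def c237_15 : chk 237 1 1 1 1 = true := by decide +kernel
def c239_0 : chk 239 0 0 0 0 = true := by decide +kernel
def c239_1 : chk 239 1 0 0 0 = true := by decide +kernel
def c239_2 : chk 239 0 1 0 0 = true := by decide +kernel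
def c239_3 : chk 239 1 1 0 0 = true := by decide +kernel
def c239_4 : chk 239 0 0 1 0 = true := by decide +kernel
def c239_5 : chk 239 1 0 1 0 = true := by decide +kernel
def c239_6 : chk 239 0 1 1 0 = true := by decide +kernel
def c239_7 : chk 239 1 1 1 0 = true := by decide +kernel
def c239_8 : chk 239 0 0 0 1 = true := by decide +kernel
def c239_9 : chk 239 1 0 0 1 = true := by decide +kernel
def c239_10 : chk 239 0 1 0 1 = true := by decide +kernel
def c239_11 : chk 239 1 1 0 1 = true := by decide +kernel
def c239_12 : chk 239 0 0 1 1 = true := by decide +kernel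
def c239_13 : chk 239 1 0 1 1 = true := by decide +kernel
def c239_14 : chk 239 0 1 1 1 = true := by decide +kernel
def c239_15 : chk 239 1 1 1 1 = true := by decide +kernel
def c254_0 : chk 254 0 0 0 0 = true := by decide +kernel
def c254_1 : chk 254 1 0 0 0 = true := by decide +kernel
def c254_2 : chk 254 0 1 0 0 = true := by decide +kernel
def c254_3 : chk 254 1 1 0 0 = true := by decide +kernel
def c254_4 : chk 254 0 0 1 0 = true := by decide +kernel
def c254_5 : chk 254 1 0 1 0 = true := by decide +kernel
def c254_6 : chk 254 0 1 1 0 = true := by decide +kernel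
def c254_7 : chk 254 1 1 1 0 = true := by decide +kernel
def c254_8 : chk 254 0 0 0 1 = true := by decide +kernel
def c254_9 : chk 254 1 0 0 1 = true := by decide +kernel
def c254_10 : chk 254 0 1 0 1 = true := by decide +kernel
def c254_11 : chk 254 1 1 0 1 = true := by decide +kernel
def c254_12 : chk 254 0 0 1 1 = true := by decide +kernel
def c254_13 : chk 254 1 0 1 1 = true := by decide +kernel
def c254_14 : chk 254 0 1 1 1 = true := by decide +kernel
def c254_15 : chk 254 1 1 1 1 = true := by decide +kernel
def c255_0 : chk 255 0 0 0 0 = true := by decide +kernel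
def c255_1 : chk 255 1 0 0 0 = true := by decide +kernel
def c255_2 : chk 255 0 1 0 0 = true := by decide +kernel
def c255_3 : chk 255 1 1 0 0 = true := by decide +kernel
def c255_4 : chk 255 0 0 1 0 = true := by decide +kernel
def c255_5 : chk 255 1 0 1 0 = true := by decide +kernel
def c255_6 : chk 255 0 1 1 0 = true := by decide +kernel
def c255_7 : chk 255 1 1 1 0 = true := by decide +kernel
def c255_8 : chk 255 0 0 0 1 = true := by decide +kernel
def c255_9 : chk 255 1 0 0 1 = true := by decide +kernel
def c255_10 : chk 255 0 1 0 1 = true := by decide +kernel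
def c255_11 : chk 255 1 1 0 1 = true := by decide +kernel
def c255_12 : chk 255 0 0 1 1 = true := by decide +kernel
def c255_13 : chk 255 1 0 1 1 = true := by decide +kernel
def c255_14 : chk 255 0 1 1 1 = true := by decide +kernel
def c255_15 : chk 255 1 1 1 1 = true := by decide +kernel
def c507_0 : chk 507 0 0 0 0 = true := by decide +kernel
def c507_1 : chk 507 1 0 0 0 = true := by decide +kernel
def c507_2 : chk 507 0 1 0 0 = true := by decide +kernel
def c507_3 : chk 507 1 1 0 0 = true := by decide +kernel
def c507_4 : chk 507 0 0 1 0 = true := by decide +kernel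
def c507_5 : chk 507 1 0 1 0 = true := by decide +kernel
def c507_6 : chk 507 0 1 1 0 = true := by decide +kernel
def c507_7 : chk 507 1 1 1 0 = true := by decide +kernel
def c507_8 : chk 507 0 0 0 1 = true := by decide +kernel
def c507_9 : chk 507 1 0 0 1 = true := by decide +kernel
def c507_10 : chk 507 0 1 0 1 = true := by decide +kernel
def c507_11 : chk 507 1 1 0 1 = true := by decide +kernel
def c507_12 : chk 507 0 0 1 1 = true := by decide +kernel
def c507_13 : chk 507 1 0 1 1 = true := by decide +kernel
def c507_14 : chk 507 0 1 1 1 = true := by decide +kernel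
def c507_15 : chk 507 1 1 1 1 = true := by decide +kernel

end Pool.Agent.T2H33.K5
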