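import Pool.Agent.T2H33.K5.Ker2

/-! Kernel checks, part 4. -/

set_option autoImplicit false
set_option maxRecDepth 100000
set_option linter.defProp false

namespace Pool.Agent.T2H33.K5

def c511_0 : chk 511 0 0 0 0 = true := by decide +kernel
def c511_1 : chk 511 1 0 0 0 = true := by decide +kernel
def c511_2 : chk 511 0 1 0 0 = true := by decide +kernel
def c511_3 : chk 511 1 1 0 0 = true := by decide +kernel
def c511_4 : chk 511 0 0 1 0 = true := by decide +kernel
def c511_5 : chk 511 1 0 1 0 = true := by decide +kernel
def c511_6 : chk 511 0 1 1 0 = true := by decide +kernel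
def c511_7 : chk 511 1 1 1 0 = true := by decide +kernel
def c511_8 : chk 511 0 0 0 1 = true := by decide +kernel
def c511_9 : chk 511 1 0 0 1 = true := by decide +kernel
def c511_10 : chk 511 0 1 0 1 = true := by decide +kernel
def c511_11 : chk 511 1 1 0 1 = true := by decide +kernel
def c511_12 : chk 511 0 0 1 1 = true := by decide +kernel
def c511_13 : chk 511 1 0 1 1 = true := by decide +kernel
def c511_14 : chk 511 0 1 1 1 = true := by decide +kernel
def c511_15 : chk 511 1 1 1 1 = true := by decide +kernel
def c1023_0 : chk 1023 0 0 0 0 = true := by decide +kernel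
def c1023_1 : chk 1023 1 0 0 0 = true := by decide +kernel
def c1023_2 : chk 1023 0 1 0 0 = true := by decide +kernel
def c1023_3 : chk 1023 1 1 0 0 = true := by decide +kernel
def c1023_4 : chk 1023 0 0 1 0 = true := by decide +kernel
def c1023_5 : chk 1023 1 0 1 0 = true := by decide +kernel
def c1023_6 : chk 1023 0 1 1 0 = true := by decide +kernel
def c1023_7 : chk 1023 1 1 1 0 = true := by decide +kernel
def c1023_8 : chk 1023 0 0 0 1 = true := by decide +kernel
def c1023_9 : chk 1023 1 0 0 1 = true := by decide +kernel
def c1023_10 : chk 1023 0 1 0 1 = true := by decide +kernel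
def c1023_11 : chk 1023 1 1 0 1 = true := by decide +kernel
def c1023_12 : chk 1023 0 0 1 1 = true := by decide +kernel
def c1023_13 : chk 1023 1 0 1 1 = true := by decide +kernel
def c1023_14 : chk 1023 0 1 1 1 = true := by decide +kernel
def c1023_15 : chk 1023 1 1 1 1 = true := by decide +kernel
def c1100_0 : chk 1100 0 0 0 0 = true := by decide +kernel
def c1100_1 : chk 1100 1 0 0 0 = true := by decide +kernel
def c1100_2 : chk 1100 0 1 0 0 = true := by decide +kernel
def c1100_3 : chk 1100 1 1 0 0 = true := by decide +kernel
def c1100_4 : chk 1100 0 0 1 0 = true := by decide +kernel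
def c1100_5 : chk 1100 1 0 1 0 = true := by decide +kernel
def c1100_6 : chk 1100 0 1 1 0 = true := by decide +kernel
def c1100_7 : chk 1100 1 1 1 0 = true := by decide +kernel
def c1100_8 : chk 1100 0 0 0 1 = true := by decide +kernel
def c1100_9 : chk 1100 1 0 0 1 = true := by decide +kernel
def c1100_10 : chk 1100 0 1 0 1 = true := by decide +kernel
def c1100_11 : chk 1100 1 1 0 1 = true := by decide +kernel
def c1100_12 : chk 1100 0 0 1 1 = true := by decide +kernel
def c1100_13 : chk 1100 1 0 1 1 = true := by decide +kernel
def c1100_14 : chk 1100 0 1 1 1 = true := by decide +kernel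
def c1100_15 : chk 1100 1 1 1 1 = true := by decide +kernel
def c1101_0 : chk 1101 0 0 0 0 = true := by decide +kernel
def c1101_1 : chk 1101 1 0 0 0 = true := by decide +kernel
def c1101_2 : chk 1101 0 1 0 0 = true := by decide +kernel
def c1101_3 : chk 1101 1 1 0 0 = true := by decide +kernel
def c1101_4 : chk 1101 0 0 1 0 = true := by decide +kernel
def c1101_5 : chk 1101 1 0 1 0 = true := by decide +kernel
def c1101_6 : chk 1101 0 1 1 0 = true := by decide +kernel
def c1101_7 : chk 1101 1 1 1 0 = true := by decide +kernel
def c1101_8 : chk 1101 0 0 0 1 = true := by decide +kernel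
def c1101_9 : chk 1101 1 0 0 1 = true := by decide +kernel
def c1101_10 : chk 1101 0 1 0 1 = true := by decide +kernel
def c1101_11 : chk 1101 1 1 0 1 = true := by decide +kernel
def c1101_12 : chk 1101 0 0 1 1 = true := by decide +kernel
def c1101_13 : chk 1101 1 0 1 1 = true := by decide +kernel
def c1101_14 : chk 1101 0 1 1 1 = true := by decide +kernel
def c1101_15 : chk 1101 1 1 1 1 = true := by decide +kernel
def c1108_0 : chk 1108 0 0 0 0 = true := by decide +kernel
def c1108_1 : chk 1108 1 0 0 0 = true := by decide +kernel
def c1108_2 : chk 1108 0 1 0 0 = true := by decide +kernel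
def c1108_3 : chk 1108 1 1 0 0 = true := by decide +kernel
def c1108_4 : chk 1108 0 0 1 0 = true := by decide +kernel
def c1108_5 : chk 1108 1 0 1 0 = true := by decide +kernel
def c1108_6 : chk 1108 0 1 1 0 = true := by decide +kernel
def c1108_7 : chk 1108 1 1 1 0 = true := by decide +kernel
def c1108_8 : chk 1108 0 0 0 1 = true := by decide +kernel
def c1108_9 : chk 1108 1 0 0 1 = true := by decide +kernel
def c1108_10 : chk 1108 0 1 0 1 = true := by decide +kernel
def c1108_11 : chk 1108 1 1 0 1 = true := by decide +kernel
def c1108_12 : chk 1108 0 0 1 1 = true := by decide +kernel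
def c1108_13 : chk 1108 1 0 1 1 = true := by decide +kernel
def c1108_14 : chk 1108 0 1 1 1 = true := by decide +kernel
def c1108_15 : chk 1108 1 1 1 1 = true := by decide +kernel
def c1109_0 : chk 1109 0 0 0 0 = true := by decide +kernel
def c1109_1 : chk 1109 1 0 0 0 = true := by decide +kernel
def c1109_2 : chk 1109 0 1 0 0 = true := by decide +kernel
def c1109_3 : chk 1109 1 1 0 0 = true := by decide +kernel
def c1109_4 : chk 1109 0 0 1 0 = true := by decide +kernel
def c1109_5 : chk 1109 1 0 1 0 = true := by decide +kernel
def c1109_6 : chk 1109 0 1 1 0 = true := by decide +kernel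
def c1109_7 : chk 1109 1 1 1 0 = true := by decide +kernel
def c1109_8 : chk 1109 0 0 0 1 = true := by decide +kernel
def c1109_9 : chk 1109 1 0 0 1 = true := by decide +kernel
def c1109_10 : chk 1109 0 1 0 1 = true := by decide +kernel
def c1109_11 : chk 1109 1 1 0 1 = true := by decide +kernel
def c1109_12 : chk 1109 0 0 1 1 = true := by decide +kernel
def c1109_13 : chk 1109 1 0 1 1 = true := by decide +kernel
def c1109_14 : chk 1109 0 1 1 1 = true := by decide +kernel
def c1109_15 : chk 1109 1 1 1 1 = true := by decide +kernel
def c1110_0 : chk 1110 0 0 0 0 = true := by decide +kernel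
def c1110_1 : chk 1110 1 0 0 0 = true := by decide +kernel
def c1110_2 : chk 1110 0 1 0 0 = true := by decide +kernel
def c1110_3 : chk 1110 1 1 0 0 = true := by decide +kernel
def c1110_4 : chk 1110 0 0 1 0 = true := by decide +kernel
def c1110_5 : chk 1110 1 0 1 0 = true := by decide +kernel
def c1110_6 : chk 1110 0 1 1 0 = true := by decide +kernel
def c1110_7 : chk 1110 1 1 1 0 = true := by decide +kernel
def c1110_8 : chk 1110 0 0 0 1 = true := by decide +kernel
def c1110_9 : chk 1110 1 0 0 1 = true := by decide +kernel
def c1110_10 : chk 1110 0 1 0 1 = true := by decide +kernel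
def c1110_11 : chk 1110 1 1 0 1 = true := by decide +kernel
def c1110_12 : chk 1110 0 0 1 1 = true := by decide +kernel
def c1110_13 : chk 1110 1 0 1 1 = true := by decide +kernel
def c1110_14 : chk 1110 0 1 1 1 = true := by decide +kernel
def c1110_15 : chk 1110 1 1 1 1 = true := by decide +kernel
def c1111_0 : chk 1111 0 0 0 0 = true := by decide +kernel
def c1111_1 : chk 1111 1 0 0 0 = true := by decide +kernel
def c1111_2 : chk 1111 0 1 0 0 = true := by decide +kernel
def c1111_3 : chk 1111 1 1 0 0 = true := by decide +kernel
def c1111_4 : chk 1111 0 0 1 0 = true := by decide +kernel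
def c1111_5 : chk 1111 1 0 1 0 = true := by decide +kernel
def c1111_6 : chk 1111 0 1 1 0 = true := by decide +kernel
def c1111_7 : chk 1111 1 1 1 0 = true := by decide +kernel
def c1111_8 : chk 1111 0 0 0 1 = true := by decide +kernel
def c1111_9 : chk 1111 1 0 0 1 = true := by decide +kernel
def c1111_10 : chk 1111 0 1 0 1 = true := by decide +kernel
def c1111_11 : chk 1111 1 1 0 1 = true := by decide +kernel
def c1111_12 : chk 1111 0 0 1 1 = true := by decide +kernel
def c1111_13 : chk 1111 1 0 1 1 = true := by decide +kernel
def c1111_14 : chk 1111 0 1 1 1 = true := by decide +kernel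
def c1111_15 : chk 1111 1 1 1 1 = true := by decide +kernel

end Pool.Agent.T2H33.K5
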