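import Pool.Agent.T2H33.K5.Ker2

/-! Kernel checks, part 5. -/

set_option autoImplicit false
set_option maxRecDepth 100000
set_option linter.defProp false

namespace Pool.Agent.T2H33.K5

def c1118_0 : chk 1118 0 0 0 0 = true := by decide +kernel
def c1118_1 : chk 1118 1 0 0 0 = true := by decide +kernel
def c1118_2 : chk 1118 0 1 0 0 = true := by decide +kernel
def c1118_3 : chk 1118 1 1 0 0 = true := by decide +kernel
def c1118_4 : chk 1118 0 0 1 0 = true := by decide +kernel
def c1118_5 : chk 1118 1 0 1 0 = true := by decide +kernel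
def c1118_6 : chk 1118 0 1 1 0 = true := by decide +kernel
def c1118_7 : chk 1118 1 1 1 0 = true := by decide +kernel
def c1118_8 : chk 1118 0 0 0 1 = true := by decide +kernel
def c1118_9 : chk 1118 1 0 0 1 = true := by decide +kernel
def c1118_10 : chk 1118 0 1 0 1 = true := by decide +kernel
def c1118_11 : chk 1118 1 1 0 1 = true := by decide +kernel
def c1118_12 : chk 1118 0 0 1 1 = true := by decide +kernel
def c1118_13 : chk 1118 1 0 1 1 = true := by decide +kernel
def c1118_14 : chk 1118 0 1 1 1 = true := by decide +kernel
def c1118_15 : chk 1118 1 1 1 1 = true := by decide +kernel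
def c1140_0 : chk 1140 0 0 0 0 = true := by decide +kernel
def c1140_1 : chk 1140 1 0 0 0 = true := by decide +kernel
def c1140_2 : chk 1140 0 1 0 0 = true := by decide +kernel
def c1140_3 : chk 1140 1 1 0 0 = true := by decide +kernel
def c1140_4 : chk 1140 0 0 1 0 = true := by decide +kernel
def c1140_5 : chk 1140 1 0 1 0 = true := by decide +kernel
def c1140_6 : chk 1140 0 1 1 0 = true := by decide +kernel
def c1140_7 : chk 1140 1 1 1 0 = true := by decide +kernel
def c1140_8 : chk 1140 0 0 0 1 = true := by decide +kernel
def c1140_9 : chk 1140 1 0 0 1 = true := by decide +kernel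
def c1140_10 : chk 1140 0 1 0 1 = true := by decide +kernel
def c1140_11 : chk 1140 1 1 0 1 = true := by decide +kernel
def c1140_12 : chk 1140 0 0 1 1 = true := by decide +kernel
def c1140_13 : chk 1140 1 0 1 1 = true := by decide +kernel
def c1140_14 : chk 1140 0 1 1 1 = true := by decide +kernel
def c1140_15 : chk 1140 1 1 1 1 = true := by decide +kernel
def c1141_0 : chk 1141 0 0 0 0 = true := by decide +kernel
def c1141_1 : chk 1141 1 0 0 0 = true := by decide +kernel
def c1141_2 : chk 1141 0 1 0 0 = true := by decide +kernel
def c1141_3 : chk 1141 1 1 0 0 = true := by decide +kernel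
def c1141_4 : chk 1141 0 0 1 0 = true := by decide +kernel
def c1141_5 : chk 1141 1 0 1 0 = true := by decide +kernel
def c1141_6 : chk 1141 0 1 1 0 = true := by decide +kernel
def c1141_7 : chk 1141 1 1 1 0 = true := by decide +kernel
def c1141_8 : chk 1141 0 0 0 1 = true := by decide +kernel
def c1141_9 : chk 1141 1 0 0 1 = true := by decide +kernel
def c1141_10 : chk 1141 0 1 0 1 = true := by decide +kernel
def c1141_11 : chk 1141 1 1 0 1 = true := by decide +kernel
def c1141_12 : chk 1141 0 0 1 1 = true := by decide +kernel
def c1141_13 : chk 1141 1 0 1 1 = true := by decide +kernel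
def c1141_14 : chk 1141 0 1 1 1 = true := by decide +kernel
def c1141_15 : chk 1141 1 1 1 1 = true := by decide +kernel
def c1143_0 : chk 1143 0 0 0 0 = true := by decide +kernel
def c1143_1 : chk 1143 1 0 0 0 = true := by decide +kernel
def c1143_2 : chk 1143 0 1 0 0 = true := by decide +kernel
def c1143_3 : chk 1143 1 1 0 0 = true := by decide +kernel
def c1143_4 : chk 1143 0 0 1 0 = true := by decide +kernel
def c1143_5 : chk 1143 1 0 1 0 = true := by decide +kernel
def c1143_6 : chk 1143 0 1 1 0 = true := by decide +kernel
def c1143_7 : chk 1143 1 1 1 0 = true := by decide +kernel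
def c1143_8 : chk 1143 0 0 0 1 = true := by decide +kernel
def c1143_9 : chk 1143 1 0 0 1 = true := by decide +kernel
def c1143_10 : chk 1143 0 1 0 1 = true := by decide +kernel
def c1143_11 : chk 1143 1 1 0 1 = true := by decide +kernel
def c1143_12 : chk 1143 0 0 1 1 = true := by decide +kernel
def c1143_13 : chk 1143 1 0 1 1 = true := by decide +kernel
def c1143_14 : chk 1143 0 1 1 1 = true := by decide +kernel
def c1143_15 : chk 1143 1 1 1 1 = true := by decide +kernel
def c1182_0 : chk 1182 0 0 0 0 = true := by decide +kernel
def c1182_1 : chk 1182 1 0 0 0 = true := by decide +kernel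
def c1182_2 : chk 1182 0 1 0 0 = true := by decide +kernel
def c1182_3 : chk 1182 1 1 0 0 = true := by decide +kernel
def c1182_4 : chk 1182 0 0 1 0 = true := by decide +kernel
def c1182_5 : chk 1182 1 0 1 0 = true := by decide +kernel
def c1182_6 : chk 1182 0 1 1 0 = true := by decide +kernel
def c1182_7 : chk 1182 1 1 1 0 = true := by decide +kernel
def c1182_8 : chk 1182 0 0 0 1 = true := by decide +kernel
def c1182_9 : chk 1182 1 0 0 1 = true := by decide +kernel
def c1182_10 : chk 1182 0 1 0 1 = true := by decide +kernel
def c1182_11 : chk 1182 1 1 0 1 = true := by decide +kernel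
def c1182_12 : chk 1182 0 0 1 1 = true := by decide +kernel
def c1182_13 : chk 1182 1 0 1 1 = true := by decide +kernel
def c1182_14 : chk 1182 0 1 1 1 = true := by decide +kernel
def c1182_15 : chk 1182 1 1 1 1 = true := by decide +kernel
def c1183_0 : chk 1183 0 0 0 0 = true := by decide +kernel
def c1183_1 : chk 1183 1 0 0 0 = true := by decide +kernel
def c1183_2 : chk 1183 0 1 0 0 = true := by decide +kernel
def c1183_3 : chk 1183 1 1 0 0 = true := by decide +kernel
def c1183_4 : chk 1183 0 0 1 0 = true := by decide +kernel
def c1183_5 : chk 1183 1 0 1 0 = true := by decide +kernel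
def c1183_6 : chk 1183 0 1 1 0 = true := by decide +kernel
def c1183_7 : chk 1183 1 1 1 0 = true := by decide +kernel
def c1183_8 : chk 1183 0 0 0 1 = true := by decide +kernel
def c1183_9 : chk 1183 1 0 0 1 = true := by decide +kernel
def c1183_10 : chk 1183 0 1 0 1 = true := by decide +kernel
def c1183_11 : chk 1183 1 1 0 1 = true := by decide +kernel
def c1183_12 : chk 1183 0 0 1 1 = true := by decide +kernel
def c1183_13 : chk 1183 1 0 1 1 = true := by decide +kernel
def c1183_14 : chk 1183 0 1 1 1 = true := by decide +kernel
def c1183_15 : chk 1183 1 1 1 1 = true := by decide +kernel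
def c1184_0 : chk 1184 0 0 0 0 = true := by decide +kernel
def c1184_1 : chk 1184 1 0 0 0 = true := by decide +kernel
def c1184_2 : chk 1184 0 1 0 0 = true := by decide +kernel
def c1184_3 : chk 1184 1 1 0 0 = true := by decide +kernel
def c1184_4 : chk 1184 0 0 1 0 = true := by decide +kernel
def c1184_5 : chk 1184 1 0 1 0 = true := by decide +kernel
def c1184_6 : chk 1184 0 1 1 0 = true := by decide +kernel
def c1184_7 : chk 1184 1 1 1 0 = true := by decide +kernel
def c1184_8 : chk 1184 0 0 0 1 = true := by decide +kernel
def c1184_9 : chk 1184 1 0 0 1 = true := by decide +kernel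
def c1184_10 : chk 1184 0 1 0 1 = true := by decide +kernel
def c1184_11 : chk 1184 1 1 0 1 = true := by decide +kernel
def c1184_12 : chk 1184 0 0 1 1 = true := by decide +kernel
def c1184_13 : chk 1184 1 0 1 1 = true := by decide +kernel
def c1184_14 : chk 1184 0 1 1 1 = true := by decide +kernel
def c1184_15 : chk 1184 1 1 1 1 = true := by decide +kernel
def c1185_0 : chk 1185 0 0 0 0 = true := by decide +kernel
def c1185_1 : chk 1185 1 0 0 0 = true := by decide +kernel
def c1185_2 : chk 1185 0 1 0 0 = true := by decide +kernel
def c1185_3 : chk 1185 1 1 0 0 = true := by decide +kernel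
def c1185_4 : chk 1185 0 0 1 0 = true := by decide +kernel
def c1185_5 : chk 1185 1 0 1 0 = true := by decide +kernel
def c1185_6 : chk 1185 0 1 1 0 = true := by decide +kernel
def c1185_7 : chk 1185 1 1 1 0 = true := by decide +kernel
def c1185_8 : chk 1185 0 0 0 1 = true := by decide +kernel
def c1185_9 : chk 1185 1 0 0 1 = true := by decide +kernel
def c1185_10 : chk 1185 0 1 0 1 = true := by decide +kernel
def c1185_11 : chk 1185 1 1 0 1 = true := by decide +kernel
def c1185_12 : chk 1185 0 0 1 1 = true := by decide +kernel
def c1185_13 : chk 1185 1 0 1 1 = true := by decide +kernel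
def c1185_14 : chk 1185 0 1 1 1 = true := by decide +kernel
def c1185_15 : chk 1185 1 1 1 1 = true := by decide +kernel

end Pool.Agent.T2H33.K5
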