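import Pool.Agent.T2H33.K5.Ker2

/-! Kernel checks, part 6. -/

set_option autoImplicit false
set_option maxRecDepth 100000
set_option linter.defProp false

namespace Pool.Agent.T2H33.K5

def c1187_0 : chk 1187 0 0 0 0 = true := by decide +kernel
def c1187_1 : chk 1187 1 0 0 0 = true := by decide +kernel
def c1187_2 : chk 1187 0 1 0 0 = true := by decide +kernel
def c1187_3 : chk 1187 1 1 0 0 = true := by decide +kernel
def c1187_4 : chk 1187 0 0 1 0 = true := by decide +kernel
def c1187_5 : chk 1187 1 0 1 0 = true := by decide +kernel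
def c1187_6 : chk 1187 0 1 1 0 = true := by decide +kernel
def c1187_7 : chk 1187 1 1 1 0 = true := by decide +kernel
def c1187_8 : chk 1187 0 0 0 1 = true := by decide +kernel
def c1187_9 : chk 1187 1 0 0 1 = true := by decide +kernel
def c1187_10 : chk 1187 0 1 0 1 = true := by decide +kernel
def c1187_11 : chk 1187 1 1 0 1 = true := by decide +kernel
def c1187_12 : chk 1187 0 0 1 1 = true := by decide +kernel
def c1187_13 : chk 1187 1 0 1 1 = true := by decide +kernel
def c1187_14 : chk 1187 0 1 1 1 = true := by decide +kernel
def c1187_15 : chk 1187 1 1 1 1 = true := by decide +kernel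
def c1191_0 : chk 1191 0 0 0 0 = true := by decide +kernel
def c1191_1 : chk 1191 1 0 0 0 = true := by decide +kernel
def c1191_2 : chk 1191 0 1 0 0 = true := by decide +kernel
def c1191_3 : chk 1191 1 1 0 0 = true := by decide +kernel
def c1191_4 : chk 1191 0 0 1 0 = true := by decide +kernel
def c1191_5 : chk 1191 1 0 1 0 = true := by decide +kernel
def c1191_6 : chk 1191 0 1 1 0 = true := by decide +kernel
def c1191_7 : chk 1191 1 1 1 0 = true := by decide +kernel
def c1191_8 : chk 1191 0 0 0 1 = true := by decide +kernel
def c1191_9 : chk 1191 1 0 0 1 = true := by decide +kernel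
def c1191_10 : chk 1191 0 1 0 1 = true := by decide +kernel
def c1191_11 : chk 1191 1 1 0 1 = true := by decide +kernel
def c1191_12 : chk 1191 0 0 1 1 = true := by decide +kernel
def c1191_13 : chk 1191 1 0 1 1 = true := by decide +kernel
def c1191_14 : chk 1191 0 1 1 1 = true := by decide +kernel
def c1191_15 : chk 1191 1 1 1 1 = true := by decide +kernel
def c1194_0 : chk 1194 0 0 0 0 = true := by decide +kernel
def c1194_1 : chk 1194 1 0 0 0 = true := by decide +kernel
def c1194_2 : chk 1194 0 1 0 0 = true := by decide +kernel
def c1194_3 : chk 1194 1 1 0 0 = true := by decide +kernel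
def c1194_4 : chk 1194 0 0 1 0 = true := by decide +kernel
def c1194_5 : chk 1194 1 0 1 0 = true := by decide +kernel
def c1194_6 : chk 1194 0 1 1 0 = true := by decide +kernel
def c1194_7 : chk 1194 1 1 1 0 = true := by decide +kernel
def c1194_8 : chk 1194 0 0 0 1 = true := by decide +kernel
def c1194_9 : chk 1194 1 0 0 1 = true := by decide +kernel
def c1194_10 : chk 1194 0 1 0 1 = true := by decide +kernel
def c1194_11 : chk 1194 1 1 0 1 = true := by decide +kernel
def c1194_12 : chk 1194 0 0 1 1 = true := by decide +kernel
def c1194_13 : chk 1194 1 0 1 1 = true := by decide +kernel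
def c1194_14 : chk 1194 0 1 1 1 = true := by decide +kernel
def c1194_15 : chk 1194 1 1 1 1 = true := by decide +kernel
def c1195_0 : chk 1195 0 0 0 0 = true := by decide +kernel
def c1195_1 : chk 1195 1 0 0 0 = true := by decide +kernel
def c1195_2 : chk 1195 0 1 0 0 = true := by decide +kernel
def c1195_3 : chk 1195 1 1 0 0 = true := by decide +kernel
def c1195_4 : chk 1195 0 0 1 0 = true := by decide +kernel
def c1195_5 : chk 1195 1 0 1 0 = true := by decide +kernel
def c1195_6 : chk 1195 0 1 1 0 = true := by decide +kernel
def c1195_7 : chk 1195 1 1 1 0 = true := by decide +kernel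
def c1195_8 : chk 1195 0 0 0 1 = true := by decide +kernel
def c1195_9 : chk 1195 1 0 0 1 = true := by decide +kernel
def c1195_10 : chk 1195 0 1 0 1 = true := by decide +kernel
def c1195_11 : chk 1195 1 1 0 1 = true := by decide +kernel
def c1195_12 : chk 1195 0 0 1 1 = true := by decide +kernel
def c1195_13 : chk 1195 1 0 1 1 = true := by decide +kernel
def c1195_14 : chk 1195 0 1 1 1 = true := by decide +kernel
def c1195_15 : chk 1195 1 1 1 1 = true := by decide +kernel
def c1196_0 : chk 1196 0 0 0 0 = true := by decide +kernel
def c1196_1 : chk 1196 1 0 0 0 = true := by decide +kernel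
def c1196_2 : chk 1196 0 1 0 0 = true := by decide +kernel
def c1196_3 : chk 1196 1 1 0 0 = true := by decide +kernel
def c1196_4 : chk 1196 0 0 1 0 = true := by decide +kernel
def c1196_5 : chk 1196 1 0 1 0 = true := by decide +kernel
def c1196_6 : chk 1196 0 1 1 0 = true := by decide +kernel
def c1196_7 : chk 1196 1 1 1 0 = true := by decide +kernel
def c1196_8 : chk 1196 0 0 0 1 = true := by decide +kernel
def c1196_9 : chk 1196 1 0 0 1 = true := by decide +kernel
def c1196_10 : chk 1196 0 1 0 1 = true := by decide +kernel
def c1196_11 : chk 1196 1 1 0 1 = true := by decide +kernel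
def c1196_12 : chk 1196 0 0 1 1 = true := by decide +kernel
def c1196_13 : chk 1196 1 0 1 1 = true := by decide +kernel
def c1196_14 : chk 1196 0 1 1 1 = true := by decide +kernel
def c1196_15 : chk 1196 1 1 1 1 = true := by decide +kernel
def c1197_0 : chk 1197 0 0 0 0 = true := by decide +kernel
def c1197_1 : chk 1197 1 0 0 0 = true := by decide +kernel
def c1197_2 : chk 1197 0 1 0 0 = true := by decide +kernel
def c1197_3 : chk 1197 1 1 0 0 = true := by decide +kernel
def c1197_4 : chk 1197 0 0 1 0 = true := by decide +kernel
def c1197_5 : chk 1197 1 0 1 0 = true := by decide +kernel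
def c1197_6 : chk 1197 0 1 1 0 = true := by decide +kernel
def c1197_7 : chk 1197 1 1 1 0 = true := by decide +kernel
def c1197_8 : chk 1197 0 0 0 1 = true := by decide +kernel
def c1197_9 : chk 1197 1 0 0 1 = true := by decide +kernel
def c1197_10 : chk 1197 0 1 0 1 = true := by decide +kernel
def c1197_11 : chk 1197 1 1 0 1 = true := by decide +kernel
def c1197_12 : chk 1197 0 0 1 1 = true := by decide +kernel
def c1197_13 : chk 1197 1 0 1 1 = true := by decide +kernel
def c1197_14 : chk 1197 0 1 1 1 = true := by decide +kernel
def c1197_15 : chk 1197 1 1 1 1 = true := by decide +kernel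
def c1198_0 : chk 1198 0 0 0 0 = true := by decide +kernel
def c1198_1 : chk 1198 1 0 0 0 = true := by decide +kernel
def c1198_2 : chk 1198 0 1 0 0 = true := by decide +kernel
def c1198_3 : chk 1198 1 1 0 0 = true := by decide +kernel
def c1198_4 : chk 1198 0 0 1 0 = true := by decide +kernel
def c1198_5 : chk 1198 1 0 1 0 = true := by decide +kernel
def c1198_6 : chk 1198 0 1 1 0 = true := by decide +kernel
def c1198_7 : chk 1198 1 1 1 0 = true := by decide +kernel
def c1198_8 : chk 1198 0 0 0 1 = true := by decide +kernel
def c1198_9 : chk 1198 1 0 0 1 = true := by decide +kernel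
def c1198_10 : chk 1198 0 1 0 1 = true := by decide +kernel
def c1198_11 : chk 1198 1 1 0 1 = true := by decide +kernel
def c1198_12 : chk 1198 0 0 1 1 = true := by decide +kernel
def c1198_13 : chk 1198 1 0 1 1 = true := by decide +kernel
def c1198_14 : chk 1198 0 1 1 1 = true := by decide +kernel
def c1198_15 : chk 1198 1 1 1 1 = true := by decide +kernel
def c1199_0 : chk 1199 0 0 0 0 = true := by decide +kernel
def c1199_1 : chk 1199 1 0 0 0 = true := by decide +kernel
def c1199_2 : chk 1199 0 1 0 0 = true := by decide +kernel
def c1199_3 : chk 1199 1 1 0 0 = true := by decide +kernel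
def c1199_4 : chk 1199 0 0 1 0 = true := by decide +kernel
def c1199_5 : chk 1199 1 0 1 0 = true := by decide +kernel
def c1199_6 : chk 1199 0 1 1 0 = true := by decide +kernel
def c1199_7 : chk 1199 1 1 1 0 = true := by decide +kernel
def c1199_8 : chk 1199 0 0 0 1 = true := by decide +kernel
def c1199_9 : chk 1199 1 0 0 1 = true := by decide +kernel
def c1199_10 : chk 1199 0 1 0 1 = true := by decide +kernel
def c1199_11 : chk 1199 1 1 0 1 = true := by decide +kernel
def c1199_12 : chk 1199 0 0 1 1 = true := by decide +kernel
def c1199_13 : chk 1199 1 0 1 1 = true := by decide +kernel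
def c1199_14 : chk 1199 0 1 1 1 = true := by decide +kernel
def c1199_15 : chk 1199 1 1 1 1 = true := by decide +kernel

end Pool.Agent.T2H33.K5
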