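import Pool.Agent.T2H33.K5.Ker2

/-! Kernel checks, part 7. -/

set_option autoImplicit false
set_option maxRecDepth 100000
set_option linter.defProp false

namespace Pool.Agent.T2H33.K5

def c1214_0 : chk 1214 0 0 0 0 = true := by decide +kernel
def c1214_1 : chk 1214 1 0 0 0 = true := by decide +kernel
def c1214_2 : chk 1214 0 1 0 0 = true := by decide +kernel
def c1214_3 : chk 1214 1 1 0 0 = true := by decide +kernel
def c1214_4 : chk 1214 0 0 1 0 = true := by decide +kernel
def c1214_5 : chk 1214 1 0 1 0 = true := by decide +kernel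
def c1214_6 : chk 1214 0 1 1 0 = true := by decide +kernel
def c1214_7 : chk 1214 1 1 1 0 = true := by decide +kernel
def c1214_8 : chk 1214 0 0 0 1 = true := by decide +kernel
def c1214_9 : chk 1214 1 0 0 1 = true := by decide +kernel
def c1214_10 : chk 1214 0 1 0 1 = true := by decide +kernel
def c1214_11 : chk 1214 1 1 0 1 = true := by decide +kernel
def c1214_12 : chk 1214 0 0 1 1 = true := by decide +kernel
def c1214_13 : chk 1214 1 0 1 1 = true := by decide +kernel
def c1214_14 : chk 1214 0 1 1 1 = true := by decide +kernel
def c1214_15 : chk 1214 1 1 1 1 = true := by decide +kernel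
def c1215_0 : chk 1215 0 0 0 0 = true := by decide +kernel
def c1215_1 : chk 1215 1 0 0 0 = true := by decide +kernel
def c1215_2 : chk 1215 0 1 0 0 = true := by decide +kernel
def c1215_3 : chk 1215 1 1 0 0 = true := by decide +kernel
def c1215_4 : chk 1215 0 0 1 0 = true := by decide +kernel
def c1215_5 : chk 1215 1 0 1 0 = true := by decide +kernel
def c1215_6 : chk 1215 0 1 1 0 = true := by decide +kernel
def c1215_7 : chk 1215 1 1 1 0 = true := by decide +kernel
def c1215_8 : chk 1215 0 0 0 1 = true := by decide +kernel
def c1215_9 : chk 1215 1 0 0 1 = true := by decide +kernel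
def c1215_10 : chk 1215 0 1 0 1 = true := by decide +kernel
def c1215_11 : chk 1215 1 1 0 1 = true := by decide +kernel
def c1215_12 : chk 1215 0 0 1 1 = true := by decide +kernel
def c1215_13 : chk 1215 1 0 1 1 = true := by decide +kernel
def c1215_14 : chk 1215 0 1 1 1 = true := by decide +kernel
def c1215_15 : chk 1215 1 1 1 1 = true := by decide +kernel
def c1246_0 : chk 1246 0 0 0 0 = true := by decide +kernel
def c1246_1 : chk 1246 1 0 0 0 = true := by decide +kernel
def c1246_2 : chk 1246 0 1 0 0 = true := by decide +kernel
def c1246_3 : chk 1246 1 1 0 0 = true := by decide +kernel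
def c1246_4 : chk 1246 0 0 1 0 = true := by decide +kernel
def c1246_5 : chk 1246 1 0 1 0 = true := by decide +kernel
def c1246_6 : chk 1246 0 1 1 0 = true := by decide +kernel
def c1246_7 : chk 1246 1 1 1 0 = true := by decide +kernel
def c1246_8 : chk 1246 0 0 0 1 = true := by decide +kernel
def c1246_9 : chk 1246 1 0 0 1 = true := by decide +kernel
def c1246_10 : chk 1246 0 1 0 1 = true := by decide +kernel
def c1246_11 : chk 1246 1 1 0 1 = true := by decide +kernel
def c1246_12 : chk 1246 0 0 1 1 = true := by decide +kernel
def c1246_13 : chk 1246 1 0 1 1 = true := by decide +kernel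
def c1246_14 : chk 1246 0 1 1 1 = true := by decide +kernel
def c1246_15 : chk 1246 1 1 1 1 = true := by decide +kernel
def c1260_0 : chk 1260 0 0 0 0 = true := by decide +kernel
def c1260_1 : chk 1260 1 0 0 0 = true := by decide +kernel
def c1260_2 : chk 1260 0 1 0 0 = true := by decide +kernel
def c1260_3 : chk 1260 1 1 0 0 = true := by decide +kernel
def c1260_4 : chk 1260 0 0 1 0 = true := by decide +kernel
def c1260_5 : chk 1260 1 0 1 0 = true := by decide +kernel
def c1260_6 : chk 1260 0 1 1 0 = true := by decide +kernel
def c1260_7 : chk 1260 1 1 1 0 = true := by decide +kernel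
def c1260_8 : chk 1260 0 0 0 1 = true := by decide +kernel
def c1260_9 : chk 1260 1 0 0 1 = true := by decide +kernel
def c1260_10 : chk 1260 0 1 0 1 = true := by decide +kernel
def c1260_11 : chk 1260 1 1 0 1 = true := by decide +kernel
def c1260_12 : chk 1260 0 0 1 1 = true := by decide +kernel
def c1260_13 : chk 1260 1 0 1 1 = true := by decide +kernel
def c1260_14 : chk 1260 0 1 1 1 = true := by decide +kernel
def c1260_15 : chk 1260 1 1 1 1 = true := by decide +kernel
def c1261_0 : chk 1261 0 0 0 0 = true := by decide +kernel
def c1261_1 : chk 1261 1 0 0 0 = true := by decide +kernel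
def c1261_2 : chk 1261 0 1 0 0 = true := by decide +kernel
def c1261_3 : chk 1261 1 1 0 0 = true := by decide +kernel
def c1261_4 : chk 1261 0 0 1 0 = true := by decide +kernel
def c1261_5 : chk 1261 1 0 1 0 = true := by decide +kernel
def c1261_6 : chk 1261 0 1 1 0 = true := by decide +kernel
def c1261_7 : chk 1261 1 1 1 0 = true := by decide +kernel
def c1261_8 : chk 1261 0 0 0 1 = true := by decide +kernel
def c1261_9 : chk 1261 1 0 0 1 = true := by decide +kernel
def c1261_10 : chk 1261 0 1 0 1 = true := by decide +kernel
def c1261_11 : chk 1261 1 1 0 1 = true := by decide +kernel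
def c1261_12 : chk 1261 0 0 1 1 = true := by decide +kernel
def c1261_13 : chk 1261 1 0 1 1 = true := by decide +kernel
def c1261_14 : chk 1261 0 1 1 1 = true := by decide +kernel
def c1261_15 : chk 1261 1 1 1 1 = true := by decide +kernel
def c1268_0 : chk 1268 0 0 0 0 = true := by decide +kernel
def c1268_1 : chk 1268 1 0 0 0 = true := by decide +kernel
def c1268_2 : chk 1268 0 1 0 0 = true := by decide +kernel
def c1268_3 : chk 1268 1 1 0 0 = true := by decide +kernel
def c1268_4 : chk 1268 0 0 1 0 = true := by decide +kernel
def c1268_5 : chk 1268 1 0 1 0 = true := by decide +kernel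
def c1268_6 : chk 1268 0 1 1 0 = true := by decide +kernel
def c1268_7 : chk 1268 1 1 1 0 = true := by decide +kernel
def c1268_8 : chk 1268 0 0 0 1 = true := by decide +kernel
def c1268_9 : chk 1268 1 0 0 1 = true := by decide +kernel
def c1268_10 : chk 1268 0 1 0 1 = true := by decide +kernel
def c1268_11 : chk 1268 1 1 0 1 = true := by decide +kernel
def c1268_12 : chk 1268 0 0 1 1 = true := by decide +kernel
def c1268_13 : chk 1268 1 0 1 1 = true := by decide +kernel
def c1268_14 : chk 1268 0 1 1 1 = true := by decide +kernel
def c1268_15 : chk 1268 1 1 1 1 = true := by decide +kernel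
def c1269_0 : chk 1269 0 0 0 0 = true := by decide +kernel
def c1269_1 : chk 1269 1 0 0 0 = true := by decide +kernel
def c1269_2 : chk 1269 0 1 0 0 = true := by decide +kernel
def c1269_3 : chk 1269 1 1 0 0 = true := by decide +kernel
def c1269_4 : chk 1269 0 0 1 0 = true := by decide +kernel
def c1269_5 : chk 1269 1 0 1 0 = true := by decide +kernel
def c1269_6 : chk 1269 0 1 1 0 = true := by decide +kernel
def c1269_7 : chk 1269 1 1 1 0 = true := by decide +kernel
def c1269_8 : chk 1269 0 0 0 1 = true := by decide +kernel
def c1269_9 : chk 1269 1 0 0 1 = true := by decide +kernel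
def c1269_10 : chk 1269 0 1 0 1 = true := by decide +kernel
def c1269_11 : chk 1269 1 1 0 1 = true := by decide +kernel
def c1269_12 : chk 1269 0 0 1 1 = true := by decide +kernel
def c1269_13 : chk 1269 1 0 1 1 = true := by decide +kernel
def c1269_14 : chk 1269 0 1 1 1 = true := by decide +kernel
def c1269_15 : chk 1269 1 1 1 1 = true := by decide +kernel
def c1270_0 : chk 1270 0 0 0 0 = true := by decide +kernel
def c1270_1 : chk 1270 1 0 0 0 = true := by decide +kernel
def c1270_2 : chk 1270 0 1 0 0 = true := by decide +kernel
def c1270_3 : chk 1270 1 1 0 0 = true := by decide +kernel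
def c1270_4 : chk 1270 0 0 1 0 = true := by decide +kernel
def c1270_5 : chk 1270 1 0 1 0 = true := by decide +kernel
def c1270_6 : chk 1270 0 1 1 0 = true := by decide +kernel
def c1270_7 : chk 1270 1 1 1 0 = true := by decide +kernel
def c1270_8 : chk 1270 0 0 0 1 = true := by decide +kernel
def c1270_9 : chk 1270 1 0 0 1 = true := by decide +kernel
def c1270_10 : chk 1270 0 1 0 1 = true := by decide +kernel
def c1270_11 : chk 1270 1 1 0 1 = true := by decide +kernel
def c1270_12 : chk 1270 0 0 1 1 = true := by decide +kernel
def c1270_13 : chk 1270 1 0 1 1 = true := by decide +kernel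
def c1270_14 : chk 1270 0 1 1 1 = true := by decide +kernel
def c1270_15 : chk 1270 1 1 1 1 = true := by decide +kernel

end Pool.Agent.T2H33.K5
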