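import Pool.Agent.T2H33.K5.Ker2

/-! Kernel checks, part 8. -/

set_option autoImplicit false
set_option maxRecDepth 100000
set_option linter.defProp false

namespace Pool.Agent.T2H33.K5

def c1271_0 : chk 1271 0 0 0 0 = true := by decide +kernel
def c1271_1 : chk 1271 1 0 0 0 = true := by decide +kernel
def c1271_2 : chk 1271 0 1 0 0 = true := by decide +kernel
def c1271_3 : chk 1271 1 1 0 0 = true := by decide +kernel
def c1271_4 : chk 1271 0 0 1 0 = true := by decide +kernel
def c1271_5 : chk 1271 1 0 1 0 = true := by decide +kernel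
def c1271_6 : chk 1271 0 1 1 0 = true := by decide +kernel
def c1271_7 : chk 1271 1 1 1 0 = true := by decide +kernel
def c1271_8 : chk 1271 0 0 0 1 = true := by decide +kernel
def c1271_9 : chk 1271 1 0 0 1 = true := by decide +kernel
def c1271_10 : chk 1271 0 1 0 1 = true := by decide +kernel
def c1271_11 : chk 1271 1 1 0 1 = true := by decide +kernel
def c1271_12 : chk 1271 0 0 1 1 = true := by decide +kernel
def c1271_13 : chk 1271 1 0 1 1 = true := by decide +kernel
def c1271_14 : chk 1271 0 1 1 1 = true := by decide +kernel
def c1271_15 : chk 1271 1 1 1 1 = true := by decide +kernel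
def c1278_0 : chk 1278 0 0 0 0 = true := by decide +kernel
def c1278_1 : chk 1278 1 0 0 0 = true := by decide +kernel
def c1278_2 : chk 1278 0 1 0 0 = true := by decide +kernel
def c1278_3 : chk 1278 1 1 0 0 = true := by decide +kernel
def c1278_4 : chk 1278 0 0 1 0 = true := by decide +kernel
def c1278_5 : chk 1278 1 0 1 0 = true := by decide +kernel
def c1278_6 : chk 1278 0 1 1 0 = true := by decide +kernel
def c1278_7 : chk 1278 1 1 1 0 = true := by decide +kernel
def c1278_8 : chk 1278 0 0 0 1 = true := by decide +kernel
def c1278_9 : chk 1278 1 0 0 1 = true := by decide +kernel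
def c1278_10 : chk 1278 0 1 0 1 = true := by decide +kernel
def c1278_11 : chk 1278 1 1 0 1 = true := by decide +kernel
def c1278_12 : chk 1278 0 0 1 1 = true := by decide +kernel
def c1278_13 : chk 1278 1 0 1 1 = true := by decide +kernel
def c1278_14 : chk 1278 0 1 1 1 = true := by decide +kernel
def c1278_15 : chk 1278 1 1 1 1 = true := by decide +kernel
def c1456_0 : chk 1456 0 0 0 0 = true := by decide +kernel
def c1456_1 : chk 1456 1 0 0 0 = true := by decide +kernel
def c1456_2 : chk 1456 0 1 0 0 = true := by decide +kernel
def c1456_3 : chk 1456 1 1 0 0 = true := by decide +kernel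
def c1456_4 : chk 1456 0 0 1 0 = true := by decide +kernel
def c1456_5 : chk 1456 1 0 1 0 = true := by decide +kernel
def c1456_6 : chk 1456 0 1 1 0 = true := by decide +kernel
def c1456_7 : chk 1456 1 1 1 0 = true := by decide +kernel
def c1456_8 : chk 1456 0 0 0 1 = true := by decide +kernel
def c1456_9 : chk 1456 1 0 0 1 = true := by decide +kernel
def c1456_10 : chk 1456 0 1 0 1 = true := by decide +kernel
def c1456_11 : chk 1456 1 1 0 1 = true := by decide +kernel
def c1456_12 : chk 1456 0 0 1 1 = true := by decide +kernel
def c1456_13 : chk 1456 1 0 1 1 = true := by decide +kernel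
def c1456_14 : chk 1456 0 1 1 1 = true := by decide +kernel
def c1456_15 : chk 1456 1 1 1 1 = true := by decide +kernel
def c1457_0 : chk 1457 0 0 0 0 = true := by decide +kernel
def c1457_1 : chk 1457 1 0 0 0 = true := by decide +kernel
def c1457_2 : chk 1457 0 1 0 0 = true := by decide +kernel
def c1457_3 : chk 1457 1 1 0 0 = true := by decide +kernel
def c1457_4 : chk 1457 0 0 1 0 = true := by decide +kernel
def c1457_5 : chk 1457 1 0 1 0 = true := by decide +kernel
def c1457_6 : chk 1457 0 1 1 0 = true := by decide +kernel
def c1457_7 : chk 1457 1 1 1 0 = true := by decide +kernel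
def c1457_8 : chk 1457 0 0 0 1 = true := by decide +kernel
def c1457_9 : chk 1457 1 0 0 1 = true := by decide +kernel
def c1457_10 : chk 1457 0 1 0 1 = true := by decide +kernel
def c1457_11 : chk 1457 1 1 0 1 = true := by decide +kernel
def c1457_12 : chk 1457 0 0 1 1 = true := by decide +kernel
def c1457_13 : chk 1457 1 0 1 1 = true := by decide +kernel
def c1457_14 : chk 1457 0 1 1 1 = true := by decide +kernel
def c1457_15 : chk 1457 1 1 1 1 = true := by decide +kernel
def c1459_0 : chk 1459 0 0 0 0 = true := by decide +kernel
def c1459_1 : chk 1459 1 0 0 0 = true := by decide +kernel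
def c1459_2 : chk 1459 0 1 0 0 = true := by decide +kernel
def c1459_3 : chk 1459 1 1 0 0 = true := by decide +kernel
def c1459_4 : chk 1459 0 0 1 0 = true := by decide +kernel
def c1459_5 : chk 1459 1 0 1 0 = true := by decide +kernel
def c1459_6 : chk 1459 0 1 1 0 = true := by decide +kernel
def c1459_7 : chk 1459 1 1 1 0 = true := by decide +kernel
def c1459_8 : chk 1459 0 0 0 1 = true := by decide +kernel
def c1459_9 : chk 1459 1 0 0 1 = true := by decide +kernel
def c1459_10 : chk 1459 0 1 0 1 = true := by decide +kernel
def c1459_11 : chk 1459 1 1 0 1 = true := by decide +kernel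
def c1459_12 : chk 1459 0 0 1 1 = true := by decide +kernel
def c1459_13 : chk 1459 1 0 1 1 = true := by decide +kernel
def c1459_14 : chk 1459 0 1 1 1 = true := by decide +kernel
def c1459_15 : chk 1459 1 1 1 1 = true := by decide +kernel
def c1460_0 : chk 1460 0 0 0 0 = true := by decide +kernel
def c1460_1 : chk 1460 1 0 0 0 = true := by decide +kernel
def c1460_2 : chk 1460 0 1 0 0 = true := by decide +kernel
def c1460_3 : chk 1460 1 1 0 0 = true := by decide +kernel
def c1460_4 : chk 1460 0 0 1 0 = true := by decide +kernel
def c1460_5 : chk 1460 1 0 1 0 = true := by decide +kernel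
def c1460_6 : chk 1460 0 1 1 0 = true := by decide +kernel
def c1460_7 : chk 1460 1 1 1 0 = true := by decide +kernel
def c1460_8 : chk 1460 0 0 0 1 = true := by decide +kernel
def c1460_9 : chk 1460 1 0 0 1 = true := by decide +kernel
def c1460_10 : chk 1460 0 1 0 1 = true := by decide +kernel
def c1460_11 : chk 1460 1 1 0 1 = true := by decide +kernel
def c1460_12 : chk 1460 0 0 1 1 = true := by decide +kernel
def c1460_13 : chk 1460 1 0 1 1 = true := by decide +kernel
def c1460_14 : chk 1460 0 1 1 1 = true := by decide +kernel
def c1460_15 : chk 1460 1 1 1 1 = true := by decide +kernel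
def c1461_0 : chk 1461 0 0 0 0 = true := by decide +kernel
def c1461_1 : chk 1461 1 0 0 0 = true := by decide +kernel
def c1461_2 : chk 1461 0 1 0 0 = true := by decide +kernel
def c1461_3 : chk 1461 1 1 0 0 = true := by decide +kernel
def c1461_4 : chk 1461 0 0 1 0 = true := by decide +kernel
def c1461_5 : chk 1461 1 0 1 0 = true := by decide +kernel
def c1461_6 : chk 1461 0 1 1 0 = true := by decide +kernel
def c1461_7 : chk 1461 1 1 1 0 = true := by decide +kernel
def c1461_8 : chk 1461 0 0 0 1 = true := by decide +kernel
def c1461_9 : chk 1461 1 0 0 1 = true := by decide +kernel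
def c1461_10 : chk 1461 0 1 0 1 = true := by decide +kernel
def c1461_11 : chk 1461 1 1 0 1 = true := by decide +kernel
def c1461_12 : chk 1461 0 0 1 1 = true := by decide +kernel
def c1461_13 : chk 1461 1 0 1 1 = true := by decide +kernel
def c1461_14 : chk 1461 0 1 1 1 = true := by decide +kernel
def c1461_15 : chk 1461 1 1 1 1 = true := by decide +kernel
def c1463_0 : chk 1463 0 0 0 0 = true := by decide +kernel
def c1463_1 : chk 1463 1 0 0 0 = true := by decide +kernel
def c1463_2 : chk 1463 0 1 0 0 = true := by decide +kernel
def c1463_3 : chk 1463 1 1 0 0 = true := by decide +kernel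
def c1463_4 : chk 1463 0 0 1 0 = true := by decide +kernel
def c1463_5 : chk 1463 1 0 1 0 = true := by decide +kernel
def c1463_6 : chk 1463 0 1 1 0 = true := by decide +kernel
def c1463_7 : chk 1463 1 1 1 0 = true := by decide +kernel
def c1463_8 : chk 1463 0 0 0 1 = true := by decide +kernel
def c1463_9 : chk 1463 1 0 0 1 = true := by decide +kernel
def c1463_10 : chk 1463 0 1 0 1 = true := by decide +kernel
def c1463_11 : chk 1463 1 1 0 1 = true := by decide +kernel
def c1463_12 : chk 1463 0 0 1 1 = true := by decide +kernel
def c1463_13 : chk 1463 1 0 1 1 = true := by decide +kernel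
def c1463_14 : chk 1463 0 1 1 1 = true := by decide +kernel
def c1463_15 : chk 1463 1 1 1 1 = true := by decide +kernel

end Pool.Agent.T2H33.K5
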