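import Pool.Agent.T2H33.K5.Ker2

/-! Kernel checks, part 9. -/

set_option autoImplicit false
set_option maxRecDepth 100000
set_option linter.defProp false

namespace Pool.Agent.T2H33.K5

def c1465_0 : chk 1465 0 0 0 0 = true := by decide +kernel
def c1465_1 : chk 1465 1 0 0 0 = true := by decide +kernel
def c1465_2 : chk 1465 0 1 0 0 = true := by decide +kernel
def c1465_3 : chk 1465 1 1 0 0 = true := by decide +kernel
def c1465_4 : chk 1465 0 0 1 0 = true := by decide +kernel
def c1465_5 : chk 1465 1 0 1 0 = true := by decide +kernel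
def c1465_6 : chk 1465 0 1 1 0 = true := by decide +kernel
def c1465_7 : chk 1465 1 1 1 0 = true := by decide +kernel
def c1465_8 : chk 1465 0 0 0 1 = true := by decide +kernel
def c1465_9 : chk 1465 1 0 0 1 = true := by decide +kernel
def c1465_10 : chk 1465 0 1 0 1 = true := by decide +kernel
def c1465_11 : chk 1465 1 1 0 1 = true := by decide +kernel
def c1465_12 : chk 1465 0 0 1 1 = true := by decide +kernel
def c1465_13 : chk 1465 1 0 1 1 = true := by decide +kernel
def c1465_14 : chk 1465 0 1 1 1 = true := by decide +kernel
def c1465_15 : chk 1465 1 1 1 1 = true := by decide +kernel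
def c1467_0 : chk 1467 0 0 0 0 = true := by decide +kernel
def c1467_1 : chk 1467 1 0 0 0 = true := by decide +kernel
def c1467_2 : chk 1467 0 1 0 0 = true := by decide +kernel
def c1467_3 : chk 1467 1 1 0 0 = true := by decide +kernel
def c1467_4 : chk 1467 0 0 1 0 = true := by decide +kernel
def c1467_5 : chk 1467 1 0 1 0 = true := by decide +kernel
def c1467_6 : chk 1467 0 1 1 0 = true := by decide +kernel
def c1467_7 : chk 1467 1 1 1 0 = true := by decide +kernel
def c1467_8 : chk 1467 0 0 0 1 = true := by decide +kernel
def c1467_9 : chk 1467 1 0 0 1 = true := by decide +kernel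
def c1467_10 : chk 1467 0 1 0 1 = true := by decide +kernel
def c1467_11 : chk 1467 1 1 0 1 = true := by decide +kernel
def c1467_12 : chk 1467 0 0 1 1 = true := by decide +kernel
def c1467_13 : chk 1467 1 0 1 1 = true := by decide +kernel
def c1467_14 : chk 1467 0 1 1 1 = true := by decide +kernel
def c1467_15 : chk 1467 1 1 1 1 = true := by decide +kernel
def c1468_0 : chk 1468 0 0 0 0 = true := by decide +kernel
def c1468_1 : chk 1468 1 0 0 0 = true := by decide +kernel
def c1468_2 : chk 1468 0 1 0 0 = true := by decide +kernel
def c1468_3 : chk 1468 1 1 0 0 = true := by decide +kernel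
def c1468_4 : chk 1468 0 0 1 0 = true := by decide +kernel
def c1468_5 : chk 1468 1 0 1 0 = true := by decide +kernel
def c1468_6 : chk 1468 0 1 1 0 = true := by decide +kernel
def c1468_7 : chk 1468 1 1 1 0 = true := by decide +kernel
def c1468_8 : chk 1468 0 0 0 1 = true := by decide +kernel
def c1468_9 : chk 1468 1 0 0 1 = true := by decide +kernel
def c1468_10 : chk 1468 0 1 0 1 = true := by decide +kernel
def c1468_11 : chk 1468 1 1 0 1 = true := by decide +kernel
def c1468_12 : chk 1468 0 0 1 1 = true := by decide +kernel
def c1468_13 : chk 1468 1 0 1 1 = true := by decide +kernel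
def c1468_14 : chk 1468 0 1 1 1 = true := by decide +kernel
def c1468_15 : chk 1468 1 1 1 1 = true := by decide +kernel
def c1469_0 : chk 1469 0 0 0 0 = true := by decide +kernel
def c1469_1 : chk 1469 1 0 0 0 = true := by decide +kernel
def c1469_2 : chk 1469 0 1 0 0 = true := by decide +kernel
def c1469_3 : chk 1469 1 1 0 0 = true := by decide +kernel
def c1469_4 : chk 1469 0 0 1 0 = true := by decide +kernel
def c1469_5 : chk 1469 1 0 1 0 = true := by decide +kernel
def c1469_6 : chk 1469 0 1 1 0 = true := by decide +kernel
def c1469_7 : chk 1469 1 1 1 0 = true := by decide +kernel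
def c1469_8 : chk 1469 0 0 0 1 = true := by decide +kernel
def c1469_9 : chk 1469 1 0 0 1 = true := by decide +kernel
def c1469_10 : chk 1469 0 1 0 1 = true := by decide +kernel
def c1469_11 : chk 1469 1 1 0 1 = true := by decide +kernel
def c1469_12 : chk 1469 0 0 1 1 = true := by decide +kernel
def c1469_13 : chk 1469 1 0 1 1 = true := by decide +kernel
def c1469_14 : chk 1469 0 1 1 1 = true := by decide +kernel
def c1469_15 : chk 1469 1 1 1 1 = true := by decide +kernel
def c1471_0 : chk 1471 0 0 0 0 = true := by decide +kernel
def c1471_1 : chk 1471 1 0 0 0 = true := by decide +kernel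
def c1471_2 : chk 1471 0 1 0 0 = true := by decide +kernel
def c1471_3 : chk 1471 1 1 0 0 = true := by decide +kernel
def c1471_4 : chk 1471 0 0 1 0 = true := by decide +kernel
def c1471_5 : chk 1471 1 0 1 0 = true := by decide +kernel
def c1471_6 : chk 1471 0 1 1 0 = true := by decide +kernel
def c1471_7 : chk 1471 1 1 1 0 = true := by decide +kernel
def c1471_8 : chk 1471 0 0 0 1 = true := by decide +kernel
def c1471_9 : chk 1471 1 0 0 1 = true := by decide +kernel
def c1471_10 : chk 1471 0 1 0 1 = true := by decide +kernel
def c1471_11 : chk 1471 1 1 0 1 = true := by decide +kernel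
def c1471_12 : chk 1471 0 0 1 1 = true := by decide +kernel
def c1471_13 : chk 1471 1 0 1 1 = true := by decide +kernel
def c1471_14 : chk 1471 0 1 1 1 = true := by decide +kernel
def c1471_15 : chk 1471 1 1 1 1 = true := by decide +kernel
def c1532_0 : chk 1532 0 0 0 0 = true := by decide +kernel
def c1532_1 : chk 1532 1 0 0 0 = true := by decide +kernel
def c1532_2 : chk 1532 0 1 0 0 = true := by decide +kernel
def c1532_3 : chk 1532 1 1 0 0 = true := by decide +kernel
def c1532_4 : chk 1532 0 0 1 0 = true := by decide +kernel
def c1532_5 : chk 1532 1 0 1 0 = true := by decide +kernel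
def c1532_6 : chk 1532 0 1 1 0 = true := by decide +kernel
def c1532_7 : chk 1532 1 1 1 0 = true := by decide +kernel
def c1532_8 : chk 1532 0 0 0 1 = true := by decide +kernel
def c1532_9 : chk 1532 1 0 0 1 = true := by decide +kernel
def c1532_10 : chk 1532 0 1 0 1 = true := by decide +kernel
def c1532_11 : chk 1532 1 1 0 1 = true := by decide +kernel
def c1532_12 : chk 1532 0 0 1 1 = true := by decide +kernel
def c1532_13 : chk 1532 1 0 1 1 = true := by decide +kernel
def c1532_14 : chk 1532 0 1 1 1 = true := by decide +kernel
def c1532_15 : chk 1532 1 1 1 1 = true := by decide +kernel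
def c1533_0 : chk 1533 0 0 0 0 = true := by decide +kernel
def c1533_1 : chk 1533 1 0 0 0 = true := by decide +kernel
def c1533_2 : chk 1533 0 1 0 0 = true := by decide +kernel
def c1533_3 : chk 1533 1 1 0 0 = true := by decide +kernel
def c1533_4 : chk 1533 0 0 1 0 = true := by decide +kernel
def c1533_5 : chk 1533 1 0 1 0 = true := by decide +kernel
def c1533_6 : chk 1533 0 1 1 0 = true := by decide +kernel
def c1533_7 : chk 1533 1 1 1 0 = true := by decide +kernel
def c1533_8 : chk 1533 0 0 0 1 = true := by decide +kernel
def c1533_9 : chk 1533 1 0 0 1 = true := by decide +kernel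
def c1533_10 : chk 1533 0 1 0 1 = true := by decide +kernel
def c1533_11 : chk 1533 1 1 0 1 = true := by decide +kernel
def c1533_12 : chk 1533 0 0 1 1 = true := by decide +kernel
def c1533_13 : chk 1533 1 0 1 1 = true := by decide +kernel
def c1533_14 : chk 1533 0 1 1 1 = true := by decide +kernel
def c1533_15 : chk 1533 1 1 1 1 = true := by decide +kernel
def c1972_0 : chk 1972 0 0 0 0 = true := by decide +kernel
def c1972_1 : chk 1972 1 0 0 0 = true := by decide +kernel
def c1972_2 : chk 1972 0 1 0 0 = true := by decide +kernel
def c1972_3 : chk 1972 1 1 0 0 = true := by decide +kernel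
def c1972_4 : chk 1972 0 0 1 0 = true := by decide +kernel
def c1972_5 : chk 1972 1 0 1 0 = true := by decide +kernel
def c1972_6 : chk 1972 0 1 1 0 = true := by decide +kernel
def c1972_7 : chk 1972 1 1 1 0 = true := by decide +kernel
def c1972_8 : chk 1972 0 0 0 1 = true := by decide +kernel
def c1972_9 : chk 1972 1 0 0 1 = true := by decide +kernel
def c1972_10 : chk 1972 0 1 0 1 = true := by decide +kernel
def c1972_11 : chk 1972 1 1 0 1 = true := by decide +kernel
def c1972_12 : chk 1972 0 0 1 1 = true := by decide +kernel
def c1972_13 : chk 1972 1 0 1 1 = true := by decide +kernel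
def c1972_14 : chk 1972 0 1 1 1 = true := by decide +kernel
def c1972_15 : chk 1972 1 1 1 1 = true := by decide +kernel

end Pool.Agent.T2H33.K5
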