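import Pool.Agent.T2H33.K5.Ker2

/-! Kernel checks, part 10. -/

set_option autoImplicit false
set_option maxRecDepth 100000
set_option linter.defProp false

namespace Pool.Agent.T2H33.K5

def c1973_0 : chk 1973 0 0 0 0 = true := by decide +kernel
def c1973_1 : chk 1973 1 0 0 0 = true := by decide +kernel
def c1973_2 : chk 1973 0 1 0 0 = true := by decide +kernel
def c1973_3 : chk 1973 1 1 0 0 = true := by decide +kernel
def c1973_4 : chk 1973 0 0 1 0 = true := by decide +kernel
def c1973_5 : chk 1973 1 0 1 0 = true := by decide +kernel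
def c1973_6 : chk 1973 0 1 1 0 = true := by decide +kernel
def c1973_7 : chk 1973 1 1 1 0 = true := by decide +kernel
def c1973_8 : chk 1973 0 0 0 1 = true := by decide +kernel
def c1973_9 : chk 1973 1 0 0 1 = true := by decide +kernel
def c1973_10 : chk 1973 0 1 0 1 = true := by decide +kernel
def c1973_11 : chk 1973 1 1 0 1 = true := by decide +kernel
def c1973_12 : chk 1973 0 0 1 1 = true := by decide +kernel
def c1973_13 : chk 1973 1 0 1 1 = true := by decide +kernel
def c1973_14 : chk 1973 0 1 1 1 = true := by decide +kernel
def c1973_15 : chk 1973 1 1 1 1 = true := by decide +kernel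
def c1975_0 : chk 1975 0 0 0 0 = true := by decide +kernel
def c1975_1 : chk 1975 1 0 0 0 = true := by decide +kernel
def c1975_2 : chk 1975 0 1 0 0 = true := by decide +kernel
def c1975_3 : chk 1975 1 1 0 0 = true := by decide +kernel
def c1975_4 : chk 1975 0 0 1 0 = true := by decide +kernel
def c1975_5 : chk 1975 1 0 1 0 = true := by decide +kernel
def c1975_6 : chk 1975 0 1 1 0 = true := by decide +kernel
def c1975_7 : chk 1975 1 1 1 0 = true := by decide +kernel
def c1975_8 : chk 1975 0 0 0 1 = true := by decide +kernel
def c1975_9 : chk 1975 1 0 0 1 = true := by decide +kernel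
def c1975_10 : chk 1975 0 1 0 1 = true := by decide +kernel
def c1975_11 : chk 1975 1 1 0 1 = true := by decide +kernel
def c1975_12 : chk 1975 0 0 1 1 = true := by decide +kernel
def c1975_13 : chk 1975 1 0 1 1 = true := by decide +kernel
def c1975_14 : chk 1975 0 1 1 1 = true := by decide +kernel
def c1975_15 : chk 1975 1 1 1 1 = true := by decide +kernel
def c1983_0 : chk 1983 0 0 0 0 = true := by decide +kernel
def c1983_1 : chk 1983 1 0 0 0 = true := by decide +kernel
def c1983_2 : chk 1983 0 1 0 0 = true := by decide +kernel
def c1983_3 : chk 1983 1 1 0 0 = true := by decide +kernel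
def c1983_4 : chk 1983 0 0 1 0 = true := by decide +kernel
def c1983_5 : chk 1983 1 0 1 0 = true := by decide +kernel
def c1983_6 : chk 1983 0 1 1 0 = true := by decide +kernel
def c1983_7 : chk 1983 1 1 1 0 = true := by decide +kernel
def c1983_8 : chk 1983 0 0 0 1 = true := by decide +kernel
def c1983_9 : chk 1983 1 0 0 1 = true := by decide +kernel
def c1983_10 : chk 1983 0 1 0 1 = true := by decide +kernel
def c1983_11 : chk 1983 1 1 0 1 = true := by decide +kernel
def c1983_12 : chk 1983 0 0 1 1 = true := by decide +kernel
def c1983_13 : chk 1983 1 0 1 1 = true := by decide +kernel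
def c1983_14 : chk 1983 0 1 1 1 = true := by decide +kernel
def c1983_15 : chk 1983 1 1 1 1 = true := by decide +kernel
def c3294_0 : chk 3294 0 0 0 0 = true := by decide +kernel
def c3294_1 : chk 3294 1 0 0 0 = true := by decide +kernel
def c3294_2 : chk 3294 0 1 0 0 = true := by decide +kernel
def c3294_3 : chk 3294 1 1 0 0 = true := by decide +kernel
def c3294_4 : chk 3294 0 0 1 0 = true := by decide +kernel
def c3294_5 : chk 3294 1 0 1 0 = true := by decide +kernel
def c3294_6 : chk 3294 0 1 1 0 = true := by decide +kernel
def c3294_7 : chk 3294 1 1 1 0 = true := by decide +kernel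
def c3294_8 : chk 3294 0 0 0 1 = true := by decide +kernel
def c3294_9 : chk 3294 1 0 0 1 = true := by decide +kernel
def c3294_10 : chk 3294 0 1 0 1 = true := by decide +kernel
def c3294_11 : chk 3294 1 1 0 1 = true := by decide +kernel
def c3294_12 : chk 3294 0 0 1 1 = true := by decide +kernel
def c3294_13 : chk 3294 1 0 1 1 = true := by decide +kernel
def c3294_14 : chk 3294 0 1 1 1 = true := by decide +kernel
def c3294_15 : chk 3294 1 1 1 1 = true := by decide +kernel
def c3306_0 : chk 3306 0 0 0 0 = true := by decide +kernel
def c3306_1 : chk 3306 1 0 0 0 = true := by decide +kernel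
def c3306_2 : chk 3306 0 1 0 0 = true := by decide +kernel
def c3306_3 : chk 3306 1 1 0 0 = true := by decide +kernel
def c3306_4 : chk 3306 0 0 1 0 = true := by decide +kernel
def c3306_5 : chk 3306 1 0 1 0 = true := by decide +kernel
def c3306_6 : chk 3306 0 1 1 0 = true := by decide +kernel
def c3306_7 : chk 3306 1 1 1 0 = true := by decide +kernel
def c3306_8 : chk 3306 0 0 0 1 = true := by decide +kernel
def c3306_9 : chk 3306 1 0 0 1 = true := by decide +kernel
def c3306_10 : chk 3306 0 1 0 1 = true := by decide +kernel
def c3306_11 : chk 3306 1 1 0 1 = true := by decide +kernel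
def c3306_12 : chk 3306 0 0 1 1 = true := by decide +kernel
def c3306_13 : chk 3306 1 0 1 1 = true := by decide +kernel
def c3306_14 : chk 3306 0 1 1 1 = true := by decide +kernel
def c3306_15 : chk 3306 1 1 1 1 = true := by decide +kernel
def c3308_0 : chk 3308 0 0 0 0 = true := by decide +kernel
def c3308_1 : chk 3308 1 0 0 0 = true := by decide +kernel
def c3308_2 : chk 3308 0 1 0 0 = true := by decide +kernel
def c3308_3 : chk 3308 1 1 0 0 = true := by decide +kernel
def c3308_4 : chk 3308 0 0 1 0 = true := by decide +kernel
def c3308_5 : chk 3308 1 0 1 0 = true := by decide +kernel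
def c3308_6 : chk 3308 0 1 1 0 = true := by decide +kernel
def c3308_7 : chk 3308 1 1 1 0 = true := by decide +kernel
def c3308_8 : chk 3308 0 0 0 1 = true := by decide +kernel
def c3308_9 : chk 3308 1 0 0 1 = true := by decide +kernel
def c3308_10 : chk 3308 0 1 0 1 = true := by decide +kernel
def c3308_11 : chk 3308 1 1 0 1 = true := by decide +kernel
def c3308_12 : chk 3308 0 0 1 1 = true := by decide +kernel
def c3308_13 : chk 3308 1 0 1 1 = true := by decide +kernel
def c3308_14 : chk 3308 0 1 1 1 = true := by decide +kernel
def c3308_15 : chk 3308 1 1 1 1 = true := by decide +kernel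
def c3309_0 : chk 3309 0 0 0 0 = true := by decide +kernel
def c3309_1 : chk 3309 1 0 0 0 = true := by decide +kernel
def c3309_2 : chk 3309 0 1 0 0 = true := by decide +kernel
def c3309_3 : chk 3309 1 1 0 0 = true := by decide +kernel
def c3309_4 : chk 3309 0 0 1 0 = true := by decide +kernel
def c3309_5 : chk 3309 1 0 1 0 = true := by decide +kernel
def c3309_6 : chk 3309 0 1 1 0 = true := by decide +kernel
def c3309_7 : chk 3309 1 1 1 0 = true := by decide +kernel
def c3309_8 : chk 3309 0 0 0 1 = true := by decide +kernel
def c3309_9 : chk 3309 1 0 0 1 = true := by decide +kernel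
def c3309_10 : chk 3309 0 1 0 1 = true := by decide +kernel
def c3309_11 : chk 3309 1 1 0 1 = true := by decide +kernel
def c3309_12 : chk 3309 0 0 1 1 = true := by decide +kernel
def c3309_13 : chk 3309 1 0 1 1 = true := by decide +kernel
def c3309_14 : chk 3309 0 1 1 1 = true := by decide +kernel
def c3309_15 : chk 3309 1 1 1 1 = true := by decide +kernel
def c3310_0 : chk 3310 0 0 0 0 = true := by decide +kernel
def c3310_1 : chk 3310 1 0 0 0 = true := by decide +kernel
def c3310_2 : chk 3310 0 1 0 0 = true := by decide +kernel
def c3310_3 : chk 3310 1 1 0 0 = true := by decide +kernel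
def c3310_4 : chk 3310 0 0 1 0 = true := by decide +kernel
def c3310_5 : chk 3310 1 0 1 0 = true := by decide +kernel
def c3310_6 : chk 3310 0 1 1 0 = true := by decide +kernel
def c3310_7 : chk 3310 1 1 1 0 = true := by decide +kernel
def c3310_8 : chk 3310 0 0 0 1 = true := by decide +kernel
def c3310_9 : chk 3310 1 0 0 1 = true := by decide +kernel
def c3310_10 : chk 3310 0 1 0 1 = true := by decide +kernel
def c3310_11 : chk 3310 1 1 0 1 = true := by decide +kernel
def c3310_12 : chk 3310 0 0 1 1 = true := by decide +kernel
def c3310_13 : chk 3310 1 0 1 1 = true := by decide +kernel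
def c3310_14 : chk 3310 0 1 1 1 = true := by decide +kernel
def c3310_15 : chk 3310 1 1 1 1 = true := by decide +kernel

end Pool.Agent.T2H33.K5
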