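import Pool.Agent.T2H33.K5.Ker2

/-! Kernel checks, part 11. -/

set_option autoImplicit false
set_option maxRecDepth 100000
set_option linter.defProp false

namespace Pool.Agent.T2H33.K5

def c3326_0 : chk 3326 0 0 0 0 = true := by decide +kernel
def c3326_1 : chk 3326 1 0 0 0 = true := by decide +kernel
def c3326_2 : chk 3326 0 1 0 0 = true := by decide +kernel
def c3326_3 : chk 3326 1 1 0 0 = true := by decide +kernel
def c3326_4 : chk 3326 0 0 1 0 = true := by decide +kernel
def c3326_5 : chk 3326 1 0 1 0 = true := by decide +kernel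
def c3326_6 : chk 3326 0 1 1 0 = true := by decide +kernel
def c3326_7 : chk 3326 1 1 1 0 = true := by decide +kernel
def c3326_8 : chk 3326 0 0 0 1 = true := by decide +kernel
def c3326_9 : chk 3326 1 0 0 1 = true := by decide +kernel
def c3326_10 : chk 3326 0 1 0 1 = true := by decide +kernel
def c3326_11 : chk 3326 1 1 0 1 = true := by decide +kernel
def c3326_12 : chk 3326 0 0 1 1 = true := by decide +kernel
def c3326_13 : chk 3326 1 0 1 1 = true := by decide +kernel
def c3326_14 : chk 3326 0 1 1 1 = true := by decide +kernel
def c3326_15 : chk 3326 1 1 1 1 = true := by decide +kernel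
def c3440_0 : chk 3440 0 0 0 0 = true := by decide +kernel
def c3440_1 : chk 3440 1 0 0 0 = true := by decide +kernel
def c3440_2 : chk 3440 0 1 0 0 = true := by decide +kernel
def c3440_3 : chk 3440 1 1 0 0 = true := by decide +kernel
def c3440_4 : chk 3440 0 0 1 0 = true := by decide +kernel
def c3440_5 : chk 3440 1 0 1 0 = true := by decide +kernel
def c3440_6 : chk 3440 0 1 1 0 = true := by decide +kernel
def c3440_7 : chk 3440 1 1 1 0 = true := by decide +kernel
def c3440_8 : chk 3440 0 0 0 1 = true := by decide +kernel
def c3440_9 : chk 3440 1 0 0 1 = true := by decide +kernel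
def c3440_10 : chk 3440 0 1 0 1 = true := by decide +kernel
def c3440_11 : chk 3440 1 1 0 1 = true := by decide +kernel
def c3440_12 : chk 3440 0 0 1 1 = true := by decide +kernel
def c3440_13 : chk 3440 1 0 1 1 = true := by decide +kernel
def c3440_14 : chk 3440 0 1 1 1 = true := by decide +kernel
def c3440_15 : chk 3440 1 1 1 1 = true := by decide +kernel
def c3441_0 : chk 3441 0 0 0 0 = true := by decide +kernel
def c3441_1 : chk 3441 1 0 0 0 = true := by decide +kernel
def c3441_2 : chk 3441 0 1 0 0 = true := by decide +kernel
def c3441_3 : chk 3441 1 1 0 0 = true := by decide +kernel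
def c3441_4 : chk 3441 0 0 1 0 = true := by decide +kernel
def c3441_5 : chk 3441 1 0 1 0 = true := by decide +kernel
def c3441_6 : chk 3441 0 1 1 0 = true := by decide +kernel
def c3441_7 : chk 3441 1 1 1 0 = true := by decide +kernel
def c3441_8 : chk 3441 0 0 0 1 = true := by decide +kernel
def c3441_9 : chk 3441 1 0 0 1 = true := by decide +kernel
def c3441_10 : chk 3441 0 1 0 1 = true := by decide +kernel
def c3441_11 : chk 3441 1 1 0 1 = true := by decide +kernel
def c3441_12 : chk 3441 0 0 1 1 = true := by decide +kernel
def c3441_13 : chk 3441 1 0 1 1 = true := by decide +kernel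
def c3441_14 : chk 3441 0 1 1 1 = true := by decide +kernel
def c3441_15 : chk 3441 1 1 1 1 = true := by decide +kernel
def c3443_0 : chk 3443 0 0 0 0 = true := by decide +kernel
def c3443_1 : chk 3443 1 0 0 0 = true := by decide +kernel
def c3443_2 : chk 3443 0 1 0 0 = true := by decide +kernel
def c3443_3 : chk 3443 1 1 0 0 = true := by decide +kernel
def c3443_4 : chk 3443 0 0 1 0 = true := by decide +kernel
def c3443_5 : chk 3443 1 0 1 0 = true := by decide +kernel
def c3443_6 : chk 3443 0 1 1 0 = true := by decide +kernel
def c3443_7 : chk 3443 1 1 1 0 = true := by decide +kernel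
def c3443_8 : chk 3443 0 0 0 1 = true := by decide +kernel
def c3443_9 : chk 3443 1 0 0 1 = true := by decide +kernel
def c3443_10 : chk 3443 0 1 0 1 = true := by decide +kernel
def c3443_11 : chk 3443 1 1 0 1 = true := by decide +kernel
def c3443_12 : chk 3443 0 0 1 1 = true := by decide +kernel
def c3443_13 : chk 3443 1 0 1 1 = true := by decide +kernel
def c3443_14 : chk 3443 0 1 1 1 = true := by decide +kernel
def c3443_15 : chk 3443 1 1 1 1 = true := by decide +kernel
def c3447_0 : chk 3447 0 0 0 0 = true := by decide +kernel
def c3447_1 : chk 3447 1 0 0 0 = true := by decide +kernel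
def c3447_2 : chk 3447 0 1 0 0 = true := by decide +kernel
def c3447_3 : chk 3447 1 1 0 0 = true := by decide +kernel
def c3447_4 : chk 3447 0 0 1 0 = true := by decide +kernel
def c3447_5 : chk 3447 1 0 1 0 = true := by decide +kernel
def c3447_6 : chk 3447 0 1 1 0 = true := by decide +kernel
def c3447_7 : chk 3447 1 1 1 0 = true := by decide +kernel
def c3447_8 : chk 3447 0 0 0 1 = true := by decide +kernel
def c3447_9 : chk 3447 1 0 0 1 = true := by decide +kernel
def c3447_10 : chk 3447 0 1 0 1 = true := by decide +kernel
def c3447_11 : chk 3447 1 1 0 1 = true := by decide +kernel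
def c3447_12 : chk 3447 0 0 1 1 = true := by decide +kernel
def c3447_13 : chk 3447 1 0 1 1 = true := by decide +kernel
def c3447_14 : chk 3447 0 1 1 1 = true := by decide +kernel
def c3447_15 : chk 3447 1 1 1 1 = true := by decide +kernel
def c3448_0 : chk 3448 0 0 0 0 = true := by decide +kernel
def c3448_1 : chk 3448 1 0 0 0 = true := by decide +kernel
def c3448_2 : chk 3448 0 1 0 0 = true := by decide +kernel
def c3448_3 : chk 3448 1 1 0 0 = true := by decide +kernel
def c3448_4 : chk 3448 0 0 1 0 = true := by decide +kernel
def c3448_5 : chk 3448 1 0 1 0 = true := by decide +kernel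
def c3448_6 : chk 3448 0 1 1 0 = true := by decide +kernel
def c3448_7 : chk 3448 1 1 1 0 = true := by decide +kernel
def c3448_8 : chk 3448 0 0 0 1 = true := by decide +kernel
def c3448_9 : chk 3448 1 0 0 1 = true := by decide +kernel
def c3448_10 : chk 3448 0 1 0 1 = true := by decide +kernel
def c3448_11 : chk 3448 1 1 0 1 = true := by decide +kernel
def c3448_12 : chk 3448 0 0 1 1 = true := by decide +kernel
def c3448_13 : chk 3448 1 0 1 1 = true := by decide +kernel
def c3448_14 : chk 3448 0 1 1 1 = true := by decide +kernel
def c3448_15 : chk 3448 1 1 1 1 = true := by decide +kernel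
def c3449_0 : chk 3449 0 0 0 0 = true := by decide +kernel
def c3449_1 : chk 3449 1 0 0 0 = true := by decide +kernel
def c3449_2 : chk 3449 0 1 0 0 = true := by decide +kernel
def c3449_3 : chk 3449 1 1 0 0 = true := by decide +kernel
def c3449_4 : chk 3449 0 0 1 0 = true := by decide +kernel
def c3449_5 : chk 3449 1 0 1 0 = true := by decide +kernel
def c3449_6 : chk 3449 0 1 1 0 = true := by decide +kernel
def c3449_7 : chk 3449 1 1 1 0 = true := by decide +kernel
def c3449_8 : chk 3449 0 0 0 1 = true := by decide +kernel
def c3449_9 : chk 3449 1 0 0 1 = true := by decide +kernel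
def c3449_10 : chk 3449 0 1 0 1 = true := by decide +kernel
def c3449_11 : chk 3449 1 1 0 1 = true := by decide +kernel
def c3449_12 : chk 3449 0 0 1 1 = true := by decide +kernel
def c3449_13 : chk 3449 1 0 1 1 = true := by decide +kernel
def c3449_14 : chk 3449 0 1 1 1 = true := by decide +kernel
def c3449_15 : chk 3449 1 1 1 1 = true := by decide +kernel
def c3452_0 : chk 3452 0 0 0 0 = true := by decide +kernel
def c3452_1 : chk 3452 1 0 0 0 = true := by decide +kernel
def c3452_2 : chk 3452 0 1 0 0 = true := by decide +kernel
def c3452_3 : chk 3452 1 1 0 0 = true := by decide +kernel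
def c3452_4 : chk 3452 0 0 1 0 = true := by decide +kernel
def c3452_5 : chk 3452 1 0 1 0 = true := by decide +kernel
def c3452_6 : chk 3452 0 1 1 0 = true := by decide +kernel
def c3452_7 : chk 3452 1 1 1 0 = true := by decide +kernel
def c3452_8 : chk 3452 0 0 0 1 = true := by decide +kernel
def c3452_9 : chk 3452 1 0 0 1 = true := by decide +kernel
def c3452_10 : chk 3452 0 1 0 1 = true := by decide +kernel
def c3452_11 : chk 3452 1 1 0 1 = true := by decide +kernel
def c3452_12 : chk 3452 0 0 1 1 = true := by decide +kernel
def c3452_13 : chk 3452 1 0 1 1 = true := by decide +kernel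
def c3452_14 : chk 3452 0 1 1 1 = true := by decide +kernel
def c3452_15 : chk 3452 1 1 1 1 = true := by decide +kernel

end Pool.Agent.T2H33.K5
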