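import Pool.Agent.T2H33.K5.Ker2

/-! Kernel checks, part 12. -/

set_option autoImplicit false
set_option maxRecDepth 100000
set_option linter.defProp false

namespace Pool.Agent.T2H33.K5

def c3453_0 : chk 3453 0 0 0 0 = true := by decide +kernel
def c3453_1 : chk 3453 1 0 0 0 = true := by decide +kernel
def c3453_2 : chk 3453 0 1 0 0 = true := by decide +kernel
def c3453_3 : chk 3453 1 1 0 0 = true := by decide +kernel
def c3453_4 : chk 3453 0 0 1 0 = true := by decide +kernel
def c3453_5 : chk 3453 1 0 1 0 = true := by decide +kernel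
def c3453_6 : chk 3453 0 1 1 0 = true := by decide +kernel
def c3453_7 : chk 3453 1 1 1 0 = true := by decide +kernel
def c3453_8 : chk 3453 0 0 0 1 = true := by decide +kernel
def c3453_9 : chk 3453 1 0 0 1 = true := by decide +kernel
def c3453_10 : chk 3453 0 1 0 1 = true := by decide +kernel
def c3453_11 : chk 3453 1 1 0 1 = true := by decide +kernel
def c3453_12 : chk 3453 0 0 1 1 = true := by decide +kernel
def c3453_13 : chk 3453 1 0 1 1 = true := by decide +kernel
def c3453_14 : chk 3453 0 1 1 1 = true := by decide +kernel
def c3453_15 : chk 3453 1 1 1 1 = true := by decide +kernel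
def c3576_0 : chk 3576 0 0 0 0 = true := by decide +kernel
def c3576_1 : chk 3576 1 0 0 0 = true := by decide +kernel
def c3576_2 : chk 3576 0 1 0 0 = true := by decide +kernel
def c3576_3 : chk 3576 1 1 0 0 = true := by decide +kernel
def c3576_4 : chk 3576 0 0 1 0 = true := by decide +kernel
def c3576_5 : chk 3576 1 0 1 0 = true := by decide +kernel
def c3576_6 : chk 3576 0 1 1 0 = true := by decide +kernel
def c3576_7 : chk 3576 1 1 1 0 = true := by decide +kernel
def c3576_8 : chk 3576 0 0 0 1 = true := by decide +kernel
def c3576_9 : chk 3576 1 0 0 1 = true := by decide +kernel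
def c3576_10 : chk 3576 0 1 0 1 = true := by decide +kernel
def c3576_11 : chk 3576 1 1 0 1 = true := by decide +kernel
def c3576_12 : chk 3576 0 0 1 1 = true := by decide +kernel
def c3576_13 : chk 3576 1 0 1 1 = true := by decide +kernel
def c3576_14 : chk 3576 0 1 1 1 = true := by decide +kernel
def c3576_15 : chk 3576 1 1 1 1 = true := by decide +kernel
def c3577_0 : chk 3577 0 0 0 0 = true := by decide +kernel
def c3577_1 : chk 3577 1 0 0 0 = true := by decide +kernel
def c3577_2 : chk 3577 0 1 0 0 = true := by decide +kernel
def c3577_3 : chk 3577 1 1 0 0 = true := by decide +kernel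
def c3577_4 : chk 3577 0 0 1 0 = true := by decide +kernel
def c3577_5 : chk 3577 1 0 1 0 = true := by decide +kernel
def c3577_6 : chk 3577 0 1 1 0 = true := by decide +kernel
def c3577_7 : chk 3577 1 1 1 0 = true := by decide +kernel
def c3577_8 : chk 3577 0 0 0 1 = true := by decide +kernel
def c3577_9 : chk 3577 1 0 0 1 = true := by decide +kernel
def c3577_10 : chk 3577 0 1 0 1 = true := by decide +kernel
def c3577_11 : chk 3577 1 1 0 1 = true := by decide +kernel
def c3577_12 : chk 3577 0 0 1 1 = true := by decide +kernel
def c3577_13 : chk 3577 1 0 1 1 = true := by decide +kernel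
def c3577_14 : chk 3577 0 1 1 1 = true := by decide +kernel
def c3577_15 : chk 3577 1 1 1 1 = true := by decide +kernel
def c3578_0 : chk 3578 0 0 0 0 = true := by decide +kernel
def c3578_1 : chk 3578 1 0 0 0 = true := by decide +kernel
def c3578_2 : chk 3578 0 1 0 0 = true := by decide +kernel
def c3578_3 : chk 3578 1 1 0 0 = true := by decide +kernel
def c3578_4 : chk 3578 0 0 1 0 = true := by decide +kernel
def c3578_5 : chk 3578 1 0 1 0 = true := by decide +kernel
def c3578_6 : chk 3578 0 1 1 0 = true := by decide +kernel
def c3578_7 : chk 3578 1 1 1 0 = true := by decide +kernel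
def c3578_8 : chk 3578 0 0 0 1 = true := by decide +kernel
def c3578_9 : chk 3578 1 0 0 1 = true := by decide +kernel
def c3578_10 : chk 3578 0 1 0 1 = true := by decide +kernel
def c3578_11 : chk 3578 1 1 0 1 = true := by decide +kernel
def c3578_12 : chk 3578 0 0 1 1 = true := by decide +kernel
def c3578_13 : chk 3578 1 0 1 1 = true := by decide +kernel
def c3578_14 : chk 3578 0 1 1 1 = true := by decide +kernel
def c3578_15 : chk 3578 1 1 1 1 = true := by decide +kernel
def c3582_0 : chk 3582 0 0 0 0 = true := by decide +kernel
def c3582_1 : chk 3582 1 0 0 0 = true := by decide +kernel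
def c3582_2 : chk 3582 0 1 0 0 = true := by decide +kernel
def c3582_3 : chk 3582 1 1 0 0 = true := by decide +kernel
def c3582_4 : chk 3582 0 0 1 0 = true := by decide +kernel
def c3582_5 : chk 3582 1 0 1 0 = true := by decide +kernel
def c3582_6 : chk 3582 0 1 1 0 = true := by decide +kernel
def c3582_7 : chk 3582 1 1 1 0 = true := by decide +kernel
def c3582_8 : chk 3582 0 0 0 1 = true := by decide +kernel
def c3582_9 : chk 3582 1 0 0 1 = true := by decide +kernel
def c3582_10 : chk 3582 0 1 0 1 = true := by decide +kernel
def c3582_11 : chk 3582 1 1 0 1 = true := by decide +kernel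
def c3582_12 : chk 3582 0 0 1 1 = true := by decide +kernel
def c3582_13 : chk 3582 1 0 1 1 = true := by decide +kernel
def c3582_14 : chk 3582 0 1 1 1 = true := by decide +kernel
def c3582_15 : chk 3582 1 1 1 1 = true := by decide +kernel
def c3873_0 : chk 3873 0 0 0 0 = true := by decide +kernel
def c3873_1 : chk 3873 1 0 0 0 = true := by decide +kernel
def c3873_2 : chk 3873 0 1 0 0 = true := by decide +kernel
def c3873_3 : chk 3873 1 1 0 0 = true := by decide +kernel
def c3873_4 : chk 3873 0 0 1 0 = true := by decide +kernel
def c3873_5 : chk 3873 1 0 1 0 = true := by decide +kernel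
def c3873_6 : chk 3873 0 1 1 0 = true := by decide +kernel
def c3873_7 : chk 3873 1 1 1 0 = true := by decide +kernel
def c3873_8 : chk 3873 0 0 0 1 = true := by decide +kernel
def c3873_9 : chk 3873 1 0 0 1 = true := by decide +kernel
def c3873_10 : chk 3873 0 1 0 1 = true := by decide +kernel
def c3873_11 : chk 3873 1 1 0 1 = true := by decide +kernel
def c3873_12 : chk 3873 0 0 1 1 = true := by decide +kernel
def c3873_13 : chk 3873 1 0 1 1 = true := by decide +kernel
def c3873_14 : chk 3873 0 1 1 1 = true := by decide +kernel
def c3873_15 : chk 3873 1 1 1 1 = true := by decide +kernel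
def c3875_0 : chk 3875 0 0 0 0 = true := by decide +kernel
def c3875_1 : chk 3875 1 0 0 0 = true := by decide +kernel
def c3875_2 : chk 3875 0 1 0 0 = true := by decide +kernel
def c3875_3 : chk 3875 1 1 0 0 = true := by decide +kernel
def c3875_4 : chk 3875 0 0 1 0 = true := by decide +kernel
def c3875_5 : chk 3875 1 0 1 0 = true := by decide +kernel
def c3875_6 : chk 3875 0 1 1 0 = true := by decide +kernel
def c3875_7 : chk 3875 1 1 1 0 = true := by decide +kernel
def c3875_8 : chk 3875 0 0 0 1 = true := by decide +kernel
def c3875_9 : chk 3875 1 0 0 1 = true := by decide +kernel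
def c3875_10 : chk 3875 0 1 0 1 = true := by decide +kernel
def c3875_11 : chk 3875 1 1 0 1 = true := by decide +kernel
def c3875_12 : chk 3875 0 0 1 1 = true := by decide +kernel
def c3875_13 : chk 3875 1 0 1 1 = true := by decide +kernel
def c3875_14 : chk 3875 0 1 1 1 = true := by decide +kernel
def c3875_15 : chk 3875 1 1 1 1 = true := by decide +kernel
def c3879_0 : chk 3879 0 0 0 0 = true := by decide +kernel
def c3879_1 : chk 3879 1 0 0 0 = true := by decide +kernel
def c3879_2 : chk 3879 0 1 0 0 = true := by decide +kernel
def c3879_3 : chk 3879 1 1 0 0 = true := by decide +kernel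
def c3879_4 : chk 3879 0 0 1 0 = true := by decide +kernel
def c3879_5 : chk 3879 1 0 1 0 = true := by decide +kernel
def c3879_6 : chk 3879 0 1 1 0 = true := by decide +kernel
def c3879_7 : chk 3879 1 1 1 0 = true := by decide +kernel
def c3879_8 : chk 3879 0 0 0 1 = true := by decide +kernel
def c3879_9 : chk 3879 1 0 0 1 = true := by decide +kernel
def c3879_10 : chk 3879 0 1 0 1 = true := by decide +kernel
def c3879_11 : chk 3879 1 1 0 1 = true := by decide +kernel
def c3879_12 : chk 3879 0 0 1 1 = true := by decide +kernel
def c3879_13 : chk 3879 1 0 1 1 = true := by decide +kernel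
def c3879_14 : chk 3879 0 1 1 1 = true := by decide +kernel
def c3879_15 : chk 3879 1 1 1 1 = true := by decide +kernel

end Pool.Agent.T2H33.K5
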