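import Pool.Agent.T2H33.K5.Ker2

/-! Kernel checks, part 13. -/

set_option autoImplicit false
set_option maxRecDepth 100000
set_option linter.defProp false

namespace Pool.Agent.T2H33.K5

def c3885_0 : chk 3885 0 0 0 0 = true := by decide +kernel
def c3885_1 : chk 3885 1 0 0 0 = true := by decide +kernel
def c3885_2 : chk 3885 0 1 0 0 = true := by decide +kernel
def c3885_3 : chk 3885 1 1 0 0 = true := by decide +kernel
def c3885_4 : chk 3885 0 0 1 0 = true := by decide +kernel
def c3885_5 : chk 3885 1 0 1 0 = true := by decide +kernel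
def c3885_6 : chk 3885 0 1 1 0 = true := by decide +kernel
def c3885_7 : chk 3885 1 1 1 0 = true := by decide +kernel
def c3885_8 : chk 3885 0 0 0 1 = true := by decide +kernel
def c3885_9 : chk 3885 1 0 0 1 = true := by decide +kernel
def c3885_10 : chk 3885 0 1 0 1 = true := by decide +kernel
def c3885_11 : chk 3885 1 1 0 1 = true := by decide +kernel
def c3885_12 : chk 3885 0 0 1 1 = true := by decide +kernel
def c3885_13 : chk 3885 1 0 1 1 = true := by decide +kernel
def c3885_14 : chk 3885 0 1 1 1 = true := by decide +kernel
def c3885_15 : chk 3885 1 1 1 1 = true := by decide +kernel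
def c3887_0 : chk 3887 0 0 0 0 = true := by decide +kernel
def c3887_1 : chk 3887 1 0 0 0 = true := by decide +kernel
def c3887_2 : chk 3887 0 1 0 0 = true := by decide +kernel
def c3887_3 : chk 3887 1 1 0 0 = true := by decide +kernel
def c3887_4 : chk 3887 0 0 1 0 = true := by decide +kernel
def c3887_5 : chk 3887 1 0 1 0 = true := by decide +kernel
def c3887_6 : chk 3887 0 1 1 0 = true := by decide +kernel
def c3887_7 : chk 3887 1 1 1 0 = true := by decide +kernel
def c3887_8 : chk 3887 0 0 0 1 = true := by decide +kernel
def c3887_9 : chk 3887 1 0 0 1 = true := by decide +kernel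
def c3887_10 : chk 3887 0 1 0 1 = true := by decide +kernel
def c3887_11 : chk 3887 1 1 0 1 = true := by decide +kernel
def c3887_12 : chk 3887 0 0 1 1 = true := by decide +kernel
def c3887_13 : chk 3887 1 0 1 1 = true := by decide +kernel
def c3887_14 : chk 3887 0 1 1 1 = true := by decide +kernel
def c3887_15 : chk 3887 1 1 1 1 = true := by decide +kernel
def c3903_0 : chk 3903 0 0 0 0 = true := by decide +kernel
def c3903_1 : chk 3903 1 0 0 0 = true := by decide +kernel
def c3903_2 : chk 3903 0 1 0 0 = true := by decide +kernel
def c3903_3 : chk 3903 1 1 0 0 = true := by decide +kernel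
def c3903_4 : chk 3903 0 0 1 0 = true := by decide +kernel
def c3903_5 : chk 3903 1 0 1 0 = true := by decide +kernel
def c3903_6 : chk 3903 0 1 1 0 = true := by decide +kernel
def c3903_7 : chk 3903 1 1 1 0 = true := by decide +kernel
def c3903_8 : chk 3903 0 0 0 1 = true := by decide +kernel
def c3903_9 : chk 3903 1 0 0 1 = true := by decide +kernel
def c3903_10 : chk 3903 0 1 0 1 = true := by decide +kernel
def c3903_11 : chk 3903 1 1 0 1 = true := by decide +kernel
def c3903_12 : chk 3903 0 0 1 1 = true := by decide +kernel
def c3903_13 : chk 3903 1 0 1 1 = true := by decide +kernel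
def c3903_14 : chk 3903 0 1 1 1 = true := by decide +kernel
def c3903_15 : chk 3903 1 1 1 1 = true := by decide +kernel
def c3948_0 : chk 3948 0 0 0 0 = true := by decide +kernel
def c3948_1 : chk 3948 1 0 0 0 = true := by decide +kernel
def c3948_2 : chk 3948 0 1 0 0 = true := by decide +kernel
def c3948_3 : chk 3948 1 1 0 0 = true := by decide +kernel
def c3948_4 : chk 3948 0 0 1 0 = true := by decide +kernel
def c3948_5 : chk 3948 1 0 1 0 = true := by decide +kernel
def c3948_6 : chk 3948 0 1 1 0 = true := by decide +kernel
def c3948_7 : chk 3948 1 1 1 0 = true := by decide +kernel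
def c3948_8 : chk 3948 0 0 0 1 = true := by decide +kernel
def c3948_9 : chk 3948 1 0 0 1 = true := by decide +kernel
def c3948_10 : chk 3948 0 1 0 1 = true := by decide +kernel
def c3948_11 : chk 3948 1 1 0 1 = true := by decide +kernel
def c3948_12 : chk 3948 0 0 1 1 = true := by decide +kernel
def c3948_13 : chk 3948 1 0 1 1 = true := by decide +kernel
def c3948_14 : chk 3948 0 1 1 1 = true := by decide +kernel
def c3948_15 : chk 3948 1 1 1 1 = true := by decide +kernel
def c3949_0 : chk 3949 0 0 0 0 = true := by decide +kernel
def c3949_1 : chk 3949 1 0 0 0 = true := by decide +kernel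
def c3949_2 : chk 3949 0 1 0 0 = true := by decide +kernel
def c3949_3 : chk 3949 1 1 0 0 = true := by decide +kernel
def c3949_4 : chk 3949 0 0 1 0 = true := by decide +kernel
def c3949_5 : chk 3949 1 0 1 0 = true := by decide +kernel
def c3949_6 : chk 3949 0 1 1 0 = true := by decide +kernel
def c3949_7 : chk 3949 1 1 1 0 = true := by decide +kernel
def c3949_8 : chk 3949 0 0 0 1 = true := by decide +kernel
def c3949_9 : chk 3949 1 0 0 1 = true := by decide +kernel
def c3949_10 : chk 3949 0 1 0 1 = true := by decide +kernel
def c3949_11 : chk 3949 1 1 0 1 = true := by decide +kernel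
def c3949_12 : chk 3949 0 0 1 1 = true := by decide +kernel
def c3949_13 : chk 3949 1 0 1 1 = true := by decide +kernel
def c3949_14 : chk 3949 0 1 1 1 = true := by decide +kernel
def c3949_15 : chk 3949 1 1 1 1 = true := by decide +kernel
def c3950_0 : chk 3950 0 0 0 0 = true := by decide +kernel
def c3950_1 : chk 3950 1 0 0 0 = true := by decide +kernel
def c3950_2 : chk 3950 0 1 0 0 = true := by decide +kernel
def c3950_3 : chk 3950 1 1 0 0 = true := by decide +kernel
def c3950_4 : chk 3950 0 0 1 0 = true := by decide +kernel
def c3950_5 : chk 3950 1 0 1 0 = true := by decide +kernel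
def c3950_6 : chk 3950 0 1 1 0 = true := by decide +kernel
def c3950_7 : chk 3950 1 1 1 0 = true := by decide +kernel
def c3950_8 : chk 3950 0 0 0 1 = true := by decide +kernel
def c3950_9 : chk 3950 1 0 0 1 = true := by decide +kernel
def c3950_10 : chk 3950 0 1 0 1 = true := by decide +kernel
def c3950_11 : chk 3950 1 1 0 1 = true := by decide +kernel
def c3950_12 : chk 3950 0 0 1 1 = true := by decide +kernel
def c3950_13 : chk 3950 1 0 1 1 = true := by decide +kernel
def c3950_14 : chk 3950 0 1 1 1 = true := by decide +kernel
def c3950_15 : chk 3950 1 1 1 1 = true := by decide +kernel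
def c3958_0 : chk 3958 0 0 0 0 = true := by decide +kernel
def c3958_1 : chk 3958 1 0 0 0 = true := by decide +kernel
def c3958_2 : chk 3958 0 1 0 0 = true := by decide +kernel
def c3958_3 : chk 3958 1 1 0 0 = true := by decide +kernel
def c3958_4 : chk 3958 0 0 1 0 = true := by decide +kernel
def c3958_5 : chk 3958 1 0 1 0 = true := by decide +kernel
def c3958_6 : chk 3958 0 1 1 0 = true := by decide +kernel
def c3958_7 : chk 3958 1 1 1 0 = true := by decide +kernel
def c3958_8 : chk 3958 0 0 0 1 = true := by decide +kernel
def c3958_9 : chk 3958 1 0 0 1 = true := by decide +kernel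
def c3958_10 : chk 3958 0 1 0 1 = true := by decide +kernel
def c3958_11 : chk 3958 1 1 0 1 = true := by decide +kernel
def c3958_12 : chk 3958 0 0 1 1 = true := by decide +kernel
def c3958_13 : chk 3958 1 0 1 1 = true := by decide +kernel
def c3958_14 : chk 3958 0 1 1 1 = true := by decide +kernel
def c3958_15 : chk 3958 1 1 1 1 = true := by decide +kernel
def c3959_0 : chk 3959 0 0 0 0 = true := by decide +kernel
def c3959_1 : chk 3959 1 0 0 0 = true := by decide +kernel
def c3959_2 : chk 3959 0 1 0 0 = true := by decide +kernel
def c3959_3 : chk 3959 1 1 0 0 = true := by decide +kernel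
def c3959_4 : chk 3959 0 0 1 0 = true := by decide +kernel
def c3959_5 : chk 3959 1 0 1 0 = true := by decide +kernel
def c3959_6 : chk 3959 0 1 1 0 = true := by decide +kernel
def c3959_7 : chk 3959 1 1 1 0 = true := by decide +kernel
def c3959_8 : chk 3959 0 0 0 1 = true := by decide +kernel
def c3959_9 : chk 3959 1 0 0 1 = true := by decide +kernel
def c3959_10 : chk 3959 0 1 0 1 = true := by decide +kernel
def c3959_11 : chk 3959 1 1 0 1 = true := by decide +kernel
def c3959_12 : chk 3959 0 0 1 1 = true := by decide +kernel
def c3959_13 : chk 3959 1 0 1 1 = true := by decide +kernel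
def c3959_14 : chk 3959 0 1 1 1 = true := by decide +kernel
def c3959_15 : chk 3959 1 1 1 1 = true := by decide +kernel

end Pool.Agent.T2H33.K5
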