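import Pool.Agent.T2H33.K5.Ker2

/-! Kernel checks, part 14. -/

set_option autoImplicit false
set_option maxRecDepth 100000
set_option linter.defProp false

namespace Pool.Agent.T2H33.K5

def c3966_0 : chk 3966 0 0 0 0 = true := by decide +kernel
def c3966_1 : chk 3966 1 0 0 0 = true := by decide +kernel
def c3966_2 : chk 3966 0 1 0 0 = true := by decide +kernel
def c3966_3 : chk 3966 1 1 0 0 = true := by decide +kernel
def c3966_4 : chk 3966 0 0 1 0 = true := by decide +kernel
def c3966_5 : chk 3966 1 0 1 0 = true := by decide +kernel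
def c3966_6 : chk 3966 0 1 1 0 = true := by decide +kernel
def c3966_7 : chk 3966 1 1 1 0 = true := by decide +kernel
def c3966_8 : chk 3966 0 0 0 1 = true := by decide +kernel
def c3966_9 : chk 3966 1 0 0 1 = true := by decide +kernel
def c3966_10 : chk 3966 0 1 0 1 = true := by decide +kernel
def c3966_11 : chk 3966 1 1 0 1 = true := by decide +kernel
def c3966_12 : chk 3966 0 0 1 1 = true := by decide +kernel
def c3966_13 : chk 3966 1 0 1 1 = true := by decide +kernel
def c3966_14 : chk 3966 0 1 1 1 = true := by decide +kernel
def c3966_15 : chk 3966 1 1 1 1 = true := by decide +kernel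
def c4094_0 : chk 4094 0 0 0 0 = true := by decide +kernel
def c4094_1 : chk 4094 1 0 0 0 = true := by decide +kernel
def c4094_2 : chk 4094 0 1 0 0 = true := by decide +kernel
def c4094_3 : chk 4094 1 1 0 0 = true := by decide +kernel
def c4094_4 : chk 4094 0 0 1 0 = true := by decide +kernel
def c4094_5 : chk 4094 1 0 1 0 = true := by decide +kernel
def c4094_6 : chk 4094 0 1 1 0 = true := by decide +kernel
def c4094_7 : chk 4094 1 1 1 0 = true := by decide +kernel
def c4094_8 : chk 4094 0 0 0 1 = true := by decide +kernel
def c4094_9 : chk 4094 1 0 0 1 = true := by decide +kernel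
def c4094_10 : chk 4094 0 1 0 1 = true := by decide +kernel
def c4094_11 : chk 4094 1 1 0 1 = true := by decide +kernel
def c4094_12 : chk 4094 0 0 1 1 = true := by decide +kernel
def c4094_13 : chk 4094 1 0 1 1 = true := by decide +kernel
def c4094_14 : chk 4094 0 1 1 1 = true := by decide +kernel
def c4094_15 : chk 4094 1 1 1 1 = true := by decide +kernel
def c7672_0 : chk 7672 0 0 0 0 = true := by decide +kernel
def c7672_1 : chk 7672 1 0 0 0 = true := by decide +kernel
def c7672_2 : chk 7672 0 1 0 0 = true := by decide +kernel
def c7672_3 : chk 7672 1 1 0 0 = true := by decide +kernel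
def c7672_4 : chk 7672 0 0 1 0 = true := by decide +kernel
def c7672_5 : chk 7672 1 0 1 0 = true := by decide +kernel
def c7672_6 : chk 7672 0 1 1 0 = true := by decide +kernel
def c7672_7 : chk 7672 1 1 1 0 = true := by decide +kernel
def c7672_8 : chk 7672 0 0 0 1 = true := by decide +kernel
def c7672_9 : chk 7672 1 0 0 1 = true := by decide +kernel
def c7672_10 : chk 7672 0 1 0 1 = true := by decide +kernel
def c7672_11 : chk 7672 1 1 0 1 = true := by decide +kernel
def c7672_12 : chk 7672 0 0 1 1 = true := by decide +kernel
def c7672_13 : chk 7672 1 0 1 1 = true := by decide +kernel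
def c7672_14 : chk 7672 0 1 1 1 = true := by decide +kernel
def c7672_15 : chk 7672 1 1 1 1 = true := by decide +kernel
def c7673_0 : chk 7673 0 0 0 0 = true := by decide +kernel
def c7673_1 : chk 7673 1 0 0 0 = true := by decide +kernel
def c7673_2 : chk 7673 0 1 0 0 = true := by decide +kernel
def c7673_3 : chk 7673 1 1 0 0 = true := by decide +kernel
def c7673_4 : chk 7673 0 0 1 0 = true := by decide +kernel
def c7673_5 : chk 7673 1 0 1 0 = true := by decide +kernel
def c7673_6 : chk 7673 0 1 1 0 = true := by decide +kernel
def c7673_7 : chk 7673 1 1 1 0 = true := by decide +kernel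
def c7673_8 : chk 7673 0 0 0 1 = true := by decide +kernel
def c7673_9 : chk 7673 1 0 0 1 = true := by decide +kernel
def c7673_10 : chk 7673 0 1 0 1 = true := by decide +kernel
def c7673_11 : chk 7673 1 1 0 1 = true := by decide +kernel
def c7673_12 : chk 7673 0 0 1 1 = true := by decide +kernel
def c7673_13 : chk 7673 1 0 1 1 = true := by decide +kernel
def c7673_14 : chk 7673 0 1 1 1 = true := by decide +kernel
def c7673_15 : chk 7673 1 1 1 1 = true := by decide +kernel
def c7902_0 : chk 7902 0 0 0 0 = true := by decide +kernel
def c7902_1 : chk 7902 1 0 0 0 = true := by decide +kernel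
def c7902_2 : chk 7902 0 1 0 0 = true := by decide +kernel
def c7902_3 : chk 7902 1 1 0 0 = true := by decide +kernel
def c7902_4 : chk 7902 0 0 1 0 = true := by decide +kernel
def c7902_5 : chk 7902 1 0 1 0 = true := by decide +kernel
def c7902_6 : chk 7902 0 1 1 0 = true := by decide +kernel
def c7902_7 : chk 7902 1 1 1 0 = true := by decide +kernel
def c7902_8 : chk 7902 0 0 0 1 = true := by decide +kernel
def c7902_9 : chk 7902 1 0 0 1 = true := by decide +kernel
def c7902_10 : chk 7902 0 1 0 1 = true := by decide +kernel
def c7902_11 : chk 7902 1 1 0 1 = true := by decide +kernel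
def c7902_12 : chk 7902 0 0 1 1 = true := by decide +kernel
def c7902_13 : chk 7902 1 0 1 1 = true := by decide +kernel
def c7902_14 : chk 7902 0 1 1 1 = true := by decide +kernel
def c7902_15 : chk 7902 1 1 1 1 = true := by decide +kernel
def c7916_0 : chk 7916 0 0 0 0 = true := by decide +kernel
def c7916_1 : chk 7916 1 0 0 0 = true := by decide +kernel
def c7916_2 : chk 7916 0 1 0 0 = true := by decide +kernel
def c7916_3 : chk 7916 1 1 0 0 = true := by decide +kernel
def c7916_4 : chk 7916 0 0 1 0 = true := by decide +kernel
def c7916_5 : chk 7916 1 0 1 0 = true := by decide +kernel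
def c7916_6 : chk 7916 0 1 1 0 = true := by decide +kernel
def c7916_7 : chk 7916 1 1 1 0 = true := by decide +kernel
def c7916_8 : chk 7916 0 0 0 1 = true := by decide +kernel
def c7916_9 : chk 7916 1 0 0 1 = true := by decide +kernel
def c7916_10 : chk 7916 0 1 0 1 = true := by decide +kernel
def c7916_11 : chk 7916 1 1 0 1 = true := by decide +kernel
def c7916_12 : chk 7916 0 0 1 1 = true := by decide +kernel
def c7916_13 : chk 7916 1 0 1 1 = true := by decide +kernel
def c7916_14 : chk 7916 0 1 1 1 = true := by decide +kernel
def c7916_15 : chk 7916 1 1 1 1 = true := by decide +kernel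
def c7917_0 : chk 7917 0 0 0 0 = true := by decide +kernel
def c7917_1 : chk 7917 1 0 0 0 = true := by decide +kernel
def c7917_2 : chk 7917 0 1 0 0 = true := by decide +kernel
def c7917_3 : chk 7917 1 1 0 0 = true := by decide +kernel
def c7917_4 : chk 7917 0 0 1 0 = true := by decide +kernel
def c7917_5 : chk 7917 1 0 1 0 = true := by decide +kernel
def c7917_6 : chk 7917 0 1 1 0 = true := by decide +kernel
def c7917_7 : chk 7917 1 1 1 0 = true := by decide +kernel
def c7917_8 : chk 7917 0 0 0 1 = true := by decide +kernel
def c7917_9 : chk 7917 1 0 0 1 = true := by decide +kernel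
def c7917_10 : chk 7917 0 1 0 1 = true := by decide +kernel
def c7917_11 : chk 7917 1 1 0 1 = true := by decide +kernel
def c7917_12 : chk 7917 0 0 1 1 = true := by decide +kernel
def c7917_13 : chk 7917 1 0 1 1 = true := by decide +kernel
def c7917_14 : chk 7917 0 1 1 1 = true := by decide +kernel
def c7917_15 : chk 7917 1 1 1 1 = true := by decide +kernel
def c7934_0 : chk 7934 0 0 0 0 = true := by decide +kernel
def c7934_1 : chk 7934 1 0 0 0 = true := by decide +kernel
def c7934_2 : chk 7934 0 1 0 0 = true := by decide +kernel
def c7934_3 : chk 7934 1 1 0 0 = true := by decide +kernel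
def c7934_4 : chk 7934 0 0 1 0 = true := by decide +kernel
def c7934_5 : chk 7934 1 0 1 0 = true := by decide +kernel
def c7934_6 : chk 7934 0 1 1 0 = true := by decide +kernel
def c7934_7 : chk 7934 1 1 1 0 = true := by decide +kernel
def c7934_8 : chk 7934 0 0 0 1 = true := by decide +kernel
def c7934_9 : chk 7934 1 0 0 1 = true := by decide +kernel
def c7934_10 : chk 7934 0 1 0 1 = true := by decide +kernel
def c7934_11 : chk 7934 1 1 0 1 = true := by decide +kernel
def c7934_12 : chk 7934 0 0 1 1 = true := by decide +kernel
def c7934_13 : chk 7934 1 0 1 1 = true := by decide +kernel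
def c7934_14 : chk 7934 0 1 1 1 = true := by decide +kernel
def c7934_15 : chk 7934 1 1 1 1 = true := by decide +kernel

end Pool.Agent.T2H33.K5
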