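import Pool.Agent.T2H33.K5.Ker2

/-! Kernel checks, part 15. -/

set_option autoImplicit false
set_option maxRecDepth 100000
set_option linter.defProp false

namespace Pool.Agent.T2H33.K5

def c8185_0 : chk 8185 0 0 0 0 = true := by decide +kernel
def c8185_1 : chk 8185 1 0 0 0 = true := by decide +kernel
def c8185_2 : chk 8185 0 1 0 0 = true := by decide +kernel
def c8185_3 : chk 8185 1 1 0 0 = true := by decide +kernel
def c8185_4 : chk 8185 0 0 1 0 = true := by decide +kernel
def c8185_5 : chk 8185 1 0 1 0 = true := by decide +kernel
def c8185_6 : chk 8185 0 1 1 0 = true := by decide +kernel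
def c8185_7 : chk 8185 1 1 1 0 = true := by decide +kernel
def c8185_8 : chk 8185 0 0 0 1 = true := by decide +kernel
def c8185_9 : chk 8185 1 0 0 1 = true := by decide +kernel
def c8185_10 : chk 8185 0 1 0 1 = true := by decide +kernel
def c8185_11 : chk 8185 1 1 0 1 = true := by decide +kernel
def c8185_12 : chk 8185 0 0 1 1 = true := by decide +kernel
def c8185_13 : chk 8185 1 0 1 1 = true := by decide +kernel
def c8185_14 : chk 8185 0 1 1 1 = true := by decide +kernel
def c8185_15 : chk 8185 1 1 1 1 = true := by decide +kernel
def c16350_0 : chk 16350 0 0 0 0 = true := by decide +kernel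
def c16350_1 : chk 16350 1 0 0 0 = true := by decide +kernel
def c16350_2 : chk 16350 0 1 0 0 = true := by decide +kernel
def c16350_3 : chk 16350 1 1 0 0 = true := by decide +kernel
def c16350_4 : chk 16350 0 0 1 0 = true := by decide +kernel
def c16350_5 : chk 16350 1 0 1 0 = true := by decide +kernel
def c16350_6 : chk 16350 0 1 1 0 = true := by decide +kernel
def c16350_7 : chk 16350 1 1 1 0 = true := by decide +kernel
def c16350_8 : chk 16350 0 0 0 1 = true := by decide +kernel
def c16350_9 : chk 16350 1 0 0 1 = true := by decide +kernel
def c16350_10 : chk 16350 0 1 0 1 = true := by decide +kernel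
def c16350_11 : chk 16350 1 1 0 1 = true := by decide +kernel
def c16350_12 : chk 16350 0 0 1 1 = true := by decide +kernel
def c16350_13 : chk 16350 1 0 1 1 = true := by decide +kernel
def c16350_14 : chk 16350 0 1 1 1 = true := by decide +kernel
def c16350_15 : chk 16350 1 1 1 1 = true := by decide +kernel

end Pool.Agent.T2H33.K5
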