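import Pool.Agent.T2H33.K5.Tab

/-! The check of the pointwise inequality, for all the links at once. -/

set_option autoImplicit false
set_option maxRecDepth 100000

namespace Pool.Agent.T2H33.K5

noncomputable section

/-- block `k` of the table -/
def sbk (k : ℕ) : ℕ := get DT k
/-- scalar product of two flags with three labelled vertices -/
def Qf (k l : ℕ) : ℕ := Nat.land (Nat.shiftRight QT (Nat.mul 16 (Nat.add (Nat.mul 24 k) l))) 65535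
def ON25 : ℕ := 33554431
def MK64 : ℕ := (d2 51200 (d2 25600 (d2 12800 (d2 6400 (d2 3200 (d2 1600 ON25))))))
def ONS64 : ℕ := (d2 51200 (d2 25600 (d2 12800 (d2 6400 (d2 3200 (d2 1600 1))))))
def ON64 : ℕ := (d2 800 (d2 400 (d2 200 (d2 100 (d2 50 (d2 25 1))))))
def ON1600 : ℕ := Nat.sub (Nat.pow 2 1600) 1
/-- transposition of a block -/
def tr (x : ℕ) : ℕ := (swp 25 12 5 11 (swp 25 12 4 10 (swp 25 12 3 9 (swp 25 12 2 8 (swp 25 12 1 7 (swp 25 12 0 6 x))))))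
def trk (k : ℕ) : ℕ := st (fun k => tr (sbk k)) k
def kA (x j : ℕ) : ℕ := Nat.land (Nat.shiftRight x (Nat.mul 25 j)) MK64
def kB (x j : ℕ) : ℕ := Nat.land (Nat.shiftRight x (Nat.mul 1600 j)) ON1600
/-- all the scalar products of the flags of two columns -/
def OP (x y j l : ℕ) : ℕ := Nat.add (Nat.mul (kA x j) (kB y l)) (Nat.add (Nat.mul (kA x (Nat.add j 1)) (kB y (Nat.add l 1))) (Nat.add (Nat.mul (kA x (Nat.add j 2)) (kB y (Nat.add l 2))) (Nat.add (Nat.mul (kA x (Nat.add j 3)) (kB y (Nat.add l 3))) (Nat.add (Nat.mul (kA x (Nat.add j 4)) ON64) (Nat.mul ONS64 (kB y (Nat.add l 4)))))))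
/-- block number of the code with first bits `g`, `c` and `h` -/
def bn (g c h : ℕ) : ℕ := Nat.add (Nat.div h 8) (Nat.add (Nat.mul 2 c) (Nat.mul 32 g))
def cn (h : ℕ) : ℕ := Nat.mul 8 (Nat.mod h 8)
/-- the terms of the pair of vertices four and five -/
def X1b (g c h4 h5 : ℕ) : ℕ := st (fun k => st (fun l => st (fun i => st (fun j => OP (sbk k) (trk l) i j) (cn h5)) (cn h4)) (bn g c h5)) (bn g c h4)
/-- entry `r` of the record of the code `m` -/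
def Td (r m : ℕ) : ℕ := Nat.land (Nat.shiftRight (sbk (Nat.div m 512)) (Nat.mul 25 (Nat.add r (Nat.add (Nat.mul 8 (Nat.mod (Nat.div m 64) 8)) (Nat.mul 64 (Nat.mod m 64)))))) ON25
/-- the terms of the pair of vertices five and six -/
def Ybr (g h4 c a0 a1 a2 a3 a4 : ℕ) : ℕ := st (fun k => st (fun j => Nat.mul (Nat.add (Nat.mul (kA (sbk k) j) a0) (Nat.add (Nat.mul (kA (sbk k) (Nat.add j 1)) a1) (Nat.add (Nat.mul (kA (sbk k) (Nat.add j 2)) a2) (Nat.add (Nat.mul (kA (sbk k) (Nat.add j 3)) a3) (Nat.add (kA (sbk k) (Nat.add j 4)) (Nat.mul ONS64 a4)))))) ON64) (cn c)) (bn g h4 c)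
def Yb (m c : ℕ) : ℕ := Ybr (Nat.div m 16384) (Nat.mod (Nat.div m 1024) 16) c (Td 0 m) (Td 1 m) (Td 2 m) (Td 3 m) (Td 4 m)
def X4 (m c : ℕ) : ℕ := Nat.add (Qf (Nat.add (Nat.mul 8 (Nat.add (bt 13 m) (bt 9 m))) (Nat.add (bt 5 m) (Nat.add (Nat.mul 2 (bt 4 m)) (Nat.mul 4 (bt 3 m))))) (Nat.add (Nat.mul 8 (Nat.add (bt 14 m) (bt 3 c))) (Nat.add (bt 2 c) (Nat.add (Nat.mul 2 (bt 1 c)) (Nat.mul 4 (bt 0 c)))))) (Nat.add (Qf (Nat.add (Nat.mul 8 (Nat.add (bt 12 m) (bt 8 m))) (Nat.add (bt 5 m) (Nat.add (Nat.mul 2 (bt 2 m)) (Nat.mul 4 (bt 1 m))))) (Nat.add (Nat.mul 8 (Nat.add (bt 14 m) (bt 2 c))) (Nat.add (bt 3 c) (Nat.add (Nat.mul 2 (bt 1 c)) (Nat.mul 4 (bt 0 c)))))) (Nat.add (Qf (Nat.add (Nat.mul 8 (Nat.add (bt 11 m) (bt 7 m))) (Nat.add (bt 4 m) (Nat.add (Nat.mul 2 (bt 2 m)) (Nat.mul 4 (bt 0 m))))) (Nat.add (Nat.mul 8 (Nat.add (bt 14 m) (bt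 1 c))) (Nat.add (bt 3 c) (Nat.add (Nat.mul 2 (bt 2 c)) (Nat.mul 4 (bt 0 c)))))) (Qf (Nat.add (Nat.mul 8 (Nat.add (bt 10 m) (bt 6 m))) (Nat.add (bt 3 m) (Nat.add (Nat.mul 2 (bt 1 m)) (Nat.mul 4 (bt 0 m))))) (Nat.add (Nat.mul 8 (Nat.add (bt 14 m) (bt 0 c))) (Nat.add (bt 3 c) (Nat.add (Nat.mul 2 (bt 2 c)) (Nat.mul 4 (bt 1 c))))))))
def r4 (x : ℕ) : ℕ := d2 819200 (d2 409600 (d2 204800 (d2 102400 x)))
def X1c (m c : ℕ) : ℕ := X1b (Nat.div m 16384) c (Nat.mod (Nat.div m 1024) 16) (Nat.mod (Nat.div m 64) 16)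
def pc01 (x : ℕ) : ℕ := (sb 12 13 (sb 8 9 (sb 2 4 (sb 1 3 x))))
def pc04 (x : ℕ) : ℕ := (sb 13 14 (sb 5 8 (sb 4 7 (sb 3 6 x))))
def pc05 (x : ℕ) : ℕ := (sb 9 14 (sb 5 12 (sb 4 11 (sb 3 10 x))))
def pc12 (x : ℕ) : ℕ := (sb 11 12 (sb 7 8 (sb 4 5 (sb 0 1 x))))
def pc14 (x : ℕ) : ℕ := (sb 12 14 (sb 5 9 (sb 2 7 (sb 1 6 x))))
def pc15 (x : ℕ) : ℕ := (sb 8 14 (sb 5 13 (sb 2 11 (sb 1 10 x))))
def pc23 (x : ℕ) : ℕ := (sb 10 11 (sb 6 7 (sb 3 4 (sb 1 2 x))))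
def pc24 (x : ℕ) : ℕ := (sb 11 14 (sb 4 9 (sb 2 8 (sb 0 6 x))))
def pc25 (x : ℕ) : ℕ := (sb 7 14 (sb 4 13 (sb 2 12 (sb 0 10 x))))
def pc34 (x : ℕ) : ℕ := (sb 10 14 (sb 3 9 (sb 1 8 (sb 0 7 x))))
def pc35 (x : ℕ) : ℕ := (sb 6 14 (sb 3 13 (sb 1 12 (sb 0 11 x))))
def pc45 (x : ℕ) : ℕ := (sb 9 13 (sb 8 12 (sb 7 11 (sb 6 10 x))))

end

end Pool.Agent.T2H33.K5
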