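import Pool.Agent.T2H33.K5.Ker
import Pool.Agent.T2H33.K5.XT0
import Pool.Agent.T2H33.K5.XT1
import Pool.Agent.T2H33.K5.XT2
import Pool.Agent.T2H33.K5.XT3
import Pool.Agent.T2H33.K5.XT4

/-! The check of the pointwise inequality, for the links with given values on the triples of the first four
vertices. -/

set_option autoImplicit false
set_option maxRecDepth 100000

namespace Pool.Agent.T2H33.K5

noncomputable section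

def xba (e1 e2 w : ℕ) : ℕ := get XBaT (Nat.add e1 (Nat.add (Nat.mul 2 e2) (Nat.mul 4 w)))
def xbb (e1 e2 w : ℕ) : ℕ := get XBbT (Nat.add e1 (Nat.add (Nat.mul 2 e2) (Nat.mul 4 w)))
def xbc (e1 e2 w : ℕ) : ℕ := get XBcT (Nat.add e1 (Nat.add (Nat.mul 2 e2) (Nat.mul 4 w)))
def xcb (e1 e2 w2 w3 : ℕ) : ℕ := get XCbT (Nat.add e1 (Nat.add (Nat.mul 2 e2) (Nat.add (Nat.mul 4 w2) (Nat.mul 8 w3))))
def xcc (e1 e2 w2 w3 : ℕ) : ℕ := get XCcT (Nat.add e1 (Nat.add (Nat.mul 2 e2) (Nat.add (Nat.mul 4 w2) (Nat.mul 8 w3))))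
def xca (e1 l : ℕ) : ℕ := asm 25 2145 12 (fun i => Qf (Nat.add (Nat.mul 8 (Nat.add (bt 5 i) (bt 11 i))) (Nat.add (bt 0 i) (Nat.add (Nat.mul 2 (bt 6 i)) (Nat.mul 4 e1)))) l)

def ONE12 : ℕ := (d2 51200 (d2 25600 (d2 12800 (d2 6400 (d2 3200 (d2 1600 (d2 800 (d2 400 (d2 200 (d2 100 (d2 50 (d2 25 1))))))))))))
def FM3 : ℕ := (d2 51200 (d2 25600 (d2 12800 (d2 6400 (d2 3200 (d2 1600 (d2 800 (d2 400 (Nat.sub (Nat.pow 2 200) 1)))))))))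
def FM4 : ℕ := (d2 51200 (d2 25600 (d2 12800 (d2 6400 (d2 3200 (d2 1600 (d2 800 (Nat.sub (Nat.pow 2 400) 1))))))))
def FM5 : ℕ := (d2 51200 (d2 25600 (d2 12800 (d2 6400 (d2 3200 (d2 1600 (Nat.sub (Nat.pow 2 800) 1)))))))
def FM11 : ℕ := Nat.sub (Nat.pow 2 51200) 1
def fx3 (w x : ℕ) : ℕ := d2 200 (Nat.land (Nat.shiftRight x (Nat.mul 200 w)) FM3)
def fx4 (w x : ℕ) : ℕ := d2 400 (Nat.land (Nat.shiftRight x (Nat.mul 400 w)) FM4)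
def fx5 (w x : ℕ) : ℕ := d2 800 (Nat.land (Nat.shiftRight x (Nat.mul 800 w)) FM5)
def fx11 (w x : ℕ) : ℕ := d2 51200 (Nat.land (Nat.shiftRight x (Nat.mul 51200 w)) FM11)
def r3 (x : ℕ) : ℕ := d2 819200 (d2 409600 (d2 204800 x))
/-- blocks of the vectors of the frames -/
def Zb (m c : ℕ) : ℕ := Nat.add (X1c m c) (Nat.mul (X4 m c) ONE12)
def ZbY (m c : ℕ) : ℕ := Nat.add (Nat.add (X1c m c) (Yb m c)) (Nat.mul (X4 m c) ONE12)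
def sA (x : ℕ) : ℕ := swp 25 16 5 15 (swp 25 16 4 14 (swp 25 16 3 13 x))
def cw (w0 w1 w2 w3 : ℕ) : ℕ := Nat.add w0 (Nat.add (Nat.mul 2 w1) (Nat.add (Nat.mul 4 w2) (Nat.mul 8 w3)))
def XA (m : ℕ) : ℕ := asm 204800 7 3 (fun u => Nat.add (xbc (bt 2 m) (bt 3 m) (bt 0 u)) (Nat.add (xbb (bt 1 m) (bt 4 m) (bt 1 u)) (xba (bt 0 m) (bt 5 m) (bt 2 u))))
def XB (m w0 w1 w2 : ℕ) : ℕ := Nat.add (xbc (bt 2 m) (bt 3 m) w0) (Nat.add (xbb (bt 1 m) (bt 4 m) w1) (xba (bt 0 m) (bt 5 m) w2))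
def XC (m w0 w1 w2 w3 : ℕ) : ℕ := Nat.add (st (fun l => xca (bt 0 m) l) (Nat.add (Nat.mul 8 (Nat.add w2 w3)) (Nat.add w0 (Nat.add (Nat.mul 2 w1) (Nat.mul 4 (bt 5 m)))))) (Nat.add (xcb (bt 1 m) (bt 4 m) w2 w3) (xcc (bt 2 m) (bt 3 m) w2 w3))
/-- the vectors of the frames -/
def TA (m w0 w1 w2 w3 : ℕ) : ℕ := Nat.add (st (fun c => sA (r4 (ZbY m c))) (cw w0 w1 w2 w3)) (XA m)
def TAY (m w0 w1 w2 w3 : ℕ) : ℕ := st (fun c => sA (r4 (Yb m c))) (cw w0 w1 w2 w3)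
def TB (m w0 w1 w2 w3 : ℕ) : ℕ := Nat.add (asm 204800 7 3 (fun u => st (fun c => d2 102400 (fx5 w2 (fx4 w1 (fx3 w0 (Zb m c))))) (Nat.add u (Nat.mul 8 w3)))) (r3 (XB m w0 w1 w2))
def TBY (m w0 w1 w2 w3 : ℕ) : ℕ := Nat.add (asm 204800 7 3 (fun u => st (fun c => d2 102400 (fx5 w2 (fx4 w1 (fx3 w0 (ZbY m c))))) (Nat.add u (Nat.mul 8 w3)))) (r3 (XB m w0 w1 w2))
def TC (m w0 w1 w2 w3 : ℕ) : ℕ := Nat.add (asm 102400 15 4 (fun u => st (fun c => fx11 w1 (fx5 w0 (Zb m c))) u)) (r4 (XC m w0 w1 w2 w3))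
def rc15 (m w0 w1 w2 w3 : ℕ) : ℕ := TC m w0 w1 w2 w3
def rc14 (m w0 w1 w2 w3 : ℕ) : ℕ := Nat.add (TC m w0 w1 w2 w3) (swp 25 16 0 12 (swp 25 16 2 14 (swp 25 16 4 15 (swp 25 16 5 7 (swp 25 16 9 11 (st (fun m => rc15 m w0 w3 w2 w1) (pc25 m)))))))
def rc13 (m w0 w1 w2 w3 : ℕ) : ℕ := Nat.add (TC m w0 w1 w2 w3) (swp 25 16 0 13 (swp 25 16 1 14 (swp 25 16 3 15 (swp 25 16 5 8 (swp 25 16 10 11 (st (fun m => rc14 m w0 w2 w1 w3) (pc35 m)))))))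
def rc12 (m w0 w1 w2 w3 : ℕ) : ℕ := Nat.add (TC m w0 w1 w2 w3) (swp 25 16 1 5 (swp 25 16 3 11 (swp 25 16 6 12 (swp 25 16 8 14 (swp 25 16 10 15 (st (fun m => rc13 m w3 w1 w2 w0) (pc24 m)))))))
def rc11 (m w0 w1 w2 w3 : ℕ) : ℕ := Nat.add (TC m w0 w1 w2 w3) (swp 25 16 0 13 (swp 25 16 1 14 (swp 25 16 3 15 (swp 25 16 5 8 (swp 25 16 10 11 (st (fun m => rc12 m w0 w2 w1 w3) (pc35 m)))))))
def rc10 (m w0 w1 w2 w3 : ℕ) : ℕ := Nat.add (TC m w0 w1 w2 w3) (swp 25 16 2 5 (swp 25 16 4 11 (swp 25 16 6 13 (swp 25 16 7 14 (swp 25 16 9 15 (st (fun m => rc11 m w2 w1 w0 w3) (pc34 m)))))))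
def rc9 (m w0 w1 w2 w3 : ℕ) : ℕ := Nat.add (TB m w0 w1 w2 w3) (swp 25 16 0 3 (swp 25 16 3 5 (swp 25 16 4 12 (swp 25 16 7 13 (swp 25 16 8 14 (swp 25 16 11 12 (swp 25 16 12 13 (swp 25 16 13 14 (swp 25 16 14 15 (st (fun m => rc10 m w2 w3 w0 w1) (pc14 m)))))))))))
def rc8 (m w0 w1 w2 w3 : ℕ) : ℕ := Nat.add (TB m w0 w1 w2 w3) (swp 25 16 0 14 (swp 25 16 1 15 (swp 25 16 3 8 (swp 25 16 4 10 (swp 25 16 5 11 (st (fun m => rc9 m w3 w1 w2 w0) (pc35 m)))))))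
def rc7 (m w0 w1 w2 w3 : ℕ) : ℕ := Nat.add (TB m w0 w1 w2 w3) (swp 25 16 0 13 (swp 25 16 2 15 (swp 25 16 3 7 (swp 25 16 4 9 (swp 25 16 11 12 (st (fun m => rc8 m w0 w3 w2 w1) (pc25 m)))))))
def rc6 (m w0 w1 w2 w3 : ℕ) : ℕ := Nat.add (TB m w0 w1 w2 w3) (swp 25 16 1 13 (swp 25 16 2 14 (swp 25 16 3 6 (swp 25 16 5 9 (swp 25 16 10 12 (st (fun m => rc7 m w0 w1 w3 w2) (pc15 m)))))))
def rc5 (m w0 w1 w2 w3 : ℕ) : ℕ := Nat.add (TBY m w0 w1 w2 w3) (swp 25 16 0 4 (swp 25 16 1 5 (swp 25 16 2 12 (swp 25 16 9 13 (swp 25 16 10 14 (swp 25 16 11 15 (st (fun m => rc6 m w0 w1 w2 w3) (pc04 m))))))))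
def rc4 (m w0 w1 w2 w3 : ℕ) : ℕ := Nat.add (TBY m w0 w1 w2 w3) (swp 25 16 0 14 (swp 25 16 1 15 (swp 25 16 3 8 (swp 25 16 4 10 (swp 25 16 5 11 (st (fun m => rc5 m w3 w1 w2 w0) (pc35 m)))))))
def rc3 (m w0 w1 w2 w3 : ℕ) : ℕ := Nat.add (TBY m w0 w1 w2 w3) (swp 25 16 0 13 (swp 25 16 2 15 (swp 25 16 3 7 (swp 25 16 4 9 (swp 25 16 11 12 (st (fun m => rc4 m w0 w3 w2 w1) (pc25 m)))))))
def rc2 (m w0 w1 w2 w3 : ℕ) : ℕ := Nat.add (TBY m w0 w1 w2 w3) (swp 25 16 1 13 (swp 25 16 2 14 (swp 25 16 3 6 (swp 25 16 5 9 (swp 25 16 10 12 (st (fun m => rc3 m w0 w1 w3 w2) (pc15 m)))))))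
def rc1 (m w0 w1 w2 w3 : ℕ) : ℕ := Nat.add (TAY m w0 w1 w2 w3) (swp 25 16 4 6 (swp 25 16 5 7 (swp 25 16 8 12 (st (fun m => rc2 m w0 w1 w2 w3) (pc05 m)))))
def rc0 (m w0 w1 w2 w3 : ℕ) : ℕ := Nat.add (TA m w0 w1 w2 w3) (swp 25 16 0 6 (swp 25 16 1 7 (swp 25 16 2 8 (swp 25 16 9 13 (swp 25 16 10 14 (swp 25 16 11 15 (st (fun m => rc1 m w0 w1 w2 w3) (pc45 m))))))))
def CV : ℕ := (d2 819200 (d2 409600 (d2 204800 (d2 102400 (d2 51200 (d2 25600 (d2 12800 (d2 6400 (d2 3200 (d2 1600 (d2 800 (d2 400 (d2 200 (d2 100 (d2 50 (d2 25 13399575))))))))))))))))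
def TV : ℕ := (d2 819200 (d2 409600 (d2 204800 (d2 102400 (d2 51200 (d2 25600 (d2 12800 (d2 6400 (d2 3200 (d2 1600 (d2 800 (d2 400 (d2 200 (d2 100 (d2 50 (d2 25 16777216))))))))))))))))
/-- the check at the structure with the code `m` and the links with given values -/
def chk (m w0 w1 w2 w3 : ℕ) : Bool := Nat.beq (Nat.land (Nat.add (st (fun m => rc0 m w0 w1 w2 w3) m) CV) TV) 0

end

end Pool.Agent.T2H33.K5
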