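import Pool.Agent.T2H33.K5.Sym
import Pool.Agent.T2H33.K5.K00
import Pool.Agent.T2H33.K5.K01
import Pool.Agent.T2H33.K5.K02
import Pool.Agent.T2H33.K5.K03
import Pool.Agent.T2H33.K5.K04
import Pool.Agent.T2H33.K5.K05
import Pool.Agent.T2H33.K5.K06
import Pool.Agent.T2H33.K5.K07
import Pool.Agent.T2H33.K5.K08
import Pool.Agent.T2H33.K5.K09
import Pool.Agent.T2H33.K5.K10
import Pool.Agent.T2H33.K5.K11
import Pool.Agent.T2H33.K5.K12
import Pool.Agent.T2H33.K5.K13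
import Pool.Agent.T2H33.K5.K14
import Pool.Agent.T2H33.K5.K15

/-! All the structures on six vertices are equivalent to one of the representatives. -/

set_option autoImplicit false
set_option maxRecDepth 100000
set_option exponentiation.threshold 200000
set_option linter.unusedSimpArgs false
open Finset

namespace Pool.Agent.T2H33.K5

noncomputable section

variable {V : Type} {E : V → V → V → V → ℕ}

/-- the inequality for the structures with code `m` -/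
def Pm (E : V → V → V → V → ℕ) (m : ℕ) : Prop :=
  ∀ a b c d e f z, kk E a b c d e f = m → W0 E a b c d e f z ≤ 3377640

/-- the inequality for the structures with codes in `N` -/
def Good (E : V → V → V → V → ℕ) (N : ℕ) : Prop := N < 2 ^ 32768 ∧ ∀ m, N.testBit m = true → Pm E m

theorem Good.lor {N M : ℕ} (h : Good E N) (k : Good E M) : Good E (Nat.lor N M) := by
  refine ⟨Nat.or_lt_two_pow h.1 k.1, fun m hm => ?_⟩
  have hm' : (N ||| M).testBit m = true := hm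
  rw [Nat.testBit_or, Bool.or_eq_true] at hm'
  exact hm'.elim (h.2 m) (k.2 m)

/-- all the sixteen checks of a structure -/
def All (m : ℕ) : Prop := ∀ w0 < 2, ∀ w1 < 2, ∀ w2 < 2, ∀ w3 < 2, chk m w0 w1 w2 w3 = true

theorem all_of {m : ℕ} (h0 : chk m 0 0 0 0 = true) (h1 : chk m 1 0 0 0 = true) (h2 : chk m 0 1 0 0 = true)
    (h3 : chk m 1 1 0 0 = true) (h4 : chk m 0 0 1 0 = true) (h5 : chk m 1 0 1 0 = true) (h6 : chk m 0 1 1 0 = true)
    (h7 : chk m 1 1 1 0 = true) (h8 : chk m 0 0 0 1 = true) (h9 : chk m 1 0 0 1 = true) (h10 : chk m 0 1 0 1 = true)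
    (h11 : chk m 1 1 0 1 = true) (h12 : chk m 0 0 1 1 = true) (h13 : chk m 1 0 1 1 = true) (h14 : chk m 0 1 1 1 = true)
    (h15 : chk m 1 1 1 1 = true) : All m := by
  intro w0 k0 w1 k1 w2 k2 w3 k3
  obtain rfl | rfl : w0 = 0 ∨ w0 = 1 := by omega
  · obtain rfl | rfl : w1 = 0 ∨ w1 = 1 := by omega
    · obtain rfl | rfl : w2 = 0 ∨ w2 = 1 := by omega
      · obtain rfl | rfl : w3 = 0 ∨ w3 = 1 := by omega
        · exact h0
        · exact h8
      · obtain rfl | rfl : w3 = 0 ∨ w3 = 1 := by omega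
        · exact h4
        · exact h12
    · obtain rfl | rfl : w2 = 0 ∨ w2 = 1 := by omega
      · obtain rfl | rfl : w3 = 0 ∨ w3 = 1 := by omega
        · exact h2
        · exact h10
      · obtain rfl | rfl : w3 = 0 ∨ w3 = 1 := by omega
        · exact h6
        · exact h14
  · obtain rfl | rfl : w1 = 0 ∨ w1 = 1 := by omega
    · obtain rfl | rfl : w2 = 0 ∨ w2 = 1 := by omega
      · obtain rfl | rfl : w3 = 0 ∨ w3 = 1 := by omega
        · exact h1
        · exact h9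
      · obtain rfl | rfl : w3 = 0 ∨ w3 = 1 := by omega
        · exact h5
        · exact h13
    · obtain rfl | rfl : w2 = 0 ∨ w2 = 1 := by omega
      · obtain rfl | rfl : w3 = 0 ∨ w3 = 1 := by omega
        · exact h3
        · exact h11
      · obtain rfl | rfl : w3 = 0 ∨ w3 = 1 := by omega
        · exact h7
        · exact h15

theorem good_rep (hE : Sy E) {m : ℕ} (hm : m < 2 ^ 15) (h : All m) : Good E (Nat.pow 2 m) := by
  refine ⟨Nat.pow_lt_pow_right (by norm_num) (lt_of_lt_of_eq hm (by norm_num)), fun k hk => ?_⟩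
  have hk' : (2 ^ m).testBit k = true := hk
  rw [Nat.testBit_two_pow, decide_eq_true_eq] at hk'
  subst hk'
  intro a b c d e f z hc
  exact chk_le hE hm (hE.lt _ _ _ _) (hE.lt _ _ _ _) (hE.lt _ _ _ _) (hE.lt _ _ _ _)
    (h _ (hE.lt a b c z) _ (hE.lt a b d z) _ (hE.lt a c d z) _ (hE.lt b c d z)) hc rfl rfl rfl rfl

theorem swp_tb {N p q : ℕ} (hN : N < 2 ^ 32768) (hpq : p < q) (hq : q < 15) :
    swp 1 15 p q N < 2 ^ 32768 ∧ ∀ m, (swp 1 15 p q N).testBit m = true → m < 2 ^ 15 ∧ N.testBit (sb p q m) = true := by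
  have e : enc 1 15 (fld 1 N) = N := enc_fld (by norm_num) (lt_of_lt_of_eq hN (by norm_num))
  have h := swp_enc (s := 1) (n := 15) (by norm_num) hpq hq (f := fld 1 N) (fun i _ => fld_lt _ _ _)
  rw [e] at h
  rw [h]
  constructor
  · refine lt_of_lt_of_eq (enc_lt (s := 1) (n := 15) fun i _ => fld_lt _ _ _) (by norm_num)
  intro m hm
  rw [enc_testBit (by norm_num) (fun i _ => fld_lt _ _ _), Bool.and_eq_true, decide_eq_true_eq, Nat.div_one,
    Nat.mod_one, fld_testBit, Bool.and_eq_true, Nat.zero_add, Nat.one_mul] at hm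
  exact ⟨hm.1, hm.2.2⟩

/-- the codes after the exchange of the vertices 0 and 1 -/
def s01 (N : ℕ) : ℕ := (swp 1 15 1 3 (swp 1 15 2 4 (swp 1 15 8 9 (swp 1 15 12 13 N))))

theorem good_s01 (hE : Sy E) {N : ℕ} (h : Good E N) : Good E (s01 N) := by
  obtain ⟨h1, h2⟩ := h
  have k0 := swp_tb (p := 12) (q := 13) h1 (by norm_num) (by norm_num)
  have k1 := swp_tb (p := 8) (q := 9) k0.1 (by norm_num) (by norm_num)
  have k2 := swp_tb (p := 2) (q := 4) k1.1 (by norm_num) (by norm_num)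
  have k3 := swp_tb (p := 1) (q := 3) k2.1 (by norm_num) (by norm_num)
  refine ⟨k3.1, fun m hm => ?_⟩
  have m3 := (k3.2 _ hm).2
  have m2 := (k2.2 _ m3).2
  have m1 := (k1.2 _ m2).2
  have m0 := (k0.2 _ m1).2
  have hp := h2 _ m0
  intro a b c d e f z hk
  rw [← W0_ab hE]
  refine hp b a c d e f z ?_
  rw [← pc01_kk hE, hk]
  rfl

/-- the codes after the exchange of the vertices 1 and 2 -/
def s12 (N : ℕ) : ℕ := (swp 1 15 0 1 (swp 1 15 4 5 (swp 1 15 7 8 (swp 1 15 11 12 N))))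

theorem good_s12 (hE : Sy E) {N : ℕ} (h : Good E N) : Good E (s12 N) := by
  obtain ⟨h1, h2⟩ := h
  have k0 := swp_tb (p := 11) (q := 12) h1 (by norm_num) (by norm_num)
  have k1 := swp_tb (p := 7) (q := 8) k0.1 (by norm_num) (by norm_num)
  have k2 := swp_tb (p := 4) (q := 5) k1.1 (by norm_num) (by norm_num)
  have k3 := swp_tb (p := 0) (q := 1) k2.1 (by norm_num) (by norm_num)
  refine ⟨k3.1, fun m hm => ?_⟩
  have m3 := (k3.2 _ hm).2
  have m2 := (k2.2 _ m3).2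
  have m1 := (k1.2 _ m2).2
  have m0 := (k0.2 _ m1).2
  have hp := h2 _ m0
  intro a b c d e f z hk
  rw [← W0_bc hE]
  refine hp a c b d e f z ?_
  rw [← pc12_kk hE, hk]
  rfl

/-- the codes after the exchange of the vertices 2 and 3 -/
def s23 (N : ℕ) : ℕ := (swp 1 15 1 2 (swp 1 15 3 4 (swp 1 15 6 7 (swp 1 15 10 11 N))))

theorem good_s23 (hE : Sy E) {N : ℕ} (h : Good E N) : Good E (s23 N) := by
  obtain ⟨h1, h2⟩ := h
  have k0 := swp_tb (p := 10) (q := 11) h1 (by norm_num) (by norm_num)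
  have k1 := swp_tb (p := 6) (q := 7) k0.1 (by norm_num) (by norm_num)
  have k2 := swp_tb (p := 3) (q := 4) k1.1 (by norm_num) (by norm_num)
  have k3 := swp_tb (p := 1) (q := 2) k2.1 (by norm_num) (by norm_num)
  refine ⟨k3.1, fun m hm => ?_⟩
  have m3 := (k3.2 _ hm).2
  have m2 := (k2.2 _ m3).2
  have m1 := (k1.2 _ m2).2
  have m0 := (k0.2 _ m1).2
  have hp := h2 _ m0
  intro a b c d e f z hk
  rw [← W0_cd hE]
  refine hp a b d c e f z ?_
  rw [← pc23_kk hE, hk]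
  rfl

/-- the codes after the exchange of the vertices 3 and 4 -/
def s34 (N : ℕ) : ℕ := (swp 1 15 0 7 (swp 1 15 1 8 (swp 1 15 3 9 (swp 1 15 10 14 N))))

theorem good_s34 (hE : Sy E) {N : ℕ} (h : Good E N) : Good E (s34 N) := by
  obtain ⟨h1, h2⟩ := h
  have k0 := swp_tb (p := 10) (q := 14) h1 (by norm_num) (by norm_num)
  have k1 := swp_tb (p := 3) (q := 9) k0.1 (by norm_num) (by norm_num)
  have k2 := swp_tb (p := 1) (q := 8) k1.1 (by norm_num) (by norm_num)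
  have k3 := swp_tb (p := 0) (q := 7) k2.1 (by norm_num) (by norm_num)
  refine ⟨k3.1, fun m hm => ?_⟩
  have m3 := (k3.2 _ hm).2
  have m2 := (k2.2 _ m3).2
  have m1 := (k1.2 _ m2).2
  have m0 := (k0.2 _ m1).2
  have hp := h2 _ m0
  intro a b c d e f z hk
  rw [← W0_de hE]
  refine hp a b c e d f z ?_
  rw [← pc34_kk hE, hk]
  rfl

/-- the codes after the exchange of the vertices 4 and 5 -/
def s45 (N : ℕ) : ℕ := (swp 1 15 6 10 (swp 1 15 7 11 (swp 1 15 8 12 (swp 1 15 9 13 N))))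

theorem good_s45 (hE : Sy E) {N : ℕ} (h : Good E N) : Good E (s45 N) := by
  obtain ⟨h1, h2⟩ := h
  have k0 := swp_tb (p := 9) (q := 13) h1 (by norm_num) (by norm_num)
  have k1 := swp_tb (p := 8) (q := 12) k0.1 (by norm_num) (by norm_num)
  have k2 := swp_tb (p := 7) (q := 11) k1.1 (by norm_num) (by norm_num)
  have k3 := swp_tb (p := 6) (q := 10) k2.1 (by norm_num) (by norm_num)
  refine ⟨k3.1, fun m hm => ?_⟩
  have m3 := (k3.2 _ hm).2
  have m2 := (k2.2 _ m3).2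
  have m1 := (k1.2 _ m2).2
  have m0 := (k0.2 _ m1).2
  have hp := h2 _ m0
  intro a b c d e f z hk
  rw [← W0_ef hE]
  refine hp a b c d f e z ?_
  rw [← pc45_kk hE, hk]
  rfl

/-- one round -/
def RD (N : ℕ) : ℕ := st (fun N => Nat.lor N (Nat.lor (s01 N) (Nat.lor (s12 N) (Nat.lor (s23 N) (Nat.lor (s34 N) (s45 N)))))) N

theorem good_RD (hE : Sy E) {N : ℕ} (h : Good E N) : Good E (RD N) := by
  unfold RD
  rw [st_eq]
  exact h.lor ((good_s01 hE h).lor ((good_s12 hE h).lor ((good_s23 hE h).lor ((good_s34 hE h).lor (good_s45 hE h)))))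

theorem a0 : All 0 := all_of c0_0 c0_1 c0_2 c0_3 c0_4 c0_5 c0_6 c0_7 c0_8 c0_9 c0_10 c0_11 c0_12 c0_13 c0_14 c0_15
theorem a1 : All 1 := all_of c1_0 c1_1 c1_2 c1_3 c1_4 c1_5 c1_6 c1_7 c1_8 c1_9 c1_10 c1_11 c1_12 c1_13 c1_14 c1_15
theorem a3 : All 3 := all_of c3_0 c3_1 c3_2 c3_3 c3_4 c3_5 c3_6 c3_7 c3_8 c3_9 c3_10 c3_11 c3_12 c3_13 c3_14 c3_15
theorem a7 : All 7 := all_of c7_0 c7_1 c7_2 c7_3 c7_4 c7_5 c7_6 c7_7 c7_8 c7_9 c7_10 c7_11 c7_12 c7_13 c7_14 c7_15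
theorem a11 : All 11 := all_of c11_0 c11_1 c11_2 c11_3 c11_4 c11_5 c11_6 c11_7 c11_8 c11_9 c11_10 c11_11 c11_12 c11_13 c11_14 c11_15
theorem a12 : All 12 := all_of c12_0 c12_1 c12_2 c12_3 c12_4 c12_5 c12_6 c12_7 c12_8 c12_9 c12_10 c12_11 c12_12 c12_13 c12_14 c12_15
theorem a13 : All 13 := all_of c13_0 c13_1 c13_2 c13_3 c13_4 c13_5 c13_6 c13_7 c13_8 c13_9 c13_10 c13_11 c13_12 c13_13 c13_14 c13_15
theorem a15 : All 15 := all_of c15_0 c15_1 c15_2 c15_3 c15_4 c15_5 c15_6 c15_7 c15_8 c15_9 c15_10 c15_11 c15_12 c15_13 c15_14 c15_15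
theorem a30 : All 30 := all_of c30_0 c30_1 c30_2 c30_3 c30_4 c30_5 c30_6 c30_7 c30_8 c30_9 c30_10 c30_11 c30_12 c30_13 c30_14 c30_15
theorem a31 : All 31 := all_of c31_0 c31_1 c31_2 c31_3 c31_4 c31_5 c31_6 c31_7 c31_8 c31_9 c31_10 c31_11 c31_12 c31_13 c31_14 c31_15
theorem a63 : All 63 := all_of c63_0 c63_1 c63_2 c63_3 c63_4 c63_5 c63_6 c63_7 c63_8 c63_9 c63_10 c63_11 c63_12 c63_13 c63_14 c63_15
theorem a75 : All 75 := all_of c75_0 c75_1 c75_2 c75_3 c75_4 c75_5 c75_6 c75_7 c75_8 c75_9 c75_10 c75_11 c75_12 c75_13 c75_14 c75_15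
theorem a76 : All 76 := all_of c76_0 c76_1 c76_2 c76_3 c76_4 c76_5 c76_6 c76_7 c76_8 c76_9 c76_10 c76_11 c76_12 c76_13 c76_14 c76_15
theorem a77 : All 77 := all_of c77_0 c77_1 c77_2 c77_3 c77_4 c77_5 c77_6 c77_7 c77_8 c77_9 c77_10 c77_11 c77_12 c77_13 c77_14 c77_15
theorem a79 : All 79 := all_of c79_0 c79_1 c79_2 c79_3 c79_4 c79_5 c79_6 c79_7 c79_8 c79_9 c79_10 c79_11 c79_12 c79_13 c79_14 c79_15
theorem a86 : All 86 := all_of c86_0 c86_1 c86_2 c86_3 c86_4 c86_5 c86_6 c86_7 c86_8 c86_9 c86_10 c86_11 c86_12 c86_13 c86_14 c86_15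
theorem a87 : All 87 := all_of c87_0 c87_1 c87_2 c87_3 c87_4 c87_5 c87_6 c87_7 c87_8 c87_9 c87_10 c87_11 c87_12 c87_13 c87_14 c87_15
theorem a94 : All 94 := all_of c94_0 c94_1 c94_2 c94_3 c94_4 c94_5 c94_6 c94_7 c94_8 c94_9 c94_10 c94_11 c94_12 c94_13 c94_14 c94_15
theorem a95 : All 95 := all_of c95_0 c95_1 c95_2 c95_3 c95_4 c95_5 c95_6 c95_7 c95_8 c95_9 c95_10 c95_11 c95_12 c95_13 c95_14 c95_15
theorem a116 : All 116 := all_of c116_0 c116_1 c116_2 c116_3 c116_4 c116_5 c116_6 c116_7 c116_8 c116_9 c116_10 c116_11 c116_12 c116_13 c116_14 c116_15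
theorem a117 : All 117 := all_of c117_0 c117_1 c117_2 c117_3 c117_4 c117_5 c117_6 c117_7 c117_8 c117_9 c117_10 c117_11 c117_12 c117_13 c117_14 c117_15
theorem a119 : All 119 := all_of c119_0 c119_1 c119_2 c119_3 c119_4 c119_5 c119_6 c119_7 c119_8 c119_9 c119_10 c119_11 c119_12 c119_13 c119_14 c119_15
theorem a127 : All 127 := all_of c127_0 c127_1 c127_2 c127_3 c127_4 c127_5 c127_6 c127_7 c127_8 c127_9 c127_10 c127_11 c127_12 c127_13 c127_14 c127_15
theorem a222 : All 222 := all_of c222_0 c222_1 c222_2 c222_3 c222_4 c222_5 c222_6 c222_7 c222_8 c222_9 c222_10 c222_11 c222_12 c222_13 c222_14 c222_15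
theorem a223 : All 223 := all_of c223_0 c223_1 c223_2 c223_3 c223_4 c223_5 c223_6 c223_7 c223_8 c223_9 c223_10 c223_11 c223_12 c223_13 c223_14 c223_15
theorem a235 : All 235 := all_of c235_0 c235_1 c235_2 c235_3 c235_4 c235_5 c235_6 c235_7 c235_8 c235_9 c235_10 c235_11 c235_12 c235_13 c235_14 c235_15
theorem a236 : All 236 := all_of c236_0 c236_1 c236_2 c236_3 c236_4 c236_5 c236_6 c236_7 c236_8 c236_9 c236_10 c236_11 c236_12 c236_13 c236_14 c236_15
theorem a237 : All 237 := all_of c237_0 c237_1 c237_2 c237_3 c237_4 c237_5 c237_6 c237_7 c237_8 c237_9 c237_10 c237_11 c237_12 c237_13 c237_14 c237_15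
theorem a239 : All 239 := all_of c239_0 c239_1 c239_2 c239_3 c239_4 c239_5 c239_6 c239_7 c239_8 c239_9 c239_10 c239_11 c239_12 c239_13 c239_14 c239_15
theorem a254 : All 254 := all_of c254_0 c254_1 c254_2 c254_3 c254_4 c254_5 c254_6 c254_7 c254_8 c254_9 c254_10 c254_11 c254_12 c254_13 c254_14 c254_15
theorem a255 : All 255 := all_of c255_0 c255_1 c255_2 c255_3 c255_4 c255_5 c255_6 c255_7 c255_8 c255_9 c255_10 c255_11 c255_12 c255_13 c255_14 c255_15
theorem a507 : All 507 := all_of c507_0 c507_1 c507_2 c507_3 c507_4 c507_5 c507_6 c507_7 c507_8 c507_9 c507_10 c507_11 c507_12 c507_13 c507_14 c507_15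
theorem a511 : All 511 := all_of c511_0 c511_1 c511_2 c511_3 c511_4 c511_5 c511_6 c511_7 c511_8 c511_9 c511_10 c511_11 c511_12 c511_13 c511_14 c511_15
theorem a1023 : All 1023 := all_of c1023_0 c1023_1 c1023_2 c1023_3 c1023_4 c1023_5 c1023_6 c1023_7 c1023_8 c1023_9 c1023_10 c1023_11 c1023_12 c1023_13 c1023_14 c1023_15
theorem a1100 : All 1100 := all_of c1100_0 c1100_1 c1100_2 c1100_3 c1100_4 c1100_5 c1100_6 c1100_7 c1100_8 c1100_9 c1100_10 c1100_11 c1100_12 c1100_13 c1100_14 c1100_15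
theorem a1101 : All 1101 := all_of c1101_0 c1101_1 c1101_2 c1101_3 c1101_4 c1101_5 c1101_6 c1101_7 c1101_8 c1101_9 c1101_10 c1101_11 c1101_12 c1101_13 c1101_14 c1101_15
theorem a1108 : All 1108 := all_of c1108_0 c1108_1 c1108_2 c1108_3 c1108_4 c1108_5 c1108_6 c1108_7 c1108_8 c1108_9 c1108_10 c1108_11 c1108_12 c1108_13 c1108_14 c1108_15
theorem a1109 : All 1109 := all_of c1109_0 c1109_1 c1109_2 c1109_3 c1109_4 c1109_5 c1109_6 c1109_7 c1109_8 c1109_9 c1109_10 c1109_11 c1109_12 c1109_13 c1109_14 c1109_15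
theorem a1110 : All 1110 := all_of c1110_0 c1110_1 c1110_2 c1110_3 c1110_4 c1110_5 c1110_6 c1110_7 c1110_8 c1110_9 c1110_10 c1110_11 c1110_12 c1110_13 c1110_14 c1110_15
theorem a1111 : All 1111 := all_of c1111_0 c1111_1 c1111_2 c1111_3 c1111_4 c1111_5 c1111_6 c1111_7 c1111_8 c1111_9 c1111_10 c1111_11 c1111_12 c1111_13 c1111_14 c1111_15
theorem a1118 : All 1118 := all_of c1118_0 c1118_1 c1118_2 c1118_3 c1118_4 c1118_5 c1118_6 c1118_7 c1118_8 c1118_9 c1118_10 c1118_11 c1118_12 c1118_13 c1118_14 c1118_15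
theorem a1140 : All 1140 := all_of c1140_0 c1140_1 c1140_2 c1140_3 c1140_4 c1140_5 c1140_6 c1140_7 c1140_8 c1140_9 c1140_10 c1140_11 c1140_12 c1140_13 c1140_14 c1140_15
theorem a1141 : All 1141 := all_of c1141_0 c1141_1 c1141_2 c1141_3 c1141_4 c1141_5 c1141_6 c1141_7 c1141_8 c1141_9 c1141_10 c1141_11 c1141_12 c1141_13 c1141_14 c1141_15
theorem a1143 : All 1143 := all_of c1143_0 c1143_1 c1143_2 c1143_3 c1143_4 c1143_5 c1143_6 c1143_7 c1143_8 c1143_9 c1143_10 c1143_11 c1143_12 c1143_13 c1143_14 c1143_15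
theorem a1182 : All 1182 := all_of c1182_0 c1182_1 c1182_2 c1182_3 c1182_4 c1182_5 c1182_6 c1182_7 c1182_8 c1182_9 c1182_10 c1182_11 c1182_12 c1182_13 c1182_14 c1182_15
theorem a1183 : All 1183 := all_of c1183_0 c1183_1 c1183_2 c1183_3 c1183_4 c1183_5 c1183_6 c1183_7 c1183_8 c1183_9 c1183_10 c1183_11 c1183_12 c1183_13 c1183_14 c1183_15
theorem a1184 : All 1184 := all_of c1184_0 c1184_1 c1184_2 c1184_3 c1184_4 c1184_5 c1184_6 c1184_7 c1184_8 c1184_9 c1184_10 c1184_11 c1184_12 c1184_13 c1184_14 c1184_15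
theorem a1185 : All 1185 := all_of c1185_0 c1185_1 c1185_2 c1185_3 c1185_4 c1185_5 c1185_6 c1185_7 c1185_8 c1185_9 c1185_10 c1185_11 c1185_12 c1185_13 c1185_14 c1185_15
theorem a1187 : All 1187 := all_of c1187_0 c1187_1 c1187_2 c1187_3 c1187_4 c1187_5 c1187_6 c1187_7 c1187_8 c1187_9 c1187_10 c1187_11 c1187_12 c1187_13 c1187_14 c1187_15
theorem a1191 : All 1191 := all_of c1191_0 c1191_1 c1191_2 c1191_3 c1191_4 c1191_5 c1191_6 c1191_7 c1191_8 c1191_9 c1191_10 c1191_11 c1191_12 c1191_13 c1191_14 c1191_15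
theorem a1194 : All 1194 := all_of c1194_0 c1194_1 c1194_2 c1194_3 c1194_4 c1194_5 c1194_6 c1194_7 c1194_8 c1194_9 c1194_10 c1194_11 c1194_12 c1194_13 c1194_14 c1194_15
theorem a1195 : All 1195 := all_of c1195_0 c1195_1 c1195_2 c1195_3 c1195_4 c1195_5 c1195_6 c1195_7 c1195_8 c1195_9 c1195_10 c1195_11 c1195_12 c1195_13 c1195_14 c1195_15
theorem a1196 : All 1196 := all_of c1196_0 c1196_1 c1196_2 c1196_3 c1196_4 c1196_5 c1196_6 c1196_7 c1196_8 c1196_9 c1196_10 c1196_11 c1196_12 c1196_13 c1196_14 c1196_15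
theorem a1197 : All 1197 := all_of c1197_0 c1197_1 c1197_2 c1197_3 c1197_4 c1197_5 c1197_6 c1197_7 c1197_8 c1197_9 c1197_10 c1197_11 c1197_12 c1197_13 c1197_14 c1197_15
theorem a1198 : All 1198 := all_of c1198_0 c1198_1 c1198_2 c1198_3 c1198_4 c1198_5 c1198_6 c1198_7 c1198_8 c1198_9 c1198_10 c1198_11 c1198_12 c1198_13 c1198_14 c1198_15
theorem a1199 : All 1199 := all_of c1199_0 c1199_1 c1199_2 c1199_3 c1199_4 c1199_5 c1199_6 c1199_7 c1199_8 c1199_9 c1199_10 c1199_11 c1199_12 c1199_13 c1199_14 c1199_15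
theorem a1214 : All 1214 := all_of c1214_0 c1214_1 c1214_2 c1214_3 c1214_4 c1214_5 c1214_6 c1214_7 c1214_8 c1214_9 c1214_10 c1214_11 c1214_12 c1214_13 c1214_14 c1214_15
theorem a1215 : All 1215 := all_of c1215_0 c1215_1 c1215_2 c1215_3 c1215_4 c1215_5 c1215_6 c1215_7 c1215_8 c1215_9 c1215_10 c1215_11 c1215_12 c1215_13 c1215_14 c1215_15
theorem a1246 : All 1246 := all_of c1246_0 c1246_1 c1246_2 c1246_3 c1246_4 c1246_5 c1246_6 c1246_7 c1246_8 c1246_9 c1246_10 c1246_11 c1246_12 c1246_13 c1246_14 c1246_15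
theorem a1260 : All 1260 := all_of c1260_0 c1260_1 c1260_2 c1260_3 c1260_4 c1260_5 c1260_6 c1260_7 c1260_8 c1260_9 c1260_10 c1260_11 c1260_12 c1260_13 c1260_14 c1260_15
theorem a1261 : All 1261 := all_of c1261_0 c1261_1 c1261_2 c1261_3 c1261_4 c1261_5 c1261_6 c1261_7 c1261_8 c1261_9 c1261_10 c1261_11 c1261_12 c1261_13 c1261_14 c1261_15
theorem a1268 : All 1268 := all_of c1268_0 c1268_1 c1268_2 c1268_3 c1268_4 c1268_5 c1268_6 c1268_7 c1268_8 c1268_9 c1268_10 c1268_11 c1268_12 c1268_13 c1268_14 c1268_15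
theorem a1269 : All 1269 := all_of c1269_0 c1269_1 c1269_2 c1269_3 c1269_4 c1269_5 c1269_6 c1269_7 c1269_8 c1269_9 c1269_10 c1269_11 c1269_12 c1269_13 c1269_14 c1269_15
theorem a1270 : All 1270 := all_of c1270_0 c1270_1 c1270_2 c1270_3 c1270_4 c1270_5 c1270_6 c1270_7 c1270_8 c1270_9 c1270_10 c1270_11 c1270_12 c1270_13 c1270_14 c1270_15
theorem a1271 : All 1271 := all_of c1271_0 c1271_1 c1271_2 c1271_3 c1271_4 c1271_5 c1271_6 c1271_7 c1271_8 c1271_9 c1271_10 c1271_11 c1271_12 c1271_13 c1271_14 c1271_15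
theorem a1278 : All 1278 := all_of c1278_0 c1278_1 c1278_2 c1278_3 c1278_4 c1278_5 c1278_6 c1278_7 c1278_8 c1278_9 c1278_10 c1278_11 c1278_12 c1278_13 c1278_14 c1278_15
theorem a1456 : All 1456 := all_of c1456_0 c1456_1 c1456_2 c1456_3 c1456_4 c1456_5 c1456_6 c1456_7 c1456_8 c1456_9 c1456_10 c1456_11 c1456_12 c1456_13 c1456_14 c1456_15
theorem a1457 : All 1457 := all_of c1457_0 c1457_1 c1457_2 c1457_3 c1457_4 c1457_5 c1457_6 c1457_7 c1457_8 c1457_9 c1457_10 c1457_11 c1457_12 c1457_13 c1457_14 c1457_15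
theorem a1459 : All 1459 := all_of c1459_0 c1459_1 c1459_2 c1459_3 c1459_4 c1459_5 c1459_6 c1459_7 c1459_8 c1459_9 c1459_10 c1459_11 c1459_12 c1459_13 c1459_14 c1459_15
theorem a1460 : All 1460 := all_of c1460_0 c1460_1 c1460_2 c1460_3 c1460_4 c1460_5 c1460_6 c1460_7 c1460_8 c1460_9 c1460_10 c1460_11 c1460_12 c1460_13 c1460_14 c1460_15
theorem a1461 : All 1461 := all_of c1461_0 c1461_1 c1461_2 c1461_3 c1461_4 c1461_5 c1461_6 c1461_7 c1461_8 c1461_9 c1461_10 c1461_11 c1461_12 c1461_13 c1461_14 c1461_15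
theorem a1463 : All 1463 := all_of c1463_0 c1463_1 c1463_2 c1463_3 c1463_4 c1463_5 c1463_6 c1463_7 c1463_8 c1463_9 c1463_10 c1463_11 c1463_12 c1463_13 c1463_14 c1463_15
theorem a1465 : All 1465 := all_of c1465_0 c1465_1 c1465_2 c1465_3 c1465_4 c1465_5 c1465_6 c1465_7 c1465_8 c1465_9 c1465_10 c1465_11 c1465_12 c1465_13 c1465_14 c1465_15
theorem a1467 : All 1467 := all_of c1467_0 c1467_1 c1467_2 c1467_3 c1467_4 c1467_5 c1467_6 c1467_7 c1467_8 c1467_9 c1467_10 c1467_11 c1467_12 c1467_13 c1467_14 c1467_15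
theorem a1468 : All 1468 := all_of c1468_0 c1468_1 c1468_2 c1468_3 c1468_4 c1468_5 c1468_6 c1468_7 c1468_8 c1468_9 c1468_10 c1468_11 c1468_12 c1468_13 c1468_14 c1468_15
theorem a1469 : All 1469 := all_of c1469_0 c1469_1 c1469_2 c1469_3 c1469_4 c1469_5 c1469_6 c1469_7 c1469_8 c1469_9 c1469_10 c1469_11 c1469_12 c1469_13 c1469_14 c1469_15
theorem a1471 : All 1471 := all_of c1471_0 c1471_1 c1471_2 c1471_3 c1471_4 c1471_5 c1471_6 c1471_7 c1471_8 c1471_9 c1471_10 c1471_11 c1471_12 c1471_13 c1471_14 c1471_15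
theorem a1532 : All 1532 := all_of c1532_0 c1532_1 c1532_2 c1532_3 c1532_4 c1532_5 c1532_6 c1532_7 c1532_8 c1532_9 c1532_10 c1532_11 c1532_12 c1532_13 c1532_14 c1532_15
theorem a1533 : All 1533 := all_of c1533_0 c1533_1 c1533_2 c1533_3 c1533_4 c1533_5 c1533_6 c1533_7 c1533_8 c1533_9 c1533_10 c1533_11 c1533_12 c1533_13 c1533_14 c1533_15
theorem a1972 : All 1972 := all_of c1972_0 c1972_1 c1972_2 c1972_3 c1972_4 c1972_5 c1972_6 c1972_7 c1972_8 c1972_9 c1972_10 c1972_11 c1972_12 c1972_13 c1972_14 c1972_15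
theorem a1973 : All 1973 := all_of c1973_0 c1973_1 c1973_2 c1973_3 c1973_4 c1973_5 c1973_6 c1973_7 c1973_8 c1973_9 c1973_10 c1973_11 c1973_12 c1973_13 c1973_14 c1973_15
theorem a1975 : All 1975 := all_of c1975_0 c1975_1 c1975_2 c1975_3 c1975_4 c1975_5 c1975_6 c1975_7 c1975_8 c1975_9 c1975_10 c1975_11 c1975_12 c1975_13 c1975_14 c1975_15
theorem a1983 : All 1983 := all_of c1983_0 c1983_1 c1983_2 c1983_3 c1983_4 c1983_5 c1983_6 c1983_7 c1983_8 c1983_9 c1983_10 c1983_11 c1983_12 c1983_13 c1983_14 c1983_15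
theorem a3294 : All 3294 := all_of c3294_0 c3294_1 c3294_2 c3294_3 c3294_4 c3294_5 c3294_6 c3294_7 c3294_8 c3294_9 c3294_10 c3294_11 c3294_12 c3294_13 c3294_14 c3294_15
theorem a3306 : All 3306 := all_of c3306_0 c3306_1 c3306_2 c3306_3 c3306_4 c3306_5 c3306_6 c3306_7 c3306_8 c3306_9 c3306_10 c3306_11 c3306_12 c3306_13 c3306_14 c3306_15
theorem a3308 : All 3308 := all_of c3308_0 c3308_1 c3308_2 c3308_3 c3308_4 c3308_5 c3308_6 c3308_7 c3308_8 c3308_9 c3308_10 c3308_11 c3308_12 c3308_13 c3308_14 c3308_15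
theorem a3309 : All 3309 := all_of c3309_0 c3309_1 c3309_2 c3309_3 c3309_4 c3309_5 c3309_6 c3309_7 c3309_8 c3309_9 c3309_10 c3309_11 c3309_12 c3309_13 c3309_14 c3309_15
theorem a3310 : All 3310 := all_of c3310_0 c3310_1 c3310_2 c3310_3 c3310_4 c3310_5 c3310_6 c3310_7 c3310_8 c3310_9 c3310_10 c3310_11 c3310_12 c3310_13 c3310_14 c3310_15
theorem a3326 : All 3326 := all_of c3326_0 c3326_1 c3326_2 c3326_3 c3326_4 c3326_5 c3326_6 c3326_7 c3326_8 c3326_9 c3326_10 c3326_11 c3326_12 c3326_13 c3326_14 c3326_15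
theorem a3440 : All 3440 := all_of c3440_0 c3440_1 c3440_2 c3440_3 c3440_4 c3440_5 c3440_6 c3440_7 c3440_8 c3440_9 c3440_10 c3440_11 c3440_12 c3440_13 c3440_14 c3440_15
theorem a3441 : All 3441 := all_of c3441_0 c3441_1 c3441_2 c3441_3 c3441_4 c3441_5 c3441_6 c3441_7 c3441_8 c3441_9 c3441_10 c3441_11 c3441_12 c3441_13 c3441_14 c3441_15
theorem a3443 : All 3443 := all_of c3443_0 c3443_1 c3443_2 c3443_3 c3443_4 c3443_5 c3443_6 c3443_7 c3443_8 c3443_9 c3443_10 c3443_11 c3443_12 c3443_13 c3443_14 c3443_15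
theorem a3447 : All 3447 := all_of c3447_0 c3447_1 c3447_2 c3447_3 c3447_4 c3447_5 c3447_6 c3447_7 c3447_8 c3447_9 c3447_10 c3447_11 c3447_12 c3447_13 c3447_14 c3447_15
theorem a3448 : All 3448 := all_of c3448_0 c3448_1 c3448_2 c3448_3 c3448_4 c3448_5 c3448_6 c3448_7 c3448_8 c3448_9 c3448_10 c3448_11 c3448_12 c3448_13 c3448_14 c3448_15
theorem a3449 : All 3449 := all_of c3449_0 c3449_1 c3449_2 c3449_3 c3449_4 c3449_5 c3449_6 c3449_7 c3449_8 c3449_9 c3449_10 c3449_11 c3449_12 c3449_13 c3449_14 c3449_15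
theorem a3452 : All 3452 := all_of c3452_0 c3452_1 c3452_2 c3452_3 c3452_4 c3452_5 c3452_6 c3452_7 c3452_8 c3452_9 c3452_10 c3452_11 c3452_12 c3452_13 c3452_14 c3452_15
theorem a3453 : All 3453 := all_of c3453_0 c3453_1 c3453_2 c3453_3 c3453_4 c3453_5 c3453_6 c3453_7 c3453_8 c3453_9 c3453_10 c3453_11 c3453_12 c3453_13 c3453_14 c3453_15
theorem a3576 : All 3576 := all_of c3576_0 c3576_1 c3576_2 c3576_3 c3576_4 c3576_5 c3576_6 c3576_7 c3576_8 c3576_9 c3576_10 c3576_11 c3576_12 c3576_13 c3576_14 c3576_15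
theorem a3577 : All 3577 := all_of c3577_0 c3577_1 c3577_2 c3577_3 c3577_4 c3577_5 c3577_6 c3577_7 c3577_8 c3577_9 c3577_10 c3577_11 c3577_12 c3577_13 c3577_14 c3577_15
theorem a3578 : All 3578 := all_of c3578_0 c3578_1 c3578_2 c3578_3 c3578_4 c3578_5 c3578_6 c3578_7 c3578_8 c3578_9 c3578_10 c3578_11 c3578_12 c3578_13 c3578_14 c3578_15
theorem a3582 : All 3582 := all_of c3582_0 c3582_1 c3582_2 c3582_3 c3582_4 c3582_5 c3582_6 c3582_7 c3582_8 c3582_9 c3582_10 c3582_11 c3582_12 c3582_13 c3582_14 c3582_15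
theorem a3873 : All 3873 := all_of c3873_0 c3873_1 c3873_2 c3873_3 c3873_4 c3873_5 c3873_6 c3873_7 c3873_8 c3873_9 c3873_10 c3873_11 c3873_12 c3873_13 c3873_14 c3873_15
theorem a3875 : All 3875 := all_of c3875_0 c3875_1 c3875_2 c3875_3 c3875_4 c3875_5 c3875_6 c3875_7 c3875_8 c3875_9 c3875_10 c3875_11 c3875_12 c3875_13 c3875_14 c3875_15
theorem a3879 : All 3879 := all_of c3879_0 c3879_1 c3879_2 c3879_3 c3879_4 c3879_5 c3879_6 c3879_7 c3879_8 c3879_9 c3879_10 c3879_11 c3879_12 c3879_13 c3879_14 c3879_15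
theorem a3885 : All 3885 := all_of c3885_0 c3885_1 c3885_2 c3885_3 c3885_4 c3885_5 c3885_6 c3885_7 c3885_8 c3885_9 c3885_10 c3885_11 c3885_12 c3885_13 c3885_14 c3885_15
theorem a3887 : All 3887 := all_of c3887_0 c3887_1 c3887_2 c3887_3 c3887_4 c3887_5 c3887_6 c3887_7 c3887_8 c3887_9 c3887_10 c3887_11 c3887_12 c3887_13 c3887_14 c3887_15
theorem a3903 : All 3903 := all_of c3903_0 c3903_1 c3903_2 c3903_3 c3903_4 c3903_5 c3903_6 c3903_7 c3903_8 c3903_9 c3903_10 c3903_11 c3903_12 c3903_13 c3903_14 c3903_15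
theorem a3948 : All 3948 := all_of c3948_0 c3948_1 c3948_2 c3948_3 c3948_4 c3948_5 c3948_6 c3948_7 c3948_8 c3948_9 c3948_10 c3948_11 c3948_12 c3948_13 c3948_14 c3948_15
theorem a3949 : All 3949 := all_of c3949_0 c3949_1 c3949_2 c3949_3 c3949_4 c3949_5 c3949_6 c3949_7 c3949_8 c3949_9 c3949_10 c3949_11 c3949_12 c3949_13 c3949_14 c3949_15
theorem a3950 : All 3950 := all_of c3950_0 c3950_1 c3950_2 c3950_3 c3950_4 c3950_5 c3950_6 c3950_7 c3950_8 c3950_9 c3950_10 c3950_11 c3950_12 c3950_13 c3950_14 c3950_15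
theorem a3958 : All 3958 := all_of c3958_0 c3958_1 c3958_2 c3958_3 c3958_4 c3958_5 c3958_6 c3958_7 c3958_8 c3958_9 c3958_10 c3958_11 c3958_12 c3958_13 c3958_14 c3958_15
theorem a3959 : All 3959 := all_of c3959_0 c3959_1 c3959_2 c3959_3 c3959_4 c3959_5 c3959_6 c3959_7 c3959_8 c3959_9 c3959_10 c3959_11 c3959_12 c3959_13 c3959_14 c3959_15
theorem a3966 : All 3966 := all_of c3966_0 c3966_1 c3966_2 c3966_3 c3966_4 c3966_5 c3966_6 c3966_7 c3966_8 c3966_9 c3966_10 c3966_11 c3966_12 c3966_13 c3966_14 c3966_15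
theorem a4094 : All 4094 := all_of c4094_0 c4094_1 c4094_2 c4094_3 c4094_4 c4094_5 c4094_6 c4094_7 c4094_8 c4094_9 c4094_10 c4094_11 c4094_12 c4094_13 c4094_14 c4094_15
theorem a7672 : All 7672 := all_of c7672_0 c7672_1 c7672_2 c7672_3 c7672_4 c7672_5 c7672_6 c7672_7 c7672_8 c7672_9 c7672_10 c7672_11 c7672_12 c7672_13 c7672_14 c7672_15
theorem a7673 : All 7673 := all_of c7673_0 c7673_1 c7673_2 c7673_3 c7673_4 c7673_5 c7673_6 c7673_7 c7673_8 c7673_9 c7673_10 c7673_11 c7673_12 c7673_13 c7673_14 c7673_15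
theorem a7902 : All 7902 := all_of c7902_0 c7902_1 c7902_2 c7902_3 c7902_4 c7902_5 c7902_6 c7902_7 c7902_8 c7902_9 c7902_10 c7902_11 c7902_12 c7902_13 c7902_14 c7902_15
theorem a7916 : All 7916 := all_of c7916_0 c7916_1 c7916_2 c7916_3 c7916_4 c7916_5 c7916_6 c7916_7 c7916_8 c7916_9 c7916_10 c7916_11 c7916_12 c7916_13 c7916_14 c7916_15
theorem a7917 : All 7917 := all_of c7917_0 c7917_1 c7917_2 c7917_3 c7917_4 c7917_5 c7917_6 c7917_7 c7917_8 c7917_9 c7917_10 c7917_11 c7917_12 c7917_13 c7917_14 c7917_15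
theorem a7934 : All 7934 := all_of c7934_0 c7934_1 c7934_2 c7934_3 c7934_4 c7934_5 c7934_6 c7934_7 c7934_8 c7934_9 c7934_10 c7934_11 c7934_12 c7934_13 c7934_14 c7934_15
theorem a8185 : All 8185 := all_of c8185_0 c8185_1 c8185_2 c8185_3 c8185_4 c8185_5 c8185_6 c8185_7 c8185_8 c8185_9 c8185_10 c8185_11 c8185_12 c8185_13 c8185_14 c8185_15
theorem a16350 : All 16350 := all_of c16350_0 c16350_1 c16350_2 c16350_3 c16350_4 c16350_5 c16350_6 c16350_7 c16350_8 c16350_9 c16350_10 c16350_11 c16350_12 c16350_13 c16350_14 c16350_15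

def R0 : ℕ := Nat.lor (Nat.pow 2 0) (Nat.lor (Nat.pow 2 1) (Nat.lor (Nat.pow 2 3) (Nat.lor (Nat.pow 2 7) (Nat.lor (Nat.pow 2 11) (Nat.lor (Nat.pow 2 12) (Nat.lor (Nat.pow 2 13) (Nat.lor (Nat.pow 2 15) (Nat.lor (Nat.pow 2 30) (Nat.lor (Nat.pow 2 31) (Nat.lor (Nat.pow 2 63) (Nat.lor (Nat.pow 2 75) (Nat.lor (Nat.pow 2 76) (Nat.lor (Nat.pow 2 77) (Nat.lor (Nat.pow 2 79) (Nat.pow 2 86)))))))))))))))
theorem good_R0 (hE : Sy E) : Good E R0 := (good_rep hE (by norm_num) a0).lor ((good_rep hE (by norm_num) a1).lor ((good_rep hE (by norm_num) a3).lor ((good_rep hE (by norm_num) a7).lor ((good_rep hE (by norm_num) a11).lor ((good_rep hE (by norm_num) a12).lor ((good_rep hE (by norm_num) a13).lor ((good_rep hE (by norm_num) a15).lor ((good_rep hE (by norm_num) a30).lor ((good_rep hE (by norm_num) a31).lor ((good_rep hE (by norm_num) a63).lor ((good_rep hE (by norm_num) a75).lor ((good_rep hE (by norm_num) a76).lor ((good_rep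 hE (by norm_num) a77).lor ((good_rep hE (by norm_num) a79).lor (good_rep hE (by norm_num) a86)))))))))))))))
def R1 : ℕ := Nat.lor (Nat.pow 2 87) (Nat.lor (Nat.pow 2 94) (Nat.lor (Nat.pow 2 95) (Nat.lor (Nat.pow 2 116) (Nat.lor (Nat.pow 2 117) (Nat.lor (Nat.pow 2 119) (Nat.lor (Nat.pow 2 127) (Nat.lor (Nat.pow 2 222) (Nat.lor (Nat.pow 2 223) (Nat.lor (Nat.pow 2 235) (Nat.lor (Nat.pow 2 236) (Nat.lor (Nat.pow 2 237) (Nat.lor (Nat.pow 2 239) (Nat.lor (Nat.pow 2 254) (Nat.lor (Nat.pow 2 255) (Nat.pow 2 507)))))))))))))))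
theorem good_R1 (hE : Sy E) : Good E R1 := (good_rep hE (by norm_num) a87).lor ((good_rep hE (by norm_num) a94).lor ((good_rep hE (by norm_num) a95).lor ((good_rep hE (by norm_num) a116).lor ((good_rep hE (by norm_num) a117).lor ((good_rep hE (by norm_num) a119).lor ((good_rep hE (by norm_num) a127).lor ((good_rep hE (by norm_num) a222).lor ((good_rep hE (by norm_num) a223).lor ((good_rep hE (by norm_num) a235).lor ((good_rep hE (by norm_num) a236).lor ((good_rep hE (by norm_num) a237).lor ((good_rep hE (by norm_num) a239).lor ((good_rep hE (by norm_num) a254).lor ((good_rep hE (by norm_num) a255).lor (good_rep hE (by norm_num) a507)))))))))))))))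
def R2 : ℕ := Nat.lor (Nat.pow 2 511) (Nat.lor (Nat.pow 2 1023) (Nat.lor (Nat.pow 2 1100) (Nat.lor (Nat.pow 2 1101) (Nat.lor (Nat.pow 2 1108) (Nat.lor (Nat.pow 2 1109) (Nat.lor (Nat.pow 2 1110) (Nat.lor (Nat.pow 2 1111) (Nat.lor (Nat.pow 2 1118) (Nat.lor (Nat.pow 2 1140) (Nat.lor (Nat.pow 2 1141) (Nat.lor (Nat.pow 2 1143) (Nat.lor (Nat.pow 2 1182) (Nat.lor (Nat.pow 2 1183) (Nat.lor (Nat.pow 2 1184) (Nat.pow 2 1185)))))))))))))))
theorem good_R2 (hE : Sy E) : Good E R2 := (good_rep hE (by norm_num) a511).lor ((good_rep hE (by norm_num) a1023).lor ((good_rep hE (by norm_num) a1100).lor ((good_rep hE (by norm_num) a1101).lor ((good_rep hE (by norm_num) a1108).lor ((good_rep hE (by norm_num) a1109).lor ((good_rep hE (by norm_num) a1110).lor ((good_rep hE (by norm_num) a1111).lor ((good_rep hE (by norm_num) a1118).lor ((good_rep hE (by norm_num) a1140).lor ((good_rep hE (by norm_num) a1141).lor ((good_rep hE (by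 norm_num) a1143).lor ((good_rep hE (by norm_num) a1182).lor ((good_rep hE (by norm_num) a1183).lor ((good_rep hE (by norm_num) a1184).lor (good_rep hE (by norm_num) a1185)))))))))))))))
def R3 : ℕ := Nat.lor (Nat.pow 2 1187) (Nat.lor (Nat.pow 2 1191) (Nat.lor (Nat.pow 2 1194) (Nat.lor (Nat.pow 2 1195) (Nat.lor (Nat.pow 2 1196) (Nat.lor (Nat.pow 2 1197) (Nat.lor (Nat.pow 2 1198) (Nat.lor (Nat.pow 2 1199) (Nat.lor (Nat.pow 2 1214) (Nat.lor (Nat.pow 2 1215) (Nat.lor (Nat.pow 2 1246) (Nat.lor (Nat.pow 2 1260) (Nat.lor (Nat.pow 2 1261) (Nat.lor (Nat.pow 2 1268) (Nat.lor (Nat.pow 2 1269) (Nat.pow 2 1270)))))))))))))))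
theorem good_R3 (hE : Sy E) : Good E R3 := (good_rep hE (by norm_num) a1187).lor ((good_rep hE (by norm_num) a1191).lor ((good_rep hE (by norm_num) a1194).lor ((good_rep hE (by norm_num) a1195).lor ((good_rep hE (by norm_num) a1196).lor ((good_rep hE (by norm_num) a1197).lor ((good_rep hE (by norm_num) a1198).lor ((good_rep hE (by norm_num) a1199).lor ((good_rep hE (by norm_num) a1214).lor ((good_rep hE (by norm_num) a1215).lor ((good_rep hE (by norm_num) a1246).lor ((good_rep hE (by norm_num) a1260).lor ((good_rep hE (by norm_num) a1261).lor ((good_rep hE (by norm_num) a1268).lor ((good_rep hE (by norm_num) a1269).lor (good_rep hE (by norm_num) a1270)))))))))))))))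
def R4 : ℕ := Nat.lor (Nat.pow 2 1271) (Nat.lor (Nat.pow 2 1278) (Nat.lor (Nat.pow 2 1456) (Nat.lor (Nat.pow 2 1457) (Nat.lor (Nat.pow 2 1459) (Nat.lor (Nat.pow 2 1460) (Nat.lor (Nat.pow 2 1461) (Nat.lor (Nat.pow 2 1463) (Nat.lor (Nat.pow 2 1465) (Nat.lor (Nat.pow 2 1467) (Nat.lor (Nat.pow 2 1468) (Nat.lor (Nat.pow 2 1469) (Nat.lor (Nat.pow 2 1471) (Nat.lor (Nat.pow 2 1532) (Nat.lor (Nat.pow 2 1533) (Nat.pow 2 1972)))))))))))))))
theorem good_R4 (hE : Sy E) : Good E R4 := (good_rep hE (by norm_num) a1271).lor ((good_rep hE (by norm_num) a1278).lor ((good_rep hE (by norm_num) a1456).lor ((good_rep hE (by norm_num) a1457).lor ((good_rep hE (by norm_num) a1459).lor ((good_rep hE (by norm_num) a1460).lor ((good_rep hE (by norm_num) a1461).lor ((good_rep hE (by norm_num) a1463).lor ((good_rep hE (by norm_num) a1465).lor ((good_rep hE (by norm_num) a1467).lor ((good_rep hE (by norm_num) a1468).lor ((good_rep hE (by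 norm_num) a1469).lor ((good_rep hE (by norm_num) a1471).lor ((good_rep hE (by norm_num) a1532).lor ((good_rep hE (by norm_num) a1533).lor (good_rep hE (by norm_num) a1972)))))))))))))))
def R5 : ℕ := Nat.lor (Nat.pow 2 1973) (Nat.lor (Nat.pow 2 1975) (Nat.lor (Nat.pow 2 1983) (Nat.lor (Nat.pow 2 3294) (Nat.lor (Nat.pow 2 3306) (Nat.lor (Nat.pow 2 3308) (Nat.lor (Nat.pow 2 3309) (Nat.lor (Nat.pow 2 3310) (Nat.lor (Nat.pow 2 3326) (Nat.lor (Nat.pow 2 3440) (Nat.lor (Nat.pow 2 3441) (Nat.lor (Nat.pow 2 3443) (Nat.lor (Nat.pow 2 3447) (Nat.lor (Nat.pow 2 3448) (Nat.lor (Nat.pow 2 3449) (Nat.pow 2 3452)))))))))))))))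
theorem good_R5 (hE : Sy E) : Good E R5 := (good_rep hE (by norm_num) a1973).lor ((good_rep hE (by norm_num) a1975).lor ((good_rep hE (by norm_num) a1983).lor ((good_rep hE (by norm_num) a3294).lor ((good_rep hE (by norm_num) a3306).lor ((good_rep hE (by norm_num) a3308).lor ((good_rep hE (by norm_num) a3309).lor ((good_rep hE (by norm_num) a3310).lor ((good_rep hE (by norm_num) a3326).lor ((good_rep hE (by norm_num) a3440).lor ((good_rep hE (by norm_num) a3441).lor ((good_rep hE (by norm_num) a3443).lor ((good_rep hE (by norm_num) a3447).lor ((good_rep hE (by norm_num) a3448).lor ((good_rep hE (by norm_num) a3449).lor (good_rep hE (by norm_num) a3452)))))))))))))))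
def R6 : ℕ := Nat.lor (Nat.pow 2 3453) (Nat.lor (Nat.pow 2 3576) (Nat.lor (Nat.pow 2 3577) (Nat.lor (Nat.pow 2 3578) (Nat.lor (Nat.pow 2 3582) (Nat.lor (Nat.pow 2 3873) (Nat.lor (Nat.pow 2 3875) (Nat.lor (Nat.pow 2 3879) (Nat.lor (Nat.pow 2 3885) (Nat.lor (Nat.pow 2 3887) (Nat.lor (Nat.pow 2 3903) (Nat.lor (Nat.pow 2 3948) (Nat.lor (Nat.pow 2 3949) (Nat.lor (Nat.pow 2 3950) (Nat.lor (Nat.pow 2 3958) (Nat.pow 2 3959)))))))))))))))
theorem good_R6 (hE : Sy E) : Good E R6 := (good_rep hE (by norm_num) a3453).lor ((good_rep hE (by norm_num) a3576).lor ((good_rep hE (by norm_num) a3577).lor ((good_rep hE (by norm_num) a3578).lor ((good_rep hE (by norm_num) a3582).lor ((good_rep hE (by norm_num) a3873).lor ((good_rep hE (by norm_num) a3875).lor ((good_rep hE (by norm_num) a3879).lor ((good_rep hE (by norm_num) a3885).lor ((good_rep hE (by norm_num) a3887).lor ((good_rep hE (by norm_num) a3903).lor ((good_rep hE (by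 norm_num) a3948).lor ((good_rep hE (by norm_num) a3949).lor ((good_rep hE (by norm_num) a3950).lor ((good_rep hE (by norm_num) a3958).lor (good_rep hE (by norm_num) a3959)))))))))))))))
def R7 : ℕ := Nat.lor (Nat.pow 2 3966) (Nat.lor (Nat.pow 2 4094) (Nat.lor (Nat.pow 2 7672) (Nat.lor (Nat.pow 2 7673) (Nat.lor (Nat.pow 2 7902) (Nat.lor (Nat.pow 2 7916) (Nat.lor (Nat.pow 2 7917) (Nat.lor (Nat.pow 2 7934) (Nat.lor (Nat.pow 2 8185) (Nat.pow 2 16350)))))))))
theorem good_R7 (hE : Sy E) : Good E R7 := (good_rep hE (by norm_num) a3966).lor ((good_rep hE (by norm_num) a4094).lor ((good_rep hE (by norm_num) a7672).lor ((good_rep hE (by norm_num) a7673).lor ((good_rep hE (by norm_num) a7902).lor ((good_rep hE (by norm_num) a7916).lor ((good_rep hE (by norm_num) a7917).lor ((good_rep hE (by norm_num) a7934).lor ((good_rep hE (by norm_num) a8185).lor (good_rep hE (by norm_num) a16350)))))))))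
theorem mul_lt2 {a b : ℕ} (h : a < 2) (k : b < 2) : Nat.mul a b < 2 := by
  interval_cases a <;> interval_cases b <;> decide

theorem mul_eq1 {a b : ℕ} (h : Nat.mul a b = 1) : a = 1 ∧ b = 1 := mul_eq_one.mp h

theorem enc1_tb {f : ℕ → ℕ} (hf : ∀ i, f i < 2) {m : ℕ} (h : (enc 1 15 f).testBit m = true) : f m = 1 := by
  rw [enc_testBit (by norm_num) (fun i _ => lt_of_lt_of_eq (hf i) (by norm_num)), Bool.and_eq_true, Nat.div_one,
    Nat.mod_one] at h
  have h1 := hf m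
  interval_cases hm : f m
  · rw [Nat.zero_testBit] at h; exact absurd h.2 (by decide)
  · rfl

/-- the representatives -/
def RR : ℕ := Nat.lor R0 (Nat.lor R1 (Nat.lor R2 (Nat.lor R3 (Nat.lor R4 (Nat.lor R5 (Nat.lor R6 (R7)))))))
theorem good_RR (hE : Sy E) : Good E RR := (good_R0 hE).lor ((good_R1 hE).lor ((good_R2 hE).lor ((good_R3 hE).lor ((good_R4 hE).lor ((good_R5 hE).lor ((good_R6 hE).lor (good_R7 hE)))))))

/-- all the codes equivalent to one of the representatives -/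
def CL : ℕ := RD (RD (RD (RD (RD (RD (RD (RD (RD (RD (RD (RD (RD (RD (RD (RR)))))))))))))))
theorem good_CL (hE : Sy E) : Good E CL := good_RD hE (good_RD hE (good_RD hE (good_RD hE (good_RD hE (good_RD hE (good_RD hE (good_RD hE (good_RD hE (good_RD hE (good_RD hE (good_RD hE (good_RD hE (good_RD hE (good_RD hE (good_RR hE)))))))))))))))

/-- the product of the bits of the mask 8760 -/
def mf0 (i : ℕ) : ℕ := Nat.mul (bt 3 i) (Nat.mul (bt 4 i) (Nat.mul (bt 5 i) (Nat.mul (bt 9 i) (bt 13 i))))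
def MV0 : ℕ := asm 1 8760 15 mf0
theorem MV0_eq : MV0 = enc 1 15 mf0 := by
  refine asm_eq 1 8760 15 mf0 ?_
  intro k hk hkm x hx
  have h : ∀ j, j ≠ k → bt j (x + 2 ^ k) = bt j x := fun j hj => bt_add_pow hx hj
  clear hx
  interval_cases k <;> first
    | exact absurd hkm (by decide +kernel)
    | simp only [mf0, h 3 (by norm_num), h 4 (by norm_num), h 5 (by norm_num), h 9 (by norm_num), h 13 (by norm_num)]

theorem mf0_lt (i : ℕ) : mf0 i < 2 := by
  have h := bt_lt_two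
  unfold mf0
  refine mul_lt2 (h _ _) (mul_lt2 (h _ _) (mul_lt2 (h _ _) (mul_lt2 (h _ _) (h _ _))))

/-- the product of the bits of the mask 4390 -/
def mf1 (i : ℕ) : ℕ := Nat.mul (bt 1 i) (Nat.mul (bt 2 i) (Nat.mul (bt 5 i) (Nat.mul (bt 8 i) (bt 12 i))))
def MV1 : ℕ := asm 1 4390 15 mf1
theorem MV1_eq : MV1 = enc 1 15 mf1 := by
  refine asm_eq 1 4390 15 mf1 ?_
  intro k hk hkm x hx
  have h : ∀ j, j ≠ k → bt j (x + 2 ^ k) = bt j x := fun j hj => bt_add_pow hx hj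
  clear hx
  interval_cases k <;> first
    | exact absurd hkm (by decide +kernel)
    | simp only [mf1, h 1 (by norm_num), h 2 (by norm_num), h 5 (by norm_num), h 8 (by norm_num), h 12 (by norm_num)]

theorem mf1_lt (i : ℕ) : mf1 i < 2 := by
  have h := bt_lt_two
  unfold mf1
  refine mul_lt2 (h _ _) (mul_lt2 (h _ _) (mul_lt2 (h _ _) (mul_lt2 (h _ _) (h _ _))))

/-- the product of the bits of the mask 2197 -/
def mf2 (i : ℕ) : ℕ := Nat.mul (bt 0 i) (Nat.mul (bt 2 i) (Nat.mul (bt 4 i) (Nat.mul (bt 7 i) (bt 11 i))))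
def MV2 : ℕ := asm 1 2197 15 mf2
theorem MV2_eq : MV2 = enc 1 15 mf2 := by
  refine asm_eq 1 2197 15 mf2 ?_
  intro k hk hkm x hx
  have h : ∀ j, j ≠ k → bt j (x + 2 ^ k) = bt j x := fun j hj => bt_add_pow hx hj
  clear hx
  interval_cases k <;> first
    | exact absurd hkm (by decide +kernel)
    | simp only [mf2, h 0 (by norm_num), h 2 (by norm_num), h 4 (by norm_num), h 7 (by norm_num), h 11 (by norm_num)]

theorem mf2_lt (i : ℕ) : mf2 i < 2 := by
  have h := bt_lt_two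
  unfold mf2
  refine mul_lt2 (h _ _) (mul_lt2 (h _ _) (mul_lt2 (h _ _) (mul_lt2 (h _ _) (h _ _))))

/-- the product of the bits of the mask 1099 -/
def mf3 (i : ℕ) : ℕ := Nat.mul (bt 0 i) (Nat.mul (bt 1 i) (Nat.mul (bt 3 i) (Nat.mul (bt 6 i) (bt 10 i))))
def MV3 : ℕ := asm 1 1099 15 mf3
theorem MV3_eq : MV3 = enc 1 15 mf3 := by
  refine asm_eq 1 1099 15 mf3 ?_
  intro k hk hkm x hx
  have h : ∀ j, j ≠ k → bt j (x + 2 ^ k) = bt j x := fun j hj => bt_add_pow hx hj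
  clear hx
  interval_cases k <;> first
    | exact absurd hkm (by decide +kernel)
    | simp only [mf3, h 0 (by norm_num), h 1 (by norm_num), h 3 (by norm_num), h 6 (by norm_num), h 10 (by norm_num)]

theorem mf3_lt (i : ℕ) : mf3 i < 2 := by
  have h := bt_lt_two
  unfold mf3
  refine mul_lt2 (h _ _) (mul_lt2 (h _ _) (mul_lt2 (h _ _) (mul_lt2 (h _ _) (h _ _))))

/-- the product of the bits of the mask 17344 -/
def mf4 (i : ℕ) : ℕ := Nat.mul (bt 6 i) (Nat.mul (bt 7 i) (Nat.mul (bt 8 i) (Nat.mul (bt 9 i) (bt 14 i))))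
def MV4 : ℕ := asm 1 17344 15 mf4
theorem MV4_eq : MV4 = enc 1 15 mf4 := by
  refine asm_eq 1 17344 15 mf4 ?_
  intro k hk hkm x hx
  have h : ∀ j, j ≠ k → bt j (x + 2 ^ k) = bt j x := fun j hj => bt_add_pow hx hj
  clear hx
  interval_cases k <;> first
    | exact absurd hkm (by decide +kernel)
    | simp only [mf4, h 6 (by norm_num), h 7 (by norm_num), h 8 (by norm_num), h 9 (by norm_num), h 14 (by norm_num)]

theorem mf4_lt (i : ℕ) : mf4 i < 2 := by
  have h := bt_lt_two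
  unfold mf4
  refine mul_lt2 (h _ _) (mul_lt2 (h _ _) (mul_lt2 (h _ _) (mul_lt2 (h _ _) (h _ _))))

/-- the product of the bits of the mask 31744 -/
def mf5 (i : ℕ) : ℕ := Nat.mul (bt 10 i) (Nat.mul (bt 11 i) (Nat.mul (bt 12 i) (Nat.mul (bt 13 i) (bt 14 i))))
def MV5 : ℕ := asm 1 31744 15 mf5
theorem MV5_eq : MV5 = enc 1 15 mf5 := by
  refine asm_eq 1 31744 15 mf5 ?_
  intro k hk hkm x hx
  have h : ∀ j, j ≠ k → bt j (x + 2 ^ k) = bt j x := fun j hj => bt_add_pow hx hj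
  clear hx
  interval_cases k <;> first
    | exact absurd hkm (by decide +kernel)
    | simp only [mf5, h 10 (by norm_num), h 11 (by norm_num), h 12 (by norm_num), h 13 (by norm_num), h 14 (by norm_num)]

theorem mf5_lt (i : ℕ) : mf5 i < 2 := by
  have h := bt_lt_two
  unfold mf5
  refine mul_lt2 (h _ _) (mul_lt2 (h _ _) (mul_lt2 (h _ _) (mul_lt2 (h _ _) (h _ _))))

/-- the codes of structures containing five complete vertices -/
def MV : ℕ := Nat.lor MV0 (Nat.lor MV1 (Nat.lor MV2 (Nat.lor MV3 (Nat.lor MV4 MV5))))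

theorem full_ok : Nat.beq (Nat.lor CL MV) (Nat.sub (Nat.pow 2 32768) 1) = true := by decide +kernel

/-- no five vertices all of whose quadruples are present -/
def NK (E : V → V → V → V → ℕ) : Prop :=
  ∀ a b c d e, ¬ (E a b c d = 1 ∧ E a b c e = 1 ∧ E a b d e = 1 ∧ E a c d e = 1 ∧ E b c d e = 1)

theorem mf_kk (hE : Sy E) (hK : NK E) (a b c d e f : V) : mf0 (kk E a b c d e f) ≠ 1 ∧ mf1 (kk E a b c d e f) ≠ 1 ∧ mf2 (kk E a b c d e f) ≠ 1 ∧ mf3 (kk E a b c d e f) ≠ 1 ∧ mf4 (kk E a b c d e f) ≠ 1 ∧ mf5 (kk E a b c d e f) ≠ 1 := by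
  have hb : ∀ k < 15, bt k (kk E a b c d e f) = kb E a b c d e f k := fun k hk => bt_pk (fun k _ => kb_lt hE a b c d e f k) hk
  refine ⟨?_, ?_, ?_, ?_, ?_, ?_⟩
  · intro h
    obtain ⟨g3, h⟩ := mul_eq1 h
    obtain ⟨g4, h⟩ := mul_eq1 h
    obtain ⟨g5, h⟩ := mul_eq1 h
    obtain ⟨g9, g13⟩ := mul_eq1 h
    rw [hb 3 (by norm_num)] at g3
    rw [hb 4 (by norm_num)] at g4
    rw [hb 5 (by norm_num)] at g5
    rw [hb 9 (by norm_num)] at g9
    rw [hb 13 (by norm_num)] at g13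
    exact hK b c d e f ⟨g13, g9, g3, g4, g5⟩
  · intro h
    obtain ⟨g1, h⟩ := mul_eq1 h
    obtain ⟨g2, h⟩ := mul_eq1 h
    obtain ⟨g5, h⟩ := mul_eq1 h
    obtain ⟨g8, g12⟩ := mul_eq1 h
    rw [hb 1 (by norm_num)] at g1
    rw [hb 2 (by norm_num)] at g2
    rw [hb 5 (by norm_num)] at g5
    rw [hb 8 (by norm_num)] at g8
    rw [hb 12 (by norm_num)] at g12
    exact hK a c d e f ⟨g12, g8, g1, g2, g5⟩
  · intro h
    obtain ⟨g0, h⟩ := mul_eq1 h
    obtain ⟨g2, h⟩ := mul_eq1 h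
    obtain ⟨g4, h⟩ := mul_eq1 h
    obtain ⟨g7, g11⟩ := mul_eq1 h
    rw [hb 0 (by norm_num)] at g0
    rw [hb 2 (by norm_num)] at g2
    rw [hb 4 (by norm_num)] at g4
    rw [hb 7 (by norm_num)] at g7
    rw [hb 11 (by norm_num)] at g11
    exact hK a b d e f ⟨g11, g7, g0, g2, g4⟩
  · intro h
    obtain ⟨g0, h⟩ := mul_eq1 h
    obtain ⟨g1, h⟩ := mul_eq1 h
    obtain ⟨g3, h⟩ := mul_eq1 h
    obtain ⟨g6, g10⟩ := mul_eq1 h
    rw [hb 0 (by norm_num)] at g0
    rw [hb 1 (by norm_num)] at g1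
    rw [hb 3 (by norm_num)] at g3
    rw [hb 6 (by norm_num)] at g6
    rw [hb 10 (by norm_num)] at g10
    exact hK a b c e f ⟨g10, g6, g0, g1, g3⟩
  · intro h
    obtain ⟨g6, h⟩ := mul_eq1 h
    obtain ⟨g7, h⟩ := mul_eq1 h
    obtain ⟨g8, h⟩ := mul_eq1 h
    obtain ⟨g9, g14⟩ := mul_eq1 h
    rw [hb 6 (by norm_num)] at g6
    rw [hb 7 (by norm_num)] at g7
    rw [hb 8 (by norm_num)] at g8
    rw [hb 9 (by norm_num)] at g9
    rw [hb 14 (by norm_num)] at g14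
    exact hK a b c d f ⟨g14, g6, g7, g8, g9⟩
  · intro h
    obtain ⟨g10, h⟩ := mul_eq1 h
    obtain ⟨g11, h⟩ := mul_eq1 h
    obtain ⟨g12, h⟩ := mul_eq1 h
    obtain ⟨g13, g14⟩ := mul_eq1 h
    rw [hb 10 (by norm_num)] at g10
    rw [hb 11 (by norm_num)] at g11
    rw [hb 12 (by norm_num)] at g12
    rw [hb 13 (by norm_num)] at g13
    rw [hb 14 (by norm_num)] at g14
    exact hK a b c d e ⟨g14, g10, g11, g12, g13⟩

/-- the pointwise inequality -/
theorem W0_le (hE : Sy E) (hK : NK E) (a b c d e f z : V) : W0 E a b c d e f z ≤ 3377640 := by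
  have hm := kk_lt hE a b c d e f
  have hfull : CL ||| MV = 2 ^ 32768 - 1 := Nat.eq_of_beq_eq_true full_ok
  have ht : (CL ||| MV).testBit (kk E a b c d e f) = true := by
    rw [hfull, Nat.testBit_two_pow_sub_one, decide_eq_true_eq]
    exact lt_of_lt_of_eq hm (by norm_num)
  rw [Nat.testBit_or, Bool.or_eq_true] at ht
  rcases ht with ht | ht
  · exact (good_CL hE).2 _ ht a b c d e f z rfl
  · exfalso
    obtain ⟨n0, n1, n2, n3, n4, n5⟩ := mf_kk hE hK a b c d e f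
    have ht' : (MV0 ||| (MV1 ||| (MV2 ||| (MV3 ||| (MV4 ||| MV5))))).testBit (kk E a b c d e f) = true := ht
    rw [Nat.testBit_or, Nat.testBit_or, Nat.testBit_or, Nat.testBit_or, Nat.testBit_or, Bool.or_eq_true, Bool.or_eq_true,
      Bool.or_eq_true, Bool.or_eq_true, Bool.or_eq_true, MV0_eq, MV1_eq, MV2_eq, MV3_eq, MV4_eq, MV5_eq] at ht'
    rcases ht' with h | h | h | h | h | h
    · exact n0 (enc1_tb mf0_lt h)
    · exact n1 (enc1_tb mf1_lt h)
    · exact n2 (enc1_tb mf2_lt h)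
    · exact n3 (enc1_tb mf3_lt h)
    · exact n4 (enc1_tb mf4_lt h)
    · exact n5 (enc1_tb mf5_lt h)

end

end Pool.Agent.T2H33.K5
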