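import Pool.Agent.T2H33.K5.Red

/-! The sums over the flags: the linear identity and the sums of squares. -/

set_option autoImplicit false
set_option maxRecDepth 100000
set_option exponentiation.threshold 200000
open Finset

namespace Pool.Agent.T2H33.K5

noncomputable section

variable {V : Type} {E : V → V → V → V → ℕ}

/-- number of quadruples among the first five vertices -/
def ee (m : ℕ) : ℕ := Nat.add (bt 10 m) (Nat.add (bt 11 m) (Nat.add (bt 12 m) (Nat.add (bt 13 m) (bt 14 m))))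
def rf (R j : ℕ) : ℕ := Nat.land (Nat.shiftRight R (Nat.mul 25 j)) ON25
def LN (R h : ℕ) : ℕ := Nat.add (Nat.mul 2 (rf R (Nat.add (Nat.mul 8 h) 4))) (Nat.add (Nat.mul 238 (rf R (Nat.mul 8 h)))
  (Nat.add (Nat.mul 216 (rf R (Nat.add (Nat.mul 8 h) 1))) (Nat.add (Nat.mul 146 (rf R (Nat.add (Nat.mul 8 h) 2)))
    (Nat.mul 100 (rf R (Nat.add (Nat.mul 8 h) 3))))))
def cm (k p h : ℕ) : ℕ := Nat.add p (Nat.add (Nat.mul 64 h) (Nat.mul 512 k))

theorem lin_ok : al 64 (fun k => st (fun cc => st (fun B => al 64 (fun p => st (fun R => al 8 (fun h =>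
    cnd (Nat.beq (bt (cm k p h) MV) 1) true (Nat.beq (LN R h) cc))) (kB B p))) (sbk k))
    (Nat.add 106874 (Nat.mul 6000 (ee (Nat.mul 512 k))))) = true := by decide +kernel

theorem rf_eq {k p j : ℕ} (hj : j < 64) : rf (kB (sbk k) p) j = fld 25 (sbk k) (64 * p + j) := by
  rw [kB_eq]
  unfold rf
  rw [ON25_eq]
  have h1 := land_ones (enc 25 6 (fun q => fld 25 (sbk k) (64 * p + q))) 25 j
  have h2 := fld_enc (s := 25) (n := 6) (by norm_num) (f := fun q => fld 25 (sbk k) (64 * p + q)) (fun i _ => fld_lt _ _ _) hj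
  exact h1.trans h2

theorem Td_cm {r k p h : ℕ} (hp : p < 64) (hh : h < 8) :
    Td r (cm k p h) = fld 25 (sbk k) (64 * p + (8 * h + r)) := by
  rw [Td_eq]
  unfold cm
  show fld 25 (sbk ((p + (64 * h + 512 * k)) / 512)) (r + (8 * ((p + (64 * h + 512 * k)) / 64 % 8) + 64 * ((p + (64 * h + 512 * k)) % 64))) = _
  rw [show (p + (64 * h + 512 * k)) / 512 = k by omega,
    show r + (8 * ((p + (64 * h + 512 * k)) / 64 % 8) + 64 * ((p + (64 * h + 512 * k)) % 64)) = 64 * p + (8 * h + r) by omega]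

theorem ee_cm {k p h : ℕ} (hp : p < 64) (hh : h < 8) : ee (cm k p h) = ee (Nat.mul 512 k) := by
  have key : ∀ j, 10 ≤ j → bt j (cm k p h) = bt j (Nat.mul 512 k) := by
    intro j hj
    obtain ⟨t, rfl⟩ : ∃ t, j = 9 + t := ⟨j - 9, by omega⟩
    rw [bt_eq, bt_eq, pow_add, ← Nat.div_div_eq_div_mul, ← Nat.div_div_eq_div_mul]
    have : cm k p h / 2 ^ 9 = Nat.mul 512 k / 2 ^ 9 := by
      unfold cm
      show (p + (64 * h + 512 * k)) / 2 ^ 9 = 512 * k / 2 ^ 9
      norm_num only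
      omega
    rw [this]
  unfold ee
  rw [key 10 (by norm_num), key 11 (by norm_num), key 12 (by norm_num), key 13 (by norm_num), key 14 (by norm_num)]

theorem lin_m {m : ℕ} (hm : m < 2 ^ 15) (hv : bt m MV ≠ 1) :
    2 * Td 4 m + (238 * Td 0 m + (216 * Td 1 m + (146 * Td 2 m + 100 * Td 3 m))) = 106874 + 6000 * ee m := by
  have hk : m / 512 < 64 := by omega
  have hp : m % 64 < 64 := by omega
  have hh : m / 64 % 8 < 8 := by omega
  have e : cm (m / 512) (m % 64) (m / 64 % 8) = m := by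
    unfold cm
    show m % 64 + (64 * (m / 64 % 8) + 512 * (m / 512)) = m
    omega
  have h := al_true lin_ok hk
  rw [st_eq, st_eq] at h
  have h := al_true h hp
  rw [st_eq] at h
  have h := al_true h hh
  rw [e] at h
  have hf : Nat.beq (bt m MV) 1 = false := by
    rw [← Bool.not_eq_true]; exact fun hc => hv (Nat.eq_of_beq_eq_true hc)
  rw [hf] at h
  have h2 : LN (kB (sbk (m / 512)) (m % 64)) (m / 64 % 8) = 106874 + 6000 * ee (Nat.mul 512 (m / 512)) :=
    Nat.eq_of_beq_eq_true h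
  rw [← ee_cm hp hh, e] at h2
  rw [← h2]
  have t : ∀ r < 8, Td r m = rf (kB (sbk (m / 512)) (m % 64)) (8 * (m / 64 % 8) + r) := by
    intro r hr
    rw [rf_eq (by omega), ← Td_cm hp hh, e]
  rw [t 0 (by norm_num), t 1 (by norm_num), t 2 (by norm_num), t 3 (by norm_num), t 4 (by norm_num)]
  rfl

theorem bt_one_tb {m N : ℕ} (h : bt m N = 1) : N.testBit m = true := by
  rw [bt_eq] at h
  rw [Nat.testBit_eq_decide_div_mod_eq, h]
  rfl

theorem MV_kk (hE : Sy E) (hK : NK E) (a b c d e f : V) : bt (kk E a b c d e f) MV ≠ 1 := by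
  intro h
  have ht := bt_one_tb h
  obtain ⟨n0, n1, n2, n3, n4, n5⟩ := mf_kk hE hK a b c d e f
  have ht' : (MV0 ||| (MV1 ||| (MV2 ||| (MV3 ||| (MV4 ||| MV5))))).testBit (kk E a b c d e f) = true := ht
  rw [Nat.testBit_or, Nat.testBit_or, Nat.testBit_or, Nat.testBit_or, Nat.testBit_or, Bool.or_eq_true, Bool.or_eq_true,
    Bool.or_eq_true, Bool.or_eq_true, Bool.or_eq_true, MV0_eq, MV1_eq, MV2_eq, MV3_eq, MV4_eq, MV5_eq] at ht'
  rcases ht' with h | h | h | h | h | h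
  · exact n0 (enc1_tb mf0_lt h)
  · exact n1 (enc1_tb mf1_lt h)
  · exact n2 (enc1_tb mf2_lt h)
  · exact n3 (enc1_tb mf3_lt h)
  · exact n4 (enc1_tb mf4_lt h)
  · exact n5 (enc1_tb mf5_lt h)

/-- number of quadruples among five vertices -/
def e5 (E : V → V → V → V → ℕ) (a b c d e : V) : ℕ := E a b c e + (E a b d e + (E a c d e + (E b c d e + E a b c d)))

theorem ee_kk (hE : Sy E) (a b c d e f : V) : ee (kk E a b c d e f) = e5 E a b c d e := by
  have hb : ∀ k < 15, bt k (kk E a b c d e f) = kb E a b c d e f k := fun k hk => bt_pk (fun k _ => kb_lt hE a b c d e f k) hk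
  unfold ee
  rw [hb 10 (by norm_num), hb 11 (by norm_num), hb 12 (by norm_num), hb 13 (by norm_num), hb 14 (by norm_num)]
  rfl

/-- the centred entries of the table -/
def cT (E : V → V → V → V → ℕ) (a b c d e x : V) (r : ℕ) : ℤ := (Td r (kk E a b c d e x) : ℤ) - ([119, 108, 73, 50] : List ℤ).getD r 0

theorem PV_sq (hE : Sy E) (hK : NK E) (a b c d e x y : V) : (PV E a b c d e x y : ℤ) =
    (73220 + 6000 * (e5 E a b c d e : ℤ)) + ∑ r ∈ range 4, cT E a b c d e x r * cT E a b c d e y r := by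
  have h1 := lin_m (kk_lt hE a b c d e x) (MV_kk hE hK a b c d e x)
  have h2 := lin_m (kk_lt hE a b c d e y) (MV_kk hE hK a b c d e y)
  rw [ee_kk hE] at h1 h2
  have h1' : (2 * Td 4 (kk E a b c d e x) + (238 * Td 0 (kk E a b c d e x) + (216 * Td 1 (kk E a b c d e x) +
    (146 * Td 2 (kk E a b c d e x) + 100 * Td 3 (kk E a b c d e x)))) : ℤ) = 106874 + 6000 * e5 E a b c d e := by
    exact_mod_cast h1
  have h2' : (2 * Td 4 (kk E a b c d e y) + (238 * Td 0 (kk E a b c d e y) + (216 * Td 1 (kk E a b c d e y) +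
    (146 * Td 2 (kk E a b c d e y) + 100 * Td 3 (kk E a b c d e y)))) : ℤ) = 106874 + 6000 * e5 E a b c d e := by
    exact_mod_cast h2
  simp only [sum_range_succ, sum_range_zero, cT, List.getD_cons_zero, List.getD_cons_succ]
  unfold PV pv
  push_cast
  refine mul_left_cancel₀ (two_ne_zero (α := ℤ)) ?_
  linear_combination h1' + h2'

/-- the coefficients of the squares -/
def HL : List (List ℤ) := [[-34, -22, 0, 0, 0, 0, 0, 0, 0],
  [18, 6, 0, 36, -18, -18, 0, 0, 0],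
  [18, 6, 0, -18, 36, -18, 0, 0, 0],
  [91, -12, 0, 19, 19, -38, 0, 0, 0],
  [18, 6, 0, -18, -18, 36, 0, 0, 0],
  [91, -12, 0, 19, -38, 19, 0, 0, 0],
  [91, -12, 0, -38, 19, 19, 0, 0, 0],
  [87, 6, 0, 0, 0, 0, 0, 0, 0],
  [-32, 27, 0, 0, 0, 0, 0, 0, 0],
  [-22, 14, 0, 74, -37, -37, 0, 0, 0],
  [-22, 14, 0, -37, 74, -37, 0, 0, 0],
  [0, -2, 0, 17, 17, -34, 0, 0, 0],
  [-22, 14, 0, -37, -37, 74, 0, 0, 0],
  [0, -2, 0, 17, -34, 17, 0, 0, 0],
  [0, -2, 0, -34, 17, 17, 0, 0, 0],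
  [50, 9, 0, 0, 0, 0, 0, 0, 0],
  [-143, 20, 0, 0, 0, 0, 0, 0, 0],
  [-42, 11, 0, 38, -19, -19, 0, 0, 0],
  [-42, 11, 0, -19, 38, -19, 0, 0, 0],
  [-29, -6, 0, 17, 17, -34, 0, 0, 0],
  [-42, 11, 0, -19, -19, 38, 0, 0, 0],
  [-29, -6, 0, 17, -34, 17, 0, 0, 0],
  [-29, -6, 0, -34, 17, 17, 0, 0, 0]]
def hv (k j : ℕ) : ℤ := (HL.getD k []).getD j 0

theorem Qf_sq : ∀ k : Fin 23, ∀ l : Fin 23, (Qf k l : ℤ) = 13253 + (hv k 0 * hv l 0 + (hv k 1 * hv l 1 + (hv k 2 * hv l 2 +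
    (hv k 3 * hv l 3 + (hv k 4 * hv l 4 + (hv k 5 * hv l 5 + (hv k 6 * hv l 6 + (hv k 7 * hv l 7 + hv k 8 * hv l 8)))))))) := by
  decide +kernel

theorem kq_lt23 (hE : Sy E) (hK : NK E) (a b c x y : V) : kq E a b c x y < 23 := by
  have h := hK a b c x y
  have h1 := hE.lt a b c x
  have h2 := hE.lt a b c y
  have h3 := hE.lt a b x y
  have h4 := hE.lt a c x y
  have h5 := hE.lt b c x y
  unfold kq
  by_contra hc
  exact h ⟨by omega, by omega, by omega, by omega, by omega⟩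

theorem QQ_sq (hE : Sy E) (hK : NK E) (a b c x y z w : V) : (QQ E a b c x y z w : ℤ) =
    13253 + ∑ j ∈ range 9, hv (kq E a b c x y) j * hv (kq E a b c z w) j := by
  have h := Qf_sq ⟨kq E a b c x y, kq_lt23 hE hK a b c x y⟩ ⟨kq E a b c z w, kq_lt23 hE hK a b c z w⟩
  simp only [sum_range_succ, sum_range_zero]
  unfold QQ
  rw [h]
  ring

end

end Pool.Agent.T2H33.K5
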