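import Pool.Agent.T2H33.K5.Sos

/-! Summation of the pointwise inequality. -/

set_option autoImplicit false
set_option maxRecDepth 100000
open Finset

namespace Pool.Agent.T2H33.K5

noncomputable section

variable {V : Type} {E : V → V → V → V → ℕ}

theorem sum_cons [Fintype V] {M : Type} [AddCommMonoid M] (n : ℕ) (F : (Fin (n + 1) → V) → M) :
    ∑ v, F v = ∑ a, ∑ w : Fin n → V, F (Fin.cons a w) := by
  rw [← (Fin.consEquiv (fun _ => V)).sum_comp, Fintype.sum_prod_type]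
  rfl

/-- sum over all the sequences of seven vertices -/
def S7 [Fintype V] (φ : V → V → V → V → V → V → V → ℕ) : ℕ :=
  ∑ v : Fin 7 → V, φ (v 0) (v 1) (v 2) (v 3) (v 4) (v 5) (v 6)

theorem S7_perm [Fintype V] (p q : Fin 7 → Fin 7) (h1 : ∀ i, q (p i) = i) (h2 : ∀ i, p (q i) = i)
    (φ : V → V → V → V → V → V → V → ℕ) :
    ∑ v : Fin 7 → V, φ (v (p 0)) (v (p 1)) (v (p 2)) (v (p 3)) (v (p 4)) (v (p 5)) (v (p 6)) = S7 φ :=
  Fintype.sum_equiv (Equiv.arrowCongr (⟨q, p, h2, h1⟩ : Fin 7 ≃ Fin 7) (Equiv.refl V)) _ _ fun _ => rfl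

theorem S7_add [Fintype V] (φ ψ : V → V → V → V → V → V → V → ℕ) :
    S7 (fun a b c d e f z => φ a b c d e f z + ψ a b c d e f z) = S7 φ + S7 ψ := sum_add_distrib

theorem S7_nest [Fintype V] (φ : V → V → V → V → V → V → V → ℕ) :
    S7 φ = ∑ a, ∑ b, ∑ c, ∑ d, ∑ e, ∑ f, ∑ z, φ a b c d e f z := by
  unfold S7
  rw [sum_cons]; refine sum_congr rfl fun a _ => ?_
  rw [sum_cons]; refine sum_congr rfl fun b _ => ?_
  rw [sum_cons]; refine sum_congr rfl fun c _ => ?_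
  rw [sum_cons]; refine sum_congr rfl fun d _ => ?_
  rw [sum_cons]; refine sum_congr rfl fun e _ => ?_
  rw [sum_cons]; refine sum_congr rfl fun f _ => ?_
  rw [sum_cons]; refine sum_congr rfl fun z _ => ?_
  rw [Fintype.sum_unique]
  rfl

theorem t0_sum [Fintype V] : S7 (fun a b c d e f z => PV E a b c d z e f) = S7 (PV E) := S7_perm ![0, 1, 2, 3, 6, 4, 5] ![0, 1, 2, 3, 5, 6, 4] (by decide) (by decide) (PV E)
theorem t1_sum [Fintype V] : S7 (fun a b c d e f z => QQ E b c d e f a z) = S7 (QQ E) := S7_perm ![1, 2, 3, 4, 5, 0, 6] ![5, 0, 1, 2, 3, 4, 6] (by decide) (by decide) (QQ E)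
theorem t2_sum [Fintype V] : S7 (fun a b c d e f z => QQ E a c d e f b z) = S7 (QQ E) := S7_perm ![0, 2, 3, 4, 5, 1, 6] ![0, 5, 1, 2, 3, 4, 6] (by decide) (by decide) (QQ E)
theorem t3_sum [Fintype V] : S7 (fun a b c d e f z => QQ E a b d e f c z) = S7 (QQ E) := S7_perm ![0, 1, 3, 4, 5, 2, 6] ![0, 1, 5, 2, 3, 4, 6] (by decide) (by decide) (QQ E)
theorem t4_sum [Fintype V] : S7 (fun a b c d e f z => QQ E a b c e f d z) = S7 (QQ E) := S7_perm ![0, 1, 2, 4, 5, 3, 6] ![0, 1, 2, 5, 3, 4, 6] (by decide) (by decide) (QQ E)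
theorem t5_sum [Fintype V] : S7 (fun a b c d e f z => QQ E e f z a b c d) = S7 (QQ E) := S7_perm ![4, 5, 6, 0, 1, 2, 3] ![3, 4, 5, 6, 0, 1, 2] (by decide) (by decide) (QQ E)
theorem t6_sum [Fintype V] : S7 (fun a b c d e f z => QQ E e f z a c b d) = S7 (QQ E) := S7_perm ![4, 5, 6, 0, 2, 1, 3] ![3, 5, 4, 6, 0, 1, 2] (by decide) (by decide) (QQ E)
theorem t7_sum [Fintype V] : S7 (fun a b c d e f z => QQ E e f z a d b c) = S7 (QQ E) := S7_perm ![4, 5, 6, 0, 3, 1, 2] ![3, 5, 6, 4, 0, 1, 2] (by decide) (by decide) (QQ E)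

theorem TT_sum [Fintype V] : S7 (TT E) = S7 (PV E) + 7 * S7 (QQ E) := by
  have h : S7 (TT E) = (S7 (fun a b c d e f z => PV E a b c d z e f) + (S7 (fun a b c d e f z => QQ E b c d e f a z) +
      (S7 (fun a b c d e f z => QQ E a c d e f b z) + (S7 (fun a b c d e f z => QQ E a b d e f c z) +
        S7 (fun a b c d e f z => QQ E a b c e f d z))))) + (S7 (fun a b c d e f z => QQ E e f z a b c d) +
      (S7 (fun a b c d e f z => QQ E e f z a c b d) + S7 (fun a b c d e f z => QQ E e f z a d b c))) := by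
    rw [← S7_add, ← S7_add, ← S7_add, ← S7_add, ← S7_add, ← S7_add, ← S7_add]
    rfl
  rw [h, t0_sum, t1_sum, t2_sum, t3_sum, t4_sum, t5_sum, t6_sum, t7_sum]
  ring

theorem W15_sum [Fintype V] : S7 (W15 E) = 1 * S7 (TT E) + 0 * S7 (PV E) := by
  rw [one_mul, zero_mul, add_zero]
  rfl

theorem p14_sum [Fintype V] : S7 (fun a b c d e f z => W15 E a b f d e c z) = S7 (W15 E) := S7_perm ![0, 1, 5, 3, 4, 2, 6] ![0, 1, 5, 3, 4, 2, 6] (by decide) (by decide) (W15 E)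
theorem W14_sum [Fintype V] : S7 (W14 E) = 2 * S7 (TT E) + 0 * S7 (PV E) := by
  have h : S7 (W14 E) = S7 (TT E) + S7 (fun a b c d e f z => W15 E a b f d e c z) := by
    rw [← S7_add]
    rfl
  rw [h, p14_sum, W15_sum]
  ring

theorem p13_sum [Fintype V] : S7 (fun a b c d e f z => W14 E a b c f e d z) = S7 (W14 E) := S7_perm ![0, 1, 2, 5, 4, 3, 6] ![0, 1, 2, 5, 4, 3, 6] (by decide) (by decide) (W14 E)
theorem W13_sum [Fintype V] : S7 (W13 E) = 3 * S7 (TT E) + 0 * S7 (PV E) := by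
  have h : S7 (W13 E) = S7 (TT E) + S7 (fun a b c d e f z => W14 E a b c f e d z) := by
    rw [← S7_add]
    rfl
  rw [h, p13_sum, W14_sum]
  ring

theorem p12_sum [Fintype V] : S7 (fun a b c d e f z => W13 E a b e d c f z) = S7 (W13 E) := S7_perm ![0, 1, 4, 3, 2, 5, 6] ![0, 1, 4, 3, 2, 5, 6] (by decide) (by decide) (W13 E)
theorem W12_sum [Fintype V] : S7 (W12 E) = 4 * S7 (TT E) + 0 * S7 (PV E) := by
  have h : S7 (W12 E) = S7 (TT E) + S7 (fun a b c d e f z => W13 E a b e d c f z) := by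
    rw [← S7_add]
    rfl
  rw [h, p12_sum, W13_sum]
  ring

theorem p11_sum [Fintype V] : S7 (fun a b c d e f z => W12 E a b c f e d z) = S7 (W12 E) := S7_perm ![0, 1, 2, 5, 4, 3, 6] ![0, 1, 2, 5, 4, 3, 6] (by decide) (by decide) (W12 E)
theorem W11_sum [Fintype V] : S7 (W11 E) = 5 * S7 (TT E) + 0 * S7 (PV E) := by
  have h : S7 (W11 E) = S7 (TT E) + S7 (fun a b c d e f z => W12 E a b c f e d z) := by
    rw [← S7_add]
    rfl
  rw [h, p11_sum, W12_sum]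
  ring

theorem p10_sum [Fintype V] : S7 (fun a b c d e f z => W11 E a b c e d f z) = S7 (W11 E) := S7_perm ![0, 1, 2, 4, 3, 5, 6] ![0, 1, 2, 4, 3, 5, 6] (by decide) (by decide) (W11 E)
theorem W10_sum [Fintype V] : S7 (W10 E) = 6 * S7 (TT E) + 0 * S7 (PV E) := by
  have h : S7 (W10 E) = S7 (TT E) + S7 (fun a b c d e f z => W11 E a b c e d f z) := by
    rw [← S7_add]
    rfl
  rw [h, p10_sum, W11_sum]
  ring

theorem p9_sum [Fintype V] : S7 (fun a b c d e f z => W10 E a e c d b f z) = S7 (W10 E) := S7_perm ![0, 4, 2, 3, 1, 5, 6] ![0, 4, 2, 3, 1, 5, 6] (by decide) (by decide) (W10 E)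
theorem W9_sum [Fintype V] : S7 (W9 E) = 7 * S7 (TT E) + 0 * S7 (PV E) := by
  have h : S7 (W9 E) = S7 (TT E) + S7 (fun a b c d e f z => W10 E a e c d b f z) := by
    rw [← S7_add]
    rfl
  rw [h, p9_sum, W10_sum]
  ring

theorem p8_sum [Fintype V] : S7 (fun a b c d e f z => W9 E a b c f e d z) = S7 (W9 E) := S7_perm ![0, 1, 2, 5, 4, 3, 6] ![0, 1, 2, 5, 4, 3, 6] (by decide) (by decide) (W9 E)
theorem W8_sum [Fintype V] : S7 (W8 E) = 8 * S7 (TT E) + 0 * S7 (PV E) := by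
  have h : S7 (W8 E) = S7 (TT E) + S7 (fun a b c d e f z => W9 E a b c f e d z) := by
    rw [← S7_add]
    rfl
  rw [h, p8_sum, W9_sum]
  ring

theorem p7_sum [Fintype V] : S7 (fun a b c d e f z => W8 E a b f d e c z) = S7 (W8 E) := S7_perm ![0, 1, 5, 3, 4, 2, 6] ![0, 1, 5, 3, 4, 2, 6] (by decide) (by decide) (W8 E)
theorem W7_sum [Fintype V] : S7 (W7 E) = 9 * S7 (TT E) + 0 * S7 (PV E) := by
  have h : S7 (W7 E) = S7 (TT E) + S7 (fun a b c d e f z => W8 E a b f d e c z) := by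
    rw [← S7_add]
    rfl
  rw [h, p7_sum, W8_sum]
  ring

theorem p6_sum [Fintype V] : S7 (fun a b c d e f z => W7 E a f c d e b z) = S7 (W7 E) := S7_perm ![0, 5, 2, 3, 4, 1, 6] ![0, 5, 2, 3, 4, 1, 6] (by decide) (by decide) (W7 E)
theorem W6_sum [Fintype V] : S7 (W6 E) = 10 * S7 (TT E) + 0 * S7 (PV E) := by
  have h : S7 (W6 E) = S7 (TT E) + S7 (fun a b c d e f z => W7 E a f c d e b z) := by
    rw [← S7_add]
    rfl
  rw [h, p6_sum, W7_sum]
  ring

theorem p5_sum [Fintype V] : S7 (fun a b c d e f z => W6 E e b c d a f z) = S7 (W6 E) := S7_perm ![4, 1, 2, 3, 0, 5, 6] ![4, 1, 2, 3, 0, 5, 6] (by decide) (by decide) (W6 E)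
theorem W5_sum [Fintype V] : S7 (W5 E) = 11 * S7 (TT E) + 1 * S7 (PV E) := by
  have h : S7 (W5 E) = (S7 (TT E) + S7 (YY E)) + S7 (fun a b c d e f z => W6 E e b c d a f z) := by
    rw [← S7_add, ← S7_add]
    rfl
  have hY : S7 (YY E) = S7 (PV E) := rfl
  rw [h, p5_sum, W6_sum, hY]
  ring

theorem p4_sum [Fintype V] : S7 (fun a b c d e f z => W5 E a b c f e d z) = S7 (W5 E) := S7_perm ![0, 1, 2, 5, 4, 3, 6] ![0, 1, 2, 5, 4, 3, 6] (by decide) (by decide) (W5 E)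
theorem W4_sum [Fintype V] : S7 (W4 E) = 12 * S7 (TT E) + 2 * S7 (PV E) := by
  have h : S7 (W4 E) = (S7 (TT E) + S7 (YY E)) + S7 (fun a b c d e f z => W5 E a b c f e d z) := by
    rw [← S7_add, ← S7_add]
    rfl
  have hY : S7 (YY E) = S7 (PV E) := rfl
  rw [h, p4_sum, W5_sum, hY]
  ring

theorem p3_sum [Fintype V] : S7 (fun a b c d e f z => W4 E a b f d e c z) = S7 (W4 E) := S7_perm ![0, 1, 5, 3, 4, 2, 6] ![0, 1, 5, 3, 4, 2, 6] (by decide) (by decide) (W4 E)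
theorem W3_sum [Fintype V] : S7 (W3 E) = 13 * S7 (TT E) + 3 * S7 (PV E) := by
  have h : S7 (W3 E) = (S7 (TT E) + S7 (YY E)) + S7 (fun a b c d e f z => W4 E a b f d e c z) := by
    rw [← S7_add, ← S7_add]
    rfl
  have hY : S7 (YY E) = S7 (PV E) := rfl
  rw [h, p3_sum, W4_sum, hY]
  ring

theorem p2_sum [Fintype V] : S7 (fun a b c d e f z => W3 E a f c d e b z) = S7 (W3 E) := S7_perm ![0, 5, 2, 3, 4, 1, 6] ![0, 5, 2, 3, 4, 1, 6] (by decide) (by decide) (W3 E)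
theorem W2_sum [Fintype V] : S7 (W2 E) = 14 * S7 (TT E) + 4 * S7 (PV E) := by
  have h : S7 (W2 E) = (S7 (TT E) + S7 (YY E)) + S7 (fun a b c d e f z => W3 E a f c d e b z) := by
    rw [← S7_add, ← S7_add]
    rfl
  have hY : S7 (YY E) = S7 (PV E) := rfl
  rw [h, p2_sum, W3_sum, hY]
  ring

theorem p1_sum [Fintype V] : S7 (fun a b c d e f z => W2 E f b c d e a z) = S7 (W2 E) := S7_perm ![5, 1, 2, 3, 4, 0, 6] ![5, 1, 2, 3, 4, 0, 6] (by decide) (by decide) (W2 E)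
theorem W1_sum [Fintype V] : S7 (W1 E) = 14 * S7 (TT E) + 5 * S7 (PV E) := by
  have h : S7 (W1 E) = S7 (YY E) + S7 (fun a b c d e f z => W2 E f b c d e a z) := by
    rw [← S7_add]
    rfl
  have hY : S7 (YY E) = S7 (PV E) := rfl
  rw [h, p1_sum, W2_sum, hY]
  ring

theorem p0_sum [Fintype V] : S7 (fun a b c d e f z => W1 E a b c d f e z) = S7 (W1 E) := S7_perm ![0, 1, 2, 3, 5, 4, 6] ![0, 1, 2, 3, 5, 4, 6] (by decide) (by decide) (W1 E)
theorem W0_sum [Fintype V] : S7 (W0 E) = 15 * S7 (TT E) + 6 * S7 (PV E) := by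
  have h : S7 (W0 E) = (S7 (TT E) + S7 (YY E)) + S7 (fun a b c d e f z => W1 E a b c d f e z) := by
    rw [← S7_add, ← S7_add]
    rfl
  have hY : S7 (YY E) = S7 (PV E) := rfl
  rw [h, p0_sum, W1_sum, hY]
  ring

theorem W0_tot [Fintype V] : S7 (W0 E) = 21 * S7 (PV E) + 105 * S7 (QQ E) := by
  rw [W0_sum, TT_sum]
  ring

theorem W0_up [Fintype V] (hE : Sy E) (hK : NK E) : S7 (W0 E) ≤ 3377640 * Fintype.card V ^ 7 := by
  unfold S7
  calc _ ≤ ∑ _v : Fin 7 → V, 3377640 := sum_le_sum fun v _ => W0_le hE hK _ _ _ _ _ _ _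
    _ = _ := by rw [sum_const, card_univ, smul_eq_mul, Fintype.card_fun, Fintype.card_fin, mul_comm]

/-- sums of squares -/
theorem sos {P : Type} [Fintype P] (J : ℕ) (c : ℤ) (f : P → ℕ → ℤ) :
    c * (Fintype.card P : ℤ) ^ 2 ≤ ∑ p : P, ∑ q : P, (c + ∑ j ∈ range J, f p j * f q j) := by
  have e : ∑ p : P, ∑ q : P, (c + ∑ j ∈ range J, f p j * f q j) =
      c * (Fintype.card P : ℤ) ^ 2 + ∑ j ∈ range J, (∑ p : P, f p j) ^ 2 := by
    simp only [sum_add_distrib, sum_const, card_univ, smul_eq_mul, nsmul_eq_mul]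
    congr 1
    · ring
    · calc ∑ p : P, ∑ q : P, ∑ j ∈ range J, f p j * f q j = ∑ p : P, ∑ j ∈ range J, ∑ q : P, f p j * f q j :=
          sum_congr rfl fun p _ => sum_comm
        _ = ∑ j ∈ range J, ∑ p : P, ∑ q : P, f p j * f q j := sum_comm
        _ = _ := sum_congr rfl fun j _ => by rw [sq, sum_mul_sum]
  rw [e]
  exact le_add_of_nonneg_right (sum_nonneg fun j _ => sq_nonneg _)

theorem QQ_low [Fintype V] (hE : Sy E) (hK : NK E) : 13253 * (Fintype.card V : ℤ) ^ 7 ≤ (S7 (QQ E) : ℤ) := by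
  rw [S7_nest]
  push_cast
  calc 13253 * (Fintype.card V : ℤ) ^ 7 = ∑ _a : V, ∑ _b : V, ∑ _c : V, 13253 * (Fintype.card V : ℤ) ^ 4 := by
        simp only [sum_const, card_univ, nsmul_eq_mul]
        ring
    _ ≤ _ := sum_le_sum fun a _ => sum_le_sum fun b _ => sum_le_sum fun c _ => ?_
  have h := sos (P := V × V) 9 13253 (fun p j => hv (kq E a b c p.1 p.2) j)
  rw [Fintype.card_prod] at h
  calc 13253 * (Fintype.card V : ℤ) ^ 4 = 13253 * ((Fintype.card V * Fintype.card V : ℕ) : ℤ) ^ 2 := by push_cast; ring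
    _ ≤ _ := h
    _ = ∑ p : V × V, ∑ q : V × V, (QQ E a b c p.1 p.2 q.1 q.2 : ℤ) := sum_congr rfl fun p _ => sum_congr rfl fun q _ =>
        (QQ_sq hE hK a b c p.1 p.2 q.1 q.2).symm
    _ = _ := by simp only [Fintype.sum_prod_type]

/-- the sum over all the quadruples -/
def S4 [Fintype V] (E : V → V → V → V → ℕ) : ℕ := ∑ a, ∑ b, ∑ c, ∑ d, E a b c d

theorem e5_sum [Fintype V] : ∑ a, ∑ b, ∑ c, ∑ d, ∑ e, e5 E a b c d e = 5 * (Fintype.card V * S4 E) := by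
  have h1 : ∑ a, ∑ b, ∑ c, ∑ d, ∑ _e : V, E a b c d = Fintype.card V * S4 E := by
    unfold S4
    simp only [sum_const, card_univ, smul_eq_mul, mul_sum]
  have h2 : ∑ a, ∑ b, ∑ c, ∑ _d : V, ∑ e, E a b c e = Fintype.card V * S4 E := by
    rw [← h1]
    refine sum_congr rfl fun a _ => sum_congr rfl fun b _ => sum_congr rfl fun c _ => ?_
    rw [sum_comm]
  have h3 : ∑ a, ∑ b, ∑ _c : V, ∑ d, ∑ e, E a b d e = Fintype.card V * S4 E := by
    rw [← h2]
    refine sum_congr rfl fun a _ => sum_congr rfl fun b _ => ?_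
    rw [sum_comm]
  have h4 : ∑ a, ∑ _b : V, ∑ c, ∑ d, ∑ e, E a c d e = Fintype.card V * S4 E := by
    rw [← h3]
    refine sum_congr rfl fun a _ => ?_
    rw [sum_comm]
  have h5 : ∑ _a : V, ∑ b, ∑ c, ∑ d, ∑ e, E b c d e = Fintype.card V * S4 E := by
    rw [← h4, sum_comm]
  unfold e5
  simp only [sum_add_distrib]
  rw [h1, h2, h3, h4, h5]
  ring

theorem PV_low [Fintype V] (hE : Sy E) (hK : NK E) :
    73220 * (Fintype.card V : ℤ) ^ 7 + 30000 * ((Fintype.card V : ℤ) ^ 3 * S4 E) ≤ (S7 (PV E) : ℤ) := by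
  rw [S7_nest]
  push_cast
  calc 73220 * (Fintype.card V : ℤ) ^ 7 + 30000 * ((Fintype.card V : ℤ) ^ 3 * S4 E)
      = ∑ a, ∑ b, ∑ c, ∑ d, ∑ e, (73220 + 6000 * (e5 E a b c d e : ℤ)) * (Fintype.card V : ℤ) ^ 2 := by
        have h : (∑ a, ∑ b, ∑ c, ∑ d, ∑ e, (e5 E a b c d e : ℤ)) = 5 * (Fintype.card V * S4 E) := by
          exact_mod_cast e5_sum (E := E)
        simp only [add_mul, sum_add_distrib, sum_const, card_univ, nsmul_eq_mul, ← sum_mul, ← mul_sum]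
        rw [h]
        ring
    _ ≤ _ := sum_le_sum fun a _ => sum_le_sum fun b _ => sum_le_sum fun c _ => sum_le_sum fun d _ =>
        sum_le_sum fun e _ => ?_
  calc _ ≤ _ := sos (P := V) 4 (73220 + 6000 * (e5 E a b c d e : ℤ)) (fun x r => cT E a b c d e x r)
    _ = _ := sum_congr rfl fun x _ => sum_congr rfl fun y _ => (PV_sq hE hK a b c d e x y).symm

/-- **the main inequality** -/
theorem main_ineq [Fintype V] (hE : Sy E) (hK : NK E) : 630000 * S4 E ≤ 448455 * Fintype.card V ^ 4 := by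
  have h1 : (S7 (W0 E) : ℤ) ≤ 3377640 * (Fintype.card V : ℤ) ^ 7 := by exact_mod_cast W0_up hE hK
  have h2 : (S7 (W0 E) : ℤ) = 21 * S7 (PV E) + 105 * S7 (QQ E) := by exact_mod_cast W0_tot (E := E)
  have h3 := QQ_low hE hK
  have h4 := PV_low hE hK
  rcases Nat.eq_zero_or_pos (Fintype.card V) with h0 | hpos
  · have hem : IsEmpty V := Fintype.card_eq_zero_iff.mp h0
    unfold S4
    rw [Fintype.sum_empty]
    exact Nat.zero_le _
  · have hp : (0 : ℤ) < (Fintype.card V : ℤ) ^ 3 := by positivity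
    have key : (Fintype.card V : ℤ) ^ 3 * (630000 * S4 E) ≤ (Fintype.card V : ℤ) ^ 3 * (448455 * (Fintype.card V : ℤ) ^ 4) := by
      nlinarith [h1, h2, h3, h4]
    have := le_of_mul_le_mul_left key hp
    exact_mod_cast this

end

end Pool.Agent.T2H33.K5
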