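import Pool.Agent.T2H33.K5.Inv
import Pool.Agent.T2H33.K5.Chn

/-! Symmetry of the sum of the frames. -/

set_option autoImplicit false
set_option maxRecDepth 100000
open Finset

namespace Pool.Agent.T2H33.K5

noncomputable section

variable {V : Type} {E : V → V → V → V → ℕ}

theorem Qf_ok : al 24 (fun k => al 24 (fun l => cnd (Nat.beq (Qf k l) (Qf l k))
    (cnd (Nat.beq (Qf (sb 0 1 k) (sb 0 1 l)) (Qf k l)) (Nat.beq (Qf (sb 1 2 k) (sb 1 2 l)) (Qf k l)) false) false)) = true := by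
  decide +kernel

theorem cnd_and {x y : Bool} (h : cnd x y false = true) : x = true ∧ y = true := by
  cases x <;> cases y <;> first | exact ⟨rfl, rfl⟩ | exact absurd h (by decide)

theorem Qf_sym {k l : ℕ} (hk : k < 24) (hl : l < 24) :
    Qf k l = Qf l k ∧ Qf (sb 0 1 k) (sb 0 1 l) = Qf k l ∧ Qf (sb 1 2 k) (sb 1 2 l) = Qf k l := by
  obtain ⟨h1, h2⟩ := cnd_and (al_true (al_true Qf_ok hk) hl)
  obtain ⟨h2, h3⟩ := cnd_and h2
  exact ⟨Nat.eq_of_beq_eq_true h1, Nat.eq_of_beq_eq_true h2, Nat.eq_of_beq_eq_true h3⟩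

theorem kc_lt {s e1 e2 e3 : ℕ} (hs : s < 3) (h1 : e1 < 2) (h2 : e2 < 2) (h3 : e3 < 2) :
    8 * s + (e1 + (2 * e2 + 4 * e3)) < 24 := by omega

theorem kc_sb {s e1 e2 e3 : ℕ} (hs : s < 3) (h1 : e1 < 2) (h2 : e2 < 2) (h3 : e3 < 2) :
    sb 0 1 (8 * s + (e1 + (2 * e2 + 4 * e3))) = 8 * s + (e2 + (2 * e1 + 4 * e3)) ∧
    sb 1 2 (8 * s + (e1 + (2 * e2 + 4 * e3))) = 8 * s + (e1 + (2 * e3 + 4 * e2)) := by
  interval_cases s <;> interval_cases e1 <;> interval_cases e2 <;> interval_cases e3 <;> decide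

theorem kq_lt (hE : Sy E) (a b c x y : V) : kq E a b c x y < 24 := by
  have h1 := hE.lt a b c x
  have h2 := hE.lt a b c y
  exact kc_lt (by omega) (hE.lt _ _ _ _) (hE.lt _ _ _ _) (hE.lt _ _ _ _)

theorem kq_xy (hE : Sy E) (a b c x y : V) : kq E a b c y x = kq E a b c x y := by
  unfold kq
  rw [hE.s3 b c x y, hE.s3 a c x y, hE.s3 a b x y, add_comm (E a b c y)]

theorem kq_ab (hE : Sy E) (a b c x y : V) : kq E b a c x y = sb 0 1 (kq E a b c x y) := by
  have h1 := hE.lt a b c x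
  have h2 := hE.lt a b c y
  unfold kq
  rw [(kc_sb (by omega) (hE.lt _ _ _ _) (hE.lt _ _ _ _) (hE.lt _ _ _ _)).1, hE.s1 a b c x, hE.s1 a b c y, hE.s1 a b x y]

theorem kq_bc (hE : Sy E) (a b c x y : V) : kq E a c b x y = sb 1 2 (kq E a b c x y) := by
  have h1 := hE.lt a b c x
  have h2 := hE.lt a b c y
  unfold kq
  rw [(kc_sb (by omega) (hE.lt _ _ _ _) (hE.lt _ _ _ _) (hE.lt _ _ _ _)).2, hE.s2 a b c x, hE.s2 a b c y, hE.s1 b c x y]

theorem QQ_xy (hE : Sy E) (a b c x y z w : V) : QQ E a b c y x z w = QQ E a b c x y z w := by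
  unfold QQ; rw [kq_xy hE]
theorem QQ_zw (hE : Sy E) (a b c x y z w : V) : QQ E a b c x y w z = QQ E a b c x y z w := by
  unfold QQ; rw [kq_xy hE a b c z w]
theorem QQ_pp (hE : Sy E) (a b c x y z w : V) : QQ E a b c z w x y = QQ E a b c x y z w :=
  (Qf_sym (kq_lt hE _ _ _ _ _) (kq_lt hE _ _ _ _ _)).1
theorem QQ_ab (hE : Sy E) (a b c x y z w : V) : QQ E b a c x y z w = QQ E a b c x y z w := by
  unfold QQ; rw [kq_ab hE a b c x y, kq_ab hE a b c z w]
  exact (Qf_sym (kq_lt hE _ _ _ _ _) (kq_lt hE _ _ _ _ _)).2.1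
theorem QQ_bc (hE : Sy E) (a b c x y z w : V) : QQ E a c b x y z w = QQ E a b c x y z w := by
  unfold QQ; rw [kq_bc hE a b c x y, kq_bc hE a b c z w]
  exact (Qf_sym (kq_lt hE _ _ _ _ _) (kq_lt hE _ _ _ _ _)).2.2

/-- the scalar product for the flags with five labelled vertices -/
def PV (E : V → V → V → V → ℕ) (a b c d e x y : V) : ℕ := pv (kk E a b c d e x) (kk E a b c d e y)

theorem PV_xy (a b c d e x y : V) : PV E a b c d e y x = PV E a b c d e x y := by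
  unfold PV pv
  rw [mul_comm (Td 0 _), mul_comm (Td 1 _), mul_comm (Td 2 _), mul_comm (Td 3 _), add_comm (Td 4 _)]

theorem PV_ab (hE : Sy E) (a b c d e x y : V) : PV E b a c d e x y = PV E a b c d e x y := by
  unfold PV
  rw [← pc01_kk hE a b c d e x, ← pc01_kk hE a b c d e y]
  exact pv_pc (fun r hr => Td_pc01 hr (kk_lt hE _ _ _ _ _ _)) (fun r hr => Td_pc01 hr (kk_lt hE _ _ _ _ _ _))
theorem PV_bc (hE : Sy E) (a b c d e x y : V) : PV E a c b d e x y = PV E a b c d e x y := by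
  unfold PV
  rw [← pc12_kk hE a b c d e x, ← pc12_kk hE a b c d e y]
  exact pv_pc (fun r hr => Td_pc12 hr (kk_lt hE _ _ _ _ _ _)) (fun r hr => Td_pc12 hr (kk_lt hE _ _ _ _ _ _))
theorem PV_cd (hE : Sy E) (a b c d e x y : V) : PV E a b d c e x y = PV E a b c d e x y := by
  unfold PV
  rw [← pc23_kk hE a b c d e x, ← pc23_kk hE a b c d e y]
  exact pv_pc (fun r hr => Td_pc23 hr (kk_lt hE _ _ _ _ _ _)) (fun r hr => Td_pc23 hr (kk_lt hE _ _ _ _ _ _))
theorem PV_de (hE : Sy E) (a b c d e x y : V) : PV E a b c e d x y = PV E a b c d e x y := by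
  unfold PV
  rw [← pc34_kk hE a b c d e x, ← pc34_kk hE a b c d e y]
  exact pv_pc (fun r hr => Td_pc34 hr (kk_lt hE _ _ _ _ _ _)) (fun r hr => Td_pc34 hr (kk_lt hE _ _ _ _ _ _))

theorem YY_PV (a b c d e f z : V) : YY E a b c d e f z = PV E a b c d e f z := rfl

theorem TT_PV (a b c d e f z : V) : TT E a b c d e f z = (PV E a b c d z e f +
    (QQ E b c d e f a z + (QQ E a c d e f b z + (QQ E a b d e f c z + QQ E a b c e f d z)))) +
    (QQ E e f z a b c d + (QQ E e f z a c b d + QQ E e f z a d b c)) := rfl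

theorem YY_ab (hE : Sy E) (a b c d e f z : V) : YY E b a c d e f z = YY E a b c d e f z := PV_ab hE _ _ _ _ _ _ _
theorem YY_bc (hE : Sy E) (a b c d e f z : V) : YY E a c b d e f z = YY E a b c d e f z := PV_bc hE _ _ _ _ _ _ _
theorem YY_cd (hE : Sy E) (a b c d e f z : V) : YY E a b d c e f z = YY E a b c d e f z := PV_cd hE _ _ _ _ _ _ _
theorem YY_de (hE : Sy E) (a b c d e f z : V) : YY E a b c e d f z = YY E a b c d e f z := PV_de hE _ _ _ _ _ _ _

theorem TT_ab (hE : Sy E) (a b c d e f z : V) : TT E b a c d e f z = TT E a b c d e f z := by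
  rw [TT_PV, TT_PV, PV_ab hE a b c d z e f, QQ_ab hE a b d e f c z, QQ_ab hE a b c e f d z,
    QQ_xy hE e f z a b c d, QQ_pp hE e f z a d b c, QQ_pp hE e f z a c b d]
  ring
theorem TT_bc (hE : Sy E) (a b c d e f z : V) : TT E a c b d e f z = TT E a b c d e f z := by
  rw [TT_PV, TT_PV, PV_bc hE a b c d z e f, QQ_ab hE b c d e f a z, QQ_bc hE a b c e f d z,
    QQ_zw hE e f z a d b c]
  ring
theorem TT_cd (hE : Sy E) (a b c d e f z : V) : TT E a b d c e f z = TT E a b c d e f z := by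
  rw [TT_PV, TT_PV, PV_cd hE a b c d z e f, QQ_bc hE b c d e f a z, QQ_bc hE a c d e f b z,
    QQ_zw hE e f z a b c d]
  ring
theorem TT_ef (hE : Sy E) (a b c d e f z : V) : TT E a b c d f e z = TT E a b c d e f z := by
  rw [TT_PV, TT_PV, PV_xy a b c d z e f, QQ_xy hE b c d e f a z, QQ_xy hE a c d e f b z, QQ_xy hE a b d e f c z,
    QQ_xy hE a b c e f d z, QQ_ab hE e f z a b c d, QQ_ab hE e f z a c b d, QQ_ab hE e f z a d b c]

theorem W0_ab (hE : Sy E) (a b c d e f z : V) : W0 E b a c d e f z = W0 E a b c d e f z := by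
  simp only [W0, W1, W2, W3, W4, W5, W6, W7, W8, W9, W10, W11, W12, W13, W14, W15]
  simp only [TT_ab hE, TT_bc hE, TT_cd hE, TT_ef hE, YY_ab hE, YY_bc hE, YY_cd hE, YY_de hE]
  ring
theorem W0_bc (hE : Sy E) (a b c d e f z : V) : W0 E a c b d e f z = W0 E a b c d e f z := by
  simp only [W0, W1, W2, W3, W4, W5, W6, W7, W8, W9, W10, W11, W12, W13, W14, W15]
  simp only [TT_ab hE, TT_bc hE, TT_cd hE, TT_ef hE, YY_ab hE, YY_bc hE, YY_cd hE, YY_de hE]
  ring
theorem W0_cd (hE : Sy E) (a b c d e f z : V) : W0 E a b d c e f z = W0 E a b c d e f z := by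
  simp only [W0, W1, W2, W3, W4, W5, W6, W7, W8, W9, W10, W11, W12, W13, W14, W15]
  simp only [TT_ab hE, TT_bc hE, TT_cd hE, TT_ef hE, YY_ab hE, YY_bc hE, YY_cd hE, YY_de hE]
  ring
theorem W0_de (hE : Sy E) (a b c d e f z : V) : W0 E a b c e d f z = W0 E a b c d e f z := by
  simp only [W0, W1, W2, W3, W4, W5, W6, W7, W8, W9, W10, W11, W12, W13, W14, W15]
  simp only [TT_ab hE, TT_bc hE, TT_cd hE, TT_ef hE, YY_ab hE, YY_bc hE, YY_cd hE, YY_de hE]
  ring
theorem W0_ef (hE : Sy E) (a b c d e f z : V) : W0 E a b c d f e z = W0 E a b c d e f z := by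
  simp only [W0, W1, W2, W3, W4, W5, W6, W7, W8, W9, W10, W11, W12, W13, W14, W15]
  simp only [TT_ab hE, TT_bc hE, TT_cd hE, TT_ef hE, YY_ab hE, YY_bc hE, YY_cd hE, YY_de hE]
  ring

end

end Pool.Agent.T2H33.K5
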