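import Pool.Agent.T2H33.K5.D0
import Pool.Agent.T2H33.K5.D1
import Pool.Agent.T2H33.K5.D2
import Pool.Agent.T2H33.K5.D3
import Pool.Agent.T2H33.K5.D4
import Pool.Agent.T2H33.K5.D5
import Pool.Agent.T2H33.K5.D6
import Pool.Agent.T2H33.K5.D7

/-! The tables of the certificate. -/

set_option autoImplicit false

namespace Pool.Agent.T2H33.K5

noncomputable section

/-- the values of the flags with five labelled vertices -/
def DT : Tr := Tr.n (Tr.n (Tr.n (Tr.n (Tr.n (Tr.n (Tr.l D00) (Tr.l D32)) (Tr.n (Tr.l D16) (Tr.l D48))) (Tr.n (Tr.n (Tr.l D08) (Tr.l D40)) (Tr.n (Tr.l D24) (Tr.l D56)))) (Tr.n (Tr.n (Tr.n (Tr.l D04) (Tr.l D36)) (Tr.n (Tr.l D20) (Tr.l D52))) (Tr.n (Tr.n (Tr.l D12) (Tr.l D44)) (Tr.n (Tr.l D28) (Tr.l D60))))) (Tr.n (Tr.n (Tr.n (Tr.n (Tr.l D02) (Tr.l D34)) (Tr.n (Tr.l D18) (Tr.l D50))) (Tr.n (Tr.n (Tr.l D10) (Tr.l D42)) (Tr.n (Tr.l D26) (Tr.l D58)))) (Tr.n (Tr.n (Tr.n (Tr.l D06) (Tr.l D38)) (Tr.n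 (Tr.l D22) (Tr.l D54))) (Tr.n (Tr.n (Tr.l D14) (Tr.l D46)) (Tr.n (Tr.l D30) (Tr.l D62)))))) (Tr.n (Tr.n (Tr.n (Tr.n (Tr.n (Tr.l D01) (Tr.l D33)) (Tr.n (Tr.l D17) (Tr.l D49))) (Tr.n (Tr.n (Tr.l D09) (Tr.l D41)) (Tr.n (Tr.l D25) (Tr.l D57)))) (Tr.n (Tr.n (Tr.n (Tr.l D05) (Tr.l D37)) (Tr.n (Tr.l D21) (Tr.l D53))) (Tr.n (Tr.n (Tr.l D13) (Tr.l D45)) (Tr.n (Tr.l D29) (Tr.l D61))))) (Tr.n (Tr.n (Tr.n (Tr.n (Tr.l D03) (Tr.l D35)) (Tr.n (Tr.l D19) (Tr.l D51))) (Tr.n (Tr.n (Tr.l D11) (Tr.l D43)) (Tr.n (Tr.l D27) (Tr.l D59)))) (Tr.n (Tr.n (Tr.n (Tr.l D07) (Tr.l D39)) (Tr.n (Tr.l D23) (Tr.l D55))) (Tr.n (Tr.n (Tr.l D15) (Tr.l D47)) (Tr.n (Tr.l D31) (Tr.l D63))))))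

/-- the scalar products of the flags with three labelled vertices -/
def QT : ℕ := 0x3df833cf3c0e33cf3c0e30b343802de53a97306e3d4e306e3d4e273136c329c6315025f5352d25f5352d2a6b3823000033cf3df83c0e33cf30b33c0e43802de5306e3a973d4e306e27313d4e36c329c625f53150352d25f52a6b352d382300003c0e3c0e439830b336e736e74c172bf43778377848752c1d2fbe2fbe3a2e25c1288e288e39171bdd2d112d113867000033cf33cf30b33df83c0e3c0e43802de5306e306e27313a973d4e3d4e36c329c625f525f52a6b3150352d352d382300003c0e30b336e73c0e439836e74c172bf437782c1d2fbe377848752fbe3a2e25c1288e1bdd2d11288e39172d113867000030b33c0e36e73c0e36e743984c172bf42c1d37782fbe37782fbe48753a2e25c11bdd288e2d11288e2d11391738670000438043804c1743804c174c178536188b339d339d4127339d4127412747c103a4000000002a2f00002a2f2a2f450b00002de52de52bf42de52bf42bf4188b3dda33b333b32ff733b32ff72ff72e7844f9451f451f377f451f377f377f2c5b00003a97306e3778306e37782c1d339d33b33a8f30663b0830663b0824eb338f33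b93b6f3014374f3014374f2c8d33f10000306e3a973778306e2c1d3778339d33b330663a8f3b08306624eb3b08338f33b930143b6f374f30142c8d374f33f100003d4e3d4e487527312fbe2fbe41272ff73b083b08568324eb2662266237ff2c9f3388338842291ad12abf2abf357d0000306e306e2c1d3a9737783778339d33b33066306624eb3a8f3b083b08338f33b9301430142c8d3b6f374f374f33f100003d4e27312fbe3d4e48752fbe41272ff73b0824eb26623b085683266237ff2c9f33881ad12abf338842292abf357d000027313d4e2fbe3d4e2fbe487541272ff724eb3b0826623b082662568337ff2c9f1ad133882abf33882abf4229357d000036c336c33a2e36c33a2e3a2e47c12e78338f338f37ff338f37ff37ff3a9e298727212721322727213227322735b3000029c629c625c129c625c125c103a444f933b933b92c9f33b92c9f2c9f2987517a526a526a3a07526a3a073a0727b30000315025f5288e25f5288e1bdd0000451f3b6f30143388301433881ad12721526a5d2450733de550733de531df28b7000025f53150288e25f51bdd288e0000451f30143b6f338830141ad133882721526a50735d243de5507331df3de528b70000352d352d39172a6b2d112d112a2f377f374f374f42292c8d2abf2abf32273a073de53de53cc531df3161316130dd000025f525f51bdd3150288e288e0000451f301430141ad13b6f338833882721526a5073507331df5d243de53de528b70000352d2a6b2d11352d39172d112a2f377f374f2c8d2abf374f42292abf32273a073de531df31613de53cc5316130dd00002a6b352d2d11352d2d1139172a2f377f2c8d374f2abf374f2abf422932273a0731df3de531613de531613cc530dd0000382338233867382338673867450b2c5b33f133f1357d33f1357d357d35b327b328b728b730dd28b730dd30dd3a2d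

end

end Pool.Agent.T2H33.K5
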