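import Pool.Agent.T2H33.K5.Blk
import Pool.Agent.T2H33.K5.Fx
import Pool.Agent.T2H33.K5.Ker2

/-! Semantics of the vectors of the frames. -/

set_option autoImplicit false
set_option maxRecDepth 100000
set_option exponentiation.threshold 200000
set_option linter.unusedSimpArgs false
open Finset

namespace Pool.Agent.T2H33.K5

noncomputable section

/-- class of two vertices -/
def kc (s1 s2 e1 e2 e3 : ℕ) : ℕ := 8 * (s1 + s2) + (e1 + (2 * e2 + 4 * e3))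

def x30b (e1 e2 w i : ℕ) : ℕ := Qf (kc (bt 3 i) (bt 4 i) (bt 0 i) (bt 6 i) e1) (kc (bt 5 i) (bt 12 i) w (bt 11 i) e2)
def x31b (e1 e2 w i : ℕ) : ℕ := Qf (kc (bt 3 i) (bt 5 i) (bt 1 i) (bt 7 i) e1) (kc (bt 4 i) (bt 12 i) w (bt 10 i) e2)
def x32b (e1 e2 w i : ℕ) : ℕ := Qf (kc (bt 3 i) (bt 12 i) (bt 2 i) (bt 8 i) e1) (kc (bt 4 i) (bt 5 i) w (bt 9 i) e2)
def x30c (e1 l i : ℕ) : ℕ := Qf (kc (bt 5 i) (bt 11 i) (bt 0 i) (bt 6 i) e1) l
def x31c (e1 e2 w2 w3 i : ℕ) : ℕ := Qf (kc (bt 5 i) w2 (bt 1 i) (bt 7 i) e1) (kc (bt 11 i) w3 (bt 4 i) (bt 10 i) e2)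
def x32c (e1 e2 w2 w3 i : ℕ) : ℕ := Qf (kc (bt 5 i) w3 (bt 2 i) (bt 8 i) e1) (kc (bt 11 i) w2 (bt 3 i) (bt 9 i) e2)

theorem xca_eq (e1 l : ℕ) : xca e1 l = enc 25 12 (x30c e1 l) := by
  refine asm_eq 25 2145 12 _ ?_
  intro k hk hkm x hx
  have h : ∀ j, j ≠ k → bt j (x + 2 ^ k) = bt j x := fun j hj => bt_add_pow hx hj
  clear hx
  interval_cases k <;> first
    | exact absurd hkm (by decide +kernel)
    | simp only [x30c, h 0 (by norm_num), h 5 (by norm_num), h 6 (by norm_num), h 11 (by norm_num)]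

theorem asm30b (e1 e2 w : ℕ) : asm 25 6265 13 (x30b e1 e2 w) = enc 25 13 (x30b e1 e2 w) := by
  refine asm_eq 25 6265 13 _ ?_
  intro k hk hkm x hx
  have h : ∀ j, j ≠ k → bt j (x + 2 ^ k) = bt j x := fun j hj => bt_add_pow hx hj
  clear hx
  interval_cases k <;> first
    | exact absurd hkm (by decide +kernel)
    | simp only [x30b, h 0 (by norm_num), h 3 (by norm_num), h 4 (by norm_num), h 5 (by norm_num), h 6 (by norm_num), h 11 (by norm_num), h 12 (by norm_num)]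

theorem asm31b (e1 e2 w : ℕ) : asm 25 5306 13 (x31b e1 e2 w) = enc 25 13 (x31b e1 e2 w) := by
  refine asm_eq 25 5306 13 _ ?_
  intro k hk hkm x hx
  have h : ∀ j, j ≠ k → bt j (x + 2 ^ k) = bt j x := fun j hj => bt_add_pow hx hj
  clear hx
  interval_cases k <;> first
    | exact absurd hkm (by decide +kernel)
    | simp only [x31b, h 1 (by norm_num), h 3 (by norm_num), h 4 (by norm_num), h 5 (by norm_num), h 7 (by norm_num), h 10 (by norm_num), h 12 (by norm_num)]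

theorem asm32b (e1 e2 w : ℕ) : asm 25 4924 13 (x32b e1 e2 w) = enc 25 13 (x32b e1 e2 w) := by
  refine asm_eq 25 4924 13 _ ?_
  intro k hk hkm x hx
  have h : ∀ j, j ≠ k → bt j (x + 2 ^ k) = bt j x := fun j hj => bt_add_pow hx hj
  clear hx
  interval_cases k <;> first
    | exact absurd hkm (by decide +kernel)
    | simp only [x32b, h 2 (by norm_num), h 3 (by norm_num), h 4 (by norm_num), h 5 (by norm_num), h 8 (by norm_num), h 9 (by norm_num), h 12 (by norm_num)]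

theorem asm31c (e1 e2 w2 w3 : ℕ) : asm 25 3250 12 (x31c e1 e2 w2 w3) = enc 25 12 (x31c e1 e2 w2 w3) := by
  refine asm_eq 25 3250 12 _ ?_
  intro k hk hkm x hx
  have h : ∀ j, j ≠ k → bt j (x + 2 ^ k) = bt j x := fun j hj => bt_add_pow hx hj
  clear hx
  interval_cases k <;> first
    | exact absurd hkm (by decide +kernel)
    | simp only [x31c, h 1 (by norm_num), h 4 (by norm_num), h 5 (by norm_num), h 7 (by norm_num), h 10 (by norm_num), h 11 (by norm_num)]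

theorem asm32c (e1 e2 w2 w3 : ℕ) : asm 25 2860 12 (x32c e1 e2 w2 w3) = enc 25 12 (x32c e1 e2 w2 w3) := by
  refine asm_eq 25 2860 12 _ ?_
  intro k hk hkm x hx
  have h : ∀ j, j ≠ k → bt j (x + 2 ^ k) = bt j x := fun j hj => bt_add_pow hx hj
  clear hx
  interval_cases k <;> first
    | exact absurd hkm (by decide +kernel)
    | simp only [x32c, h 2 (by norm_num), h 3 (by norm_num), h 5 (by norm_num), h 8 (by norm_num), h 9 (by norm_num), h 11 (by norm_num)]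

theorem bits3 {e1 e2 w : ℕ} (h1 : e1 < 2) (h2 : e2 < 2) (h3 : w < 2) :
    bt 0 (e1 + (2 * e2 + 4 * w)) = e1 ∧ bt 1 (e1 + (2 * e2 + 4 * w)) = e2 ∧ bt 2 (e1 + (2 * e2 + 4 * w)) = w := by
  interval_cases e1 <;> interval_cases e2 <;> interval_cases w <;> decide

theorem bits4 {e1 e2 w v : ℕ} (h1 : e1 < 2) (h2 : e2 < 2) (h3 : w < 2) (h4 : v < 2) :
    bt 0 (e1 + (2 * e2 + (4 * w + 8 * v))) = e1 ∧ bt 1 (e1 + (2 * e2 + (4 * w + 8 * v))) = e2 ∧
      bt 2 (e1 + (2 * e2 + (4 * w + 8 * v))) = w ∧ bt 3 (e1 + (2 * e2 + (4 * w + 8 * v))) = v := by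
  interval_cases e1 <;> interval_cases e2 <;> interval_cases w <;> interval_cases v <;> decide

theorem xba_ok : al 8 (fun k => st (fun k => Nat.beq (get XBaT k) (asm 25 6265 13 (x30b (bt 0 k) (bt 1 k) (bt 2 k)))) k) = true := by
  decide +kernel

theorem xba_eq {e1 e2 w : ℕ} (h1 : e1 < 2) (h2 : e2 < 2) (h3 : w < 2) : xba e1 e2 w = enc 25 13 (x30b e1 e2 w) := by
  have h := al_true xba_ok (show e1 + (2 * e2 + 4 * w) < 8 by omega)
  rw [st_eq] at h
  have h' := Nat.eq_of_beq_eq_true h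
  obtain ⟨b0, b1, b2⟩ := bits3 h1 h2 h3
  rw [b0, b1, b2] at h'
  rw [← asm30b, ← h']
  rfl

theorem xbb_ok : al 8 (fun k => st (fun k => Nat.beq (get XBbT k) (asm 25 5306 13 (x31b (bt 0 k) (bt 1 k) (bt 2 k)))) k) = true := by
  decide +kernel

theorem xbb_eq {e1 e2 w : ℕ} (h1 : e1 < 2) (h2 : e2 < 2) (h3 : w < 2) : xbb e1 e2 w = enc 25 13 (x31b e1 e2 w) := by
  have h := al_true xbb_ok (show e1 + (2 * e2 + 4 * w) < 8 by omega)
  rw [st_eq] at h
  have h' := Nat.eq_of_beq_eq_true h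
  obtain ⟨b0, b1, b2⟩ := bits3 h1 h2 h3
  rw [b0, b1, b2] at h'
  rw [← asm31b, ← h']
  rfl

theorem xbc_ok : al 8 (fun k => st (fun k => Nat.beq (get XBcT k) (asm 25 4924 13 (x32b (bt 0 k) (bt 1 k) (bt 2 k)))) k) = true := by
  decide +kernel

theorem xbc_eq {e1 e2 w : ℕ} (h1 : e1 < 2) (h2 : e2 < 2) (h3 : w < 2) : xbc e1 e2 w = enc 25 13 (x32b e1 e2 w) := by
  have h := al_true xbc_ok (show e1 + (2 * e2 + 4 * w) < 8 by omega)
  rw [st_eq] at h
  have h' := Nat.eq_of_beq_eq_true h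
  obtain ⟨b0, b1, b2⟩ := bits3 h1 h2 h3
  rw [b0, b1, b2] at h'
  rw [← asm32b, ← h']
  rfl

theorem xcb_ok : al 16 (fun k => st (fun k => Nat.beq (get XCbT k) (asm 25 3250 12 (x31c (bt 0 k) (bt 1 k) (bt 2 k) (bt 3 k)))) k) = true := by
  decide +kernel

theorem xcb_eq {e1 e2 w2 w3 : ℕ} (h1 : e1 < 2) (h2 : e2 < 2) (h3 : w2 < 2) (h4 : w3 < 2) :
    xcb e1 e2 w2 w3 = enc 25 12 (x31c e1 e2 w2 w3) := by
  have h := al_true xcb_ok (show e1 + (2 * e2 + (4 * w2 + 8 * w3)) < 16 by omega)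
  rw [st_eq] at h
  have h' := Nat.eq_of_beq_eq_true h
  obtain ⟨b0, b1, b2, b3⟩ := bits4 h1 h2 h3 h4
  rw [b0, b1, b2, b3] at h'
  rw [← asm31c, ← h']
  rfl

theorem xcc_ok : al 16 (fun k => st (fun k => Nat.beq (get XCcT k) (asm 25 2860 12 (x32c (bt 0 k) (bt 1 k) (bt 2 k) (bt 3 k)))) k) = true := by
  decide +kernel

theorem xcc_eq {e1 e2 w2 w3 : ℕ} (h1 : e1 < 2) (h2 : e2 < 2) (h3 : w2 < 2) (h4 : w3 < 2) :
    xcc e1 e2 w2 w3 = enc 25 12 (x32c e1 e2 w2 w3) := by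
  have h := al_true xcc_ok (show e1 + (2 * e2 + (4 * w2 + 8 * w3)) < 16 by omega)
  rw [st_eq] at h
  have h' := Nat.eq_of_beq_eq_true h
  obtain ⟨b0, b1, b2, b3⟩ := bits4 h1 h2 h3 h4
  rw [b0, b1, b2, b3] at h'
  rw [← asm32c, ← h']
  rfl

/-- constant vectors -/
theorem constv (s c : ℕ) (f : ℕ → ℕ) (h0 : f 0 = c) (hs : ∀ n, f (n + 1) = d2 (s * 2 ^ n) (f n)) (n : ℕ) :
    f n = enc s n (fun _ => c) := by
  induction n with
  | zero => rw [h0, enc_zero]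
  | succ n ih => rw [hs, ih, enc_const_succ]

theorem ONE12_eq : ONE12 = enc 25 12 (fun _ => 1) := by
  have h0 : 1 = enc 25 0 (fun _ => 1) := (enc_zero 25 (fun _ => 1)).symm
  have h1 := (congrArg (d2 25) h0).trans (enc_const_succ 25 0 (1))
  have h2 := (congrArg (d2 50) h1).trans (enc_const_succ 25 1 (1))
  have h3 := (congrArg (d2 100) h2).trans (enc_const_succ 25 2 (1))
  have h4 := (congrArg (d2 200) h3).trans (enc_const_succ 25 3 (1))
  have h5 := (congrArg (d2 400) h4).trans (enc_const_succ 25 4 (1))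
  have h6 := (congrArg (d2 800) h5).trans (enc_const_succ 25 5 (1))
  have h7 := (congrArg (d2 1600) h6).trans (enc_const_succ 25 6 (1))
  have h8 := (congrArg (d2 3200) h7).trans (enc_const_succ 25 7 (1))
  have h9 := (congrArg (d2 6400) h8).trans (enc_const_succ 25 8 (1))
  have h10 := (congrArg (d2 12800) h9).trans (enc_const_succ 25 9 (1))
  have h11 := (congrArg (d2 25600) h10).trans (enc_const_succ 25 10 (1))
  have h12 := (congrArg (d2 51200) h11).trans (enc_const_succ 25 11 (1))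
  exact h12

theorem FM3_eq : FM3 = enc 400 8 (fun _ => 2 ^ 200 - 1) := by
  have h0 : 2 ^ 200 - 1 = enc 400 0 (fun _ => 2 ^ 200 - 1) := (enc_zero 400 (fun _ => 2 ^ 200 - 1)).symm
  have h1 := (congrArg (d2 400) h0).trans (enc_const_succ 400 0 (2 ^ 200 - 1))
  have h2 := (congrArg (d2 800) h1).trans (enc_const_succ 400 1 (2 ^ 200 - 1))
  have h3 := (congrArg (d2 1600) h2).trans (enc_const_succ 400 2 (2 ^ 200 - 1))
  have h4 := (congrArg (d2 3200) h3).trans (enc_const_succ 400 3 (2 ^ 200 - 1))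
  have h5 := (congrArg (d2 6400) h4).trans (enc_const_succ 400 4 (2 ^ 200 - 1))
  have h6 := (congrArg (d2 12800) h5).trans (enc_const_succ 400 5 (2 ^ 200 - 1))
  have h7 := (congrArg (d2 25600) h6).trans (enc_const_succ 400 6 (2 ^ 200 - 1))
  have h8 := (congrArg (d2 51200) h7).trans (enc_const_succ 400 7 (2 ^ 200 - 1))
  exact h8

theorem FM4_eq : FM4 = enc 800 7 (fun _ => 2 ^ 400 - 1) := by
  have h0 : 2 ^ 400 - 1 = enc 800 0 (fun _ => 2 ^ 400 - 1) := (enc_zero 800 (fun _ => 2 ^ 400 - 1)).symm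
  have h1 := (congrArg (d2 800) h0).trans (enc_const_succ 800 0 (2 ^ 400 - 1))
  have h2 := (congrArg (d2 1600) h1).trans (enc_const_succ 800 1 (2 ^ 400 - 1))
  have h3 := (congrArg (d2 3200) h2).trans (enc_const_succ 800 2 (2 ^ 400 - 1))
  have h4 := (congrArg (d2 6400) h3).trans (enc_const_succ 800 3 (2 ^ 400 - 1))
  have h5 := (congrArg (d2 12800) h4).trans (enc_const_succ 800 4 (2 ^ 400 - 1))
  have h6 := (congrArg (d2 25600) h5).trans (enc_const_succ 800 5 (2 ^ 400 - 1))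
  have h7 := (congrArg (d2 51200) h6).trans (enc_const_succ 800 6 (2 ^ 400 - 1))
  exact h7

theorem FM5_eq : FM5 = enc 1600 6 (fun _ => 2 ^ 800 - 1) := by
  have h0 : 2 ^ 800 - 1 = enc 1600 0 (fun _ => 2 ^ 800 - 1) := (enc_zero 1600 (fun _ => 2 ^ 800 - 1)).symm
  have h1 := (congrArg (d2 1600) h0).trans (enc_const_succ 1600 0 (2 ^ 800 - 1))
  have h2 := (congrArg (d2 3200) h1).trans (enc_const_succ 1600 1 (2 ^ 800 - 1))
  have h3 := (congrArg (d2 6400) h2).trans (enc_const_succ 1600 2 (2 ^ 800 - 1))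
  have h4 := (congrArg (d2 12800) h3).trans (enc_const_succ 1600 3 (2 ^ 800 - 1))
  have h5 := (congrArg (d2 25600) h4).trans (enc_const_succ 1600 4 (2 ^ 800 - 1))
  have h6 := (congrArg (d2 51200) h5).trans (enc_const_succ 1600 5 (2 ^ 800 - 1))
  exact h6

theorem FM11_eq : FM11 = enc 102400 0 (fun _ => 2 ^ 51200 - 1) := (enc_zero 102400 (fun _ => 2 ^ 51200 - 1)).symm

theorem fx3_eq {w : ℕ} (hw : w < 2) {F : ℕ → ℕ} (hF : ∀ i < 2 ^ 12, F i < 2 ^ 25) :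
    fx3 w (enc 25 12 F) = enc 25 12 (fun i => F (ins 3 w i)) := by
  unfold fx3
  rw [FM3_eq]
  exact fx_enc (s := 25) (p := 3) (N := 8) (by norm_num) hw hF

theorem fx4_eq {w : ℕ} (hw : w < 2) {F : ℕ → ℕ} (hF : ∀ i < 2 ^ 12, F i < 2 ^ 25) :
    fx4 w (enc 25 12 F) = enc 25 12 (fun i => F (ins 4 w i)) := by
  unfold fx4
  rw [FM4_eq]
  exact fx_enc (s := 25) (p := 4) (N := 7) (by norm_num) hw hF

theorem fx5_eq {w : ℕ} (hw : w < 2) {F : ℕ → ℕ} (hF : ∀ i < 2 ^ 12, F i < 2 ^ 25) :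
    fx5 w (enc 25 12 F) = enc 25 12 (fun i => F (ins 5 w i)) := by
  unfold fx5
  rw [FM5_eq]
  exact fx_enc (s := 25) (p := 5) (N := 6) (by norm_num) hw hF

theorem fx11_eq {w : ℕ} (hw : w < 2) {F : ℕ → ℕ} (hF : ∀ i < 2 ^ 12, F i < 2 ^ 25) :
    fx11 w (enc 25 12 F) = enc 25 12 (fun i => F (ins 11 w i)) := by
  unfold fx11
  rw [FM11_eq]
  exact fx_enc (s := 25) (p := 11) (N := 0) (by norm_num) hw hF

/-- repetition over the three highest bits -/
theorem r3_eq (f : ℕ → ℕ) : r3 (enc 25 13 f) = enc 25 16 (fun i => f (i % 8192)) := by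
  have h2 : d2 204800 (enc 25 13 f) = enc 25 14 (fun i => f (i % 2 ^ 13)) := enc_rep 25 13 _
  have h3 : d2 409600 (enc 25 14 (fun i => f (i % 2 ^ 13))) = enc 25 15 (fun i => f (i % 2 ^ 14 % 2 ^ 13)) := enc_rep 25 14 _
  have h4 : d2 819200 (enc 25 15 (fun i => f (i % 2 ^ 14 % 2 ^ 13))) = enc 25 16 (fun i => f (i % 2 ^ 15 % 2 ^ 14 % 2 ^ 13)) := enc_rep 25 15 _
  unfold r3
  rw [h2, h3, h4]
  refine enc_congr fun i _ => ?_
  rw [Nat.mod_mod_of_dvd _ (pow_dvd_pow 2 (by norm_num : 14 ≤ 15)), Nat.mod_mod_of_dvd _ (pow_dvd_pow 2 (by norm_num : 13 ≤ 14)),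
    show (2 : ℕ) ^ 13 = 8192 from by norm_num]

theorem r4_eq (f : ℕ → ℕ) : r4 (enc 25 12 f) = enc 25 16 (fun i => f (i % 4096)) := by
  have h1 : d2 102400 (enc 25 12 f) = enc 25 13 (fun i => f (i % 2 ^ 12)) := enc_rep 25 12 f
  have h2 : d2 204800 (enc 25 13 (fun i => f (i % 2 ^ 12))) = enc 25 14 (fun i => f (i % 2 ^ 13 % 2 ^ 12)) := enc_rep 25 13 _
  have h3 : d2 409600 (enc 25 14 (fun i => f (i % 2 ^ 13 % 2 ^ 12))) = enc 25 15 (fun i => f (i % 2 ^ 14 % 2 ^ 13 % 2 ^ 12)) := enc_rep 25 14 _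
  have h4 : d2 819200 (enc 25 15 (fun i => f (i % 2 ^ 14 % 2 ^ 13 % 2 ^ 12))) = enc 25 16 (fun i => f (i % 2 ^ 15 % 2 ^ 14 % 2 ^ 13 % 2 ^ 12)) := enc_rep 25 15 _
  unfold r4
  rw [h1, h2, h3, h4]
  refine enc_congr fun i _ => ?_
  rw [Nat.mod_mod_of_dvd _ (pow_dvd_pow 2 (by norm_num : 14 ≤ 15)), Nat.mod_mod_of_dvd _ (pow_dvd_pow 2 (by norm_num : 13 ≤ 14)),
    Nat.mod_mod_of_dvd _ (pow_dvd_pow 2 (by norm_num : 12 ≤ 13)), show (2 : ℕ) ^ 12 = 4096 from by norm_num]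

theorem rep13 (f : ℕ → ℕ) : d2 102400 (enc 25 12 f) = enc 25 13 (fun i => f (i % 4096)) := enc_rep 25 12 f

/-- assembly over the three highest bits -/
theorem asm3 (blk : ℕ → ℕ) (G : ℕ → ℕ → ℕ) (h : ∀ c < 8, blk c = enc 25 13 (G c)) :
    asm 204800 7 3 blk = enc 25 16 (fun i => G (i / 8192) (i % 8192)) := by
  have e1 : asm 204800 7 3 blk = enc 204800 3 blk := asm_eq 204800 7 3 blk (by
    intro k hk hkm
    interval_cases k <;> exact absurd hkm (by decide +kernel))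
  rw [e1, enc_congr (g := fun j => enc 25 13 (G j)) (fun c hc => h c hc)]
  exact enc_nest 25 13 G 3

/-- assembly over the four highest bits -/
theorem asm4 (blk : ℕ → ℕ) (G : ℕ → ℕ → ℕ) (h : ∀ c < 16, blk c = enc 25 12 (G c)) :
    asm 102400 15 4 blk = enc 25 16 (fun i => G (i / 4096) (i % 4096)) := by
  have e1 : asm 102400 15 4 blk = enc 102400 4 blk := asm_eq 102400 15 4 blk (by
    intro k hk hkm
    interval_cases k <;> exact absurd hkm (by decide +kernel))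
  rw [e1, enc_congr (g := fun j => enc 25 12 (G j)) (fun c hc => h c hc)]
  exact enc_nest 25 12 G 4

/-- values of the blocks -/
def ZF (m c t : ℕ) : ℕ := pv (mx (m / 16384) c (m / 1024 % 16) (t / 64)) (mx (m / 16384) c (m / 64 % 16) (t % 64)) + X4 m c
def YF (m c t : ℕ) : ℕ := pv m (mx (m / 16384) (m / 1024 % 16) c (t / 64))
def ZFY (m c t : ℕ) : ℕ := (pv (mx (m / 16384) c (m / 1024 % 16) (t / 64)) (mx (m / 16384) c (m / 64 % 16) (t % 64)) + YF m c t) + X4 m c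

theorem X4ONE (x : ℕ) : Nat.mul x ONE12 = enc 25 12 (fun _ => x) := by
  rw [ONE12_eq]
  show x * enc 25 12 (fun _ => 1) = _
  rw [mul_comm, enc_mulc]
  exact enc_congr fun _ _ => one_mul _

theorem Zb_eq {m c : ℕ} (hm : m < 2 ^ 15) (hc : c < 16) : Zb m c = enc 25 12 (ZF m c) := by
  have hg : m / 16384 < 2 := Nat.div_lt_of_lt_mul hm
  have e1 : X1c m c = enc 25 12 (fun t => pv (mx (m / 16384) c (m / 1024 % 16) (t / 64)) (mx (m / 16384) c (m / 64 % 16) (t % 64))) :=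
    X1b_eq hg hc (Nat.mod_lt _ (by norm_num)) (Nat.mod_lt _ (by norm_num))
  unfold Zb
  rw [e1, X4ONE]
  exact enc_add _ _ _ _

theorem ZbY_eq {m c : ℕ} (hm : m < 2 ^ 15) (hc : c < 16) : ZbY m c = enc 25 12 (ZFY m c) := by
  have hg : m / 16384 < 2 := Nat.div_lt_of_lt_mul hm
  have e1 : X1c m c = enc 25 12 (fun t => pv (mx (m / 16384) c (m / 1024 % 16) (t / 64)) (mx (m / 16384) c (m / 64 % 16) (t % 64))) :=
    X1b_eq hg hc (Nat.mod_lt _ (by norm_num)) (Nat.mod_lt _ (by norm_num))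
  have a0 : ∀ f g : ℕ → ℕ, Nat.add (enc 25 12 f) (enc 25 12 g) = enc 25 12 (fun i => f i + g i) := fun f g => enc_add _ _ _ _
  unfold ZbY
  rw [e1, Yb_eq hm hc, X4ONE, a0, a0]
  rfl

theorem Qf_le (k l : ℕ) : Qf k l ≤ 65535 := Nat.and_le_right

end

end Pool.Agent.T2H33.K5
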